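import Pool.Agent.Lib.Circ.MatchPoly2

/-!
# Module B: the Bethe (Schrijver) lower bound for permanents, edge by edge

Proof. (1) `two_var`: elementary lemma.
(2) For a set `E'` of pairs let `B^{E'}` be `B` restricted to `E'`. Claim by induction on `E'`
(starting from `∅`, adding one pair at a time): for all `y z > 0` (functions on pairs)
`K(E') * ∏_{e ∉ E'} (y e * z e / P e)^(P e) ≤ F B^{E'} (r y) (c z) univ univ`, where
`r y i = Σ_{j, (i,j) ∉ E'} B i j * y (i,j)`, `c z j = Σ_{i, (i,j) ∉ E'} z (i,j)`, and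
`K(∅) = ∏_e (B e / P e)^(P e)`, `K(E' ∪ e) = (1 - P e)^(1 - P e) K(E')`.
Start: `F 0 r c = ∏ r ∏ c` and the weighted AM-GM inequality in every row and column
(`Real.geom_mean_le_arith_mean_weighted`; pairs with `P e = 0` contribute a nonnegative term).
Step: fix all variables except those of `e = (i,j)`; by `F_addRow`, `F_addCol`
`F B^{E'} (r y) (c z) = a + b y_e + c' z_e + d y_e z_e` with `a = F B^{E'} ..`,
`d = B e * F B^{E'} .. (erase i) (erase j)`, `b c' ≤ a d` by `F_corr`, and
`F B^{E' ∪ e} = a + d` by `F_addEntry`. Apply `two_var`.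
At the end (`E' = univ`) `r = c = 0`.
(3) `per_lower`: `B = V + p`, `P = (1-p) V + p` on the diagonal and `(1-p) V` off it, using
`(1-x) log (1-x) ≥ -x`.
-/

set_option autoImplicit false

open MeasureTheory ProbabilityTheory Filter Matrix Finset

namespace Pool.Agent.Circ

/-- The lemma with positive coefficients. -/
theorem bethe_pos {a b c d α K : ℝ} (ha : 0 < a) (hb : 0 < b) (hc : 0 < c) (hd : 0 < d)
    (h : b * c ≤ a * d) (hα0 : 0 < α) (hα1 : α < 1)
    (hle : ∀ y z : ℝ, 0 < y → 0 < z → K * (y * z / α) ^ α ≤ a + b * y + c * z + d * (y * z)) :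
    (1 - α) ^ (1 - α) * K ≤ a + d := by
  have hβ : 0 < 1 - α := by linarith
  obtain ⟨sa, hsa0, hsa⟩ : ∃ s : ℝ, 0 < s ∧ s * s = a :=
    ⟨Real.sqrt a, Real.sqrt_pos.2 ha, Real.mul_self_sqrt ha.le⟩
  obtain ⟨sd, hsd0, hsd⟩ : ∃ s : ℝ, 0 < s ∧ s * s = d :=
    ⟨Real.sqrt d, Real.sqrt_pos.2 hd, Real.mul_self_sqrt hd.le⟩
  obtain ⟨sb, hsb0, hsb⟩ : ∃ s : ℝ, 0 < s ∧ s * s = b :=
    ⟨Real.sqrt b, Real.sqrt_pos.2 hb, Real.mul_self_sqrt hb.le⟩
  obtain ⟨sc, hsc0, hsc⟩ : ∃ s : ℝ, 0 < s ∧ s * s = c :=
    ⟨Real.sqrt c, Real.sqrt_pos.2 hc, Real.mul_self_sqrt hc.le⟩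
  have hbc : sb * sc ≤ sa * sd := by
    by_contra hcon
    push Not at hcon
    have h1 : (sa * sd) * (sa * sd) < (sb * sc) * (sb * sc) :=
      mul_lt_mul'' hcon hcon (by positivity) (by positivity)
    have h2 : (sa * sd) * (sa * sd) = a * d := by rw [← hsa, ← hsd]; ring
    have h3 : (sb * sc) * (sb * sc) = b * c := by rw [← hsb, ← hsc]; ring
    rw [h2, h3] at h1
    linarith
  obtain ⟨r, hr⟩ : ∃ r : ℝ, r = α * sa / ((1 - α) * sd) := ⟨_, rfl⟩
  have hr0 : 0 < r := by rw [hr]; positivity
  have h1 := hle (sc / sb * r) (sb / sc * r) (by positivity) (by positivity)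
  have e1 : sc / sb * r * (sb / sc * r) = r * r := by field_simp
  have e2 : b * (sc / sb * r) = sb * sc * r := by rw [← hsb]; field_simp
  have e3 : c * (sb / sc * r) = sb * sc * r := by rw [← hsc]; field_simp
  rw [e1, e2, e3] at h1
  have h2 : a + sb * sc * r + sb * sc * r + d * (r * r) ≤ (sa + sd * r) * (sa + sd * r) := by
    have := mul_le_mul_of_nonneg_right hbc hr0.le
    have e : (sa + sd * r) * (sa + sd * r) = a + 2 * (sa * sd * r) + d * (r * r) := by
      rw [← hsa, ← hsd]; ring
    rw [e]; linarith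
  have e4 : sa + sd * r = sa / (1 - α) := by
    rw [hr]; field_simp; ring
  have e5 : sa / (1 - α) * (sa / (1 - α)) = a / (1 - α) ^ 2 := by
    rw [← hsa]; field_simp
  have e6 : r * r / α = α * a / ((1 - α) ^ 2 * d) := by
    rw [hr, ← hsa, ← hsd]; field_simp
  rw [e4, e5] at h2
  rw [e6] at h1
  have h3 : K * (α * a / ((1 - α) ^ 2 * d)) ^ α ≤ a / (1 - α) ^ 2 := h1.trans h2
  -- the weighted AM-GM inequality
  have h4 := Real.geom_mean_le_arith_mean2_weighted hβ.le hα0.le
    (show 0 ≤ a / (1 - α) by positivity) (show 0 ≤ d / α by positivity) (by ring)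
  have e7 : (1 - α) * (a / (1 - α)) + α * (d / α) = a + d := by field_simp
  rw [e7] at h4
  have hM : 0 < (α * a / ((1 - α) ^ 2 * d)) ^ α := by positivity
  have e8 : (1 - α) ^ (1 - α) * (a / (1 - α) ^ 2) =
      (a / (1 - α)) ^ (1 - α) * (d / α) ^ α * (α * a / ((1 - α) ^ 2 * d)) ^ α := by
    rw [mul_assoc, ← Real.mul_rpow (by positivity) (by positivity)]
    have f1 : d / α * (α * a / ((1 - α) ^ 2 * d)) = a / (1 - α) * (1 - α)⁻¹ := by
      field_simp
    rw [f1, Real.mul_rpow (by positivity) (by positivity), ← mul_assoc,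
      ← Real.rpow_add (by positivity)]
    have f2 : 1 - α + α = 1 := by ring
    rw [f2, Real.rpow_one, Real.inv_rpow hβ.le, Real.rpow_sub hβ, Real.rpow_one]
    field_simp
  have h5 : (1 - α) ^ (1 - α) * K * (α * a / ((1 - α) ^ 2 * d)) ^ α ≤
      (a + d) * (α * a / ((1 - α) ^ 2 * d)) ^ α := by
    calc (1 - α) ^ (1 - α) * K * (α * a / ((1 - α) ^ 2 * d)) ^ α
        = (1 - α) ^ (1 - α) * (K * (α * a / ((1 - α) ^ 2 * d)) ^ α) := by ring
      _ ≤ (1 - α) ^ (1 - α) * (a / (1 - α) ^ 2) :=
          mul_le_mul_of_nonneg_left h3 (by positivity)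
      _ = _ := e8
      _ ≤ _ := mul_le_mul_of_nonneg_right h4 hM.le
  exact le_of_mul_le_mul_right h5 hM

theorem two_var {a b c d α K : ℝ} (ha : 0 ≤ a) (hb : 0 ≤ b) (hc : 0 ≤ c) (hd : 0 ≤ d)
    (h : b * c ≤ a * d) (hα0 : 0 ≤ α) (hα1 : α ≤ 1) (hK : 0 ≤ K)
    (hle : ∀ y z : ℝ, 0 < y → 0 < z → K * (y * z / α) ^ α ≤ a + b * y + c * z + d * (y * z)) :
    (1 - α) ^ (1 - α) * K ≤ a + d := by
  rcases hα0.eq_or_lt with h0 | hα0
  · subst h0
    simp only [sub_zero, Real.one_rpow, one_mul]
    simp only [Real.rpow_zero, mul_one] at hle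
    have : K ≤ a := by
      apply le_of_forall_pos_le_add
      intro ε hε
      have hs : 0 < b + c + d + 1 := by positivity
      have ht : 0 < min 1 (ε / (b + c + d + 1)) := lt_min one_pos (by positivity)
      obtain ⟨t, ht'⟩ : ∃ t, t = min 1 (ε / (b + c + d + 1)) := ⟨_, rfl⟩
      rw [← ht'] at ht
      have ht1 : t ≤ 1 := by rw [ht']; exact min_le_left _ _
      have ht2 : t * (b + c + d + 1) ≤ ε := by
        rw [← le_div_iff₀ hs, ht']; exact min_le_right _ _
      have h1 := hle t t ht ht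
      have h2 : d * (t * t) ≤ d * t := by
        apply mul_le_mul_of_nonneg_left _ hd
        nlinarith
      nlinarith
    linarith
  · rcases hα1.eq_or_lt with h1 | hα1
    · subst h1
      simp only [sub_self, Real.rpow_zero, one_mul]
      simp only [Real.rpow_one, div_one] at hle
      have : K ≤ d := by
        apply le_of_forall_pos_le_add
        intro ε hε
        obtain ⟨t, ht⟩ : ∃ t : ℝ, t = 1 + (a + b + c) / ε := ⟨_, rfl⟩
        have ht1 : 1 ≤ t := by rw [ht]; have : 0 ≤ (a + b + c) / ε := by positivity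
                               linarith
        have ht0 : 0 < t := by linarith
        have ht2 : a + b + c ≤ ε * t := by
          have : ε * t = ε + (a + b + c) := by rw [ht]; field_simp
          linarith
        have h1 := hle t t ht0 ht0
        have h2 : a ≤ a * t := by nlinarith
        have h3 : K * (t * t) ≤ (d + ε) * (t * t) := by nlinarith
        exact le_of_mul_le_mul_right h3 (by positivity)
      linarith
    · apply le_of_forall_pos_le_add
      intro ε hε
      obtain ⟨η, hη⟩ : ∃ η : ℝ, η = min (ε / 2) ((ε / 2) ^ 2 / (b + c + ε / 2)) := ⟨_, rfl⟩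
      have hη0 : 0 < η := by
        rw [hη]; apply lt_min <;> positivity
      have hη1 : η ≤ ε / 2 := by rw [hη]; exact min_le_left _ _
      have hη2 : η * (b + c + ε / 2) ≤ (ε / 2) ^ 2 := by
        rw [← le_div_iff₀ (by positivity), hη]; exact min_le_right _ _
      have key := bethe_pos (a := a + ε / 2) (b := b + η) (c := c + η) (d := d + ε / 2)
        (α := α) (K := K) (by positivity) (by positivity) (by positivity) (by positivity)
        (by
          have e1 : (b + η) * (c + η) = b * c + η * (b + c + η) := by ring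
          have e2 : (a + ε / 2) * (d + ε / 2) = a * d + ε / 2 * (a + d) + (ε / 2) ^ 2 := by ring
          have e3 : η * (b + c + η) ≤ η * (b + c + ε / 2) :=
            mul_le_mul_of_nonneg_left (by linarith) hη0.le
          have e4 : 0 ≤ ε / 2 * (a + d) := by positivity
          rw [e1, e2]; linarith) hα0 hα1
        (by
          intro y z hy hz
          have h1 := hle y z hy hz
          have h2 : 0 ≤ η * y := by positivity
          have h3 : 0 ≤ η * z := by positivity
          have h4 : 0 ≤ ε / 2 * (y * z) := by positivity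
          nlinarith)
      linarith

variable {n : ℕ}

/-- The restriction of `B` to a set of pairs. -/
noncomputable def betheB (B : Matrix (Fin n) (Fin n) ℝ) (S : Finset (Fin n × Fin n)) :
    Matrix (Fin n) (Fin n) ℝ :=
  Matrix.of fun i j => if (i, j) ∈ S then B i j else 0

/-- Row activities. -/
noncomputable def betheR (B : Matrix (Fin n) (Fin n) ℝ) (S : Finset (Fin n × Fin n))
    (y : Fin n × Fin n → ℝ) (i : Fin n) : ℝ :=
  ∑ j, if (i, j) ∈ S then 0 else B i j * y (i, j)

/-- Column activities. -/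
noncomputable def betheC (S : Finset (Fin n × Fin n)) (z : Fin n × Fin n → ℝ) (j : Fin n) : ℝ :=
  ∑ i, if (i, j) ∈ S then 0 else z (i, j)

theorem betheB_insert (B : Matrix (Fin n) (Fin n) ℝ) {S : Finset (Fin n × Fin n)}
    {i j : Fin n} (he : (i, j) ∉ S) (i' j' : Fin n) :
    betheB B (insert (i, j) S) i' j' =
      betheB B S i' j' + if i' = i ∧ j' = j then B i j else 0 := by
  unfold betheB
  simp only [Matrix.of_apply, Finset.mem_insert, Prod.mk.injEq]
  by_cases h : i' = i ∧ j' = j
  · obtain ⟨rfl, rfl⟩ := h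
    simp [he]
  · simp [h]

theorem betheR_insert (B : Matrix (Fin n) (Fin n) ℝ) {S : Finset (Fin n × Fin n)}
    {i j : Fin n} (he : (i, j) ∉ S) (y : Fin n × Fin n → ℝ) (u : ℝ) (i' : Fin n) :
    betheR B S (Function.update y (i, j) u) i' =
      betheR B (insert (i, j) S) y i' + if i' = i then B i j * u else 0 := by
  unfold betheR
  have h1 : (if i' = i then B i j * u else 0) =
      ∑ j', if i' = i ∧ j' = j then B i j * u else 0 := by
    by_cases h : i' = i
    · simp [h]
    · simp [h]
  rw [h1, ← Finset.sum_add_distrib]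
  apply Finset.sum_congr rfl
  intro j' _
  by_cases h : i' = i ∧ j' = j
  · obtain ⟨rfl, rfl⟩ := h
    simp [he]
  · have h2 : (i', j') ≠ (i, j) := by
      intro h3; exact h (Prod.mk.injEq _ _ _ _ ▸ h3)
    rw [Function.update_of_ne h2]
    simp [h]

theorem betheC_insert {S : Finset (Fin n × Fin n)}
    {i j : Fin n} (he : (i, j) ∉ S) (z : Fin n × Fin n → ℝ) (u : ℝ) (j' : Fin n) :
    betheC S (Function.update z (i, j) u) j' =
      betheC (insert (i, j) S) z j' + if j' = j then u else 0 := by
  unfold betheC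
  have h1 : (if j' = j then u else 0) =
      ∑ i', if i' = i ∧ j' = j then u else 0 := by
    by_cases h : j' = j
    · simp [h]
    · simp [h]
  rw [h1, ← Finset.sum_add_distrib]
  apply Finset.sum_congr rfl
  intro i' _
  by_cases h : i' = i ∧ j' = j
  · obtain ⟨rfl, rfl⟩ := h
    simp [he]
  · have h2 : (i', j') ≠ (i, j) := by
      intro h3; exact h (Prod.mk.injEq _ _ _ _ ▸ h3)
    rw [Function.update_of_ne h2]
    simp [h]

/-- Weighted AM-GM with zero weights allowed. -/
theorem bethe_amgm (w x : Fin n → ℝ) (hw : ∀ i, 0 ≤ w i) (hw1 : ∑ i, w i = 1)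
    (hx : ∀ i, 0 ≤ x i) : ∏ i, (x i / w i) ^ (w i) ≤ ∑ i, x i := by
  have h1 := Real.geom_mean_le_arith_mean_weighted Finset.univ w (fun i => x i / w i)
    (fun i _ => hw i) hw1 (fun i _ => div_nonneg (hx i) (hw i))
  refine h1.trans (Finset.sum_le_sum ?_)
  intro i _
  by_cases h : w i = 0
  · rw [h, zero_mul]; exact hx i
  · rw [mul_div_cancel₀ _ h]

theorem bethe_start {B P : Matrix (Fin n) (Fin n) ℝ} (hB : ∀ i j, 0 ≤ B i j)
    (hP : ∀ i j, 0 ≤ P i j) (hrow : ∀ i, ∑ j, P i j = 1) (hcol : ∀ j, ∑ i, P i j = 1)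
    (y z : Fin n × Fin n → ℝ) (hy : ∀ e, 0 < y e) (hz : ∀ e, 0 < z e) :
    (∏ e : Fin n × Fin n, (B e.1 e.2 / P e.1 e.2) ^ (P e.1 e.2)) *
      ∏ e : Fin n × Fin n, (y e * z e / P e.1 e.2) ^ (P e.1 e.2) ≤
    F (betheB B ∅) (betheR B ∅ y) (betheC ∅ z) Finset.univ Finset.univ := by
  have h0 : betheB B ∅ = 0 := by
    ext i j; simp [betheB]
  rw [h0, F_zero]
  have hr : ∀ i, ∏ j, (B i j * y (i, j) / P i j) ^ (P i j) ≤ betheR B ∅ y i := by
    intro i
    have := bethe_amgm (fun j => P i j) (fun j => B i j * y (i, j)) (fun j => hP i j) (hrow i)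
      (fun j => mul_nonneg (hB i j) (hy _).le)
    simpa [betheR] using this
  have hc : ∀ j, ∏ i, (z (i, j) / P i j) ^ (P i j) ≤ betheC ∅ z j := by
    intro j
    have := bethe_amgm (fun i => P i j) (fun i => z (i, j)) (fun i => hP i j) (hcol j)
      (fun i => (hz _).le)
    simpa [betheC] using this
  have h1 : (∏ i, ∏ j, (B i j * y (i, j) / P i j) ^ (P i j)) ≤ ∏ i, betheR B ∅ y i :=
    Finset.prod_le_prod (fun i _ => Finset.prod_nonneg fun j _ =>
      Real.rpow_nonneg (div_nonneg (mul_nonneg (hB i j) (hy _).le) (hP i j)) _)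
      (fun i _ => hr i)
  have h2 : (∏ j, ∏ i, (z (i, j) / P i j) ^ (P i j)) ≤ ∏ j, betheC ∅ z j :=
    Finset.prod_le_prod (fun j _ => Finset.prod_nonneg fun i _ =>
      Real.rpow_nonneg (div_nonneg (hz _).le (hP i j)) _)
      (fun j _ => hc j)
  have h3 := mul_le_mul h1 h2 (Finset.prod_nonneg fun j _ => Finset.prod_nonneg fun i _ =>
      Real.rpow_nonneg (div_nonneg (hz _).le (hP i j)) _)
    ((Finset.prod_nonneg fun i _ => Finset.prod_nonneg fun j _ =>
      Real.rpow_nonneg (div_nonneg (mul_nonneg (hB i j) (hy _).le) (hP i j)) _).trans h1)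
  refine le_trans (le_of_eq ?_) h3
  rw [Finset.prod_comm (s := (Finset.univ : Finset (Fin n))) (t := Finset.univ)
    (f := fun j i => (z (i, j) / P i j) ^ (P i j)), ← Finset.prod_mul_distrib,
    ← Finset.prod_mul_distrib, Fintype.prod_prod_type]
  apply Finset.prod_congr rfl
  intro i _
  rw [← Finset.prod_mul_distrib]
  apply Finset.prod_congr rfl
  intro j _
  have hBP := div_nonneg (hB i j) (hP i j)
  have hyP := div_nonneg (mul_nonneg (hB i j) (hy (i, j)).le) (hP i j)
  have hzP := div_nonneg (hz (i, j)).le (hP i j)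
  have hyz := div_nonneg (mul_nonneg (hy (i, j)).le (hz (i, j)).le) (hP i j)
  show (B i j / P i j) ^ (P i j) * (y (i, j) * z (i, j) / P i j) ^ (P i j) = _
  rw [← Real.mul_rpow hBP hyz, ← Real.mul_rpow hyP hzP]
  congr 1
  ring

theorem bethe_claim {B P : Matrix (Fin n) (Fin n) ℝ} (hB : ∀ i j, 0 ≤ B i j)
    (hP : ∀ i j, 0 ≤ P i j) (hrow : ∀ i, ∑ j, P i j = 1) (hcol : ∀ j, ∑ i, P i j = 1)
    (S : Finset (Fin n × Fin n)) :
    ∀ y z : Fin n × Fin n → ℝ, (∀ e, 0 < y e) → (∀ e, 0 < z e) →
      (∏ e : Fin n × Fin n, (B e.1 e.2 / P e.1 e.2) ^ (P e.1 e.2)) *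
        (∏ e ∈ S, (1 - P e.1 e.2) ^ (1 - P e.1 e.2)) *
        ∏ e ∈ Sᶜ, (y e * z e / P e.1 e.2) ^ (P e.1 e.2) ≤
      F (betheB B S) (betheR B S y) (betheC S z) Finset.univ Finset.univ := by
  have hP1 : ∀ i j, P i j ≤ 1 := by
    intro i j
    rw [← hrow i]
    exact Finset.single_le_sum (f := fun j => P i j) (fun k _ => hP i k) (Finset.mem_univ j)
  induction S using Finset.induction_on with
  | empty =>
    intro y z hy hz
    have := bethe_start hB hP hrow hcol y z hy hz
    simpa using this
  | insert e S he ih =>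
    obtain ⟨i, j⟩ := e
    intro y z hy hz
    set r0 := betheR B (insert (i, j) S) y with hr0
    set c0 := betheC (insert (i, j) S) z with hc0
    have hBS : ∀ i' j', 0 ≤ betheB B S i' j' := by
      intro i' j'
      simp only [betheB, Matrix.of_apply]
      split_ifs
      · exact hB _ _
      · exact le_rfl
    have hr : ∀ i', 0 ≤ r0 i' := by
      intro i'
      apply Finset.sum_nonneg
      intro j' _
      split_ifs
      · exact le_rfl
      · exact mul_nonneg (hB _ _) (hy _).le
    have hc : ∀ j', 0 ≤ c0 j' := by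
      intro j'
      apply Finset.sum_nonneg
      intro i' _
      split_ifs
      · exact le_rfl
      · exact (hz _).le
    have hAdd := F_addEntry (B := betheB B S) (B' := betheB B (insert (i, j) S)) r0 c0
      (Finset.mem_univ i) (Finset.mem_univ j) (B i j) (betheB_insert B he)
    rw [hAdd]
    set a := F (betheB B S) r0 c0 Finset.univ Finset.univ with ha
    set d' := F (betheB B S) r0 c0 (Finset.univ.erase i) (Finset.univ.erase j) with hd'
    set b' := F (betheB B S) r0 c0 (Finset.univ.erase i) Finset.univ with hb'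
    set c' := F (betheB B S) r0 c0 Finset.univ (Finset.univ.erase j) with hc'
    have ha0 : 0 ≤ a := F_nonneg hBS hr hc _ _
    have hd0 : 0 ≤ d' := F_nonneg hBS hr hc _ _
    have hb0 : 0 ≤ b' := F_nonneg hBS hr hc _ _
    have hc0' : 0 ≤ c' := F_nonneg hBS hr hc _ _
    have hcorr : b' * c' ≤ a * d' :=
      F_corr hBS hr hc (Finset.mem_univ i) (Finset.mem_univ j)
    obtain ⟨K, hK⟩ : ∃ K : ℝ, K =
        (∏ e : Fin n × Fin n, (B e.1 e.2 / P e.1 e.2) ^ (P e.1 e.2)) *
        (∏ e ∈ S, (1 - P e.1 e.2) ^ (1 - P e.1 e.2)) *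
        ∏ e ∈ (insert (i, j) S)ᶜ, (y e * z e / P e.1 e.2) ^ (P e.1 e.2) := ⟨_, rfl⟩
    have hK0 : 0 ≤ K := by
      rw [hK]
      apply mul_nonneg (mul_nonneg _ _) _
      · exact Finset.prod_nonneg fun e _ => Real.rpow_nonneg (div_nonneg (hB _ _) (hP _ _)) _
      · exact Finset.prod_nonneg fun e _ => Real.rpow_nonneg (by linarith [hP1 e.1 e.2]) _
      · exact Finset.prod_nonneg fun e _ => Real.rpow_nonneg
          (div_nonneg (mul_nonneg (hy e).le (hz e).le) (hP _ _)) _
    have key := two_var (a := a) (b := B i j * b') (c := c') (d := B i j * d')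
      (α := P i j) (K := K) ha0 (mul_nonneg (hB i j) hb0) hc0' (mul_nonneg (hB i j) hd0)
      (by
        have := mul_le_mul_of_nonneg_left hcorr (hB i j)
        calc B i j * b' * c' = B i j * (b' * c') := by ring
          _ ≤ B i j * (a * d') := this
          _ = a * (B i j * d') := by ring) (hP i j) (hP1 i j) hK0
      (by
        intro u v hu hv
        have h1 := ih (Function.update y (i, j) u) (Function.update z (i, j) v)
          (by
            intro e
            by_cases h : e = (i, j)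
            · rw [h, Function.update_self]; exact hu
            · rw [Function.update_of_ne h]; exact hy e)
          (by
            intro e
            by_cases h : e = (i, j)
            · rw [h, Function.update_self]; exact hv
            · rw [Function.update_of_ne h]; exact hz e)
        have h2 : F (betheB B S) (betheR B S (Function.update y (i, j) u))
            (betheC S (Function.update z (i, j) v)) Finset.univ Finset.univ =
            a + B i j * b' * u + c' * v + B i j * d' * (u * v) := by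
          rw [F_addRow (r := r0) _ (Finset.mem_univ i) (B i j * u) (betheR_insert B he y u),
            F_addCol (c := c0) _ (Finset.mem_univ j) v (betheC_insert he z v),
            F_addCol (c := c0) _ (Finset.mem_univ j) v (betheC_insert he z v)]
          ring
        rw [h2] at h1
        refine le_trans (le_of_eq ?_) h1
        have h3 : (i, j) ∈ Sᶜ := Finset.mem_compl.2 he
        have h4 : (insert (i, j) S)ᶜ = Sᶜ.erase (i, j) := by
          ext e; simp [not_or]
        rw [hK, ← Finset.mul_prod_erase Sᶜ _ h3, h4, Function.update_self, Function.update_self]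
        have h5 : ∏ x ∈ Sᶜ.erase (i, j), (Function.update y (i, j) u x *
            Function.update z (i, j) v x / P x.1 x.2) ^ P x.1 x.2 =
            ∏ x ∈ Sᶜ.erase (i, j), (y x * z x / P x.1 x.2) ^ P x.1 x.2 := by
          apply Finset.prod_congr rfl
          intro x hx
          rw [Function.update_of_ne (Finset.ne_of_mem_erase hx),
            Function.update_of_ne (Finset.ne_of_mem_erase hx)]
        rw [h5]
        ring)
    rw [Finset.prod_insert he]
    refine le_trans (le_of_eq ?_) key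
    rw [hK]
    show _ * ((1 - P i j) ^ (1 - P i j) * _) * _ = _
    ring

theorem per_bethe {B P : Matrix (Fin n) (Fin n) ℝ} (hB : ∀ i j, 0 ≤ B i j)
    (hP : ∀ i j, 0 ≤ P i j) (hrow : ∀ i, ∑ j, P i j = 1) (hcol : ∀ j, ∑ i, P i j = 1) :
    ∏ i, ∏ j, ((B i j / P i j) ^ (P i j) * (1 - P i j) ^ (1 - P i j)) ≤
      F B 0 0 Finset.univ Finset.univ := by
  have h := bethe_claim hB hP hrow hcol Finset.univ (fun _ => 1) (fun _ => 1)
    (fun _ => one_pos) (fun _ => one_pos)
  have h1 : betheB B Finset.univ = B := by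
    ext i j; simp [betheB]
  have h2 : betheR B Finset.univ (fun _ => 1) = 0 := by
    ext i; simp [betheR]
  have h3 : betheC (n := n) Finset.univ (fun _ => 1) = 0 := by
    ext i; simp [betheC]
  rw [h1, h2, h3, Finset.compl_univ, Finset.prod_empty, mul_one, ← Finset.prod_mul_distrib,
    Fintype.prod_prod_type] at h
  exact h

end Pool.Agent.Circ
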