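import Pool.Agent.Lib.Circ.MatchPoly2

/-!
# Module C: a weighted Bregman inequality

Proof by induction on `m = C.card = R.card`, in logarithmic form, trivial if `F V 0 0 R C = 0`.
Let `Φ s = log (s + 2√δ) - 1`, `s_k = Σ_{i ∈ R} V i k`, `per = F V 0 0 R C > 0` and
`q i j = V i j * F V 0 0 (R\i) (C\j) / per`; `Σ_i q i j = 1` (`F_col`), `Σ_j q i j = 1` (`F_row`).
For each column `j` (Gibbs / concavity of log, only terms with `q i j > 0`):
`log per = Σ_i q i j log (V i j F(R\i)(C\j) / q i j) ≤ log s_j + Σ_i q i j log F(R\i)(C\j)`.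
Sum over `j` and use the induction hypothesis `log F(R\i)(C\j) ≤ Σ_{k ∈ C\j} Φ(s_k - V i k)`:
`m log per ≤ Σ_k [log s_k + Σ_i (1 - q i k) Φ(s_k - V i k)]`, and for each `k`, with
`Φ(s - v) ≤ Φ s - v Φ' s` (concavity), `Σ_i (1 - q i k) = m - 1`, `Σ_i q i k V i k ≤ δ`:
`log s_k + Σ_i (1 - q i k) Φ(s_k - V i k) ≤ log s_k + (m-1) Φ s_k - Φ'(s_k) (s_k - δ) ≤ m Φ s_k`;
the last step is `log s ≤ Φ s + (s - δ) Φ' s`, i.e. with `κ = 2√δ`, `x = κ/s`:
`log (1+x) ≥ (κ+δ)/(s+κ)`, which follows from `log(1+x) ≥ 2x/(2+x)`, `s ≤ 1` and `δ ≤ 1`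
(if `δ = 0` all entries vanish and the claim is trivial for `m ≥ 1`).
-/

set_option autoImplicit false

open MeasureTheory ProbabilityTheory Filter Matrix Finset

namespace Pool.Agent.Circ

variable {n : ℕ}

/-- The scalar inequality. -/
theorem breg_scalar {s δ : ℝ} (hs : 0 < s) (hs1 : s ≤ 1) (hδ0 : 0 < δ) (hδ1 : δ ≤ 1) :
    Real.log s + (2 * Real.sqrt δ + δ) / (s + 2 * Real.sqrt δ) ≤
      Real.log (s + 2 * Real.sqrt δ) := by
  have hq : 0 < Real.sqrt δ := Real.sqrt_pos.2 hδ0
  have hq1 : Real.sqrt δ ≤ 1 := Real.sqrt_le_one.2 hδ1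
  have hq2 : Real.sqrt δ * Real.sqrt δ = δ := Real.mul_self_sqrt hδ0.le
  set κ := 2 * Real.sqrt δ with hκ
  have hκ0 : 0 < κ := by positivity
  have hκδ : δ = κ * κ / 4 := hq2.symm.trans (by rw [hκ]; ring)
  have h1 : s + κ = s * (1 + κ / s) := by field_simp
  have hpos : 0 < 1 + κ / s := by positivity
  have h2 : Real.log (s + κ) = Real.log s + Real.log (1 + κ / s) := by
    rw [h1, Real.log_mul hs.ne' hpos.ne']
  have h3 := Real.le_log_one_add_of_nonneg (show 0 ≤ κ / s by positivity)
  have h4 : 2 * (κ / s) / (κ / s + 2) = 2 * κ / (κ + 2 * s) := by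
    field_simp
  have h5 : (κ + δ) / (s + κ) ≤ 2 * κ / (κ + 2 * s) := by
    rw [div_le_div_iff₀ (by positivity) (by positivity), hκδ]
    have h6 : 0 ≤ κ * κ / 4 * (4 - 2 * s - κ) := by
      apply mul_nonneg (by positivity)
      linarith
    nlinarith [h6]
  rw [h2]
  rw [h4] at h3
  linarith

theorem breg_aux {V : Matrix (Fin n) (Fin n) ℝ} {δ : ℝ} (hδ0 : 0 ≤ δ) (hδ1 : δ ≤ 1)
    (hV : ∀ i j, 0 ≤ V i j) (hVδ : ∀ i j, V i j ≤ δ) (m : ℕ) :
    ∀ R C : Finset (Fin n), R.card = m → C.card = m → (∀ j ∈ C, ∑ i ∈ R, V i j ≤ 1) →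
      F V 0 0 R C ≤ ∏ j ∈ C, ((∑ i ∈ R, V i j + 2 * Real.sqrt δ) / Real.exp 1) := by
  induction m with
  | zero =>
    intro R C hR hC _
    rw [Finset.card_eq_zero] at hR hC
    subst hR hC
    rw [F_empty]
    simp
  | succ m ih =>
    intro R C hR hC hcol
    have hper0 : 0 ≤ F V 0 0 R C := F_nonneg hV (fun _ => le_rfl) (fun _ => le_rfl) R C
    have hκ0 : 0 ≤ 2 * Real.sqrt δ := by positivity
    have hs0 : ∀ j, 0 ≤ ∑ i ∈ R, V i j := fun j => Finset.sum_nonneg fun i _ => hV i j
    rcases hper0.eq_or_lt with h0 | hper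
    · rw [← h0]
      apply Finset.prod_nonneg
      intro j _
      have := hs0 j
      positivity
    obtain ⟨s, hs⟩ : ∃ s : Fin n → ℝ, ∀ j, s j = ∑ i ∈ R, V i j := ⟨_, fun j => rfl⟩
    obtain ⟨per, hperdef⟩ : ∃ per : ℝ, per = F V 0 0 R C := ⟨_, rfl⟩
    obtain ⟨κ, hκdef⟩ : ∃ κ : ℝ, κ = 2 * Real.sqrt δ := ⟨_, rfl⟩
    simp only [← hs] at hs0 hcol ⊢
    rw [← hperdef] at hper ⊢
    rw [← hκdef] at hκ0 ⊢
    obtain ⟨G, hG⟩ : ∃ G : Fin n → Fin n → ℝ,
        ∀ i j, G i j = F V 0 0 (R.erase i) (C.erase j) := ⟨_, fun i j => rfl⟩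
    have hG0 : ∀ i j, 0 ≤ G i j := fun i j => by
      rw [hG]; exact F_nonneg hV (fun _ => le_rfl) (fun _ => le_rfl) _ _
    obtain ⟨q, hq⟩ : ∃ q : Fin n → Fin n → ℝ, ∀ i j, q i j = V i j * G i j / per :=
      ⟨_, fun i j => rfl⟩
    have q0 : ∀ i j, 0 ≤ q i j := fun i j => by
      rw [hq]; exact div_nonneg (mul_nonneg (hV i j) (hG0 i j)) hper.le
    have qrow : ∀ i ∈ R, ∑ j ∈ C, q i j = 1 := by
      intro i hi
      have h1 := F_row V 0 0 C hi
      simp only [Pi.zero_apply, zero_mul, zero_add] at h1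
      simp only [hq]
      rw [← Finset.sum_div, div_eq_one_iff_eq hper.ne', hperdef, h1]
      simp only [hG]
    have qcol : ∀ j ∈ C, ∑ i ∈ R, q i j = 1 := by
      intro j hj
      have h1 := F_col V 0 0 R hj
      simp only [Pi.zero_apply, zero_mul, zero_add] at h1
      simp only [hq]
      rw [← Finset.sum_div, div_eq_one_iff_eq hper.ne', hperdef, h1]
      simp only [hG]
    have q1 : ∀ i ∈ R, ∀ j ∈ C, q i j ≤ 1 := by
      intro i hi j hj
      rw [← qrow i hi]
      exact Finset.single_le_sum (fun k _ => q0 i k) hj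
    have hsp : ∀ j ∈ C, 0 < s j := by
      intro j hj
      rcases (hs0 j).eq_or_lt with h0 | h0
      · exfalso
        have h1 : ∀ i ∈ R, V i j = 0 := by
          have := (Finset.sum_eq_zero_iff_of_nonneg (fun i _ => hV i j)).1
            (by rw [← hs, ← h0] : ∑ i ∈ R, V i j = 0)
          exact this
        have h2 : ∑ i ∈ R, q i j = 0 := by
          apply Finset.sum_eq_zero
          intro i hi
          rw [hq, h1 i hi, zero_mul, zero_div]
        rw [qcol j hj] at h2
        norm_num at h2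
      · exact h0
    have hδp : 0 < δ := by
      rcases hδ0.eq_or_lt with h0 | h0
      · exfalso
        obtain ⟨j, hj⟩ : C.Nonempty := by rw [← Finset.card_pos]; omega
        have h1 : s j ≤ 0 := by
          rw [hs]
          apply Finset.sum_nonpos
          intro i _
          rw [h0]; exact hVδ i j
        have := hsp j hj
        linarith
      · exact h0
    have hκp : 0 < κ := by rw [hκdef]; have := Real.sqrt_pos.2 hδp; positivity
    -- the tangent line bound
    obtain ⟨Ψ, hΨ⟩ : ∃ Ψ : Fin n → Fin n → ℝ,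
        ∀ i k, Ψ i k = Real.log (s k + κ) - 1 - V i k / (s k + κ) := ⟨_, fun i k => rfl⟩
    have hlogG : ∀ i ∈ R, ∀ j ∈ C, 0 < G i j →
        Real.log (G i j) ≤ ∑ k ∈ C, Ψ i k - Ψ i j := by
      intro i hi j hj hpos
      have h1 := ih (R.erase i) (C.erase j) (by rw [Finset.card_erase_of_mem hi]; omega)
        (by rw [Finset.card_erase_of_mem hj]; omega) (by
          intro k hk
          have h2 := hcol k (Finset.mem_of_mem_erase hk)
          rw [hs] at h2
          have h3 : ∑ i' ∈ R.erase i, V i' k ≤ ∑ i' ∈ R, V i' k :=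
            Finset.sum_le_sum_of_subset_of_nonneg (Finset.erase_subset _ _)
              (fun a _ _ => hV a k)
          linarith)
      rw [← hG, ← hκdef] at h1
      have h2 : ∀ k ∈ C.erase j, (∑ i' ∈ R.erase i, V i' k + κ) / Real.exp 1 ≠ 0 := by
        intro k _
        have : 0 ≤ ∑ i' ∈ R.erase i, V i' k := Finset.sum_nonneg fun a _ => hV a k
        positivity
      have h3 := Real.log_le_log hpos h1
      rw [Real.log_prod h2] at h3
      have h4 : ∑ k ∈ C, Ψ i k - Ψ i j = ∑ k ∈ C.erase j, Ψ i k := by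
        rw [← Finset.add_sum_erase C (fun k => Ψ i k) hj]; ring
      rw [h4]
      refine h3.trans (Finset.sum_le_sum ?_)
      intro k hk
      have h5 : 0 ≤ ∑ i' ∈ R.erase i, V i' k := Finset.sum_nonneg fun a _ => hV a k
      have h6 : s k = V i k + ∑ i' ∈ R.erase i, V i' k := by
        rw [hs, ← Finset.add_sum_erase R (fun a => V a k) hi]
      have hpos1 : 0 < ∑ i' ∈ R.erase i, V i' k + κ := by positivity
      have hpos2 : 0 < s k + κ := by have := hs0 k; positivity
      rw [Real.log_div hpos1.ne' (Real.exp_pos 1).ne', Real.log_exp, hΨ]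
      have h7 := Real.log_le_sub_one_of_pos (div_pos hpos1 hpos2)
      rw [Real.log_div hpos1.ne' hpos2.ne'] at h7
      have h8 : (∑ i' ∈ R.erase i, V i' k + κ) / (s k + κ) - 1 = -(V i k / (s k + κ)) := by
        rw [eq_neg_iff_add_eq_zero]
        have : ∑ i' ∈ R.erase i, V i' k + κ = (s k + κ) - V i k := by rw [h6]; ring
        rw [this, sub_div, div_self hpos2.ne']
        ring
      rw [h8] at h7
      linarith
    have hterm : ∀ j ∈ C, ∀ i ∈ R, q i j * Real.log per ≤
        q i j * (∑ k ∈ C, Ψ i k - Ψ i j) + q i j * Real.log (s j) + V i j / s j - q i j := by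
      intro j hj i hi
      have hsj := hsp j hj
      rcases (q0 i j).eq_or_lt with h0 | h0
      · rw [← h0]
        have : 0 ≤ V i j / s j := div_nonneg (hV i j) hsj.le
        linarith
      · have hVG : 0 < V i j * G i j := by
          have h1 := h0
          rw [hq] at h1
          have h2 := mul_pos h1 hper
          rwa [div_mul_cancel₀ _ hper.ne'] at h2
        have hVp : 0 < V i j := by
          rcases (hV i j).eq_or_lt with h1 | h1
          · rw [← h1, zero_mul] at hVG; exact absurd hVG (lt_irrefl _)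
          · exact h1
        have hGp : 0 < G i j := by
          rcases (hG0 i j).eq_or_lt with h1 | h1
          · rw [← h1, mul_zero] at hVG; exact absurd hVG (lt_irrefl _)
          · exact h1
        have h1 := hlogG i hi j hj hGp
        have h2 := Real.log_le_sub_one_of_pos (show 0 < per / (G i j * s j) by positivity)
        rw [Real.log_div hper.ne' (by positivity), Real.log_mul hGp.ne' hsj.ne'] at h2
        have h3 : q i j * (per / (G i j * s j)) = V i j / s j := by
          rw [hq]; field_simp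
        have h4 := mul_le_mul_of_nonneg_left h2 h0.le
        have h5 := mul_le_mul_of_nonneg_left h1 h0.le
        have h6 : q i j * (per / (G i j * s j) - 1) = V i j / s j - q i j := by
          rw [mul_sub, h3, mul_one]
        rw [h6] at h4
        linarith
    have hsum := Finset.sum_le_sum fun j hj => Finset.sum_le_sum (hterm j hj)
    have S1 : ∑ j ∈ C, ∑ i ∈ R, q i j * Real.log per = (m + 1 : ℝ) * Real.log per := by
      have : ∀ j ∈ C, ∑ i ∈ R, q i j * Real.log per = Real.log per := by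
        intro j hj
        rw [← Finset.sum_mul, qcol j hj, one_mul]
      rw [Finset.sum_congr rfl this, Finset.sum_const, hC, nsmul_eq_mul]
      push_cast; ring
    have S2 : ∑ j ∈ C, ∑ i ∈ R, (q i j * (∑ k ∈ C, Ψ i k - Ψ i j) + q i j * Real.log (s j) +
        V i j / s j - q i j) =
        ∑ k ∈ C, (Real.log (s k) + ∑ i ∈ R, (1 - q i k) * Ψ i k) := by
      have e1 : ∑ j ∈ C, ∑ i ∈ R, q i j * (∑ k ∈ C, Ψ i k) = ∑ j ∈ C, ∑ i ∈ R, Ψ i j := by
        rw [Finset.sum_comm]
        have : ∀ i ∈ R, ∑ j ∈ C, q i j * (∑ k ∈ C, Ψ i k) = ∑ k ∈ C, Ψ i k := by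
          intro i hi
          rw [← Finset.sum_mul, qrow i hi, one_mul]
        rw [Finset.sum_congr rfl this, Finset.sum_comm]
      have e2 : ∀ j ∈ C, ∑ i ∈ R, q i j * Real.log (s j) = Real.log (s j) := by
        intro j hj
        rw [← Finset.sum_mul, qcol j hj, one_mul]
      have e3 : ∀ j ∈ C, ∑ i ∈ R, V i j / s j = 1 := by
        intro j hj
        rw [← Finset.sum_div, ← hs, div_self (hsp j hj).ne']
      have e4 : ∀ j ∈ C, ∑ i ∈ R, (q i j * (∑ k ∈ C, Ψ i k - Ψ i j) + q i j * Real.log (s j) +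
          V i j / s j - q i j) = ∑ i ∈ R, q i j * (∑ k ∈ C, Ψ i k) -
            ∑ i ∈ R, q i j * Ψ i j + Real.log (s j) := by
        intro j hj
        rw [Finset.sum_sub_distrib, Finset.sum_add_distrib, Finset.sum_add_distrib, e2 j hj,
          e3 j hj, qcol j hj]
        simp only [mul_sub]
        rw [Finset.sum_sub_distrib]
        ring
      rw [Finset.sum_congr rfl e4, Finset.sum_add_distrib, Finset.sum_sub_distrib, e1,
        Finset.sum_add_distrib]
      simp only [sub_mul, one_mul]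
      simp only [Finset.sum_sub_distrib]
      ring
    rw [S1, S2] at hsum
    have hk : ∀ k ∈ C, Real.log (s k) + ∑ i ∈ R, (1 - q i k) * Ψ i k ≤
        (m + 1 : ℝ) * (Real.log (s k + κ) - 1) := by
      intro k hk
      have hsk := hsp k hk
      have hpos2 : 0 < s k + κ := by positivity
      have e1 : ∑ i ∈ R, (1 - q i k) * Ψ i k = (m : ℝ) * (Real.log (s k + κ) - 1) -
          (s k - ∑ i ∈ R, q i k * V i k) / (s k + κ) := by
        have : ∀ i ∈ R, (1 - q i k) * Ψ i k = (1 - q i k) * (Real.log (s k + κ) - 1) -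
            (V i k - q i k * V i k) / (s k + κ) := by
          intro i _
          rw [hΨ]; ring
        rw [Finset.sum_congr rfl this, Finset.sum_sub_distrib, ← Finset.sum_mul,
          ← Finset.sum_div, Finset.sum_sub_distrib, Finset.sum_sub_distrib, qcol k hk, ← hs,
          Finset.sum_const, hR, nsmul_eq_mul]
        push_cast; ring
      have e2 : ∑ i ∈ R, q i k * V i k ≤ δ := by
        calc ∑ i ∈ R, q i k * V i k ≤ ∑ i ∈ R, q i k * δ :=
              Finset.sum_le_sum fun i _ => mul_le_mul_of_nonneg_left (hVδ i k) (q0 i k)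
          _ = δ := by rw [← Finset.sum_mul, qcol k hk, one_mul]
      have e3 := breg_scalar hsk (hcol k hk) hδp hδ1
      rw [← hκdef] at e3
      have e4 : (s k - δ) / (s k + κ) ≤ (s k - ∑ i ∈ R, q i k * V i k) / (s k + κ) :=
        div_le_div_of_nonneg_right (by linarith) hpos2.le
      have e5 : (κ + δ) / (s k + κ) = 1 - (s k - δ) / (s k + κ) := by
        field_simp; ring
      rw [e1]
      rw [e5] at e3
      linarith
    have hfin : (m + 1 : ℝ) * Real.log per ≤ (m + 1 : ℝ) * ∑ k ∈ C, (Real.log (s k + κ) - 1) := by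
      rw [Finset.mul_sum]
      exact hsum.trans (Finset.sum_le_sum hk)
    have hfin2 : Real.log per ≤ ∑ k ∈ C, (Real.log (s k + κ) - 1) :=
      le_of_mul_le_mul_left hfin (by positivity)
    have hpos : ∀ k ∈ C, (s k + κ) / Real.exp 1 ≠ 0 := by
      intro k _
      have := hs0 k
      positivity
    have e1 : ∑ k ∈ C, (Real.log (s k + κ) - 1) = Real.log (∏ k ∈ C, (s k + κ) / Real.exp 1) := by
      rw [Real.log_prod hpos]
      apply Finset.sum_congr rfl
      intro k _
      have := hs0 k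
      rw [Real.log_div (by positivity) (Real.exp_pos 1).ne', Real.log_exp]
    rw [e1] at hfin2
    rwa [Real.log_le_log_iff hper (Finset.prod_pos fun k _ => by
      have := hs0 k
      positivity)] at hfin2

theorem bregman {V : Matrix (Fin n) (Fin n) ℝ} {δ : ℝ} (hδ0 : 0 ≤ δ) (hδ1 : δ ≤ 1)
    (hV : ∀ i j, 0 ≤ V i j) (hVδ : ∀ i j, V i j ≤ δ) (R C : Finset (Fin n))
    (hcard : R.card = C.card) (hcol : ∀ j ∈ C, ∑ i ∈ R, V i j ≤ 1) :
    F V 0 0 R C ≤ ∏ j ∈ C, ((∑ i ∈ R, V i j + 2 * Real.sqrt δ) / Real.exp 1) :=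
  breg_aux hδ0 hδ1 hV hVδ C.card R C hcard rfl hcol

end Pool.Agent.Circ
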