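import Pool.Agent.Lib.Circ.DetReg2

/-!
# Module L: circle averages
-/

set_option autoImplicit false

open MeasureTheory ProbabilityTheory Filter Matrix Finset

namespace Pool.Agent.Circ

variable {n : ℕ}

theorem circ_codisc (s : Multiset ℂ) (A : Set ℂ) :
    {z : ℂ | z ∉ s} ∈ codiscreteWithin A := by
  apply codiscreteWithin_iff_locallyFiniteComplementWithin.2
  intro z hz
  refine ⟨Set.univ, Filter.univ_mem, ?_⟩
  apply Set.Finite.subset (s.toFinset.finite_toSet)
  intro w hw
  have h := hw.2.2
  simp only [Set.mem_ofPred_eq, not_not] at h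
  simpa only [Finset.mem_coe, Multiset.mem_toFinset] using h

theorem circ_log_prod (s : Multiset ℂ) (z : ℂ) (hz : z ∉ s) :
    Real.log ((s.map fun l => ‖z - l‖).prod) = (s.map fun l => Real.log ‖z - l‖).sum := by
  induction s using Multiset.induction_on with
  | empty => simp
  | cons a s ih =>
    rw [Multiset.mem_cons, not_or] at hz
    have h0 : ‖z - a‖ ≠ 0 := norm_ne_zero_iff.2 (sub_ne_zero.2 hz.1)
    have h1 : (s.map fun l => ‖z - l‖).prod ≠ 0 := by
      apply Multiset.prod_ne_zero
      intro h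
      obtain ⟨l, hl, hl2⟩ := Multiset.mem_map.1 h
      exact hz.2 (by rwa [sub_eq_zero.1 (norm_eq_zero.1 hl2)])
    rw [Multiset.map_cons, Multiset.prod_cons, Multiset.map_cons, Multiset.sum_cons,
      Real.log_mul h0 h1, ih hz.2]

theorem circ_int_one (l c : ℂ) (r : ℝ) :
    CircleIntegrable (fun z => Real.log ‖z - l‖) c r :=
  MeromorphicOn.circleIntegrable_log_norm (fun _ _ => by fun_prop)

theorem circ_int_sum (s : Multiset ℂ) (c : ℂ) (r : ℝ) :
    CircleIntegrable (fun z => (s.map fun l => Real.log ‖z - l‖).sum) c r := by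
  induction s using Multiset.induction_on with
  | empty => simpa using circleIntegrable_const (0 : ℝ) c r
  | cons a s ih =>
    simp only [Multiset.map_cons, Multiset.sum_cons]
    exact (circ_int_one a c r).add ih

theorem circ_avg_one (l c : ℂ) {r : ℝ} (hr : 0 < r) :
    Real.circleAverage (fun z => Real.log ‖z - l‖) c r = Real.log (max ‖l - c‖ r) := by
  have h := circleAverage_log_norm_sub_const_eq_log_radius_add_posLog (a := l) (c := c) hr.ne'
  rw [h, norm_sub_rev c l]
  change Real.log r + max 0 (Real.log (r⁻¹ * ‖l - c‖)) = _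
  rcases le_total ‖l - c‖ r with h1 | h1
  · rw [max_eq_right h1]
    have h2 : r⁻¹ * ‖l - c‖ ≤ 1 := by
      rw [inv_mul_le_iff₀ hr, mul_one]; exact h1
    rw [max_eq_left, add_zero]
    exact Real.log_nonpos (by positivity) h2
  · rw [max_eq_left h1]
    have h0 : 0 < ‖l - c‖ := lt_of_lt_of_le hr h1
    have h2 : 1 ≤ r⁻¹ * ‖l - c‖ := by
      rw [le_inv_mul_iff₀ hr, mul_one]; exact h1
    rw [max_eq_right (Real.log_nonneg h2), Real.log_mul (by positivity) h0.ne', Real.log_inv]
    ring

theorem circ_avg_sum (s : Multiset ℂ) (c : ℂ) {r : ℝ} (hr : 0 < r) :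
    Real.circleAverage (fun z => (s.map fun l => Real.log ‖z - l‖).sum) c r =
      (s.map fun l => Real.log (max ‖l - c‖ r)).sum := by
  induction s using Multiset.induction_on with
  | empty => simp [Real.circleAverage_const]
  | cons a s ih =>
    simp only [Multiset.map_cons, Multiset.sum_cons]
    rw [← circ_avg_one a c hr, ← ih]
    exact Real.circleAverage_add (circ_int_one a c r) (circ_int_sum s c r)

theorem circ_det_eq (X : Matrix (Fin n) (Fin n) ℂ) (z : ℂ) :
    ‖(X - z • (1 : Matrix (Fin n) (Fin n) ℂ)).det‖ = (X.charpoly.roots.map fun l => ‖z - l‖).prod := by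
  have h1 : X.charpoly.eval z = (X.charpoly.roots.map fun l => z - l).prod := by
    exact (IsAlgClosed.splits X.charpoly).eval_eq_prod_roots_of_monic (Matrix.charpoly_monic X) z
  have h2 : X.charpoly.eval z = (z • (1 : Matrix (Fin n) (Fin n) ℂ) - X).det := by
    rw [Matrix.eval_charpoly]
    congr 2
    ext i j
    simp [Matrix.scalar_apply, Matrix.diagonal, Matrix.one_apply]
  have h3 : (X - z • (1 : Matrix (Fin n) (Fin n) ℂ)).det =
      (-1) ^ n * (z • (1 : Matrix (Fin n) (Fin n) ℂ) - X).det := by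
    rw [← neg_sub, Matrix.det_neg, Fintype.card_fin]
  rw [h3, ← h2, h1, norm_mul, norm_pow, norm_neg, norm_one, one_pow, one_mul]
  generalize X.charpoly.roots = s
  induction s using Multiset.induction_on with
  | empty => simp
  | cons a s ih => simp only [Multiset.map_cons, Multiset.prod_cons, norm_mul, ih]

theorem circ_congr (X : Matrix (Fin n) (Fin n) ℂ) (A : Set ℂ) :
    (fun z => Real.log (‖(X - z • (1 : Matrix (Fin n) (Fin n) ℂ)).det‖ ^ 2))
      =ᶠ[codiscreteWithin A]
    (fun z => (2 : ℝ) • (X.charpoly.roots.map fun l => Real.log ‖z - l‖).sum) := by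
  filter_upwards [circ_codisc X.charpoly.roots A] with z hz
  rw [circ_det_eq, Real.log_pow, circ_log_prod _ _ hz]
  simp

/-- Jensen's formula for the characteristic polynomial. -/
theorem circle_det (X : Matrix (Fin n) (Fin n) ℂ) (c : ℂ) {r : ℝ} (hr : 0 < r) :
    Real.circleAverage (fun z => Real.log (‖(X - z • (1 : Matrix (Fin n) (Fin n) ℂ)).det‖ ^ 2))
        c r =
      2 * (X.charpoly.roots.map (fun l => Real.log (max ‖l - c‖ r))).sum := by
  rw [Real.circleAverage_congr_codiscreteWithin (circ_congr X _) hr.ne', ← circ_avg_sum _ c hr]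
  exact Real.circleAverage_smul (a := (2 : ℝ))
    (f := fun z => (X.charpoly.roots.map fun l => Real.log ‖z - l‖).sum)

theorem circle_integrable (X : Matrix (Fin n) (Fin n) ℂ) (c : ℂ) {r : ℝ} (_hr : 0 < r) :
    CircleIntegrable (fun z => Real.log (‖(X - z • (1 : Matrix (Fin n) (Fin n) ℂ)).det‖ ^ 2))
        c r := by
  have h := (circ_int_sum X.charpoly.roots c r).const_smul (a := (2 : ℝ))
  exact h.congr_codiscreteWithin (circ_congr X _).symm

theorem circ_cont {α : Type*} [TopologicalSpace α] {f : α → ℝ}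
    {g : α → Matrix (Fin n) (Fin n) ℂ} (hf : Continuous f) (hg : Continuous g) :
    Continuous fun a => D (f a) (g a) := by
  have h3 : Continuous (fun a => ((f a, g a) : ℝ × Matrix (Fin n) (Fin n) ℂ)) := hf.prodMk hg
  have h4 := D_continuous (n := n)
  have h5 := h4.comp h3
  exact h5

theorem circ_cont_mat {α : Type*} [TopologicalSpace α] {g : α → ℂ}
    (hg : Continuous g) (X : Matrix (Fin n) (Fin n) ℂ) :
    Continuous fun a => (X - g a • (1 : Matrix (Fin n) (Fin n) ℂ)) := by
  apply continuous_matrix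
  intro i j
  simp only [Matrix.sub_apply, Matrix.smul_apply, smul_eq_mul]
  fun_prop

theorem circ_cont_log (X : Matrix (Fin n) (Fin n) ℂ) (c : ℂ) (r : ℝ) {τ : ℝ} (hτ : 0 < τ) :
    Continuous (fun θ : ℝ =>
      Real.log (D τ (X - circleMap c r θ • (1 : Matrix (Fin n) (Fin n) ℂ)))) := by
  have h2 := circ_cont (f := fun _ : ℝ => τ) continuous_const
    (circ_cont_mat (continuous_circleMap c r) X)
  exact h2.log (fun θ => (D_pos hτ _).ne')

/-- The regularised averages decrease to the average of `log |det|²`. -/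
theorem circle_tendsto (X : Matrix (Fin n) (Fin n) ℂ) (c : ℂ) {r : ℝ} (hr : 0 < r) :
    Tendsto (fun τ : ℝ => Real.circleAverage
        (fun z => Real.log (D τ (X - z • (1 : Matrix (Fin n) (Fin n) ℂ)))) c r)
      (nhdsWithin 0 (Set.Ioi 0))
      (nhds (2 * (X.charpoly.roots.map (fun l => Real.log (max ‖l - c‖ r))).sum)) := by
  rw [← circle_det X c hr]
  unfold Real.circleAverage
  apply Tendsto.const_smul
  have hc : (circleMap c r ⁻¹' {z : ℂ | z ∈ X.charpoly.roots}).Countable := by
    have h1 : {z : ℂ | z ∈ X.charpoly.roots}.Countable := by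
      apply Set.Countable.mono _ (X.charpoly.roots.toFinset.finite_toSet.countable)
      intro z hz
      simpa using hz
    exact h1.preimage_circleMap c hr.ne'
  have hae : ∀ᵐ θ : ℝ, θ ∈ Set.uIoc 0 (2 * Real.pi) → circleMap c r θ ∉ X.charpoly.roots := by
    filter_upwards [hc.ae_notMem volume] with θ hθ _
    exact hθ
  apply intervalIntegral.tendsto_integral_filter_of_dominated_convergence
    (fun θ => |Real.log (‖(X - circleMap c r θ • (1 : Matrix (Fin n) (Fin n) ℂ)).det‖ ^ 2)| +
      |Real.log (D 1 (X - circleMap c r θ • (1 : Matrix (Fin n) (Fin n) ℂ)))|)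
  · filter_upwards [self_mem_nhdsWithin] with τ hτ
    exact (circ_cont_log X c r hτ).aestronglyMeasurable
  · have h1 : ∀ᶠ τ : ℝ in nhdsWithin 0 (Set.Ioi 0), τ < 1 :=
      nhdsWithin_le_nhds (gt_mem_nhds one_pos)
    filter_upwards [self_mem_nhdsWithin, h1] with τ hτ hτ1
    filter_upwards [hae] with θ hθ hθ2
    have h0 := hθ hθ2
    set A := X - circleMap c r θ • (1 : Matrix (Fin n) (Fin n) ℂ) with hA
    have hτ' : 0 < τ := hτ
    have hdet : 0 < ‖A.det‖ ^ 2 := by
      rw [hA, circ_det_eq]
      apply pow_pos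
      apply lt_of_le_of_ne
      · apply Multiset.prod_nonneg
        intro a ha
        obtain ⟨l, _, rfl⟩ := Multiset.mem_map.1 ha
        exact norm_nonneg _
      · intro h
        obtain ⟨l, hl, hl2⟩ := Multiset.mem_map.1 (Multiset.prod_eq_zero_iff.1 h.symm)
        exact h0 (by rwa [sub_eq_zero.1 (norm_eq_zero.1 hl2)])
    have hl : ‖A.det‖ ^ 2 ≤ D τ A := by
      rw [← D_zero]; exact D_mono le_rfl hτ'.le A
    have hu : D τ A ≤ D 1 A := D_mono hτ'.le hτ1.le A
    have h3 := Real.log_le_log hdet hl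
    have h4 := Real.log_le_log (D_pos hτ' A) hu
    rw [Real.norm_eq_abs, abs_le]
    constructor
    · have h5 := neg_abs_le (Real.log (‖A.det‖ ^ 2))
      have h6 := abs_nonneg (Real.log (D 1 A))
      linarith
    · have h5 := le_abs_self (Real.log (D 1 A))
      have h6 := abs_nonneg (Real.log (‖A.det‖ ^ 2))
      linarith
  · have h1 : CircleIntegrable (fun z => Real.log (‖(X - z • (1 : Matrix (Fin n) (Fin n) ℂ)).det‖ ^ 2))
        c r := circle_integrable X c hr
    apply IntervalIntegrable.add
    · exact h1.abs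
    · exact ((circ_cont_log X c r one_pos).abs).intervalIntegrable _ _
  · filter_upwards [hae] with θ hθ hθ2
    have h0 := hθ hθ2
    set A := X - circleMap c r θ • (1 : Matrix (Fin n) (Fin n) ℂ) with hA
    have hdet : ‖A.det‖ ^ 2 ≠ 0 := by
      rw [hA, circ_det_eq]
      apply pow_ne_zero
      intro h
      obtain ⟨l, hl, hl2⟩ := Multiset.mem_map.1 (Multiset.prod_eq_zero_iff.1 h)
      exact h0 (by rwa [sub_eq_zero.1 (norm_eq_zero.1 hl2)])
    have h2 : Tendsto (fun τ : ℝ => D τ A) (nhdsWithin 0 (Set.Ioi 0)) (nhds (D 0 A)) := by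
      have h3 : Continuous (fun τ : ℝ => D τ A) := circ_cont continuous_id continuous_const
      exact (h3.tendsto 0).mono_left nhdsWithin_le_nhds
    rw [D_zero] at h2
    exact h2.log hdet

end Pool.Agent.Circ
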