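import Pool.Agent.Lib.Circ.Defs

/-!
# Module L2: the potential of the circular law

`psi (‖z‖²) = 2 * (1/π) ∫_{closedBall 0 1} log ‖w - z‖ dw` (polar coordinates and
`circleAverage` of `log ‖· - z‖` over the circle of radius `ρ` equal to `log (max ‖z‖ ρ)`,
`∫_0^1 2 ρ log (max a ρ) dρ = (a² - 1)/2` for `a ≤ 1`, `log a` for `a ≥ 1`), then Fubini and
`circleAverage (log ‖w - ·‖) c r = log (max ‖w - c‖ r)`.
-/

set_option autoImplicit false

open MeasureTheory ProbabilityTheory Filter Matrix Finset

namespace Pool.Agent.Circ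

variable {n : ℕ}

theorem cp_avg (a c : ℂ) {R : ℝ} (hR : 0 < R) :
    Real.circleAverage (fun z => Real.log ‖z - a‖) c R = Real.log (max ‖a - c‖ R) := by
  have h := circleAverage_log_norm_sub_const_eq_log_radius_add_posLog (a := a) (c := c) hR.ne'
  rw [h, norm_sub_rev c a]
  rcases le_or_gt ‖a - c‖ R with h1 | h1
  · rw [max_eq_right h1, Real.posLog_eq_zero_iff _ |>.mpr, add_zero]
    rw [abs_of_nonneg (by positivity), inv_mul_le_iff₀ hR]
    linarith
  · rw [max_eq_left h1.le]
    have h2 : 0 < ‖a - c‖ := hR.trans h1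
    rw [Real.posLog_eq_log, Real.log_mul (inv_ne_zero hR.ne') h2.ne', Real.log_inv]
    · ring
    · rw [abs_of_nonneg (by positivity), le_inv_mul_iff₀ hR]
      linarith

theorem cp_periodic (a c : ℂ) (R : ℝ) :
    Function.Periodic (fun θ => Real.log ‖circleMap c R θ - a‖) (2 * Real.pi) :=
  fun x ↦ by simp [periodic_circleMap c R x]

theorem cp_ii (a c : ℂ) (R b : ℝ) :
    IntervalIntegrable (fun θ => Real.log ‖circleMap c R θ - a‖) volume b (b + 2 * Real.pi) := by
  have h : CircleIntegrable (fun z => Real.log ‖z - a‖) c R :=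
    circleIntegrable_log_norm_sub_const R
  have h2 : IntervalIntegrable (fun θ => Real.log ‖circleMap c R θ - a‖) volume 0
      (2 * Real.pi) := h
  exact (cp_periodic a c R).intervalIntegrable₀ (by positivity) h2 _ _

theorem cp_io (a c : ℂ) (R b : ℝ) :
    IntegrableOn (fun θ => Real.log ‖circleMap c R θ - a‖) (Set.Ioc b (b + 2 * Real.pi)) volume := by
  have := cp_ii a c R b
  rwa [intervalIntegrable_iff_integrableOn_Ioc_of_le (by linarith [Real.pi_pos])] at this

theorem cp_int_eq (a c : ℂ) {R : ℝ} (hR : 0 < R) (b : ℝ) :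
    ∫ θ in Set.Ioc b (b + 2 * Real.pi), Real.log ‖circleMap c R θ - a‖ =
      2 * Real.pi * Real.log (max ‖a - c‖ R) := by
  rw [← intervalIntegral.integral_of_le (by linarith [Real.pi_pos])]
  rw [(cp_periodic a c R).intervalIntegral_add_eq b 0, zero_add]
  rw [← cp_avg a c hR, Real.circleAverage_def, smul_eq_mul]
  field_simp

theorem cp_abs_le (a c : ℂ) {R : ℝ} (hR : 0 < R) (b : ℝ) {M : ℝ} (hM1 : 1 ≤ M)
    (hM : ‖c‖ + ‖a‖ + R ≤ M) :
    ∫ θ in Set.Ioc b (b + 2 * Real.pi), ‖Real.log ‖circleMap c R θ - a‖‖ ≤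
      4 * Real.pi * Real.log M - 2 * Real.pi * Real.log (max ‖a - c‖ R) := by
  rw [← cp_int_eq a c hR b]
  have hfin : volume (Set.Ioc b (b + 2 * Real.pi)) ≠ ⊤ := measure_Ioc_lt_top.ne
  have h0 : 4 * Real.pi * Real.log M = ∫ θ in Set.Ioc b (b + 2 * Real.pi), 2 * Real.log M := by
    rw [setIntegral_const]
    simp only [measureReal_def, Real.volume_Ioc, smul_eq_mul]
    rw [ENNReal.toReal_ofReal (by linarith [Real.pi_pos])]
    ring
  have hconst : IntegrableOn (fun _ : ℝ => 2 * Real.log M) (Set.Ioc b (b + 2 * Real.pi)) volume :=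
    integrableOn_const (hs := hfin)
  rw [h0, ← integral_sub hconst (cp_io a c R b)]
  apply setIntegral_mono (cp_io a c R b).norm (hconst.sub (cp_io a c R b))
  intro θ
  simp only [Real.norm_eq_abs, Pi.sub_apply]
  have h1 : ‖circleMap c R θ - a‖ ≤ M := by
    have h2 : ‖circleMap c R θ‖ ≤ ‖c‖ + R := by
      have := norm_sub_norm_le (circleMap c R θ) c
      have h3 : ‖circleMap c R θ - c‖ = R := by
        rw [circleMap_sub_center]
        simp [norm_circleMap_zero, abs_of_pos hR]
      linarith
    linarith [norm_sub_le (circleMap c R θ) a]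
  have hlM : 0 ≤ Real.log M := Real.log_nonneg hM1
  rcases eq_or_lt_of_le (norm_nonneg (circleMap c R θ - a)) with h4 | h4
  · rw [← h4, Real.log_zero, abs_zero]; linarith
  · have h5 := Real.log_le_log h4 h1
    rw [abs_le]
    constructor <;> linarith

/-- Joint integrability. -/
theorem cp_integrable {X : Type*} [MeasurableSpace X] (μ : Measure X) [IsFiniteMeasure μ]
    (c a : X → ℂ) (R : X → ℝ) (hc : Measurable c) (ha : Measurable a) (hR : Measurable R)
    {M : ℝ} (hM1 : 1 ≤ M) (hM : ∀ᵐ x ∂μ, ‖c x‖ + ‖a x‖ + R x ≤ M) (hRpos : ∀ᵐ x ∂μ, 0 < R x)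
    (hL : Integrable (fun x => Real.log (max ‖a x - c x‖ (R x))) μ) (b : ℝ) :
    Integrable (fun p : X × ℝ => Real.log ‖circleMap (c p.1) (R p.1) p.2 - a p.1‖)
      (μ.prod (volume.restrict (Set.Ioc b (b + 2 * Real.pi)))) := by
  have hmeas : Measurable
      (fun p : X × ℝ => Real.log ‖circleMap (c p.1) (R p.1) p.2 - a p.1‖) := by
    unfold circleMap
    fun_prop
  rw [integrable_prod_iff hmeas.aestronglyMeasurable]
  refine ⟨?_, ?_⟩
  · filter_upwards with x
    exact cp_io (a x) (c x) (R x) b
  · refine Integrable.mono' (g := fun x => 4 * Real.pi * Real.log M -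
      2 * Real.pi * Real.log (max ‖a x - c x‖ (R x))) ?_ ?_ ?_
    · exact (integrable_const _).sub (hL.const_mul _)
    · exact hmeas.aestronglyMeasurable.norm.integral_prod_right'
    · filter_upwards [hM, hRpos] with x hx hx'
      rw [Real.norm_eq_abs, abs_of_nonneg (integral_nonneg fun _ => norm_nonneg _)]
      exact cp_abs_le (a x) (c x) hx' b hM1 hx

theorem cp_psi_eq (p : ℝ) : psi p = (min p 1 - 1) + Real.log (max p 1) := by
  unfold psi
  split_ifs with h
  · rw [min_eq_left h, max_eq_right h]; simp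
  · push Not at h
    rw [min_eq_right h.le, max_eq_left h.le]; simp

theorem psi_continuous : Continuous psi := by
  have : psi = fun p => (min p 1 - 1) + Real.log (max p 1) := funext cp_psi_eq
  rw [this]
  have h1 : Continuous fun p : ℝ => Real.log (max p 1) :=
    Continuous.log (by fun_prop) (fun x => (lt_of_lt_of_le one_pos (le_max_right x 1)).ne')
  exact ((continuous_id.min continuous_const).sub continuous_const).add h1

theorem circle_psi_integrable (c : ℂ) (r : ℝ) :
    CircleIntegrable (fun z => psi (‖z‖ ^ 2)) c r := by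
  apply ContinuousOn.circleIntegrable'
  exact (psi_continuous.comp (by fun_prop)).continuousOn

theorem cp_log_max_integrable (a : ℝ) :
    IntegrableOn (fun ρ : ℝ => Real.log (max a ρ)) (Set.Ioc 0 1) volume := by
  have h1 : IntegrableOn Real.log (Set.Ioc 0 1) volume := by
    have := intervalIntegral.intervalIntegrable_log' (a := 0) (b := 1)
    rwa [intervalIntegrable_iff_integrableOn_Ioc_of_le zero_le_one] at this
  have h2 : IntegrableOn (fun _ : ℝ => |Real.log (|a| + 1)|) (Set.Ioc (0 : ℝ) 1) volume :=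
    integrableOn_const (hs := measure_Ioc_lt_top.ne)
  refine Integrable.mono' (h1.norm.add h2) ?_ ?_
  · exact (by fun_prop : Measurable fun ρ : ℝ => Real.log (max a ρ)).aestronglyMeasurable
  · refine (ae_restrict_iff' measurableSet_Ioc).mpr (ae_of_all _ ?_)
    intro ρ hρ
    have h3 : ρ ≤ max a ρ := le_max_right _ _
    have h4 : max a ρ ≤ |a| + 1 := max_le (by linarith [le_abs_self a]) (by linarith [abs_nonneg a, hρ.2])
    have h5 := Real.log_le_log hρ.1 h3
    have h6 := Real.log_le_log (hρ.1.trans_le h3) h4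
    simp only [Pi.add_apply, Real.norm_eq_abs]
    rw [abs_le]
    constructor
    · have := neg_abs_le (Real.log ρ)
      have := abs_nonneg (Real.log (|a| + 1))
      linarith
    · have := le_abs_self (Real.log (|a| + 1))
      have := abs_nonneg (Real.log ρ)
      linarith

theorem cp_radial {a : ℝ} (ha : 0 ≤ a) :
    ∫ ρ in Set.Ioc (0 : ℝ) 1, ρ * Real.log (max a ρ) = psi (a ^ 2) / 4 := by
  rw [← intervalIntegral.integral_of_le zero_le_one]
  have hint : IntervalIntegrable (fun ρ : ℝ => ρ * Real.log (max a ρ)) volume 0 1 := by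
    have h1 : IntervalIntegrable (fun ρ : ℝ => Real.log (max a ρ)) volume 0 1 := by
      rw [intervalIntegrable_iff_integrableOn_Ioc_of_le zero_le_one]
      exact cp_log_max_integrable a
    exact h1.continuousOn_mul continuousOn_id
  rcases le_or_gt a 1 with h1 | h1
  · -- a ≤ 1
    have hpsi : psi (a ^ 2) = a ^ 2 - 1 := by
      unfold psi
      rw [if_pos (by nlinarith)]
    rw [hpsi]
    have key := integral_eq_of_hasDerivAt_off_countable_of_le
      (fun ρ : ℝ => ρ * (ρ * Real.log (max a ρ)) / 2 - (max a ρ) ^ 2 / 4)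
      (fun ρ : ℝ => ρ * Real.log (max a ρ)) (a := 0) (b := 1) zero_le_one
      (Set.countable_singleton a) ?_ ?_ hint
    · rw [key]
      simp only [max_eq_right h1, max_eq_left ha]
      simp
      ring
    · apply ContinuousOn.sub
      · apply ContinuousOn.div_const
        apply ContinuousOn.mul continuousOn_id
        rcases eq_or_lt_of_le ha with h0 | h0
        · rw [← h0]
          refine Real.continuous_mul_log.continuousOn.congr ?_
          intro x hx
          simp only [max_eq_right hx.1]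
        · apply ContinuousOn.mul continuousOn_id
          exact ContinuousOn.log (by fun_prop)
            (fun x _ => (lt_of_lt_of_le h0 (le_max_left a x)).ne')
      · fun_prop
    · intro x hx
      have hx0 : 0 < x := hx.1.1
      rcases lt_or_gt_of_ne (fun h : x = a => hx.2 h) with h2 | h2
      · have hev : (fun ρ : ℝ => ρ * (ρ * Real.log (max a ρ)) / 2 - (max a ρ) ^ 2 / 4) =ᶠ[nhds x]
            (fun ρ : ℝ => ρ * (ρ * Real.log a) / 2 - a ^ 2 / 4) := by
          filter_upwards [Iio_mem_nhds h2] with y hy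
          rw [max_eq_left (Set.mem_Iio.mp hy).le]
        rw [max_eq_left h2.le]
        refine HasDerivAt.congr_of_eventuallyEq ?_ hev
        have := (((hasDerivAt_id x).mul ((hasDerivAt_id x).mul_const (Real.log a))).div_const
          2).sub_const (a ^ 2 / 4)
        refine this.congr_deriv ?_
        simp
      · have hev : (fun ρ : ℝ => ρ * (ρ * Real.log (max a ρ)) / 2 - (max a ρ) ^ 2 / 4) =ᶠ[nhds x]
            (fun ρ : ℝ => ρ * (ρ * Real.log ρ) / 2 - ρ ^ 2 / 4) := by
          filter_upwards [Ioi_mem_nhds h2] with y hy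
          rw [max_eq_right (Set.mem_Ioi.mp hy).le]
        rw [max_eq_right h2.le]
        refine HasDerivAt.congr_of_eventuallyEq ?_ hev
        have := (((hasDerivAt_id x).mul ((hasDerivAt_id x).mul (Real.hasDerivAt_log hx0.ne'))).div_const
          2).sub (((hasDerivAt_id x).pow 2).div_const 4)
        refine this.congr_deriv ?_
        simp
        try field_simp
        try ring
  · have hpsi : psi (a ^ 2) = 2 * Real.log a := by
      unfold psi
      rw [if_neg (by nlinarith), Real.log_pow]
      norm_num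
    rw [hpsi]
    have h2 : ∫ ρ in (0 : ℝ)..1, ρ * Real.log (max a ρ) = ∫ ρ in (0 : ℝ)..1, ρ * Real.log a := by
      apply intervalIntegral.integral_congr
      intro x hx
      rw [Set.uIcc_of_le zero_le_one] at hx
      simp only
      rw [max_eq_left (by linarith [hx.2])]
    rw [h2, intervalIntegral.integral_mul_const, integral_id]
    ring

/-- The potential of the circular law. -/
theorem cp_ball (z : ℂ) :
    ∫ w in Metric.closedBall (0 : ℂ) 1, Real.log ‖w - z‖ = Real.pi / 2 * psi (‖z‖ ^ 2) := by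
  rw [← integral_indicator Metric.isClosed_closedBall.measurableSet,
    ← Complex.integral_comp_polarCoord_symm]
  have hpi := Real.pi_pos
  -- reduce to the rectangle
  have h1 : ∫ p in polarCoord.target, p.1 • (Metric.closedBall (0 : ℂ) 1).indicator
      (fun w => Real.log ‖w - z‖) (Complex.polarCoord.symm p) =
      ∫ p in (Set.Ioc (0 : ℝ) 1) ×ˢ (Set.Ioc (-Real.pi) (-Real.pi + 2 * Real.pi)),
        p.1 * Real.log ‖circleMap 0 p.1 p.2 - z‖ := by
    have e1 : (Set.Ioc (0 : ℝ) 1) ×ˢ (Set.Ioc (-Real.pi) (-Real.pi + 2 * Real.pi)) =ᵐ[volume]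
        (Set.Ioc (0 : ℝ) 1) ×ˢ (Set.Ioo (-Real.pi) Real.pi) := by
      have e2 : -Real.pi + 2 * Real.pi = Real.pi := by ring
      rw [e2]
      exact Measure.set_prod_ae_eq (ae_eq_refl _) Ioo_ae_eq_Ioc.symm
    rw [setIntegral_congr_set e1]
    have e3 : polarCoord.target = (Set.Ioi (0 : ℝ)) ×ˢ (Set.Ioo (-Real.pi) Real.pi) := rfl
    rw [e3]
    have hms : MeasurableSet ((Set.Ioi (0 : ℝ)) ×ˢ (Set.Ioo (-Real.pi) Real.pi)) :=
      measurableSet_Ioi.prod measurableSet_Ioo
    have hms2 : MeasurableSet ((Set.Ioc (0 : ℝ) 1) ×ˢ (Set.Ioo (-Real.pi) Real.pi)) :=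
      measurableSet_Ioc.prod measurableSet_Ioo
    rw [← integral_indicator hms, ← integral_indicator hms2]
    congr 1
    ext p
    simp only [Set.indicator, Set.mem_prod, Set.mem_Ioi, Set.mem_Ioo, Set.mem_Ioc,
      Metric.mem_closedBall, dist_zero_right, Complex.norm_polarCoord_symm]
    by_cases hp : 0 < p.1
    · rw [abs_of_pos hp]
      by_cases hp1 : p.1 ≤ 1
      · by_cases hp2 : -Real.pi < p.2 ∧ p.2 < Real.pi
        · rw [if_pos ⟨hp, hp2⟩, if_pos hp1, if_pos ⟨⟨hp, hp1⟩, hp2⟩, smul_eq_mul]
          congr 3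
          rw [Complex.polarCoord_symm_apply, circleMap, Complex.exp_mul_I]
          simp
        · rw [if_neg (fun h => hp2 h.2), if_neg (fun h => hp2 h.2)]
      · rw [if_neg hp1, smul_zero]
        simp [hp1]
    · rw [if_neg (fun h => hp h.1), if_neg (fun h => hp h.1.1)]
  rw [h1]
  have hfin : IsFiniteMeasure (volume.restrict (Set.Ioc (0 : ℝ) 1)) :=
    ⟨by rw [Measure.restrict_apply_univ]; exact measure_Ioc_lt_top⟩
  have hI := cp_integrable (volume.restrict (Set.Ioc (0 : ℝ) 1)) (fun _ => (0 : ℂ)) (fun _ => z)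
    (fun ρ => ρ) measurable_const measurable_const measurable_id (M := ‖z‖ + 1)
    (by linarith [norm_nonneg z])
    (by
      refine (ae_restrict_iff' measurableSet_Ioc).mpr (ae_of_all _ ?_)
      intro ρ hρ
      simp only [norm_zero]
      linarith [hρ.2])
    (by
      refine (ae_restrict_iff' measurableSet_Ioc).mpr (ae_of_all _ ?_)
      intro ρ hρ
      exact hρ.1)
    (by
      simp only [sub_zero]
      exact cp_log_max_integrable ‖z‖) (-Real.pi)
  have hI2 : Integrable (fun p : ℝ × ℝ => p.1 * Real.log ‖circleMap 0 p.1 p.2 - z‖)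
      ((volume.restrict (Set.Ioc (0 : ℝ) 1)).prod
        (volume.restrict (Set.Ioc (-Real.pi) (-Real.pi + 2 * Real.pi)))) := by
    refine Integrable.bdd_mul (c := 1) hI measurable_fst.aestronglyMeasurable ?_
    rw [Measure.prod_restrict]
    refine (ae_restrict_iff' (measurableSet_Ioc.prod measurableSet_Ioc)).mpr (ae_of_all _ ?_)
    intro p hp
    rw [Real.norm_eq_abs, abs_of_pos hp.1.1]
    exact hp.1.2
  rw [Measure.volume_eq_prod, ← Measure.prod_restrict, integral_prod _ hI2]
  have h2 : ∀ ρ ∈ Set.Ioc (0 : ℝ) 1,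
      ∫ θ in Set.Ioc (-Real.pi) (-Real.pi + 2 * Real.pi),
        ρ * Real.log ‖circleMap 0 ρ θ - z‖ = 2 * Real.pi * (ρ * Real.log (max ‖z‖ ρ)) := by
    intro ρ hρ
    rw [integral_const_mul, cp_int_eq z 0 hρ.1, sub_zero]
    ring
  rw [setIntegral_congr_fun measurableSet_Ioc h2, integral_const_mul, cp_radial (norm_nonneg z)]
  ring

/-- The potential of the circular law, averaged over a circle. -/
theorem circle_psi (c : ℂ) {r : ℝ} (hr : 0 < r) :
    Real.circleAverage (fun z => psi (‖z‖ ^ 2)) c r =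
      2 * ((1 / Real.pi) * ∫ w in Metric.closedBall (0 : ℂ) 1, Real.log (max ‖w - c‖ r)) := by
  have hpi := Real.pi_pos
  have h1 : (fun z : ℂ => psi (‖z‖ ^ 2)) =
      fun z => 2 / Real.pi * ∫ w in Metric.closedBall (0 : ℂ) 1, Real.log ‖w - z‖ := by
    funext z
    rw [cp_ball]
    field_simp
  rw [h1, Real.circleAverage_def, smul_eq_mul,
    intervalIntegral.integral_of_le (by positivity)]
  rw [integral_const_mul]
  have hfin : IsFiniteMeasure (volume.restrict (Metric.closedBall (0 : ℂ) 1)) :=
    ⟨by rw [Measure.restrict_apply_univ]; exact measure_closedBall_lt_top⟩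
  have hI := cp_integrable (volume.restrict (Metric.closedBall (0 : ℂ) 1)) (fun _ => c)
    (fun w => w) (fun _ => r) measurable_const measurable_id measurable_const
    (M := ‖c‖ + r + 1) (by linarith [norm_nonneg c])
    (by
      refine (ae_restrict_iff' Metric.isClosed_closedBall.measurableSet).mpr (ae_of_all _ ?_)
      intro w hw
      have : ‖w‖ ≤ 1 := by simpa using hw
      linarith)
    (ae_of_all _ fun _ => hr)
    (by
      have hcont : Continuous fun w : ℂ => Real.log (max ‖w - c‖ r) :=
        Continuous.log (by fun_prop) (fun x => (lt_of_lt_of_le hr (le_max_right _ _)).ne')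
      exact hcont.continuousOn.integrableOn_compact (isCompact_closedBall _ _)) 0
  have hsw := integral_integral_swap (f := fun (w : ℂ) (θ : ℝ) =>
    Real.log ‖circleMap c r θ - w‖) hI
  rw [zero_add] at hsw
  have h2 : ∀ θ : ℝ, ∫ w in Metric.closedBall (0 : ℂ) 1, Real.log ‖w - circleMap c r θ‖ =
      ∫ w in Metric.closedBall (0 : ℂ) 1, Real.log ‖circleMap c r θ - w‖ := by
    intro θ
    congr 1
    funext w
    rw [norm_sub_rev]
  simp_rw [h2]
  rw [← hsw]
  have h3 : ∀ w : ℂ, ∫ θ in Set.Ioc 0 (2 * Real.pi), Real.log ‖circleMap c r θ - w‖ =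
      2 * Real.pi * Real.log (max ‖w - c‖ r) := by
    intro w
    have := cp_int_eq w c hr 0
    rwa [zero_add] at this
  simp_rw [h3]
  rw [integral_const_mul]
  field_simp

end Pool.Agent.Circ
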