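import Pool.Agent.Lib.Circ.FixedZ
import Pool.Agent.Lib.Circ.Circle
import Pool.Agent.Lib.Circ.CirclePsi

/-!
# Module O: convergence of the circle averages in L¹
-/

set_option autoImplicit false

open MeasureTheory ProbabilityTheory Filter Matrix Finset

namespace Pool.Agent.Circ

variable {n : ℕ}

lemma core_Amat (U : Matrix (Fin n) (Fin n) ℝ) (z : ℂ) (x : Fin n → Fin n → ℂ) :
    Amat U z x = (Matrix.of fun i j => (U i j : ℂ) * x i j) -
      z • (1 : Matrix (Fin n) (Fin n) ℂ) := by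
  ext i j
  simp only [Amat, Matrix.of_apply, Matrix.sub_apply, Matrix.smul_apply, Matrix.one_apply,
    smul_eq_mul, mul_ite, mul_one, mul_zero]
  by_cases h : i = j
  · rw [if_pos h, if_pos h.symm]
  · rw [if_neg h, if_neg (fun e => h e.symm)]

lemma core_Amat_cont (U : Matrix (Fin n) (Fin n) ℝ) :
    Continuous (fun q : (Fin n → Fin n → ℂ) × ℂ => Amat U q.2 q.1) := by
  unfold Amat
  refine continuous_matrix fun i j => ?_
  simp only [Matrix.of_apply]
  split_ifs <;> fun_prop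

lemma core_D_cont (U : Matrix (Fin n) (Fin n) ℝ) (τ : ℝ) :
    Continuous (fun q : (Fin n → Fin n → ℂ) × ℂ => D τ (Amat U q.2 q.1)) := by
  have h := Continuous.comp (f := fun q : (Fin n → Fin n → ℂ) × ℂ =>
    ((τ, Amat U q.2 q.1) : ℝ × Matrix (Fin n) (Fin n) ℂ)) (D_continuous (n := n))
    (Continuous.prodMk continuous_const (core_Amat_cont U))
  exact h

lemma core_D_cont' (U : Matrix (Fin n) (Fin n) ℝ) (τ : ℝ) (z : ℂ) :
    Continuous (fun x : Fin n → Fin n → ℂ => D τ (Amat U z x)) := by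
  have h := Continuous.comp (f := fun x : Fin n → Fin n → ℂ =>
    ((x, z) : (Fin n → Fin n → ℂ) × ℂ)) (core_D_cont U τ)
    (Continuous.prodMk continuous_id continuous_const)
  exact h

lemma core_logD_cont (U : Matrix (Fin n) (Fin n) ℝ) {τ : ℝ} (hτ : 0 < τ) :
    Continuous (fun q : (Fin n → Fin n → ℂ) × ℂ => Real.log (D τ (Amat U q.2 q.1))) := by
  exact Continuous.log (core_D_cont U τ) fun q => (D_pos hτ _).ne'

lemma core_logD_circle (U : Matrix (Fin n) (Fin n) ℝ) {τ : ℝ} (hτ : 0 < τ)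
    (x : Fin n → Fin n → ℂ) (c : ℂ) {r : ℝ} (hr : 0 < r) :
    CircleIntegrable (fun z => Real.log (D τ (Amat U z x))) c r := by
  apply ContinuousOn.circleIntegrable hr.le
  exact ((core_logD_cont U hτ).comp (Continuous.prodMk_right x)).continuousOn

/-- the positive part of a circle average -/
lemma core_ofReal_avg {f : ℂ → ℝ} {c : ℂ} {r : ℝ} (hf : CircleIntegrable f c r) :
    ENNReal.ofReal (Real.circleAverage f c r) ≤
      ENNReal.ofReal (2 * Real.pi)⁻¹ *
        ∫⁻ θ in Set.Ioc 0 (2 * Real.pi), ENNReal.ofReal (f (circleMap c r θ)) := by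
  rw [Real.circleAverage_def, smul_eq_mul, ENNReal.ofReal_mul (by positivity)]
  have hpi : (0 : ℝ) ≤ 2 * Real.pi := by positivity
  rw [intervalIntegral.integral_of_le hpi]
  have hint : IntegrableOn (fun θ => f (circleMap c r θ)) (Set.Ioc 0 (2 * Real.pi)) := by
    have := (circleIntegrable_def f c r).1 hf
    rwa [intervalIntegrable_iff_integrableOn_Ioc_of_le hpi] at this
  have h1 : ENNReal.ofReal (∫ θ in Set.Ioc 0 (2 * Real.pi), f (circleMap c r θ)) ≤
      ∫⁻ θ in Set.Ioc 0 (2 * Real.pi), ENNReal.ofReal (f (circleMap c r θ)) := by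
    rw [integral_eq_lintegral_pos_part_sub_lintegral_neg_part hint]
    refine (ENNReal.ofReal_le_ofReal (sub_le_self _ ENNReal.toReal_nonneg)).trans ?_
    exact ENNReal.ofReal_toReal_le
  gcongr

/-- Tonelli for the positive parts of circle averages -/
lemma core_tonelli {Ω : Type*} [MeasurableSpace Ω] {P : Measure Ω} [SFinite P]
    {f : Ω → ℂ → ℝ} {c : ℂ} {r : ℝ} (hf : ∀ x, CircleIntegrable (f x) c r)
    (hm : Measurable (fun q : Ω × ℂ => f q.1 q.2)) {C : ENNReal}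
    (hC : ∀ θ : ℝ, ∫⁻ x, ENNReal.ofReal (f x (circleMap c r θ)) ∂P ≤ C) :
    ∫⁻ x, ENNReal.ofReal (Real.circleAverage (f x) c r) ∂P ≤ C := by
  have hm2 : Measurable (fun q : Ω × ℝ => ENNReal.ofReal (f q.1 (circleMap c r q.2))) := by
    apply Measurable.ennreal_ofReal
    exact hm.comp (measurable_fst.prodMk
      ((continuous_circleMap c r).measurable.comp measurable_snd))
  refine (lintegral_mono fun x => core_ofReal_avg (hf x)).trans ?_
  rw [lintegral_const_mul _ (Measurable.lintegral_prod_right hm2)]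
  rw [lintegral_lintegral_swap hm2.aemeasurable]
  have h1 : ∫⁻ θ in Set.Ioc 0 (2 * Real.pi), ∫⁻ x, ENNReal.ofReal (f x (circleMap c r θ)) ∂P ≤
      ∫⁻ _θ in Set.Ioc 0 (2 * Real.pi), C := lintegral_mono fun θ => hC θ
  rw [lintegral_const, Measure.restrict_apply_univ, Real.volume_Ioc, sub_zero] at h1
  calc ENNReal.ofReal (2 * Real.pi)⁻¹ *
        ∫⁻ θ in Set.Ioc 0 (2 * Real.pi), ∫⁻ x, ENNReal.ofReal (f x (circleMap c r θ)) ∂P
      ≤ ENNReal.ofReal (2 * Real.pi)⁻¹ * (C * ENNReal.ofReal (2 * Real.pi)) := by gcongr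
    _ = C * ENNReal.ofReal ((2 * Real.pi)⁻¹ * (2 * Real.pi)) := by
        rw [mul_left_comm, ← ENNReal.ofReal_mul (by positivity)]
    _ = C := by
        rw [inv_mul_cancel₀ (by positivity), ENNReal.ofReal_one, mul_one]

section bounds

variable {μ : Measure ℂ} [IsProbabilityMeasure μ] {m K α : ℝ} (hμ : Law4 μ m)
    {U : Matrix (Fin n) (Fin n) ℝ} {δ η ρ κ ω : ℝ} (hU : Profile U δ) (hδ0 : 0 ≤ δ) (hδ1 : δ ≤ 1)
    (hη : 0 < η) (hρ0 : 0 < ρ) (hρ1 : ρ ≤ 1) (hκ : κ = 2 * Real.sqrt δ + Real.exp 1 * η)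
    (hκ1 : κ ≤ 1) (hω : ω = η + 2 * κ + ρ + 2 * δ / (ρ * κ))
include hμ hU hδ0 hδ1 hη hρ0 hρ1 hκ hκ1 hω

lemma core_pos (z : ℂ) {τ : ℝ} (hτ : 0 < τ) (hτη : τ ≤ η) :
    ∫⁻ x, ENNReal.ofReal (Real.log (D τ (Amat U z x)) - n * psi (‖z‖ ^ 2)) ∂(arr μ n) ≤
      ENNReal.ofReal (n * ω + 1) := by
  have hprob : IsProbabilityMeasure (arr μ n) := by unfold arr; infer_instance
  have hω0 : 0 ≤ ω := by
    have : 0 < κ := by rw [hκ]; positivity
    rw [hω]; positivity
  have hc : Continuous (fun x : Fin n → Fin n → ℂ => D η (Amat U z x)) :=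
    core_D_cont' U η z
  have hpt : ∀ x, ENNReal.ofReal (Real.log (D τ (Amat U z x)) - n * psi (‖z‖ ^ 2)) ≤
      ENNReal.ofReal (n * ω) + ENNReal.ofReal (Real.exp (-(n * (psi (‖z‖ ^ 2) + ω)))) *
        ENNReal.ofReal (D η (Amat U z x)) := by
    intro x
    rw [← ENNReal.ofReal_mul (by positivity), ← ENNReal.ofReal_add (by positivity)
      (mul_nonneg (by positivity) (D_nonneg _ _))]
    apply ENNReal.ofReal_le_ofReal
    have h1 := D_pos hτ (Amat U z x)
    have h2 := D_pos hη (Amat U z x)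
    have h3 : Real.log (D τ (Amat U z x)) ≤ Real.log (D η (Amat U z x)) :=
      Real.log_le_log h1 (D_mono hτ.le hτη _)
    have h4 := Real.add_one_le_exp (Real.log (D η (Amat U z x)) - n * (psi (‖z‖ ^ 2) + ω))
    rw [sub_eq_add_neg, Real.exp_add, Real.exp_log h2] at h4
    linarith
  refine (lintegral_mono hpt).trans ?_
  rw [lintegral_add_left measurable_const, lintegral_const, measure_univ, mul_one,
    lintegral_const_mul _ hc.measurable.ennreal_ofReal]
  have h5 := fixed_z_upper hμ hU hδ0 hδ1 hη hρ0 hρ1 hκ hκ1 hω z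
  calc ENNReal.ofReal (n * ω) + ENNReal.ofReal (Real.exp (-(n * (psi (‖z‖ ^ 2) + ω)))) *
        ∫⁻ x, ENNReal.ofReal (D η (Amat U z x)) ∂(arr μ n)
      ≤ ENNReal.ofReal (n * ω) + ENNReal.ofReal (Real.exp (-(n * (psi (‖z‖ ^ 2) + ω)))) *
        ENNReal.ofReal (Real.exp (n * (psi (‖z‖ ^ 2) + ω))) := by gcongr
    _ = ENNReal.ofReal (n * ω + 1) := by
        rw [← ENNReal.ofReal_mul (by positivity), ← Real.exp_add, neg_add_cancel, Real.exp_zero,
          ENNReal.ofReal_add (by positivity) zero_le_one]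

lemma core_neg (hK : LawNeg μ K α) (hn : 0 < n) (z : ℂ) {R0 : ℝ} (hz : ‖z‖ ≤ R0)
    (hV : (8 * (1 + R0 ^ 2) + 2 * m) * δ / η ^ 4 ≤ 1)
    {t : ℝ} (ht0 : 0 < t) (ht1 : t < 1) (ht : t * Real.log ((6 * K) ^ (4 / α) * n) ≤ 1)
    {τ : ℝ} (hτ : 0 < τ) (hτη : τ ≤ η) :
    ∫⁻ x, ENNReal.ofReal (n * psi (‖z‖ ^ 2) - Real.log (D τ (Amat U z x))) ∂(arr μ n) ≤
      ENNReal.ofReal (n * ω + 1 + n * ((7 * ((8 * (1 + R0 ^ 2) + 2 * m) * δ / η ^ 4) + 2 * ω +
        2 * (t * Real.log ((6 * K) ^ (4 / α) * n)) ^ 2) / t)) := by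
  have hprob : IsProbabilityMeasure (arr μ n) := by unfold arr; infer_instance
  have hω0 : 0 ≤ ω := by
    have : 0 < κ := by rw [hκ]; positivity
    rw [hω]; positivity
  have hR0 : 0 ≤ R0 := (norm_nonneg z).trans hz
  have hVle : (8 * (1 + ‖z‖ ^ 2) + 2 * m) * δ / η ^ 4 ≤
      (8 * (1 + R0 ^ 2) + 2 * m) * δ / η ^ 4 := by
    have h1 : ‖z‖ ^ 2 ≤ R0 ^ 2 := pow_le_pow_left₀ (norm_nonneg z) hz 2
    gcongr
  have hint : Integrable (fun x => Real.log (D τ (Amat U z x)) - n * psi (‖z‖ ^ 2))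
      (arr μ n) := (log_D_integrable hμ hU hτ z).sub (integrable_const _)
  have h1 := fixed_z_lower hμ hK hn hU hδ0 hδ1 hη hρ0 hρ1 hκ hκ1 hω z (hVle.trans hV) ht0 ht1 ht
    hτ hτη
  have h2 := core_pos hμ hU hδ0 hδ1 hη hρ0 hρ1 hκ hκ1 hω z hτ hτη
  have h3 := integral_eq_lintegral_pos_part_sub_lintegral_neg_part hint
  rw [integral_sub (log_D_integrable hμ hU hτ z) (integrable_const _), integral_const] at h3
  simp only [probReal_univ, one_smul, neg_sub] at h3
  have h4 : (∫⁻ x, ENNReal.ofReal (Real.log (D τ (Amat U z x)) - n * psi (‖z‖ ^ 2))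
      ∂(arr μ n)).toReal ≤ n * ω + 1 := by
    have := ENNReal.toReal_mono ENNReal.ofReal_ne_top h2
    rwa [ENNReal.toReal_ofReal (by positivity)] at this
  have hfin : ∫⁻ x, ENNReal.ofReal (n * psi (‖z‖ ^ 2) - Real.log (D τ (Amat U z x)))
      ∂(arr μ n) ≠ ⊤ := by
    have := hint.neg.lintegral_lt_top
    simp only [Pi.neg_apply, neg_sub] at this
    exact this.ne
  rw [← ENNReal.ofReal_toReal hfin]
  apply ENNReal.ofReal_le_ofReal
  have h5 : (7 * ((8 * (1 + ‖z‖ ^ 2) + 2 * m) * δ / η ^ 4) + 2 * ω +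
        2 * (t * Real.log ((6 * K) ^ (4 / α) * n)) ^ 2) / t ≤
      (7 * ((8 * (1 + R0 ^ 2) + 2 * m) * δ / η ^ 4) + 2 * ω +
        2 * (t * Real.log ((6 * K) ^ (4 / α) * n)) ^ 2) / t := by
    gcongr
  have h6 := mul_le_mul_of_nonneg_left h5 (show (0 : ℝ) ≤ n by positivity)
  rw [mul_sub] at h1
  linarith

end bounds

lemma core_F_cont (U : Matrix (Fin n) (Fin n) ℝ) {τ : ℝ} (hτ : 0 < τ) (c : ℂ) (r : ℝ) :
    Continuous (fun x => Real.circleAverage (fun z => Real.log (D τ (Amat U z x))) c r) := by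
  simp only [Real.circleAverage_def, smul_eq_mul]
  refine continuous_const.mul ?_
  apply intervalIntegral.continuous_parametric_intervalIntegral_of_continuous'
  have h := Continuous.comp (f := fun q : (Fin n → Fin n → ℂ) × ℝ =>
    ((q.1, circleMap c r q.2) : (Fin n → Fin n → ℂ) × ℂ)) (core_logD_cont U hτ)
    (Continuous.prodMk continuous_fst ((continuous_circleMap c r).comp continuous_snd))
  exact h

lemma core_psi_meas : Measurable (fun z : ℂ => psi (‖z‖ ^ 2)) := by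
  have h : Measurable psi := by
    unfold psi
    exact Measurable.ite measurableSet_Iic (by fun_prop) Real.measurable_log
  exact h.comp (by fun_prop)

lemma core_norm_circle {c : ℂ} {r R0 : ℝ} (hr : 0 < r) (hR0 : ‖c‖ + r ≤ R0) (θ : ℝ) :
    ‖circleMap c r θ‖ ≤ R0 := by
  have h : circleMap c r θ = c + (circleMap c r θ - c) := by ring
  rw [h]
  refine (norm_add_le _ _).trans ?_
  rw [circleMap_sub_center, norm_circleMap_zero, abs_of_pos hr]
  exact hR0

/-- Quantitative form. `B` is the sum of the errors. -/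
theorem core_bound {n : ℕ} {μ : Measure ℂ} [IsProbabilityMeasure μ] {m K α : ℝ} (hμ : Law4 μ m)
    (hK : LawNeg μ K α) (hn : 0 < n)
    {U : Matrix (Fin n) (Fin n) ℝ} {δ η ρ κ ω : ℝ} (hU : Profile U δ) (hδ0 : 0 ≤ δ) (hδ1 : δ ≤ 1)
    (hη : 0 < η) (hρ0 : 0 < ρ) (hρ1 : ρ ≤ 1) (hκ : κ = 2 * Real.sqrt δ + Real.exp 1 * η)
    (hκ1 : κ ≤ 1) (hω : ω = η + 2 * κ + ρ + 2 * δ / (ρ * κ)) (c : ℂ) {r R0 : ℝ} (hr : 0 < r)
    (hR0 : ‖c‖ + r ≤ R0) (hV : (8 * (1 + R0 ^ 2) + 2 * m) * δ / η ^ 4 ≤ 1)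
    {t : ℝ} (ht0 : 0 < t) (ht1 : t < 1) (ht : t * Real.log ((6 * K) ^ (4 / α) * n) ≤ 1) :
    ∫⁻ x, ENNReal.ofReal |(((Matrix.of fun i j => (U i j : ℂ) * x i j).charpoly.roots.map
        (fun l => Real.log (max ‖l - c‖ r))).sum / (n : ℝ) -
        (1 / Real.pi) * ∫ w in Metric.closedBall (0 : ℂ) 1, Real.log (max ‖w - c‖ r))|
      ∂(arr μ n) ≤
    ENNReal.ofReal ((7 * ((8 * (1 + R0 ^ 2) + 2 * m) * δ / η ^ 4) + 2 * ω +
        2 * (t * Real.log ((6 * K) ^ (4 / α) * n)) ^ 2) / t + 2 * ω + 2 / n) := by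
  have hprob : IsProbabilityMeasure (arr μ n) := by unfold arr; infer_instance
  have hn' : (0:ℝ) < n := by exact_mod_cast hn
  have hω0 : 0 ≤ ω := by
    have : 0 < κ := by rw [hκ]; positivity
    rw [hω]; positivity
  set Err : ℝ := (7 * ((8 * (1 + R0 ^ 2) + 2 * m) * δ / η ^ 4) + 2 * ω +
        2 * (t * Real.log ((6 * K) ^ (4 / α) * n)) ^ 2) / t with hErr
  set f : (Fin n → Fin n → ℂ) → ℝ := fun x =>
    ((Matrix.of fun i j => (U i j : ℂ) * x i j).charpoly.roots.map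
        (fun l => Real.log (max ‖l - c‖ r))).sum with hf
  set c0 : ℝ := (1 / Real.pi) * ∫ w in Metric.closedBall (0 : ℂ) 1,
    Real.log (max ‖w - c‖ r) with hc0
  set A : ℝ := Real.circleAverage (fun z => psi (‖z‖ ^ 2)) c r with hA
  have hA2 : A = 2 * c0 := circle_psi c hr
  let G : ℝ → (Fin n → Fin n → ℂ) → ℝ := fun τ x =>
    Real.circleAverage (fun z => Real.log (D τ (Amat U z x))) c r
  have hG : ∀ τ x, G τ x = Real.circleAverage (fun z => Real.log (D τ (Amat U z x))) c r :=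
    fun _ _ => rfl
  have hlim : ∀ x, Tendsto (fun τ => G τ x) (nhdsWithin 0 (Set.Ioi 0)) (nhds (2 * f x)) := by
    intro x
    have h := circle_tendsto (Matrix.of fun i j => (U i j : ℂ) * x i j) c hr
    simp only [hG, core_Amat]
    exact h
  have hmono : ∀ x τ, 0 < τ → τ ≤ η → G τ x ≤ G η x := by
    intro x τ hτ hτη
    apply Real.circleAverage_mono (core_logD_circle U hτ x c hr) (core_logD_circle U hη x c hr)
    intro z _
    exact Real.log_le_log (D_pos hτ _) (D_mono hτ.le hτη _)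
  have hle : ∀ x, 2 * f x ≤ G η x := by
    intro x
    refine le_of_tendsto (hlim x) ?_
    filter_upwards [Ioc_mem_nhdsGT hη] with τ hτ
    exact hmono x τ hτ.1 hτ.2
  have hpsi : CircleIntegrable (fun z => (n : ℝ) * psi (‖z‖ ^ 2)) c r :=
    (circle_psi_integrable c r).const_mul _
  have havg : Real.circleAverage (fun z => (n : ℝ) * psi (‖z‖ ^ 2)) c r = n * A := by
    rw [hA]
    exact Real.circleAverage_fun_smul (a := (n : ℝ)) (f := fun z => psi (‖z‖ ^ 2))
  have hsub1 : ∀ τ, 0 < τ → ∀ x, G τ x - n * A = Real.circleAverage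
      (fun z => Real.log (D τ (Amat U z x)) - n * psi (‖z‖ ^ 2)) c r := by
    intro τ hτ x
    rw [Real.circleAverage_fun_sub (core_logD_circle U hτ x c hr) hpsi, havg]
  have hsub2 : ∀ τ, 0 < τ → ∀ x, n * A - G τ x = Real.circleAverage
      (fun z => n * psi (‖z‖ ^ 2) - Real.log (D τ (Amat U z x))) c r := by
    intro τ hτ x
    rw [Real.circleAverage_fun_sub hpsi (core_logD_circle U hτ x c hr), havg]
  have hmeasD : ∀ τ, 0 < τ → Measurable (fun q : (Fin n → Fin n → ℂ) × ℂ =>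
      Real.log (D τ (Amat U q.2 q.1))) := fun τ hτ => (core_logD_cont U hτ).measurable
  have hmeasP : Measurable (fun q : (Fin n → Fin n → ℂ) × ℂ => (n : ℝ) * psi (‖q.2‖ ^ 2)) :=
    (core_psi_meas.comp measurable_snd).const_mul _
  -- positive part
  have hpos : ∫⁻ x, ENNReal.ofReal (G η x - n * A) ∂(arr μ n) ≤ ENNReal.ofReal (n * ω + 1) := by
    simp_rw [hsub1 η hη]
    refine core_tonelli (f := fun x z => Real.log (D η (Amat U z x)) - n * psi (‖z‖ ^ 2))
      (fun x => (core_logD_circle U hη x c hr).sub hpsi) ((hmeasD η hη).sub hmeasP) fun θ => ?_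
    exact core_pos hμ hU hδ0 hδ1 hη hρ0 hρ1 hκ hκ1 hω _ hη le_rfl
  -- negative part
  have hneg : ∀ τ, 0 < τ → τ ≤ η → ∫⁻ x, ENNReal.ofReal (n * A - G τ x) ∂(arr μ n) ≤
      ENNReal.ofReal (n * ω + 1 + n * Err) := by
    intro τ hτ hτη
    simp_rw [hsub2 τ hτ]
    refine core_tonelli (f := fun x z => n * psi (‖z‖ ^ 2) - Real.log (D τ (Amat U z x)))
      (fun x => hpsi.sub (core_logD_circle U hτ x c hr)) (hmeasP.sub (hmeasD τ hτ)) fun θ => ?_
    exact core_neg hμ hU hδ0 hδ1 hη hρ0 hρ1 hκ hκ1 hω hK hn _ (core_norm_circle hr hR0 θ) hV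
      ht0 ht1 ht hτ hτη
  -- the sequence
  let τs : ℕ → ℝ := fun k => η / (k + 1)
  have hτs0 : ∀ k, 0 < τs k := fun k => by simp only [τs]; positivity
  have hτsη : ∀ k, τs k ≤ η := fun k => by
    simp only [τs]
    exact div_le_self hη.le (by have : (0 : ℝ) ≤ k := by positivity
                                linarith)
  have hτlim : Tendsto τs atTop (nhdsWithin 0 (Set.Ioi 0)) := by
    rw [tendsto_nhdsWithin_iff]
    refine ⟨?_, Eventually.of_forall fun k => hτs0 k⟩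
    simp only [τs]
    have := tendsto_one_div_add_atTop_nhds_zero_nat (𝕜 := ℝ)
    have h2 := this.const_mul η
    simpa [div_eq_mul_inv] using h2
  have hlimk : ∀ x, Tendsto (fun k => ENNReal.ofReal (n * A - G (τs k) x)) atTop
      (nhds (ENNReal.ofReal (n * A - 2 * f x))) := by
    intro x
    apply ENNReal.tendsto_ofReal
    exact tendsto_const_nhds.sub ((hlim x).comp hτlim)
  have hfatou : ∫⁻ x, ENNReal.ofReal (n * A - 2 * f x) ∂(arr μ n) ≤
      ENNReal.ofReal (n * ω + 1 + n * Err) := by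
    calc ∫⁻ x, ENNReal.ofReal (n * A - 2 * f x) ∂(arr μ n)
        = ∫⁻ x, liminf (fun k => ENNReal.ofReal (n * A - G (τs k) x)) atTop ∂(arr μ n) := by
          refine lintegral_congr fun x => ?_
          rw [(hlimk x).liminf_eq]
      _ ≤ liminf (fun k => ∫⁻ x, ENNReal.ofReal (n * A - G (τs k) x) ∂(arr μ n)) atTop := by
          apply lintegral_liminf_le
          intro k
          exact (measurable_const.sub (core_F_cont U (hτs0 k) c r).measurable).ennreal_ofReal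
      _ ≤ ENNReal.ofReal (n * ω + 1 + n * Err) := by
          refine Filter.liminf_le_of_le (by isBoundedDefault) fun b hb => ?_
          obtain ⟨k, hk⟩ := hb.exists
          exact hk.trans (hneg _ (hτs0 k) (hτsη k))
  have hpt : ∀ x, ENNReal.ofReal |f x / n - c0| ≤
      ENNReal.ofReal (1 / (2 * n)) * ENNReal.ofReal (G η x - n * A) +
      ENNReal.ofReal (1 / (2 * n)) * ENNReal.ofReal (n * A - 2 * f x) := by
    intro x
    rw [← ENNReal.ofReal_mul (by positivity), ← ENNReal.ofReal_mul (by positivity)]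
    have e1 : f x / n - c0 = 1 / (2 * n) * (2 * f x - n * A) := by
      rw [hA2]; field_simp
    have e2 : 1 / (2 * (n : ℝ)) * (2 * f x - n * A) ≤ 1 / (2 * n) * (G η x - n * A) :=
      mul_le_mul_of_nonneg_left (by linarith [hle x]) (by positivity)
    rcases le_total 0 (f x / n - c0) with h | h
    · rw [abs_of_nonneg h]
      refine le_trans ?_ le_self_add
      apply ENNReal.ofReal_le_ofReal
      rw [e1]; exact e2
    · rw [abs_of_nonpos h]
      refine le_trans ?_ le_add_self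
      apply ENNReal.ofReal_le_ofReal
      rw [e1]
      apply le_of_eq; ring
  refine (lintegral_mono hpt).trans ?_
  have hm1 : Measurable (fun x => ENNReal.ofReal (G η x - n * A)) :=
    ((core_F_cont U hη c r).measurable.sub measurable_const).ennreal_ofReal
  have hm0 : 0 ≤ m := by
    refine le_trans ?_ hμ.m4
    exact integral_nonneg fun x => by positivity
  have hErr0 : 0 ≤ Err := by
    rw [hErr]; positivity
  rw [lintegral_add_left (hm1.const_mul _), lintegral_const_mul _ hm1,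
    lintegral_const_mul' _ _ ENNReal.ofReal_ne_top]
  calc ENNReal.ofReal (1 / (2 * n)) * ∫⁻ x, ENNReal.ofReal (G η x - n * A) ∂(arr μ n) +
        ENNReal.ofReal (1 / (2 * n)) * ∫⁻ x, ENNReal.ofReal (n * A - 2 * f x) ∂(arr μ n)
      ≤ ENNReal.ofReal (1 / (2 * n)) * ENNReal.ofReal (n * ω + 1) +
        ENNReal.ofReal (1 / (2 * n)) * ENNReal.ofReal (n * ω + 1 + n * Err) := by gcongr
    _ = ENNReal.ofReal (1 / (2 * n) * (n * ω + 1) + 1 / (2 * n) * (n * ω + 1 + n * Err)) := by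
        rw [← ENNReal.ofReal_mul (by positivity), ← ENNReal.ofReal_mul (by positivity),
          ← ENNReal.ofReal_add (by positivity) (by positivity)]
    _ ≤ ENNReal.ofReal (Err + 2 * ω + 2 / n) := by
        apply ENNReal.ofReal_le_ofReal
        have e : 1 / (2 * (n : ℝ)) * (n * ω + 1) + 1 / (2 * n) * (n * ω + 1 + n * Err) =
          ω + Err / 2 + 1 / n := by field_simp; ring
        rw [e]
        have h1 : 0 < 1 / (n : ℝ) := by positivity
        have h2 : 2 / (n : ℝ) = 2 * (1 / n) := by ring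
        rw [h2]
        linarith

lemma core_rpow_lim {a : ℝ} (ha : 0 < a) :
    Tendsto (fun n : ℕ => (n : ℝ) ^ (-a)) atTop (nhds 0) :=
  (tendsto_rpow_neg_atTop ha).comp tendsto_natCast_atTop_atTop

lemma core_log_lim {a A : ℝ} (ha : 0 < a) (hA : 0 < A) :
    Tendsto (fun n : ℕ => (n : ℝ) ^ (-a) * Real.log (A * n)) atTop (nhds 0) := by
  have h1 : Tendsto (fun n : ℕ => (n : ℝ) ^ (-a) * Real.log A) atTop (nhds 0) := by
    simpa using (core_rpow_lim ha).mul_const (Real.log A)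
  have h2 : Tendsto (fun n : ℕ => Real.log n / (n : ℝ) ^ a) atTop (nhds 0) :=
    ((isLittleO_log_rpow_atTop ha).tendsto_div_nhds_zero).comp tendsto_natCast_atTop_atTop
  have h3 := h1.add h2
  rw [add_zero] at h3
  refine h3.congr' ?_
  filter_upwards [eventually_ge_atTop 1] with n hn
  have hn' : (0 : ℝ) < n := by exact_mod_cast hn
  rw [Real.log_mul hA.ne' hn'.ne', Real.rpow_neg hn'.le]
  field_simp

/-- the choice of the parameters -/
lemma core_params {μ : Measure ℂ} [IsProbabilityMeasure μ] {m K α ε R0 : ℝ} (hμ : Law4 μ m)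
    (hK : LawNeg μ K α) (hε : 0 < ε) :
    ∃ bd : ℕ → ℝ, Tendsto bd atTop (nhds 0) ∧ ∀ᶠ n : ℕ in atTop,
      0 < n ∧ ∃ δ η ρ κ ω t : ℝ, δ = (n : ℝ) ^ (-(2 * ε)) ∧ 0 ≤ δ ∧ δ ≤ 1 ∧ 0 < η ∧ 0 < ρ ∧
        ρ ≤ 1 ∧ κ = 2 * Real.sqrt δ + Real.exp 1 * η ∧ κ ≤ 1 ∧
        ω = η + 2 * κ + ρ + 2 * δ / (ρ * κ) ∧
        (8 * (1 + R0 ^ 2) + 2 * m) * δ / η ^ 4 ≤ 1 ∧ 0 < t ∧ t < 1 ∧
        t * Real.log ((6 * K) ^ (4 / α) * n) ≤ 1 ∧
        (7 * ((8 * (1 + R0 ^ 2) + 2 * m) * δ / η ^ 4) + 2 * ω +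
        2 * (t * Real.log ((6 * K) ^ (4 / α) * n)) ^ 2) / t + 2 * ω + 2 / n ≤ bd n := by
  have hm0 : 0 ≤ m := by
    refine le_trans ?_ hμ.m4
    exact integral_nonneg fun x => by positivity
  set C : ℝ := 8 * (1 + R0 ^ 2) + 2 * m with hC
  have hC0 : 0 < C := by rw [hC]; positivity
  set A : ℝ := (6 * K) ^ (4 / α) with hAdef
  have hA : 0 < A := by
    have := hK.K1
    rw [hAdef]; positivity
  refine ⟨fun n => 7 * C * (n : ℝ) ^ (-(7 * ε / 8)) + 28 * (n : ℝ) ^ (-(ε / 8)) +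
    2 * ((n : ℝ) ^ (-(ε / 16)) * Real.log (A * n)) ^ 2 + 28 * (n : ℝ) ^ (-(ε / 4)) +
    2 * (n : ℝ) ^ (-(1:ℝ)), ?_, ?_⟩
  · have h1 := (core_rpow_lim (show 0 < 7 * ε / 8 by positivity)).const_mul (7 * C)
    have h2 := (core_rpow_lim (show 0 < ε / 8 by positivity)).const_mul 28
    have h3 := ((core_log_lim (show 0 < ε / 16 by positivity) hA).pow 2).const_mul 2
    have h4 := (core_rpow_lim (show 0 < ε / 4 by positivity)).const_mul 28
    have h5 := (core_rpow_lim (show (0:ℝ) < 1 by positivity)).const_mul 2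
    have h := (((h1.add h2).add h3).add h4).add h5
    simpa using h
  · have ev1 : ∀ᶠ n : ℕ in atTop, 5 * (n : ℝ) ^ (-(ε / 4)) < 1 := by
      have := (core_rpow_lim (show 0 < ε / 4 by positivity)).const_mul 5
      rw [mul_zero] at this
      exact this.eventually_lt_const one_pos
    have ev2 : ∀ᶠ n : ℕ in atTop, C * (n : ℝ) ^ (-ε) < 1 := by
      have := (core_rpow_lim hε).const_mul C
      rw [mul_zero] at this
      exact this.eventually_lt_const one_pos
    have ev3 : ∀ᶠ n : ℕ in atTop, (n : ℝ) ^ (-(ε / 8)) * Real.log (A * n) < 1 :=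
      (core_log_lim (show 0 < ε / 8 by positivity) hA).eventually_lt_const one_pos
    have ev4 : ∀ᶠ n : ℕ in atTop, (n : ℝ) ^ (-(ε / 8)) < 1 :=
      (core_rpow_lim (show 0 < ε / 8 by positivity)).eventually_lt_const one_pos
    filter_upwards [ev1, ev2, ev3, ev4, eventually_ge_atTop 1] with n e1 e2 e3 e4 hn
    have hn1 : (1 : ℝ) ≤ n := by exact_mod_cast hn
    have hn0 : (0 : ℝ) < n := by linarith
    have hp : ∀ a : ℝ, 0 < (n : ℝ) ^ a := fun a => Real.rpow_pos_of_pos hn0 a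
    have hle1 : ∀ a : ℝ, 0 ≤ a → (n : ℝ) ^ (-a) ≤ 1 := fun a ha =>
      Real.rpow_le_one_of_one_le_of_nonpos hn1 (by linarith)
    have hmono : ∀ a b : ℝ, b ≤ a → (n : ℝ) ^ (-a) ≤ (n : ℝ) ^ (-b) := fun a b hab =>
      Real.rpow_le_rpow_of_exponent_le hn1 (by linarith)
    have hsqrt : Real.sqrt ((n : ℝ) ^ (-(2 * ε))) = (n : ℝ) ^ (-ε) := by
      rw [show -(2 * ε) = -ε + -ε by ring, Real.rpow_add hn0, Real.sqrt_mul_self (hp _).le]
    have hη4 : ((n : ℝ) ^ (-(ε / 4))) ^ 4 = (n : ℝ) ^ (-ε) := by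
      rw [← Real.rpow_natCast, ← Real.rpow_mul hn0.le]; congr 1; push_cast; ring
    have hdiv : (n : ℝ) ^ (-(2 * ε)) / (n : ℝ) ^ (-ε) = (n : ℝ) ^ (-ε) := by
      rw [← Real.rpow_sub hn0]; congr 1; ring
    have he := Real.exp_one_lt_d9
    have he1 := Real.exp_one_gt_d9
    refine ⟨hn, (n : ℝ) ^ (-(2 * ε)), (n : ℝ) ^ (-(ε / 4)), (n : ℝ) ^ (-(ε / 4)),
      2 * Real.sqrt ((n : ℝ) ^ (-(2 * ε))) + Real.exp 1 * (n : ℝ) ^ (-(ε / 4)), _,
      (n : ℝ) ^ (-(ε / 8)), rfl, (hp _).le, hle1 _ (by positivity), hp _, hp _,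
      hle1 _ (by positivity), rfl, ?_, rfl, ?_, hp _, e4, e3.le, ?_⟩
    · rw [hsqrt]
      have := hmono ε (ε / 4) (by linarith)
      nlinarith [hp (-(ε / 4))]
    · rw [hη4, mul_div_assoc, hdiv]
      exact e2.le
    · rw [hη4, mul_div_assoc, hdiv, hsqrt]
      set x := (n : ℝ) ^ (-(ε / 4)) with hx
      have hx0 : 0 < x := hp _
      set κ := 2 * (n : ℝ) ^ (-ε) + Real.exp 1 * x with hκ
      have hκx : x ≤ κ := by
        have := hp (-ε)
        rw [hκ]; nlinarith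
      have hκx' : κ ≤ 5 * x := by
        have := hmono ε (ε / 4) (by linarith)
        rw [hκ]; nlinarith
      have hlast : 2 * (n : ℝ) ^ (-(2 * ε)) / (x * κ) ≤ 2 * x := by
        rw [div_le_iff₀ (by positivity)]
        have h1 : (n : ℝ) ^ (-(2 * ε)) ≤ x * x * x := by
          rw [hx, ← Real.rpow_add hn0, ← Real.rpow_add hn0]
          have := hmono (2 * ε) (3 * (ε / 4)) (by linarith)
          rw [show -(ε / 4) + -(ε / 4) + -(ε / 4) = -(3 * (ε / 4)) by ring]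
          exact this
        have h2 : x * x * x ≤ x * x * κ := mul_le_mul_of_nonneg_left hκx (by positivity)
        nlinarith
      have hω : x + 2 * κ + x + 2 * (n : ℝ) ^ (-(2 * ε)) / (x * κ) ≤ 14 * x := by linarith
      set ω := x + 2 * κ + x + 2 * (n : ℝ) ^ (-(2 * ε)) / (x * κ) with hωdef
      have ht := hp (-(ε / 8))
      set t := (n : ℝ) ^ (-(ε / 8)) with htdef
      have hxt : x / t = t := by
        rw [hx, htdef, ← Real.rpow_sub hn0]; congr 1; ring
      have h1 : C * (n : ℝ) ^ (-ε) / t = C * (n : ℝ) ^ (-(7 * ε / 8)) := by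
        rw [mul_div_assoc, htdef, ← Real.rpow_sub hn0]; congr 3; ring
      have h2 : ω / t ≤ 14 * t := by
        rw [div_le_iff₀ ht]
        have : x = t * t := by
          rw [hx, htdef, ← Real.rpow_add hn0]; congr 1; ring
        nlinarith
      have h3 : (t * Real.log (A * n)) ^ 2 / t =
          ((n : ℝ) ^ (-(ε / 16)) * Real.log (A * n)) ^ 2 := by
        have : t = (n : ℝ) ^ (-(ε / 16)) * (n : ℝ) ^ (-(ε / 16)) := by
          rw [htdef, ← Real.rpow_add hn0]; congr 1; ring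
        rw [this]
        have := hp (-(ε / 16))
        field_simp
      have h4 : 2 / (n : ℝ) = 2 * (n : ℝ) ^ (-(1 : ℝ)) := by
        rw [Real.rpow_neg_one]; ring
      have h5 : (7 * (C * (n : ℝ) ^ (-ε)) + 2 * ω + 2 * (t * Real.log (A * n)) ^ 2) / t =
          7 * (C * (n : ℝ) ^ (-ε) / t) + 2 * (ω / t) + 2 * ((t * Real.log (A * n)) ^ 2 / t) := by
        field_simp
      rw [h5, h1, h3, h4]
      linarith

/-- Qualitative form. -/
theorem core {μ : Measure ℂ} [IsProbabilityMeasure μ] {m K α : ℝ} (hμ : Law4 μ m)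
    (hK : LawNeg μ K α) (U : ∀ n : ℕ, Matrix (Fin n) (Fin n) ℝ)
    (h0 : ∀ n i j, 0 ≤ U n i j) (hcol : ∀ n (j : Fin n), ∑ i, U n i j ^ 2 = 1)
    (hrow : ∀ n (j : Fin n), ∑ i, U n j i ^ 2 = 1)
    (hsmall : ∃ ε : ℝ, 0 < ε ∧ ∀ δ : ℝ, 0 < δ →
      ∀ᶠ n in atTop, ∀ i j : Fin n, U n i j * (n : ℝ) ^ ε ≤ δ) (c : ℂ) {r : ℝ} (hr : 0 < r) :
    Tendsto (fun n : ℕ => ∫⁻ x, ENNReal.ofReal
      |(((Matrix.of fun i j => (U n i j : ℂ) * x i j).charpoly.roots.map
        (fun l => Real.log (max ‖l - c‖ r))).sum / (n : ℝ) -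
        (1 / Real.pi) * ∫ w in Metric.closedBall (0 : ℂ) 1, Real.log (max ‖w - c‖ r))|
      ∂(arr μ n)) atTop (nhds 0) := by
  obtain ⟨ε, hε, hsm⟩ := hsmall
  obtain ⟨bd, hbd, hev⟩ := core_params (R0 := ‖c‖ + r) hμ hK hε
  have hbd' : Tendsto (fun n => ENNReal.ofReal (bd n)) atTop (nhds 0) := by
    have := ENNReal.tendsto_ofReal hbd
    rwa [ENNReal.ofReal_zero] at this
  refine tendsto_of_tendsto_of_tendsto_of_le_of_le' tendsto_const_nhds hbd'
    (Eventually.of_forall fun n => zero_le) ?_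
  filter_upwards [hev, hsm 1 one_pos] with n hn hU1
  obtain ⟨hn0, δ, η, ρ, κ, ω, t, hδ, hδ0, hδ1, hη, hρ0, hρ1, hκ, hκ1, hω, hV, ht0, ht1, ht,
    hb⟩ := hn
  have hn' : (0 : ℝ) < n := by exact_mod_cast hn0
  have hU : Profile (U n) δ := by
    refine ⟨h0 n, hrow n, hcol n, fun i j => ?_⟩
    have h1 := hU1 i j
    have h2 : U n i j ≤ (n : ℝ) ^ (-ε) := by
      rw [Real.rpow_neg hn'.le, ← one_div, le_div_iff₀ (Real.rpow_pos_of_pos hn' _)]
      exact h1
    have h3 := pow_le_pow_left₀ (h0 n i j) h2 2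
    refine h3.trans (le_of_eq ?_)
    rw [hδ, ← Real.rpow_natCast, ← Real.rpow_mul hn'.le]
    congr 1; push_cast; ring
  refine (core_bound hμ hK hn0 hU hδ0 hδ1 hη hρ0 hρ1 hκ hκ1 hω c hr le_rfl hV ht0 ht1 ht).trans ?_
  exact ENNReal.ofReal_le_ofReal hb

end Pool.Agent.Circ
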