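import Pool.Agent.Lib.Circ.Core

/-!
# Module O, second half: the qualitative form
-/

set_option autoImplicit false

open MeasureTheory ProbabilityTheory Filter Matrix Finset

namespace Pool.Agent.Circ

/-- The error terms as a function of `x = n^(-ε/8)`, `L` and `y = 1/n`. -/
noncomputable def cqErr (C x L y : ℝ) : ℝ :=
  7 * C * x ^ 7 + 2 * (2 * x + 2 * (2 * x ^ 7 + Real.exp 1 * x) +
    2 * x ^ 11 / (2 * x ^ 6 + Real.exp 1)) + 2 * (x * L ^ 2) +
    2 * (2 * x ^ 2 + 2 * (2 * x ^ 8 + Real.exp 1 * x ^ 2) +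
    2 * x ^ 12 / (2 * x ^ 6 + Real.exp 1)) + 2 * y

theorem cq_tendsto {C : ℝ} {x L y : ℕ → ℝ} (hx : Tendsto x atTop (nhds 0))
    (hL : Tendsto (fun n => x n * L n ^ 2) atTop (nhds 0)) (hy : Tendsto y atTop (nhds 0)) :
    Tendsto (fun n => cqErr C (x n) (L n) (y n)) atTop (nhds 0) := by
  have h1 : Tendsto (fun x : ℝ => 7 * C * x ^ 7 + 2 * (2 * x + 2 * (2 * x ^ 7 + Real.exp 1 * x) +
    2 * x ^ 11 / (2 * x ^ 6 + Real.exp 1)) +
    2 * (2 * x ^ 2 + 2 * (2 * x ^ 8 + Real.exp 1 * x ^ 2) +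
    2 * x ^ 12 / (2 * x ^ 6 + Real.exp 1))) (nhds 0) (nhds 0) := by
    have hc : Continuous (fun x : ℝ => 7 * C * x ^ 7 + 2 * (2 * x + 2 * (2 * x ^ 7 +
        Real.exp 1 * x) + 2 * x ^ 11 / (2 * x ^ 6 + Real.exp 1)) +
        2 * (2 * x ^ 2 + 2 * (2 * x ^ 8 + Real.exp 1 * x ^ 2) +
        2 * x ^ 12 / (2 * x ^ 6 + Real.exp 1))) := by
      have hne : ∀ x : ℝ, 2 * x ^ 6 + Real.exp 1 ≠ 0 := by
        intro x
        have := Real.exp_pos 1
        positivity
      fun_prop (disch := exact hne _)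
    have h := hc.tendsto 0
    simpa using h
  have h2 := (h1.comp hx).add ((hL.const_mul 2).add (hy.const_mul 2))
  simp only [mul_zero, add_zero] at h2
  refine h2.congr fun n => ?_
  simp only [Function.comp_apply, cqErr]
  ring

theorem cq_x_tendsto {ε : ℝ} (hε : 0 < ε) :
    Tendsto (fun n : ℕ => (n : ℝ) ^ (-(ε / 8))) atTop (nhds 0) :=
  (tendsto_rpow_neg_atTop (by positivity)).comp tendsto_natCast_atTop_atTop

theorem cq_L_tendsto {ε A : ℝ} (hε : 0 < ε) (hA : 0 < A) :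
    Tendsto (fun n : ℕ => (n : ℝ) ^ (-(ε / 8)) * (Real.log (A * n)) ^ 2) atTop (nhds 0) := by
  have h1 : Tendsto (fun y : ℝ => y ^ (-(ε / 16)) * Real.log y) atTop (nhds 0) := by
    have h := (isLittleO_log_rpow_atTop (r := ε / 16) (by positivity)).tendsto_div_nhds_zero
    refine h.congr' ?_
    filter_upwards [eventually_gt_atTop 0] with y hy
    rw [Real.rpow_neg hy.le, div_eq_inv_mul]
  have h2 : Tendsto (fun y : ℝ => y ^ (-(ε / 16)) * Real.log A) atTop (nhds 0) := by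
    have h := (tendsto_rpow_neg_atTop (y := ε / 16) (by positivity)).mul_const (Real.log A)
    simpa using h
  have h3 : Tendsto (fun y : ℝ => (y ^ (-(ε / 16)) * Real.log A +
      y ^ (-(ε / 16)) * Real.log y) ^ 2) atTop (nhds 0) := by
    have h := (h2.add h1).pow 2
    simpa using h
  have h4 := h3.comp (tendsto_natCast_atTop_atTop (R := ℝ))
  refine h4.congr' ?_
  filter_upwards [eventually_gt_atTop 0] with n hn
  have hn' : (0 : ℝ) < n := by exact_mod_cast hn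
  simp only [Function.comp_apply]
  rw [Real.log_mul hA.ne' hn'.ne', ← mul_add, mul_pow, ← Real.rpow_natCast, ← Real.rpow_mul hn'.le]
  congr 2
  push_cast
  ring

/-- Qualitative form. -/
theorem core_q {μ : Measure ℂ} [IsProbabilityMeasure μ] {m K α : ℝ} (hμ : Law4 μ m)
    (hK : LawNeg μ K α) (U : ∀ n : ℕ, Matrix (Fin n) (Fin n) ℝ)
    (h0 : ∀ n i j, 0 ≤ U n i j) (hcol : ∀ n (j : Fin n), ∑ i, U n i j ^ 2 = 1)
    (hrow : ∀ n (j : Fin n), ∑ i, U n j i ^ 2 = 1)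
    (hsmall : ∃ ε : ℝ, 0 < ε ∧ ∀ δ : ℝ, 0 < δ →
      ∀ᶠ n in atTop, ∀ i j : Fin n, U n i j * (n : ℝ) ^ ε ≤ δ) (c : ℂ) {r : ℝ} (hr : 0 < r) :
    Tendsto (fun n : ℕ => ∫⁻ x, ENNReal.ofReal
      |(((Matrix.of fun i j => (U n i j : ℂ) * x i j).charpoly.roots.map
        (fun l => Real.log (max ‖l - c‖ r))).sum / (n : ℝ) -
        (1 / Real.pi) * ∫ w in Metric.closedBall (0 : ℂ) 1, Real.log (max ‖w - c‖ r))|
      ∂(arr μ n)) atTop (nhds 0) := by
  obtain ⟨ε, hε, hs⟩ := hsmall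
  set R0 : ℝ := ‖c‖ + r with hR0
  have hR00 : 0 ≤ R0 := by positivity
  have hm0 : 0 ≤ m := le_trans (integral_nonneg fun x => by positivity) hμ.m4
  set C : ℝ := 8 * (1 + R0 ^ 2) + 2 * m with hC
  have hC0 : 0 ≤ C := by rw [hC]; positivity
  have hK0 : 0 < K := lt_of_lt_of_le one_pos hK.K1
  set A : ℝ := (6 * K) ^ (4 / α) with hA
  have hA0 : 0 < A := by rw [hA]; positivity
  set x : ℕ → ℝ := fun n => (n : ℝ) ^ (-(ε / 8)) with hx
  set L : ℕ → ℝ := fun n => Real.log (A * n) with hLdef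
  have hxt : Tendsto x atTop (nhds 0) := cq_x_tendsto hε
  have hLt : Tendsto (fun n => x n * L n ^ 2) atTop (nhds 0) := cq_L_tendsto hε hA0
  have hyt : Tendsto (fun n : ℕ => ((n : ℝ))⁻¹) atTop (nhds 0) := tendsto_inv_atTop_nhds_zero_nat
  have herr := cq_tendsto (C := C) hxt hLt hyt
  have herr2 : Tendsto (fun n => ENNReal.ofReal (cqErr C (x n) (L n) ((n : ℝ))⁻¹)) atTop
      (nhds 0) := by
    have h := ENNReal.tendsto_ofReal herr
    simpa using h
  refine tendsto_of_tendsto_of_tendsto_of_le_of_le' tendsto_const_nhds herr2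
    (Filter.Eventually.of_forall fun n => bot_le) ?_
  -- smallness conditions
  have e1 : ∀ᶠ n in atTop, x n < 1 := hxt.eventually (gt_mem_nhds one_pos)
  have e2 : ∀ᶠ n in atTop, C * x n ^ 8 ≤ 1 := by
    have h : Tendsto (fun n => C * x n ^ 8) atTop (nhds 0) := by
      simpa using (hxt.pow 8).const_mul C
    exact (h.eventually (gt_mem_nhds one_pos)).mono fun n hn => hn.le
  have e3 : ∀ᶠ n in atTop, 2 * x n ^ 8 + Real.exp 1 * x n ^ 2 ≤ 1 := by
    have h : Tendsto (fun n => 2 * x n ^ 8 + Real.exp 1 * x n ^ 2) atTop (nhds 0) := by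
      simpa using ((hxt.pow 8).const_mul 2).add ((hxt.pow 2).const_mul (Real.exp 1))
    exact (h.eventually (gt_mem_nhds one_pos)).mono fun n hn => hn.le
  have e4 : ∀ᶠ n in atTop, x n * L n ≤ 1 := by
    have h1 : ∀ᶠ n in atTop, x n * L n ^ 2 < 1 := hLt.eventually (gt_mem_nhds one_pos)
    filter_upwards [h1, e1, eventually_gt_atTop 0] with n h1 h2 h3
    have hx0 : 0 ≤ x n := by simp only [hx]; positivity
    nlinarith [sq_nonneg (x n * L n - 1), sq_nonneg (x n * L n), sq_nonneg (L n),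
      mul_nonneg hx0 (sq_nonneg (L n))]
  filter_upwards [e1, e2, e3, e4, hs 1 one_pos, eventually_gt_atTop 0] with n h1 h2 h3 h4 h5 hn
  have hn' : (0 : ℝ) < n := by exact_mod_cast hn
  have hx0 : 0 < x n := by simp only [hx]; positivity
  have hx8 : x n ^ 8 = (n : ℝ) ^ (-ε) := by
    simp only [hx]
    rw [← Real.rpow_natCast, ← Real.rpow_mul hn'.le]
    congr 1
    push_cast
    ring
  have hprof : Profile (U n) (x n ^ 16) := by
    refine ⟨h0 n, hrow n, hcol n, fun i j => ?_⟩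
    have h6 : U n i j ≤ x n ^ 8 := by
      rw [hx8, Real.rpow_neg hn'.le, ← one_div, le_div_iff₀ (by positivity)]
      exact h5 i j
    calc U n i j ^ 2 ≤ (x n ^ 8) ^ 2 := pow_le_pow_left₀ (h0 n i j) h6 2
      _ = x n ^ 16 := by ring
  have hsq : Real.sqrt (x n ^ 16) = x n ^ 8 := by
    rw [show x n ^ 16 = (x n ^ 8) ^ 2 by ring]
    exact Real.sqrt_sq (by positivity)
  have he : 0 < Real.exp 1 := Real.exp_pos 1
  have hb := core_bound (n := n) hμ hK hn (U := U n) (δ := x n ^ 16) (η := x n ^ 2)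
    (ρ := x n ^ 2) (κ := 2 * Real.sqrt (x n ^ 16) + Real.exp 1 * x n ^ 2)
    (ω := x n ^ 2 + 2 * (2 * Real.sqrt (x n ^ 16) + Real.exp 1 * x n ^ 2) + x n ^ 2 +
      2 * x n ^ 16 / (x n ^ 2 * (2 * Real.sqrt (x n ^ 16) + Real.exp 1 * x n ^ 2)))
    hprof (by positivity) (pow_le_one₀ hx0.le h1.le) (by positivity) (by positivity)
    (pow_le_one₀ hx0.le h1.le) rfl (by rw [hsq]; exact h3) rfl c (r := r) (R0 := R0) hr le_rfl
    (by
      rw [← hC]
      have : C * x n ^ 16 / (x n ^ 2) ^ 4 = C * x n ^ 8 := by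
        field_simp
      rw [this]
      exact h2) (t := x n) hx0 h1 (by
      have := h4
      simpa [hLdef, hA] using this)
  refine hb.trans (ENNReal.ofReal_le_ofReal (le_of_eq ?_))
  rw [hsq, ← hC, ← hA]
  have hLn : Real.log (A * (n : ℝ)) = L n := rfl
  rw [hLn]
  have hd : 2 * x n ^ 6 + Real.exp 1 ≠ 0 := by positivity
  have hfac : 2 * x n ^ 8 + Real.exp 1 * x n ^ 2 = x n ^ 2 * (2 * x n ^ 6 + Real.exp 1) := by ring
  unfold cqErr
  rw [hfac]
  field_simp
  ring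

end Pool.Agent.Circ
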