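import Mathlib

/-!
# Circular law for doubly stochastic variance profiles (MP_997af3_pr): definitions
-/

set_option autoImplicit false

open MeasureTheory ProbabilityTheory Filter Matrix Finset

namespace Pool.Agent.Circ

/-- The regularised squared modulus of the determinant: the determinant of `Aᴴ A + τ² I`. -/
noncomputable def D {n : ℕ} (τ : ℝ) (A : Matrix (Fin n) (Fin n) ℂ) : ℝ :=
  (Matrix.det (Aᴴ * A + ((τ ^ 2 : ℝ) : ℂ) • (1 : Matrix (Fin n) (Fin n) ℂ))).re

/-- The matching polynomial of a weighted bipartite graph (weights `B`), with row activities `r`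
and column activities `c`, expanded along a list of rows; `C` is the set of free columns. -/
noncomputable def FL {n : ℕ} (B : Matrix (Fin n) (Fin n) ℝ) (r c : Fin n → ℝ) :
    List (Fin n) → Finset (Fin n) → ℝ
  | [], C => ∏ j ∈ C, c j
  | i :: l, C => r i * FL B r c l C + ∑ j ∈ C, B i j * FL B r c l (C.erase j)

/-- The matching polynomial on rows `R` and columns `C`: the sum over all matchings `M` between
`R` and `C` of the product of `B i j` over `M`, of `r i` over unmatched rows and of `c j` over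
unmatched columns. -/
noncomputable def F {n : ℕ} (B : Matrix (Fin n) (Fin n) ℝ) (r c : Fin n → ℝ)
    (R C : Finset (Fin n)) : ℝ := FL B r c R.toList C

/-- The model matrix: entries `U i j * x i j`, minus `z` on the diagonal. -/
def Amat {n : ℕ} (U : Matrix (Fin n) (Fin n) ℝ) (z : ℂ) (x : Fin n → Fin n → ℂ) :
    Matrix (Fin n) (Fin n) ℂ :=
  Matrix.of fun i j => (U i j : ℂ) * x i j - (if j = i then z else 0)

/-- Row `i` of the model matrix. -/
def arow {n : ℕ} (u : Fin n → ℝ) (z : ℂ) (i : Fin n) (x : Fin n → ℂ) : Fin n → ℂ :=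
  fun k => (u k : ℂ) * x k - (if k = i then z else 0)

/-- The quadratic form `Σ_l |(g a)_l|²` evaluated at a row `a` of the model matrix. -/
noncomputable def Q {n : ℕ} (g : Matrix (Fin n) (Fin n) ℂ) (u : Fin n → ℝ) (z : ℂ) (i : Fin n)
    (x : Fin n → ℂ) : ℝ :=
  ∑ l, ‖∑ k, g l k * arow u z i x k‖ ^ 2

/-- A profile: nonnegative entries, squares doubly stochastic, squares at most `δ`. -/
structure Profile {n : ℕ} (U : Matrix (Fin n) (Fin n) ℝ) (δ : ℝ) : Prop where
  nonneg : ∀ i j, 0 ≤ U i j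
  row : ∀ i, ∑ j, U i j ^ 2 = 1
  col : ∀ j, ∑ i, U i j ^ 2 = 1
  small : ∀ i j, U i j ^ 2 ≤ δ

/-- The matrix of second moments of the entries of the model matrix. -/
noncomputable def Bmat {n : ℕ} (U : Matrix (Fin n) (Fin n) ℝ) (p : ℝ) :
    Matrix (Fin n) (Fin n) ℝ :=
  Matrix.of fun i j => U i j ^ 2 + (if j = i then p else 0)

/-- Twice the logarithmic potential of the circular law, as a function of `p = |z|²`. -/
noncomputable def psi (p : ℝ) : ℝ := if p ≤ 1 then p - 1 else Real.log p

/-- Centred law with unit variance and finite fourth moment. -/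
structure Law4 (μ : Measure ℂ) (m : ℝ) : Prop where
  int4 : Integrable (fun x : ℂ => ‖x‖ ^ 4) μ
  mean : ∫ x, x ∂μ = 0
  var : ∫ x, ‖x‖ ^ 2 ∂μ = 1
  m4 : ∫ x, ‖x‖ ^ 4 ∂μ ≤ m

/-- Uniform bound for a negative moment (small ball property). -/
structure LawNeg (μ : Measure ℂ) (K α : ℝ) : Prop where
  K1 : 1 ≤ K
  α0 : 0 < α
  α1 : α ≤ 1
  neg : ∀ a : ℂ, ∫⁻ x, ‖x - a‖ₑ ^ (-α) ∂μ ≤ ENNReal.ofReal K

/-- The law of the array of entries. -/
noncomputable def arr (μ : Measure ℂ) (n : ℕ) : Measure (Fin n → Fin n → ℂ) :=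
  Measure.pi (fun _ : Fin n => Measure.pi (fun _ : Fin n => μ))

end Pool.Agent.Circ
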