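import Pool.Agent.Lib.Circ.Defs

/-!
# Module F: the regularised determinant `D τ A = det (Aᴴ A + τ²)`

Row structure: `Aᴴ A = Σ_k (row k)ᴴ (row k)`; with `H = A₀ᴴ A₀ + τ²`, `A₀` = `A` with row `i`
zeroed (positive definite), `D τ (A.updateRow i a) = det (H + aᴴ a) = det H (1 + a H⁻¹ aᴴ)`
(matrix determinant lemma), and `H⁻¹ = gᴴ g`-type factorisation of a positive definite matrix
(entries conjugated suitably), `H⁻¹ ≤ τ⁻²`.
-/

set_option autoImplicit false

open MeasureTheory ProbabilityTheory Filter Matrix Finset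

namespace Pool.Agent.Circ

variable {n : ℕ}

open scoped ComplexOrder in
theorem det_posSemidef (τ : ℝ) (A : Matrix (Fin n) (Fin n) ℂ) :
    (Aᴴ * A + ((τ ^ 2 : ℝ) : ℂ) • (1 : Matrix (Fin n) (Fin n) ℂ)).PosSemidef := by
  refine (posSemidef_conjTranspose_mul_self A).add ?_
  exact PosSemidef.one.smul (by exact_mod_cast sq_nonneg τ)

open scoped ComplexOrder in
theorem det_posDef {τ : ℝ} (hτ : 0 < τ) (A : Matrix (Fin n) (Fin n) ℂ) :
    (Aᴴ * A + ((τ ^ 2 : ℝ) : ℂ) • (1 : Matrix (Fin n) (Fin n) ℂ)).PosDef := by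
  refine PosDef.posSemidef_add (posSemidef_conjTranspose_mul_self A) ?_
  exact PosDef.one.smul (by exact_mod_cast (by positivity : 0 < τ ^ 2))

open scoped ComplexOrder in
theorem det_D_cast (τ : ℝ) (A : Matrix (Fin n) (Fin n) ℂ) :
    Matrix.det (Aᴴ * A + ((τ ^ 2 : ℝ) : ℂ) • (1 : Matrix (Fin n) (Fin n) ℂ)) = (D τ A : ℂ) := by
  have h := (det_posSemidef τ A).det_nonneg
  unfold D
  exact Complex.eq_re_of_ofReal_le (r := 0) (by simpa using h)

open scoped ComplexOrder in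
theorem D_pos {τ : ℝ} (hτ : 0 < τ) (A : Matrix (Fin n) (Fin n) ℂ) : 0 < D τ A := by
  have h := (det_posDef hτ A).det_pos
  rw [det_D_cast] at h
  exact_mod_cast h

open scoped ComplexOrder in
theorem D_nonneg (τ : ℝ) (A : Matrix (Fin n) (Fin n) ℂ) : 0 ≤ D τ A := by
  have h := (det_posSemidef τ A).det_nonneg
  rw [det_D_cast] at h
  exact_mod_cast h

theorem D_zero_matrix (τ : ℝ) : D τ (0 : Matrix (Fin n) (Fin n) ℂ) = (τ ^ 2) ^ n := by
  unfold D
  rw [conjTranspose_zero, Matrix.zero_mul, zero_add, det_smul, det_one, mul_one, Fintype.card_fin]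
  rw [← Complex.ofReal_pow, Complex.ofReal_re]

theorem D_zero (A : Matrix (Fin n) (Fin n) ℂ) : D 0 A = ‖A.det‖ ^ 2 := by
  unfold D
  have : ((0 : ℝ) ^ 2 : ℝ) = 0 := by norm_num
  rw [this, Complex.ofReal_zero, zero_smul, add_zero, det_mul, det_conjTranspose]
  rw [← Complex.normSq_eq_norm_sq, Complex.star_def, ← Complex.normSq_eq_conj_mul_self, Complex.ofReal_re]

theorem det_D_eq_prod (τ : ℝ) (A : Matrix (Fin n) (Fin n) ℂ) :
    D τ A = ∏ i, ((isHermitian_conjTranspose_mul_self A).eigenvalues i + τ ^ 2) := by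
  have hA := isHermitian_conjTranspose_mul_self A
  have h1 : ((D τ A : ℝ) : ℂ) = ((∏ i, (hA.eigenvalues i + τ ^ 2) : ℝ) : ℂ) := by
    rw [← det_D_cast]
    have h2 := hA.charpoly_eq
    have h3 := congrArg (Polynomial.eval (-((τ ^ 2 : ℝ) : ℂ))) h2
    rw [Matrix.eval_charpoly, Polynomial.eval_prod] at h3
    have h4 : Aᴴ * A + ((τ ^ 2 : ℝ) : ℂ) • (1 : Matrix (Fin n) (Fin n) ℂ) =
        (-1 : ℂ) • (Matrix.scalar (Fin n) (-((τ ^ 2 : ℝ) : ℂ)) - Aᴴ * A) := by
      ext i j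
      by_cases hij : i = j
      · subst hij
        simp [Matrix.scalar_apply]
      · simp [Matrix.scalar_apply, hij]
    rw [h4, det_smul, h3, Fintype.card_fin]
    push_cast
    have h5 : ((-1 : ℂ)) ^ n = ∏ _i : Fin n, (-1 : ℂ) := by simp
    rw [h5, ← Finset.prod_mul_distrib]
    refine Finset.prod_congr rfl fun i _ => ?_
    simp
  exact_mod_cast h1

theorem D_mono {τ τ' : ℝ} (h0 : 0 ≤ τ) (h : τ ≤ τ') (A : Matrix (Fin n) (Fin n) ℂ) :
    D τ A ≤ D τ' A := by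
  rw [det_D_eq_prod, det_D_eq_prod]
  apply Finset.prod_le_prod
  · intro i _
    have := eigenvalues_conjTranspose_mul_self_nonneg A i
    positivity
  · intro i _
    have : τ ^ 2 ≤ τ' ^ 2 := by gcongr
    linarith

theorem D_continuous : Continuous (fun p : ℝ × Matrix (Fin n) (Fin n) ℂ => D p.1 p.2) := by
  unfold D
  have h1 : Continuous (fun p : ℝ × Matrix (Fin n) (Fin n) ℂ => p.2ᴴ * p.2) :=
    Continuous.matrix_mul continuous_snd.matrix_conjTranspose continuous_snd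
  have h2 : Continuous (fun p : ℝ × Matrix (Fin n) (Fin n) ℂ =>
      ((p.1 ^ 2 : ℝ) : ℂ) • (1 : Matrix (Fin n) (Fin n) ℂ)) :=
    Continuous.smul (Complex.continuous_ofReal.comp (continuous_fst.pow 2)) continuous_const
  exact Complex.continuous_re.comp (Continuous.matrix_det (h1.add h2))

theorem det_updateRow_gram (A : Matrix (Fin n) (Fin n) ℂ) (i : Fin n) (a : Fin n → ℂ) :
    (A.updateRow i a)ᴴ * A.updateRow i a =
      (A.updateRow i 0)ᴴ * A.updateRow i 0 + vecMulVec (star a) a := by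
  ext j k
  simp only [Matrix.add_apply, Matrix.mul_apply, conjTranspose_apply, vecMulVec_apply,
    Pi.star_apply]
  rw [← Finset.add_sum_erase _ _ (Finset.mem_univ i),
    ← Finset.add_sum_erase (f := fun x => star (A.updateRow i 0 x j) * A.updateRow i 0 x k) _
      (Finset.mem_univ i)]
  simp only [updateRow_self, Pi.zero_apply, star_zero, zero_mul, zero_add]
  rw [add_comm]
  congr 1
  refine Finset.sum_congr rfl fun l hl => ?_
  have : l ≠ i := (Finset.mem_erase.mp hl).1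
  rw [updateRow_ne this, updateRow_ne this]

theorem det_sum_norm (x : Fin n → ℂ) : ((∑ l, ‖x l‖ ^ 2 : ℝ) : ℂ) = star x ⬝ᵥ x := by
  push_cast
  simp only [dotProduct, Pi.star_apply]
  refine Finset.sum_congr rfl fun l _ => ?_
  rw [Complex.star_def, ← Complex.normSq_eq_conj_mul_self, Complex.normSq_eq_norm_sq]
  push_cast
  rfl

open scoped ComplexOrder MatrixOrder in
/-- Row structure. -/
theorem D_row {τ : ℝ} (hτ : 0 < τ) (A : Matrix (Fin n) (Fin n) ℂ) (i : Fin n) :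
    ∃ g : Matrix (Fin n) (Fin n) ℂ,
      (∀ x : Fin n → ℂ, ∑ l, ‖∑ k, g l k * x k‖ ^ 2 ≤ (τ ^ 2)⁻¹ * ∑ k, ‖x k‖ ^ 2) ∧
      ∀ a : Fin n → ℂ, D τ (A.updateRow i a) =
        D τ (A.updateRow i 0) * (1 + ∑ l, ‖∑ k, g l k * a k‖ ^ 2) := by
  set A₀ := A.updateRow i 0 with hA₀
  set s : ℂ := ((τ ^ 2 : ℝ) : ℂ) with hs
  set H := A₀ᴴ * A₀ + s • (1 : Matrix (Fin n) (Fin n) ℂ) with hH
  have hHpd : H.PosDef := det_posDef hτ A₀
  have hHu : IsUnit H.det := hHpd.det_pos.ne'.isUnit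
  have hinv : H⁻¹.PosSemidef := hHpd.inv.posSemidef
  obtain ⟨B, hB⟩ : ∃ B : Matrix (Fin n) (Fin n) ℂ, H⁻¹ = Bᴴ * B :=
    CStarAlgebra.nonneg_iff_eq_star_mul_self.mp hinv.nonneg
  have hQ : ∀ x : Fin n → ℂ, ((∑ l, ‖∑ k, star (B l k) * x k‖ ^ 2 : ℝ) : ℂ) =
      x ⬝ᵥ (H⁻¹ *ᵥ star x) := by
    intro x
    have h1 : ∀ l, ‖∑ k, star (B l k) * x k‖ ^ 2 = ‖(B *ᵥ star x) l‖ ^ 2 := by
      intro l
      have : ∑ k, star (B l k) * x k = star ((B *ᵥ star x) l) := by
        simp only [mulVec, dotProduct, star_sum, star_mul', Pi.star_apply, star_star]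
      rw [this, norm_star]
    simp_rw [h1]
    rw [det_sum_norm, hB, star_mulVec, star_star, ← Matrix.dotProduct_mulVec, mulVec_mulVec]
  refine ⟨B.map star, ?_, ?_⟩
  · intro x
    simp only [map_apply]
    set y := H⁻¹ *ᵥ star x with hy
    have hHy : H *ᵥ y = star x := by
      rw [hy, mulVec_mulVec, mul_nonsing_inv _ hHu, one_mulVec]
    have hHy2 : H *ᵥ y = A₀ᴴ *ᵥ (A₀ *ᵥ y) + s • y := by
      rw [hH, add_mulVec, ← mulVec_mulVec, smul_mulVec, one_mulVec]
    set w := A₀ *ᵥ y with hw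
    have hx : x = star (H *ᵥ y) := by rw [hHy, star_star]
    have hss : star s = s := by
      rw [hs]; simp
    have e1 : x ⬝ᵥ y = star w ⬝ᵥ w + s * (star y ⬝ᵥ y) := by
      rw [hx, hHy2, star_add, add_dotProduct, star_mulVec, conjTranspose_conjTranspose,
        ← dotProduct_mulVec, star_smul, hss, smul_dotProduct, smul_eq_mul]
    have e2 : star x ⬝ᵥ x = star (A₀ᴴ *ᵥ w) ⬝ᵥ (A₀ᴴ *ᵥ w) + 2 * s * (star w ⬝ᵥ w) +
        s ^ 2 * (star y ⬝ᵥ y) := by
      have f1 : star (A₀ᴴ *ᵥ w) ⬝ᵥ y = star w ⬝ᵥ w := by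
        rw [star_mulVec, conjTranspose_conjTranspose, ← dotProduct_mulVec]
      have f2 : star y ⬝ᵥ (A₀ᴴ *ᵥ w) = star w ⬝ᵥ w := by
        rw [dotProduct_mulVec, ← star_mulVec]
      rw [hx, star_star, dotProduct_comm, hHy2, star_add, star_smul, hss]
      rw [add_dotProduct, dotProduct_add, dotProduct_add, smul_dotProduct, smul_dotProduct,
        dotProduct_smul, dotProduct_smul, f1, f2]
      simp only [smul_eq_mul]
      ring
    have e3 : ((∑ l, ‖∑ k, star (B l k) * x k‖ ^ 2 : ℝ) : ℂ) =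
        ((∑ l, ‖w l‖ ^ 2 + τ ^ 2 * ∑ l, ‖y l‖ ^ 2 : ℝ) : ℂ) := by
      rw [hQ x, e1, Complex.ofReal_add, Complex.ofReal_mul, det_sum_norm, det_sum_norm]
    have e4 : ((∑ k, ‖x k‖ ^ 2 : ℝ) : ℂ) =
        ((∑ l, ‖(A₀ᴴ *ᵥ w) l‖ ^ 2 + 2 * τ ^ 2 * ∑ l, ‖w l‖ ^ 2 +
          (τ ^ 2) ^ 2 * ∑ l, ‖y l‖ ^ 2 : ℝ) : ℂ) := by
      rw [det_sum_norm, e2]
      push_cast
      rw [← det_sum_norm, ← det_sum_norm, ← det_sum_norm, hs]
      push_cast
      ring
    have e3' := Complex.ofReal_injective e3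
    have e4' := Complex.ofReal_injective e4
    rw [e3', e4', inv_mul_eq_div, le_div_iff₀ (by positivity)]
    have p1 : 0 ≤ ∑ l, ‖(A₀ᴴ *ᵥ w) l‖ ^ 2 := Finset.sum_nonneg fun _ _ => by positivity
    have p2 : 0 ≤ ∑ l, ‖w l‖ ^ 2 := Finset.sum_nonneg fun _ _ => by positivity
    nlinarith [mul_nonneg (sq_nonneg τ) p2]
  · intro a
    simp only [map_apply]
    apply Complex.ofReal_injective
    rw [Complex.ofReal_mul, Complex.ofReal_add, hQ a, ← det_D_cast, ← det_D_cast]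
    rw [det_updateRow_gram]
    have h1 : A₀ᴴ * A₀ + vecMulVec (star a) a + s • (1 : Matrix (Fin n) (Fin n) ℂ) =
        H + replicateCol Unit (star a) * replicateRow Unit a := by
      rw [hH, ← vecMulVec_eq]
      abel
    rw [h1, det_add_replicateCol_mul_replicateRow hHu]
    congr 1
    rw [det_unique]
    simp only [Matrix.add_apply, Matrix.one_apply_eq, Complex.ofReal_one]
    congr 1
    rw [Matrix.mul_assoc]
    simp only [Matrix.mul_apply, replicateRow_apply, replicateCol_apply, dotProduct, mulVec,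
      Pi.star_apply]

end Pool.Agent.Circ
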