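import Pool.Agent.Lib.Circ.DetReg

/-!
# Module F2: the regularised determinant, second part
-/

set_option autoImplicit false

open MeasureTheory ProbabilityTheory Filter Matrix Finset

namespace Pool.Agent.Circ

variable {n : ℕ}

/-- expansion of a determinant along a row with one nonzero entry -/
theorem det2_row {m : ℕ} (M : Matrix (Fin (m + 1)) (Fin (m + 1)) ℂ) (k : Fin (m + 1)) (c : ℂ)
    (h : ∀ j, M k j = if j = k then c else 0) :
    M.det = c * (M.submatrix k.succAbove k.succAbove).det := by
  rw [Matrix.det_succ_row M k, Finset.sum_eq_single k]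
  · rw [h k, if_pos rfl, ← two_mul, pow_mul]
    simp
  · intro j _ hj
    rw [h j, if_neg hj]
    simp
  · intro hk
    exact absurd (Finset.mem_univ k) hk

/-- the Gram entries with the row `i` zeroed -/
theorem det2_gram (A : Matrix (Fin n) (Fin n) ℂ) (i : Fin n) (a : Fin n → ℂ) (p q : Fin n) :
    ((A.updateRow i a)ᴴ * (A.updateRow i a)) p q =
      ((A.updateRow i 0)ᴴ * (A.updateRow i 0)) p q + star (a p) * a q := by
  simp only [Matrix.mul_apply, Matrix.conjTranspose_apply]
  rw [← Finset.add_sum_erase _ _ (Finset.mem_univ i),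
    ← Finset.add_sum_erase (s := Finset.univ) _ (Finset.mem_univ i)]
  simp only [Matrix.updateRow_self]
  have h : ∀ x ∈ Finset.univ.erase i, star (A.updateRow i a x p) * A.updateRow i a x q =
      star (A.updateRow i 0 x p) * A.updateRow i 0 x q := by
    intro x hx
    rw [Matrix.updateRow_ne (Finset.ne_of_mem_erase hx),
      Matrix.updateRow_ne (Finset.ne_of_mem_erase hx)]
  rw [Finset.sum_congr rfl h]
  simp
  ring

/-- A basis row: the difference is the determinant with row `i` and column `k` removed. -/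
theorem D_single {τ : ℝ} (hτ : 0 < τ) (A : Matrix (Fin n) (Fin n) ℂ) (i k : Fin n) :
    D τ (A.updateRow i (Pi.single k 1)) = D τ (A.updateRow i 0) +
      (τ ^ 2)⁻¹ * D τ ((A.updateRow i 0).updateCol k 0) := by
  obtain ⟨m, rfl⟩ : ∃ m, n = m + 1 := ⟨n - 1, by have := k.2; omega⟩
  set c : ℂ := ((τ ^ 2 : ℝ) : ℂ) with hc
  set A₀ := A.updateRow i 0 with hA₀
  set H : Matrix (Fin (m + 1)) (Fin (m + 1)) ℂ := A₀ᴴ * A₀ + c • 1 with hH
  -- the left side
  have h1 : (A.updateRow i (Pi.single k 1))ᴴ * (A.updateRow i (Pi.single k 1)) + c • 1 =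
      H.updateRow k (H k + Pi.single k 1) := by
    ext p q
    rw [Matrix.add_apply, det2_gram]
    by_cases hp : p = k
    · subst hp
      rw [Matrix.updateRow_self, Pi.add_apply, hH, Matrix.add_apply]
      by_cases hq : q = p
      · subst hq
        simp
        ring
      · simp [Pi.single_eq_of_ne hq, hA₀]
    · rw [Matrix.updateRow_ne hp, Pi.single_eq_of_ne hp, hH, Matrix.add_apply]
      simp [hA₀]
  have h2 : (H.updateRow k (H k + Pi.single k 1)).det = H.det +
      (H.submatrix k.succAbove k.succAbove).det := by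
    rw [Matrix.det_updateRow_add, Matrix.updateRow_eq_self]
    congr 1
    rw [det2_row _ k 1 (fun j => by
      rw [Matrix.updateRow_self]
      simp [Pi.single_apply]), one_mul]
    congr 1
    ext p q
    simp [Matrix.submatrix_apply]
  -- the right side
  have h3 : ((A₀.updateCol k 0)ᴴ * (A₀.updateCol k 0) + c • 1).det =
      c * (H.submatrix k.succAbove k.succAbove).det := by
    rw [det2_row _ k c (fun j => ?_)]
    · congr 2
      ext p q
      rw [Matrix.submatrix_apply, Matrix.submatrix_apply, hH, Matrix.add_apply, Matrix.add_apply]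
      congr 1
      simp only [Matrix.mul_apply, Matrix.conjTranspose_apply]
      refine Finset.sum_congr rfl fun x _ => ?_
      rw [Matrix.updateCol_ne (Fin.succAbove_ne k p), Matrix.updateCol_ne (Fin.succAbove_ne k q)]
    · rw [Matrix.add_apply, Matrix.mul_apply]
      have : ∀ x, ((A₀.updateCol k 0)ᴴ) k x * (A₀.updateCol k 0) x j = 0 := fun x => by
        rw [Matrix.conjTranspose_apply, Matrix.updateCol_self]
        simp
      rw [Finset.sum_congr rfl fun x _ => this x]
      by_cases hj : j = k
      · subst hj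
        simp
      · simp [hj, Matrix.one_apply_ne (Ne.symm hj)]
  unfold D
  rw [← hc, h1, h2, h3, Complex.add_re, hc, Complex.re_ofReal_mul, ← mul_assoc,
    inv_mul_cancel₀ (by positivity), one_mul]

/-- the rows in `s` zeroed -/
def det2_zr (s : Finset (Fin n)) (A : Matrix (Fin n) (Fin n) ℂ) : Matrix (Fin n) (Fin n) ℂ :=
  Matrix.of fun i j => if i ∈ s then 0 else A i j

theorem det2_zr_empty (A : Matrix (Fin n) (Fin n) ℂ) : det2_zr ∅ A = A := by
  ext i j
  simp [det2_zr]

theorem det2_zr_univ (A : Matrix (Fin n) (Fin n) ℂ) : det2_zr Finset.univ A = 0 := by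
  ext i j
  simp [det2_zr]

theorem det2_zr_insert (s : Finset (Fin n)) (A : Matrix (Fin n) (Fin n) ℂ) (i : Fin n) :
    det2_zr (insert i s) A = (det2_zr s A).updateRow i 0 := by
  ext p q
  by_cases hp : p = i
  · subst hp
    simp [det2_zr]
  · rw [Matrix.updateRow_ne hp]
    simp [det2_zr, hp]

theorem det2_zr_self {s : Finset (Fin n)} (A : Matrix (Fin n) (Fin n) ℂ) {i : Fin n}
    (hi : i ∉ s) : (det2_zr s A).updateRow i (A i) = det2_zr s A := by
  ext p q
  by_cases hp : p = i
  · subst hp
    simp [det2_zr, hi]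
  · rw [Matrix.updateRow_ne hp]

theorem D_ge {τ : ℝ} (hτ : 0 < τ) (A : Matrix (Fin n) (Fin n) ℂ) : (τ ^ 2) ^ n ≤ D τ A := by
  have key : ∀ s : Finset (Fin n), D τ (det2_zr s A) ≤ D τ A := by
    intro s
    induction s using Finset.induction_on with
    | empty => rw [det2_zr_empty]
    | insert i s hi ih =>
      refine le_trans ?_ ih
      obtain ⟨g, -, hg⟩ := D_row hτ (det2_zr s A) i
      have h := hg (A i)
      rw [det2_zr_self A hi, ← det2_zr_insert] at h
      rw [h]
      refine le_mul_of_one_le_right (D_pos hτ _).le ?_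
      have : (0 : ℝ) ≤ ∑ l, ‖∑ k, g l k * A i k‖ ^ 2 :=
        Finset.sum_nonneg fun _ _ => by positivity
      linarith
  have h := key Finset.univ
  rw [det2_zr_univ, D_zero_matrix] at h
  exact h

theorem D_le_prod {τ : ℝ} (hτ : 0 < τ) (A : Matrix (Fin n) (Fin n) ℂ) :
    D τ A ≤ (τ ^ 2) ^ n * ∏ i, (1 + (τ ^ 2)⁻¹ * ∑ k, ‖A i k‖ ^ 2) := by
  have key : ∀ s : Finset (Fin n), D τ A ≤
      D τ (det2_zr s A) * ∏ i ∈ s, (1 + (τ ^ 2)⁻¹ * ∑ k, ‖A i k‖ ^ 2) := by
    intro s
    induction s using Finset.induction_on with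
    | empty => rw [det2_zr_empty]; simp
    | insert i s hi ih =>
      refine ih.trans ?_
      obtain ⟨g, hg1, hg⟩ := D_row hτ (det2_zr s A) i
      have h := hg (A i)
      rw [det2_zr_self A hi, ← det2_zr_insert] at h
      rw [h, Finset.prod_insert hi, mul_assoc]
      refine mul_le_mul_of_nonneg_left ?_ (D_pos hτ _).le
      refine mul_le_mul_of_nonneg_right ?_ (Finset.prod_nonneg fun _ _ => by positivity)
      have := hg1 (A i)
      linarith
  have h := key Finset.univ
  rw [det2_zr_univ, D_zero_matrix] at h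
  exact h

end Pool.Agent.Circ
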