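import Mathlib

/-!
# Module I1: the Efron-Stein inequality on a finite power of a probability space

Induction on `n` with `MeasurableEquiv.piFinSuccAbove` / `measurePreserving_piFinSuccAbove`.
-/

set_option autoImplicit false

open MeasureTheory ProbabilityTheory Filter Matrix Finset

namespace Pool.Agent.Circ

section es

variable {A B : Type} [MeasurableSpace A] [MeasurableSpace B]

theorem es_int {μ : Measure A} [IsProbabilityMeasure μ] {f : A → ℝ}
    (hf : AEStronglyMeasurable f μ) (h2 : Integrable (fun x => f x ^ 2) μ) : Integrable f μ :=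
  ((memLp_two_iff_integrable_sq hf).2 h2).integrable one_le_two

theorem es_sub {μ : Measure A} {f g : A → ℝ}
    (hf : AEStronglyMeasurable f μ) (hg : AEStronglyMeasurable g μ)
    (hf2 : Integrable (fun x => f x ^ 2) μ)
    (hg2 : Integrable (fun x => g x ^ 2) μ) : Integrable (fun x => (f x - g x) ^ 2) μ :=
  ((((memLp_two_iff_integrable_sq hf).2 hf2).sub ((memLp_two_iff_integrable_sq hg).2 hg2))).integrable_sq

/-- Variance of one variable. -/
theorem es_var {μ : Measure A} [IsProbabilityMeasure μ] {f : A → ℝ}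
    (hf : AEStronglyMeasurable f μ) (h2 : Integrable (fun x => f x ^ 2) μ) :
    ∫ x, (f x - ∫ y, f y ∂μ) ^ 2 ∂μ = ∫ x, f x ^ 2 ∂μ - (∫ y, f y ∂μ) ^ 2 := by
  have h1 := es_int hf h2
  set c := ∫ y, f y ∂μ with hc
  have : ∀ x, (f x - c) ^ 2 = f x ^ 2 - (2 * c * f x - c ^ 2) := fun x => by ring
  simp_rw [this]
  have e1 : ∫ x, (f x ^ 2 - (2 * c * f x - c ^ 2)) ∂μ =
      ∫ x, f x ^ 2 ∂μ - ∫ x, (2 * c * f x - c ^ 2) ∂μ :=
    integral_sub h2 ((h1.const_mul _).sub (integrable_const _))
  have e2 : ∫ x, (2 * c * f x - c ^ 2) ∂μ = ∫ x, 2 * c * f x ∂μ - ∫ _x, c ^ 2 ∂μ :=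
    integral_sub (h1.const_mul _) (integrable_const _)
  have e3 : ∫ _x, c ^ 2 ∂μ = c ^ 2 := by simp
  rw [e1, e2, integral_const_mul, ← hc, e3]
  ring

theorem es_meas (ν : Measure A) [IsProbabilityMeasure ν] {F : A × B → ℝ} (hF : Measurable F) :
    Measurable fun b => ∫ a, F (a, b) ∂ν :=
  (hF.comp measurable_swap).stronglyMeasurable.integral_prod_right'.measurable

theorem es_cond {ν : Measure A} {ρ : Measure B} [IsProbabilityMeasure ν] [IsProbabilityMeasure ρ]
    {F : A × B → ℝ} (hF : Measurable F) (h2 : Integrable (fun q => F q ^ 2) (ν.prod ρ)) :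
    Integrable (fun b => (∫ a, F (a, b) ∂ν) ^ 2) ρ ∧
    ∫ q, F q ^ 2 ∂(ν.prod ρ) = ∫ q, (F q - ∫ a, F (a, q.2) ∂ν) ^ 2 ∂(ν.prod ρ) +
      ∫ b, (∫ a, F (a, b) ∂ν) ^ 2 ∂ρ := by
  have hg := es_meas ν hF
  have hae : ∀ᵐ b ∂ρ, ∫ a, (F (a, b) - ∫ a, F (a, b) ∂ν) ^ 2 ∂ν =
      ∫ a, F (a, b) ^ 2 ∂ν - (∫ a, F (a, b) ∂ν) ^ 2 := by
    filter_upwards [h2.prod_left_ae] with b hb
    exact es_var (hF.comp measurable_prodMk_right).aestronglyMeasurable hb
  have hi1 : Integrable (fun b => ∫ a, F (a, b) ^ 2 ∂ν) ρ := h2.integral_prod_right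
  have hi : Integrable (fun b => (∫ a, F (a, b) ∂ν) ^ 2) ρ := by
    refine Integrable.mono' hi1 (hg.pow_const 2).aestronglyMeasurable ?_
    filter_upwards [hae] with b hb
    rw [Real.norm_eq_abs, abs_of_nonneg (sq_nonneg _)]
    have h0 : 0 ≤ ∫ a, (F (a, b) - ∫ a, F (a, b) ∂ν) ^ 2 ∂ν :=
      integral_nonneg fun a => sq_nonneg _
    linarith
  refine ⟨hi, ?_⟩
  have h3 : Integrable (fun q : A × B => (F q - ∫ a, F (a, q.2) ∂ν) ^ 2) (ν.prod ρ) := by
    refine es_sub (g := fun q : A × B => ∫ a, F (a, q.2) ∂ν) hF.aestronglyMeasurable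
      (hg.comp measurable_snd).aestronglyMeasurable h2 (hi.comp_snd ν)
  rw [integral_prod_symm _ h3, integral_prod_symm _ h2, ← integral_add h3.integral_prod_right hi]
  refine integral_congr_ae ?_
  filter_upwards [hae] with b hb
  rw [hb]
  ring

theorem es_jensen {ν : Measure A} {ρ : Measure B} [IsProbabilityMeasure ν]
    [IsProbabilityMeasure ρ]
    {F : A × B → ℝ} (hF : Measurable F) (h2 : Integrable (fun q => F q ^ 2) (ν.prod ρ)) :
    ∫ b, (∫ a, F (a, b) ∂ν) ^ 2 ∂ρ ≤ ∫ q, F q ^ 2 ∂(ν.prod ρ) := by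
  rw [(es_cond hF h2).2]
  have h0 : 0 ≤ ∫ q, (F q - ∫ a, F (a, q.2) ∂ν) ^ 2 ∂(ν.prod ρ) :=
    integral_nonneg fun a => sq_nonneg _
  linarith

end es

section upd

variable {Y : Type} [MeasurableSpace Y] (ν : Measure Y) [IsProbabilityMeasure ν] {n : ℕ}

theorem es_update (i : Fin n) :
    MeasurePreserving (fun q : (Fin n → Y) × Y => Function.update q.1 i q.2)
      ((Measure.pi fun _ : Fin n => ν).prod ν) (Measure.pi fun _ : Fin n => ν) := by
  refine ⟨measurable_update', (Measure.pi_eq fun s hs => ?_).symm⟩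
  rw [Measure.map_apply measurable_update' (MeasurableSet.univ_pi hs)]
  have h : (fun q : (Fin n → Y) × Y => Function.update q.1 i q.2) ⁻¹' (Set.univ.pi s) =
      (Set.univ.pi (Function.update s i Set.univ)) ×ˢ s i := by
    ext q
    simp only [Set.mem_preimage, Set.mem_pi, Set.mem_univ, true_implies, Set.mem_prod]
    constructor
    · intro h
      refine ⟨fun j => ?_, by simpa using h i⟩
      by_cases hj : j = i
      · subst hj; simp
      · simpa [hj] using h j
    · rintro ⟨h1, h2⟩ j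
      by_cases hj : j = i
      · subst hj; simpa using h2
      · simpa [hj] using h1 j
  rw [h, Measure.prod_prod, Measure.pi_pi, ← Finset.mul_prod_erase Finset.univ _
    (Finset.mem_univ i), ← Finset.mul_prod_erase Finset.univ (fun i => ν (s i))
    (Finset.mem_univ i)]
  simp only [Function.update_self, measure_univ, one_mul]
  rw [mul_comm]
  congr 1
  refine Finset.prod_congr rfl fun j hj => ?_
  rw [Function.update_of_ne (Finset.ne_of_mem_erase hj)]

/-- `(y, (a, c)) ↦ (a, update y i c)`. -/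
theorem es_mp1 (i : Fin n) :
    MeasurePreserving
      (fun q : (Fin n → Y) × (Y × Y) => (q.2.1, Function.update q.1 i q.2.2))
      ((Measure.pi fun _ : Fin n => ν).prod (ν.prod ν))
      (ν.prod (Measure.pi fun _ : Fin n => ν)) := by
  have h1 : MeasurePreserving (Prod.swap : (Fin n → Y) × (Y × Y) → (Y × Y) × (Fin n → Y))
      ((Measure.pi fun _ : Fin n => ν).prod (ν.prod ν))
      ((ν.prod ν).prod (Measure.pi fun _ : Fin n => ν)) := Measure.measurePreserving_swap
  have h2 := measurePreserving_prodAssoc ν ν (Measure.pi fun _ : Fin n => ν)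
  have h3 : MeasurePreserving (Prod.swap : Y × (Fin n → Y) → (Fin n → Y) × Y)
      (ν.prod (Measure.pi fun _ : Fin n => ν))
      ((Measure.pi fun _ : Fin n => ν).prod ν) := Measure.measurePreserving_swap
  have h4 := (MeasurePreserving.id ν).prod ((es_update ν i).comp h3)
  exact h4.comp (h2.comp h1)

/-- `((a, y), c) ↦ (a, update y i c)`. -/
theorem es_mp2 (i : Fin n) :
    MeasurePreserving
      (fun q : Y × (Y × (Fin n → Y)) => (q.2.1, Function.update q.2.2 i q.1))
      (ν.prod (ν.prod (Measure.pi fun _ : Fin n => ν)))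
      (ν.prod (Measure.pi fun _ : Fin n => ν)) := by
  have h0 : MeasurePreserving (Prod.swap : Y × (Y × (Fin n → Y)) → (Y × (Fin n → Y)) × Y)
      (ν.prod (ν.prod (Measure.pi fun _ : Fin n => ν)))
      ((ν.prod (Measure.pi fun _ : Fin n => ν)).prod ν) := Measure.measurePreserving_swap
  have h2 := measurePreserving_prodAssoc ν (Measure.pi fun _ : Fin n => ν) ν
  have h4 := (MeasurePreserving.id ν).prod (es_update ν i)
  exact h4.comp (h2.comp h0)

theorem es_term (i : Fin n) {F : Y × (Fin n → Y) → ℝ} (hF : Measurable F)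
    (h2 : Integrable (fun q => F q ^ 2) (ν.prod (Measure.pi fun _ : Fin n => ν))) :
    ∫ y, ((∫ a, F (a, y) ∂ν) - ∫ c, (∫ a, F (a, Function.update y i c) ∂ν) ∂ν) ^ 2
        ∂(Measure.pi fun _ : Fin n => ν) ≤
      ∫ q, (F q - ∫ c, F (q.1, Function.update q.2 i c) ∂ν) ^ 2
        ∂(ν.prod (Measure.pi fun _ : Fin n => ν)) := by
  set π := (Measure.pi fun _ : Fin n => ν) with hπ
  -- the function `G (c, (a, y)) = F (a, update y i c)`
  have hGm : Measurable fun q : Y × (Y × (Fin n → Y)) =>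
      F (q.2.1, Function.update q.2.2 i q.1) := hF.comp (es_mp2 ν i).measurable
  have hG2 : Integrable (fun q : Y × (Y × (Fin n → Y)) =>
      F (q.2.1, Function.update q.2.2 i q.1) ^ 2) (ν.prod (ν.prod π)) :=
    (es_mp2 ν i).integrable_comp_of_integrable h2
  have hcond := es_cond hGm hG2
  have hEm : Measurable fun q : Y × (Fin n → Y) => ∫ c, F (q.1, Function.update q.2 i c) ∂ν :=
    es_meas ν hGm
  set H : Y × (Fin n → Y) → ℝ := fun q => F q - ∫ c, F (q.1, Function.update q.2 i c) ∂ν with hH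
  have hHm : Measurable H := hF.sub hEm
  have hH2 : Integrable (fun q => H q ^ 2) (ν.prod π) :=
    es_sub hF.aestronglyMeasurable hEm.aestronglyMeasurable h2 hcond.1
  refine le_trans (le_of_eq ?_) (es_jensen hHm hH2)
  refine integral_congr_ae ?_
  have hFi : Integrable F (ν.prod π) := es_int hF.aestronglyMeasurable h2
  have hG' : Integrable (fun q : (Fin n → Y) × (Y × Y) =>
      F (q.2.1, Function.update q.1 i q.2.2)) (π.prod (ν.prod ν)) :=
    (es_mp1 ν i).integrable_comp_of_integrable hFi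
  filter_upwards [hFi.prod_left_ae, hG'.prod_right_ae] with y hy1 hy2
  have hsw : ∫ c, (∫ a, F (a, Function.update y i c) ∂ν) ∂ν =
      ∫ a, (∫ c, F (a, Function.update y i c) ∂ν) ∂ν :=
    (integral_integral_swap (f := fun a c => F (a, Function.update y i c)) hy2).symm
  rw [hsw, ← integral_sub hy1 hy2.integral_prod_left]

/-- The Efron-Stein inequality. -/
theorem es_main : ∀ (n : ℕ) (f : (Fin n → Y) → ℝ), Measurable f →
    Integrable (fun x => f x ^ 2) (Measure.pi fun _ : Fin n => ν) →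
    ∫ x, f x ^ 2 ∂(Measure.pi fun _ : Fin n => ν) -
        (∫ x, f x ∂(Measure.pi fun _ : Fin n => ν)) ^ 2 ≤
      ∑ i, ∫ x, (f x - ∫ y, f (Function.update x i y) ∂ν) ^ 2
        ∂(Measure.pi fun _ : Fin n => ν) := by
  intro n
  induction n with
  | zero =>
    intro f hf h2
    rw [Measure.pi_of_empty (fun _ : Fin 0 => ν)]
    simp
  | succ n ih =>
    intro f hf h2
    set e := MeasurableEquiv.piFinSuccAbove (fun _ : Fin (n + 1) => Y) 0 with he
    have hmp : MeasurePreserving e.symm (ν.prod (Measure.pi fun _ : Fin n => ν))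
        (Measure.pi fun _ : Fin (n + 1) => ν) :=
      (measurePreserving_piFinSuccAbove (fun _ : Fin (n + 1) => ν) 0).symm
    have hes : ∀ (a : Y) (y : Fin n → Y), e.symm (a, y) = Fin.cons a y := by
      intro a y
      simp [he, MeasurableEquiv.piFinSuccAbove, Fin.insertNthEquiv]
    have htr : ∀ g : (Fin (n + 1) → Y) → ℝ, ∫ x, g x ∂(Measure.pi fun _ : Fin (n + 1) => ν) =
        ∫ q, g (e.symm q) ∂(ν.prod (Measure.pi fun _ : Fin n => ν)) := fun g =>
      (hmp.integral_comp e.symm.measurableEmbedding g).symm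
    set F : Y × (Fin n → Y) → ℝ := fun q => f (e.symm q) with hFdef
    have hF : Measurable F := hf.comp e.symm.measurable
    have hF2 : Integrable (fun q => F q ^ 2) (ν.prod (Measure.pi fun _ : Fin n => ν)) :=
      hmp.integrable_comp_of_integrable h2
    have hcond := es_cond hF hF2
    have hFi : Integrable F (ν.prod (Measure.pi fun _ : Fin n => ν)) :=
      es_int hF.aestronglyMeasurable hF2
    have hgm := es_meas ν hF
    have hI := ih _ hgm hcond.1
    rw [htr (fun x => f x ^ 2), htr f, Fin.sum_univ_succ]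
    have h0 : ∫ x, (f x - ∫ y, f (Function.update x 0 y) ∂ν) ^ 2
        ∂(Measure.pi fun _ : Fin (n + 1) => ν) =
        ∫ q, (F q - ∫ a, F (a, q.2) ∂ν) ^ 2 ∂(ν.prod (Measure.pi fun _ : Fin n => ν)) := by
      rw [htr]
      refine integral_congr_ae (Eventually.of_forall ?_)
      rintro ⟨a, y⟩
      simp only [hFdef, hes, Fin.update_cons_zero]
    have hs : ∀ i : Fin n, ∫ y, ((∫ a, F (a, y) ∂ν) -
          ∫ c, (∫ a, F (a, Function.update y i c) ∂ν) ∂ν) ^ 2
          ∂(Measure.pi fun _ : Fin n => ν) ≤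
        ∫ x, (f x - ∫ y, f (Function.update x i.succ y) ∂ν) ^ 2
        ∂(Measure.pi fun _ : Fin (n + 1) => ν) := by
      intro i
      refine le_trans (es_term ν i hF hF2) (le_of_eq ?_)
      rw [htr]
      refine integral_congr_ae (Eventually.of_forall ?_)
      rintro ⟨a, y⟩
      simp only [hFdef, hes, Fin.cons_update]
    rw [h0]
    have hsum := Finset.sum_le_sum fun i (_ : i ∈ (Finset.univ : Finset (Fin n))) => hs i
    have hint : ∫ q, F q ∂(ν.prod (Measure.pi fun _ : Fin n => ν)) =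
        ∫ y, (∫ a, F (a, y) ∂ν) ∂(Measure.pi fun _ : Fin n => ν) := integral_prod_symm _ hFi
    have hc2 := hcond.2
    simp only [hFdef] at hint hc2 hI hsum ⊢
    rw [hint]
    linarith

end upd

theorem efron_stein {Y : Type} [MeasurableSpace Y] (ν : Measure Y) [IsProbabilityMeasure ν]
    {n : ℕ} (f : (Fin n → Y) → ℝ) (hf : Measurable f)
    (hf2 : Integrable (fun x => f x ^ 2) (Measure.pi fun _ : Fin n => ν))
    (hloc : ∀ x i, Integrable (fun y => f (Function.update x i y)) ν) :
    ∫ x, f x ^ 2 ∂(Measure.pi fun _ : Fin n => ν) -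
        (∫ x, f x ∂(Measure.pi fun _ : Fin n => ν)) ^ 2 ≤
      ∑ i, ∫ x, (f x - ∫ y, f (Function.update x i y) ∂ν) ^ 2
        ∂(Measure.pi fun _ : Fin n => ν) :=
  es_main ν n f hf hf2

end Pool.Agent.Circ
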