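import Pool.Agent.Lib.Circ.Defs

/-!
# Module G: linear forms in independent variables

`lf_neg`: let `σ² = Σ ‖c k‖²`, `s² = σ² + ‖b‖²`. For every `k`, conditionally on the other
coordinates, `∫ ‖w‖^(-α) ≤ K ‖c k‖^(-α)`; take the maximal `‖c k‖ ≥ σ/√n`. If `‖b‖ ≤ 2σ` use
Cauchy-Schwarz for the exponent `α/2`. If `‖b‖ > 2σ` split according to `‖Σ c k x k‖ ≤ ‖b‖/2`
(Chebyshev). This gives `∫ ‖w‖^(-α/2) ≤ 6 K n^(α/4) s^(-α/2)`; then Jensen (Lyapunov) for
smaller exponents.
-/

set_option autoImplicit false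

open MeasureTheory ProbabilityTheory Filter Matrix Finset

namespace Pool.Agent.Circ

variable {n : ℕ}

theorem lf_int_sq {μ : Measure ℂ} [IsProbabilityMeasure μ] {m : ℝ} (hμ : Law4 μ m) :
    Integrable (fun x : ℂ => ‖x‖ ^ 2) μ := by
  have h : Integrable (fun x : ℂ => 1 + ‖x‖ ^ 4) μ := (integrable_const _).add hμ.int4
  refine h.mono' (by fun_prop) (Eventually.of_forall fun x => ?_)
  rw [Real.norm_eq_abs, abs_of_nonneg (by positivity)]
  nlinarith [sq_nonneg (‖x‖ ^ 2 - 1), sq_nonneg (‖x‖ ^ 2)]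

theorem lf_int_id {μ : Measure ℂ} [IsProbabilityMeasure μ] {m : ℝ} (hμ : Law4 μ m) :
    Integrable (fun x : ℂ => x) μ := by
  have h : Integrable (fun x : ℂ => 1 + ‖x‖ ^ 2) μ := (integrable_const _).add (lf_int_sq hμ)
  refine h.mono' (by fun_prop) (Eventually.of_forall fun x => ?_)
  nlinarith [sq_nonneg (‖x‖ - 1), sq_nonneg (‖x‖)]

theorem lf_int_conj {μ : Measure ℂ} [IsProbabilityMeasure μ] {m : ℝ} (hμ : Law4 μ m) :
    Integrable (fun x : ℂ => (starRingEnd ℂ) x) μ :=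
  (lf_int_id hμ).mono (by fun_prop) (Eventually.of_forall fun x => by simp)

theorem lf_mean_conj {μ : Measure ℂ} [IsProbabilityMeasure μ] {m : ℝ} (hμ : Law4 μ m) :
    ∫ x : ℂ, (starRingEnd ℂ) x ∂μ = 0 := by
  rw [integral_conj, hμ.mean, map_zero]

theorem lf_integral_eval {μ : Measure ℂ} [IsProbabilityMeasure μ] (k : Fin n) (f : ℂ → ℂ)
    (hf : Measurable f) :
    ∫ x : Fin n → ℂ, f (x k) ∂(Measure.pi fun _ : Fin n => μ) = ∫ x, f x ∂μ := by
  have h := measurePreserving_eval (fun _ : Fin n => μ) k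
  have h2 := integral_map (f := f) (μ := Measure.pi fun _ : Fin n => μ)
    h.measurable.aemeasurable hf.aestronglyMeasurable
  rw [h.map_eq] at h2
  exact h2.symm

/-- Mixed second moments. -/
theorem lf_mixed {μ : Measure ℂ} [IsProbabilityMeasure μ] {m : ℝ} (hμ : Law4 μ m)
    (k l : Fin n) :
    Integrable (fun x : Fin n → ℂ => x k * (starRingEnd ℂ) (x l))
      (Measure.pi fun _ : Fin n => μ) ∧
    ∫ x : Fin n → ℂ, x k * (starRingEnd ℂ) (x l) ∂(Measure.pi fun _ : Fin n => μ) =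
      if k = l then 1 else 0 := by
  by_cases hkl : k = l
  · subst hkl
    have h1 : Integrable (fun x : ℂ => x * (starRingEnd ℂ) x) μ := by
      refine (lf_int_sq hμ).mono (by fun_prop) (Eventually.of_forall fun x => ?_)
      simp [sq]
    refine ⟨integrable_comp_eval (μ := fun _ : Fin n => μ) (i := k) h1, ?_⟩
    rw [if_pos rfl, lf_integral_eval k (fun x => x * (starRingEnd ℂ) x) (by fun_prop)]
    have h2 : (fun x : ℂ => x * (starRingEnd ℂ) x) = fun x : ℂ => ((‖x‖ ^ 2 : ℝ) : ℂ) := by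
      funext x
      rw [Complex.mul_conj']
      push_cast
      rfl
    rw [h2, integral_complex_ofReal, hμ.var, Complex.ofReal_one]
  · have hind : iIndepFun (fun (i : Fin n) (x : Fin n → ℂ) => x i)
        (Measure.pi fun _ : Fin n => μ) :=
      iIndepFun_pi (X := fun _ : Fin n => (id : ℂ → ℂ)) (fun i => aemeasurable_id)
    have h2 : IndepFun (fun x : Fin n → ℂ => x k) (fun x : Fin n → ℂ => (starRingEnd ℂ) (x l))
        (Measure.pi fun _ : Fin n => μ) :=
      (hind.indepFun hkl).comp (φ := fun x : ℂ => x) (ψ := fun x : ℂ => (starRingEnd ℂ) x)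
        measurable_id (by fun_prop)
    have hk : Integrable (fun x : Fin n → ℂ => x k) (Measure.pi fun _ : Fin n => μ) :=
      integrable_comp_eval (μ := fun _ : Fin n => μ) (i := k) (f := fun x : ℂ => x) (lf_int_id hμ)
    have hl : Integrable (fun x : Fin n → ℂ => (starRingEnd ℂ) (x l))
        (Measure.pi fun _ : Fin n => μ) :=
      integrable_comp_eval (μ := fun _ : Fin n => μ) (i := l)
        (f := fun x : ℂ => (starRingEnd ℂ) x) (lf_int_conj hμ)
    refine ⟨h2.integrable_mul hk hl, ?_⟩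
    rw [if_neg hkl, h2.integral_fun_mul_eq_mul_integral hk.aestronglyMeasurable
      hl.aestronglyMeasurable]
    have := lf_integral_eval (μ := μ) k (fun x => x) (by fun_prop)
    rw [this, hμ.mean, zero_mul]

/-- Second moment of an affine form: integrability. -/
theorem lf_sq_aux {μ : Measure ℂ} [IsProbabilityMeasure μ] {m : ℝ} (hμ : Law4 μ m)
    (c : Fin n → ℂ) (b : ℂ) :
    Integrable (fun x : Fin n → ℂ => ‖∑ k, c k * x k - b‖ ^ 2)
      (Measure.pi fun _ : Fin n => μ) ∧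
    ∫ x : Fin n → ℂ, ‖∑ k, c k * x k - b‖ ^ 2 ∂(Measure.pi fun _ : Fin n => μ) =
      ∑ k, ‖c k‖ ^ 2 + ‖b‖ ^ 2 := by
  set P := Measure.pi fun _ : Fin n => μ with hP
  have hexp : (fun x : Fin n → ℂ => ((‖∑ k, c k * x k - b‖ ^ 2 : ℝ) : ℂ)) = fun x =>
      (∑ k, ∑ l, (c k * (starRingEnd ℂ) (c l)) * (x k * (starRingEnd ℂ) (x l))) -
      (∑ k, ((starRingEnd ℂ) b * c k) * x k) -
      (∑ k, (b * (starRingEnd ℂ) (c k)) * (starRingEnd ℂ) (x k)) + b * (starRingEnd ℂ) b := by
    funext x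
    have h1 : ((‖∑ k, c k * x k - b‖ ^ 2 : ℝ) : ℂ) =
        (∑ k, c k * x k - b) * (starRingEnd ℂ) (∑ k, c k * x k - b) := by
      rw [Complex.mul_conj']
      push_cast
      rfl
    rw [h1, map_sub, map_sum, sub_mul, mul_sub, mul_sub, Finset.sum_mul_sum]
    simp only [map_mul]
    have e1 : ∑ k, ∑ l, c k * x k * ((starRingEnd ℂ) (c l) * (starRingEnd ℂ) (x l)) =
        ∑ k, ∑ l, (c k * (starRingEnd ℂ) (c l)) * (x k * (starRingEnd ℂ) (x l)) :=
      Finset.sum_congr rfl fun k _ => Finset.sum_congr rfl fun l _ => by ring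
    have e2 : (∑ k, c k * x k) * (starRingEnd ℂ) b = ∑ k, ((starRingEnd ℂ) b * c k) * x k := by
      rw [Finset.sum_mul]
      exact Finset.sum_congr rfl fun k _ => by ring
    have e3 : b * ∑ k, (starRingEnd ℂ) (c k) * (starRingEnd ℂ) (x k) =
        ∑ k, (b * (starRingEnd ℂ) (c k)) * (starRingEnd ℂ) (x k) := by
      rw [Finset.mul_sum]
      exact Finset.sum_congr rfl fun k _ => by ring
    rw [e1, e2, e3]
    ring
  have hk : ∀ k, Integrable (fun x : Fin n → ℂ => x k) P := fun k =>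
    integrable_comp_eval (μ := fun _ : Fin n => μ) (i := k) (f := fun x : ℂ => x) (lf_int_id hμ)
  have hl : ∀ l, Integrable (fun x : Fin n → ℂ => (starRingEnd ℂ) (x l)) P := fun l =>
      integrable_comp_eval (μ := fun _ : Fin n => μ) (i := l)
        (f := fun x : ℂ => (starRingEnd ℂ) x) (lf_int_conj hμ)
  have i1 : ∀ k, Integrable (fun x : Fin n → ℂ =>
      ∑ l, (c k * (starRingEnd ℂ) (c l)) * (x k * (starRingEnd ℂ) (x l))) P := fun k =>
    integrable_finsetSum _ fun l _ => ((lf_mixed hμ k l).1).const_mul _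
  have i2 : Integrable (fun x : Fin n → ℂ =>
      ∑ k, ∑ l, (c k * (starRingEnd ℂ) (c l)) * (x k * (starRingEnd ℂ) (x l))) P :=
    integrable_finsetSum _ fun k _ => i1 k
  have i3 : Integrable (fun x : Fin n → ℂ => ∑ k, ((starRingEnd ℂ) b * c k) * x k) P :=
    integrable_finsetSum _ fun k _ => (hk k).const_mul _
  have i4 : Integrable (fun x : Fin n → ℂ =>
      ∑ k, (b * (starRingEnd ℂ) (c k)) * (starRingEnd ℂ) (x k)) P :=
    integrable_finsetSum _ fun k _ => (hl k).const_mul _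
  have i5 : Integrable (fun x : Fin n → ℂ =>
      (∑ k, ∑ l, (c k * (starRingEnd ℂ) (c l)) * (x k * (starRingEnd ℂ) (x l))) -
      (∑ k, ((starRingEnd ℂ) b * c k) * x k)) P := i2.sub i3
  have i6 : Integrable (fun x : Fin n → ℂ =>
      (∑ k, ∑ l, (c k * (starRingEnd ℂ) (c l)) * (x k * (starRingEnd ℂ) (x l))) -
      (∑ k, ((starRingEnd ℂ) b * c k) * x k) -
      (∑ k, (b * (starRingEnd ℂ) (c k)) * (starRingEnd ℂ) (x k))) P := i5.sub i4
  have hint : Integrable (fun x : Fin n → ℂ => ((‖∑ k, c k * x k - b‖ ^ 2 : ℝ) : ℂ)) P := by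
    rw [hexp]
    exact i6.add (integrable_const _)
  have hint' : Integrable (fun x : Fin n → ℂ => ‖∑ k, c k * x k - b‖ ^ 2) P := by
    exact hint.re.congr (Eventually.of_forall fun x => Complex.ofReal_re _)
  refine ⟨hint', ?_⟩
  have key : ((∫ x : Fin n → ℂ, ‖∑ k, c k * x k - b‖ ^ 2 ∂P : ℝ) : ℂ) =
      ((∑ k, ‖c k‖ ^ 2 + ‖b‖ ^ 2 : ℝ) : ℂ) := by
    rw [← integral_complex_ofReal, hexp, integral_add i6 (integrable_const _),
      integral_sub i5 i4, integral_sub i2 i3, integral_finsetSum _ (fun k _ => i1 k)]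
    have e1 : ∀ k, ∫ x : Fin n → ℂ,
        ∑ l, (c k * (starRingEnd ℂ) (c l)) * (x k * (starRingEnd ℂ) (x l)) ∂P =
        ((‖c k‖ ^ 2 : ℝ) : ℂ) := by
      intro k
      rw [integral_finsetSum _ (fun l _ => ((lf_mixed hμ k l).1).const_mul _)]
      have : ∀ l, ∫ x : Fin n → ℂ,
          (c k * (starRingEnd ℂ) (c l)) * (x k * (starRingEnd ℂ) (x l)) ∂P =
          if k = l then c k * (starRingEnd ℂ) (c l) else 0 := by
        intro l
        rw [integral_const_mul, (lf_mixed hμ k l).2]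
        split_ifs <;> simp
      rw [Finset.sum_congr rfl fun l _ => this l]
      simp only [Finset.sum_ite_eq, Finset.mem_univ, if_true]
      rw [Complex.mul_conj']
      push_cast
      rfl
    have e2 : ∫ x : Fin n → ℂ, ∑ k, ((starRingEnd ℂ) b * c k) * x k ∂P = 0 := by
      rw [integral_finsetSum _ (fun k _ => (hk k).const_mul _)]
      refine Finset.sum_eq_zero fun k _ => ?_
      have := lf_integral_eval (μ := μ) k (fun x => x) (by fun_prop)
      rw [integral_const_mul, this, hμ.mean, mul_zero]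
    have e3 : ∫ x : Fin n → ℂ, ∑ k, (b * (starRingEnd ℂ) (c k)) * (starRingEnd ℂ) (x k) ∂P =
        0 := by
      rw [integral_finsetSum _ (fun k _ => (hl k).const_mul _)]
      refine Finset.sum_eq_zero fun k _ => ?_
      have := lf_integral_eval (μ := μ) k (fun x => (starRingEnd ℂ) x) (by fun_prop)
      rw [integral_const_mul, this, lf_mean_conj hμ, mul_zero]
    rw [Finset.sum_congr rfl fun k _ => e1 k, e2, e3]
    simp only [integral_const, probReal_univ, one_smul]
    rw [Complex.mul_conj']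
    push_cast
    ring
  exact_mod_cast key

/-- Second moment of an affine form. -/
theorem lf_sq {μ : Measure ℂ} [IsProbabilityMeasure μ] {m : ℝ} (hμ : Law4 μ m)
    (c : Fin n → ℂ) (b : ℂ) :
    ∫⁻ x, ENNReal.ofReal (‖∑ k, c k * x k - b‖ ^ 2) ∂(Measure.pi fun _ : Fin n => μ) =
      ENNReal.ofReal (∑ k, ‖c k‖ ^ 2 + ‖b‖ ^ 2) := by
  obtain ⟨h1, h2⟩ := lf_sq_aux hμ c b
  rw [← h2, ofReal_integral_eq_lintegral_ofReal h1
    (Eventually.of_forall fun x => by positivity)]

/-- The mean of the quadratic form in a row of the model matrix. -/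
theorem lintegral_Q {μ : Measure ℂ} [IsProbabilityMeasure μ] {m : ℝ} (hμ : Law4 μ m)
    (g : Matrix (Fin n) (Fin n) ℂ) (u : Fin n → ℝ) (z : ℂ) (i : Fin n) :
    ∫⁻ x, ENNReal.ofReal (Q g u z i x) ∂(Measure.pi fun _ : Fin n => μ) =
      ENNReal.ofReal (∑ k, (u k ^ 2 + (if k = i then ‖z‖ ^ 2 else 0)) * ∑ l, ‖g l k‖ ^ 2) := by
  have h1 : ∀ x : Fin n → ℂ, ENNReal.ofReal (Q g u z i x) =
      ∑ l, ENNReal.ofReal (‖∑ k, (g l k * (u k : ℂ)) * x k - g l i * z‖ ^ 2) := by
    intro x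
    rw [← ENNReal.ofReal_sum_of_nonneg (fun l _ => by positivity)]
    congr 1
    unfold Q arow
    refine Finset.sum_congr rfl fun l _ => ?_
    congr 2
    have : ∀ k, g l k * ((u k : ℂ) * x k - (if k = i then z else 0)) =
        (g l k * (u k : ℂ)) * x k - (if k = i then g l k * z else 0) := by
      intro k
      split_ifs <;> ring
    rw [Finset.sum_congr rfl fun k _ => this k, Finset.sum_sub_distrib]
    simp
  simp_rw [h1]
  rw [lintegral_finsetSum _ (fun l _ => by fun_prop)]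
  simp_rw [lf_sq hμ]
  rw [← ENNReal.ofReal_sum_of_nonneg (fun l _ => by positivity)]
  congr 1
  have h2 : ∀ l, ∑ k, ‖g l k * (u k : ℂ)‖ ^ 2 + ‖g l i * z‖ ^ 2 =
      ∑ k, (u k ^ 2 + (if k = i then ‖z‖ ^ 2 else 0)) * ‖g l k‖ ^ 2 := by
    intro l
    have : ∀ k, (u k ^ 2 + (if k = i then ‖z‖ ^ 2 else 0)) * ‖g l k‖ ^ 2 =
        ‖g l k * (u k : ℂ)‖ ^ 2 + (if k = i then ‖g l k * z‖ ^ 2 else 0) := by
      intro k
      rw [norm_mul, Complex.norm_real, Real.norm_eq_abs, mul_pow, sq_abs]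
      split_ifs
      · rw [norm_mul]; ring
      · ring
    rw [Finset.sum_congr rfl fun k _ => this k, Finset.sum_add_distrib]
    simp
  rw [Finset.sum_congr rfl fun l _ => h2 l, Finset.sum_comm]
  exact Finset.sum_congr rfl fun k _ => by rw [Finset.mul_sum]

end Pool.Agent.Circ
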