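import Pool.Agent.Lib.Circ.MatchPoly2
import Pool.Agent.Lib.Circ.DetReg2
import Pool.Agent.Lib.Circ.LinForm

/-!
# Module K: the mean of the regularised determinant

For finite sets `R`, `C` of rows and columns mask the model matrix (zero outside `R × C`).
Claim by induction on `R`: `∫ D τ (mask) = (τ²)^(n-|C|) F B 1 τ² R C`, `B = Bmat U ‖z‖²`.
Step: integrate over one row `i ∈ R` (others fixed): by `D_row`, `lintegral_Q` (for the masked
row, i.e. `g` with columns outside `C` zeroed), `D_single`: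
`∫ D(row i = a) = D(row i = 0) + Σ_{k ∈ C} B i k τ⁻² D(row i = 0, column k = 0)`; compare `F_row`.
-/

set_option autoImplicit false

open MeasureTheory ProbabilityTheory Filter Matrix Finset

namespace Pool.Agent.Circ

variable {n : ℕ}

/-- The matrix `A` with the entries outside `R × C` replaced by zero. -/
def ed_mask (R C : Finset (Fin n)) (A : Matrix (Fin n) (Fin n) ℂ) :
    Matrix (Fin n) (Fin n) ℂ :=
  Matrix.of fun i j => if i ∈ R ∧ j ∈ C then A i j else 0

theorem ed_mask_univ (A : Matrix (Fin n) (Fin n) ℂ) :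
    ed_mask Finset.univ Finset.univ A = A := by
  ext i j
  simp [ed_mask]

theorem ed_mask_empty (C : Finset (Fin n)) (A : Matrix (Fin n) (Fin n) ℂ) :
    ed_mask ∅ C A = 0 := by
  ext i j
  simp [ed_mask]

theorem ed_mask_insert (U : Matrix (Fin n) (Fin n) ℝ) (z : ℂ) {R : Finset (Fin n)}
    (C : Finset (Fin n)) {i : Fin n} (hi : i ∉ R) (x : Fin n → Fin n → ℂ) (y : Fin n → ℂ) :
    ed_mask (insert i R) C (Amat U z (Function.update x i y)) =
      (ed_mask R C (Amat U z x)).updateRow i
        (fun k => if k ∈ C then arow (U i) z i y k else 0) := by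
  ext a b
  by_cases ha : a = i
  · subst ha
    simp only [ed_mask, Matrix.of_apply, Finset.mem_insert, true_or, true_and,
      Matrix.updateRow_self, Amat, arow, Function.update_self]
  · rw [Matrix.updateRow_ne ha]
    simp only [ed_mask, Matrix.of_apply, Finset.mem_insert, ha, false_or, Amat,
      Function.update_of_ne ha]

theorem ed_updateRow_zero {R : Finset (Fin n)} (C : Finset (Fin n)) {i : Fin n} (hi : i ∉ R)
    (A : Matrix (Fin n) (Fin n) ℂ) : (ed_mask R C A).updateRow i 0 = ed_mask R C A := by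
  ext a b
  by_cases ha : a = i
  · subst ha
    simp [ed_mask, hi]
  · rw [Matrix.updateRow_ne ha]

theorem ed_updateCol_zero (R : Finset (Fin n)) (C : Finset (Fin n)) (k : Fin n)
    (A : Matrix (Fin n) (Fin n) ℂ) :
    (ed_mask R C A).updateCol k 0 = ed_mask R (C.erase k) A := by
  ext a b
  by_cases hb : b = k
  · subst hb
    simp [ed_mask]
  · rw [Matrix.updateCol_ne hb]
    simp [ed_mask, hb]

theorem ed_measurable (U : Matrix (Fin n) (Fin n) ℝ) (z : ℂ) (τ : ℝ) (R C : Finset (Fin n)) :
    Measurable fun x : Fin n → Fin n → ℂ =>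
      ENNReal.ofReal (D τ (ed_mask R C (Amat U z x))) := by
  apply ENNReal.measurable_ofReal.comp
  have h1 : Continuous fun x : Fin n → Fin n → ℂ => ed_mask R C (Amat U z x) := by
    refine continuous_pi fun i => continuous_pi fun j => ?_
    simp only [ed_mask, Amat, Matrix.of_apply]
    by_cases h : i ∈ R ∧ j ∈ C
    · simp only [if_pos h]
      fun_prop
    · simp only [if_neg h]
      fun_prop
  exact (D_continuous.comp (continuous_const.prodMk h1)).measurable

/-- One row. -/
theorem ed_row {μ : Measure ℂ} [IsProbabilityMeasure μ] {m : ℝ} (hμ : Law4 μ m)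
    (U : Matrix (Fin n) (Fin n) ℝ) (hU : ∀ i j, 0 ≤ U i j) (z : ℂ) {τ : ℝ} (hτ : 0 < τ)
    {R : Finset (Fin n)} (C : Finset (Fin n)) {i : Fin n} (hi : i ∉ R)
    (x : Fin n → Fin n → ℂ) :
    ∫⁻ y : Fin n → ℂ, ENNReal.ofReal
        (D τ (ed_mask (insert i R) C (Amat U z (Function.update x i y))))
        ∂(Measure.pi fun _ : Fin n => μ) =
      ENNReal.ofReal (D τ (ed_mask R C (Amat U z x))) +
        ∑ k ∈ C, ENNReal.ofReal (Bmat U (‖z‖ ^ 2) i k * (τ ^ 2)⁻¹) *
          ENNReal.ofReal (D τ (ed_mask R (C.erase k) (Amat U z x))) := by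
  set A := ed_mask R C (Amat U z x) with hA
  obtain ⟨g, -, hg⟩ := D_row hτ A i
  have hA0 : A.updateRow i 0 = A := ed_updateRow_zero C hi _
  rw [hA0] at hg
  have hD0 : 0 < D τ A := D_pos hτ A
  set g' : Matrix (Fin n) (Fin n) ℂ := Matrix.of fun l k => if k ∈ C then g l k else 0 with hg'
  have h1 : ∀ y : Fin n → ℂ, ENNReal.ofReal
        (D τ (ed_mask (insert i R) C (Amat U z (Function.update x i y)))) =
      ENNReal.ofReal (D τ A) * (1 + ENNReal.ofReal (Q g' (U i) z i y)) := by
    intro y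
    rw [ed_mask_insert U z C hi, ← hA, hg, ENNReal.ofReal_mul hD0.le,
      ENNReal.ofReal_add zero_le_one (by positivity), ENNReal.ofReal_one]
    congr 3
    unfold Q
    refine Finset.sum_congr rfl fun l _ => ?_
    congr 2
    refine Finset.sum_congr rfl fun k _ => ?_
    simp only [hg', Matrix.of_apply]
    split_ifs <;> simp
  have hQm : Measurable fun y : Fin n → ℂ => ENNReal.ofReal (Q g' (U i) z i y) := by
    unfold Q arow
    fun_prop
  simp_rw [h1]
  rw [lintegral_const_mul _ (by fun_prop), lintegral_add_left measurable_const,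
    lintegral_const, measure_univ, mul_one, lintegral_Q hμ, mul_add, mul_one]
  congr 1
  have hB : ∀ k, 0 ≤ U i k ^ 2 + (if k = i then ‖z‖ ^ 2 else 0) := by
    intro k
    split_ifs <;> positivity
  rw [← ENNReal.ofReal_mul hD0.le]
  have h2 : ∀ k ∈ C, ENNReal.ofReal (Bmat U (‖z‖ ^ 2) i k * (τ ^ 2)⁻¹) *
      ENNReal.ofReal (D τ (ed_mask R (C.erase k) (Amat U z x))) =
      ENNReal.ofReal (D τ A * ((U i k ^ 2 + (if k = i then ‖z‖ ^ 2 else 0)) *
        ∑ l, ‖g l k‖ ^ 2)) := by
    intro k hk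
    have h3 := D_single hτ A i k
    rw [hA0, hg, hA, ed_updateCol_zero, ← hA] at h3
    have h4 : ∑ l, ‖∑ k', g l k' * (Pi.single k (1 : ℂ) : Fin n → ℂ) k'‖ ^ 2 =
        ∑ l, ‖g l k‖ ^ 2 := by
      refine Finset.sum_congr rfl fun l _ => ?_
      congr 2
      simp [Pi.single_apply]
    rw [h4] at h3
    rw [← ENNReal.ofReal_mul (by
      unfold Bmat
      simp only [Matrix.of_apply]
      have := hB k
      positivity)]
    congr 1
    have h5 : D τ A * ∑ l, ‖g l k‖ ^ 2 =
        (τ ^ 2)⁻¹ * D τ (ed_mask R (C.erase k) (Amat U z x)) := by linarith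
    unfold Bmat
    simp only [Matrix.of_apply]
    rw [mul_assoc, ← h5]
    ring
  rw [Finset.sum_congr rfl h2, ← ENNReal.ofReal_sum_of_nonneg (fun k _ => by
    have := hB k
    positivity), ← Finset.mul_sum]
  congr 2
  rw [← Finset.sum_filter_add_sum_filter_not Finset.univ (fun k => k ∈ C)]
  have h6 : ∑ k ∈ Finset.univ.filter (fun k => ¬ k ∈ C),
      (U i k ^ 2 + (if k = i then ‖z‖ ^ 2 else 0)) * ∑ l, ‖g' l k‖ ^ 2 = 0 := by
    refine Finset.sum_eq_zero fun k hk => ?_
    have hk' : k ∉ C := (Finset.mem_filter.1 hk).2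
    have : ∑ l, ‖g' l k‖ ^ 2 = 0 := by
      refine Finset.sum_eq_zero fun l _ => ?_
      simp [hg', hk']
    rw [this, mul_zero]
  rw [h6, add_zero, Finset.filter_mem_eq_inter, Finset.univ_inter]
  refine Finset.sum_congr rfl fun k hk => ?_
  congr 1
  refine Finset.sum_congr rfl fun l _ => ?_
  simp [hg', hk]

theorem ed_main {μ : Measure ℂ} [IsProbabilityMeasure μ] {m : ℝ} (hμ : Law4 μ m)
    (U : Matrix (Fin n) (Fin n) ℝ) (hU : ∀ i j, 0 ≤ U i j) (z : ℂ) {τ : ℝ} (hτ : 0 < τ)
    (R : Finset (Fin n)) : ∀ (C : Finset (Fin n)) (x : Fin n → Fin n → ℂ),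
    (lmarginal (fun _ : Fin n => Measure.pi fun _ : Fin n => μ) R
      (fun x => ENNReal.ofReal (D τ (ed_mask R C (Amat U z x))))) x =
      ENNReal.ofReal ((τ ^ 2) ^ (n - C.card) *
        F (Bmat U (‖z‖ ^ 2)) (fun _ => 1) (fun _ => τ ^ 2) R C) := by
  have hB0 : ∀ i j, 0 ≤ Bmat U (‖z‖ ^ 2) i j := by
    intro i j
    unfold Bmat
    simp only [Matrix.of_apply]
    split_ifs <;> positivity
  induction R using Finset.induction_on with
  | empty =>
    intro C x
    rw [lmarginal_empty]
    simp only [ed_mask_empty]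
    rw [D_zero_matrix, F_empty, Finset.prod_const, ← pow_add]
    congr 2
    have := Finset.card_le_univ C
    rw [Fintype.card_fin] at this
    omega
  | insert i R hi ih =>
    intro C x
    rw [lmarginal_insert' _ (ed_measurable U z τ (insert i R) C) hi]
    simp_rw [ed_row hμ U hU z hτ C hi]
    have hF0 : ∀ C', 0 ≤ F (Bmat U (‖z‖ ^ 2)) (fun _ => 1) (fun _ => τ ^ 2) R C' := fun C' =>
      F_nonneg hB0 (fun _ => zero_le_one) (fun _ => by positivity) R C'
    have hm : ∀ C', Measurable fun y : (∀ _ : R, Fin n → ℂ) =>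
        ENNReal.ofReal (D τ (ed_mask R C' (Amat U z (Function.updateFinset x R y)))) :=
      fun C' => (ed_measurable U z τ R C').comp measurable_updateFinset
    have ih' := fun C' => ih C' x
    simp only [lmarginal] at ih' ⊢
    rw [lintegral_add_left (hm C), ih' C,
      lintegral_finsetSum _ (fun k _ => (hm _).const_mul _)]
    have h1 : ∀ k ∈ C, ∫⁻ y : (∀ _ : R, Fin n → ℂ),
        ENNReal.ofReal (Bmat U (‖z‖ ^ 2) i k * (τ ^ 2)⁻¹) *
          ENNReal.ofReal (D τ (ed_mask R (C.erase k)
            (Amat U z (Function.updateFinset x R y))))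
          ∂(Measure.pi fun _ : R => Measure.pi fun _ : Fin n => μ) =
        ENNReal.ofReal ((τ ^ 2) ^ (n - C.card) * (Bmat U (‖z‖ ^ 2) i k *
          F (Bmat U (‖z‖ ^ 2)) (fun _ => 1) (fun _ => τ ^ 2) R (C.erase k))) := by
      intro k hk
      rw [lintegral_const_mul _ (hm _), ih' (C.erase k), ← ENNReal.ofReal_mul (by
        have := hB0 i k
        positivity)]
      congr 1
      have hcard : n - (C.erase k).card = (n - C.card) + 1 := by
        have h2 := Finset.card_le_univ C
        rw [Fintype.card_fin] at h2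
        have h3 : 0 < C.card := Finset.card_pos.2 ⟨k, hk⟩
        rw [Finset.card_erase_of_mem hk]
        omega
      rw [hcard, pow_succ]
      field_simp
      ring
    rw [Finset.sum_congr rfl h1, ← ENNReal.ofReal_sum_of_nonneg (fun k _ => by
      have := hB0 i k
      have := hF0 (C.erase k)
      positivity), ← ENNReal.ofReal_add (by
        have := hF0 C
        positivity) (Finset.sum_nonneg fun k _ => by
      have := hB0 i k
      have := hF0 (C.erase k)
      positivity)]
    congr 1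
    rw [F_row _ _ _ C (Finset.mem_insert_self i R), Finset.erase_insert hi, one_mul, mul_add,
      Finset.mul_sum]

theorem lintegral_D {μ : Measure ℂ} [IsProbabilityMeasure μ] {m : ℝ} (hμ : Law4 μ m)
    (U : Matrix (Fin n) (Fin n) ℝ) (hU : ∀ i j, 0 ≤ U i j) (z : ℂ) {τ : ℝ} (hτ : 0 < τ) :
    ∫⁻ x, ENNReal.ofReal (D τ (Amat U z x)) ∂(arr μ n) =
      ENNReal.ofReal (F (Bmat U (‖z‖ ^ 2)) (fun _ => 1) (fun _ => τ ^ 2)
        Finset.univ Finset.univ) := by
  have h := ed_main hμ U hU z hτ Finset.univ Finset.univ (fun _ _ => 0)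
  rw [lmarginal_univ] at h
  simp only [ed_mask_univ] at h
  unfold arr
  rw [h]
  simp

end Pool.Agent.Circ
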