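import Pool.Agent.Lib.Circ.Defs

/-!
# Module E: the mean field bound by random sampling

`V` is doubly stochastic with entries at most `δ`. Write `σ = 1_S`,
`r_k(σ) = Σ_i V i k σ_i`.

Case `κ ≤ p ≤ 1`. Let `O` be a random subset (every element independently with probability `ρ`:
weights `ρ^|O| (1-ρ)^(n-|O|)`), `θ_k(O,σ) = (1/ρ) Σ_{i ∈ O} V i k σ_i`. Then
`E θ_k = r_k`, `Var θ_k ≤ δ r_k / ρ`. Let `m(a) = p / max (1-a) κ`, `g(a) = 1 + log (m a)`;
`log ∘ m` is nondecreasing and `1/κ`-Lipschitz.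
(1) `log (θ+κ) ≥ log (r+κ) + (θ-r)/(r+κ) - (θ-r)²/((r+κ)κ)` (from `log (1+x) ≥ x/(1+x)`), so
`E log (θ_k+κ) ≥ log (r_k+κ) - δ/(ρκ)`; and `E g(θ_k)(r_k-θ_k) ≥ -δ/(ρκ)`.
(2) So `log W(σ) ≤ E_O L(O,σ) + 2nδ/(ρκ)` with `W(σ) = ∏ p^(1-σ_k) ((r_k+κ)/e)^σ_k` and
`L(O,σ) = Σ_k (1-σ_k) log p + σ_k (log (θ_k+κ) - 1) + g(θ_k) (r_k(σ) - θ_k)`; Jensen:
`W(σ) ≤ exp(2nδ/(ρκ)) E_O exp (L(O,σ))`.
(3) For fixed `O`, `θ` depends on `σ` only through `τ = O ∩ S`; bound the sum over `σ` by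
`Σ_{τ ⊆ O} Σ_{all σ'} exp(...)` (drop the constraint, all terms positive), the inner sum is
`exp(-Σ g_k θ_k) ∏_i (p + (θ_i+κ) exp(Σ_k V i k (g_k - 1)))`; use convexity of
`u ↦ log (p + b e^u)` with weights `V i k` (over `k`), then `log x ≤ log m + x/m - 1`, and sum:
total `≤ Σ_k [(1-θ_k) log m_k + p/m_k - 1 + κ] ≤ n (p - 1 + κ)` because
`q log (p/q) + q ≤ p` for `q = 1-θ_k ≥ κ` and `q log (p/κ) + κ ≤ p` for `q < κ ≤ p`.
(4) `E_O 2^|O| = (1+ρ)^n ≤ exp (ρ n)`.
Case `p < κ`: monotone in `p`, use `p = κ`. Case `p > 1`: `p^(n-|S|) ≤ p^n`, use `p = 1`.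
-/

set_option autoImplicit false

open MeasureTheory ProbabilityTheory Filter Matrix Finset

namespace Pool.Agent.Circ

variable {n : ℕ}

/-- Weighted sum over the subsets of `s`, every element being included with probability `ρ`. -/
noncomputable def gbE {ι : Type*} (ρ : ℝ) (s : Finset ι) (f : Finset ι → ℝ) : ℝ :=
  ∑ t ∈ s.powerset, ρ ^ t.card * (1 - ρ) ^ (s.card - t.card) * f t

theorem gb_E_insert {ι : Type*} [DecidableEq ι] (ρ : ℝ) {s : Finset ι} {a : ι} (ha : a ∉ s)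
    (f : Finset ι → ℝ) :
    gbE ρ (insert a s) f = (1 - ρ) * gbE ρ s f + ρ * gbE ρ s (fun t => f (insert a t)) := by
  unfold gbE
  rw [Finset.sum_powerset_insert ha, Finset.mul_sum, Finset.mul_sum]
  congr 1
  · apply Finset.sum_congr rfl
    intro t ht
    have h1 : t.card ≤ s.card := Finset.card_le_card (Finset.mem_powerset.1 ht)
    rw [Finset.card_insert_of_notMem ha, show s.card + 1 - t.card = (s.card - t.card) + 1 by omega,
      pow_succ]
    ring
  · apply Finset.sum_congr rfl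
    intro t ht
    have hat : a ∉ t := fun h => ha (Finset.mem_powerset.1 ht h)
    rw [Finset.card_insert_of_notMem ha, Finset.card_insert_of_notMem hat,
      show s.card + 1 - (t.card + 1) = s.card - t.card by omega, pow_succ]
    ring

theorem gb_E_empty {ι : Type*} (ρ : ℝ) (f : Finset ι → ℝ) : gbE ρ ∅ f = f ∅ := by
  simp [gbE]

theorem gb_E_one {ι : Type*} [DecidableEq ι] (ρ c : ℝ) (s : Finset ι) :
    gbE ρ s (fun _ => c) = c := by
  induction s using Finset.induction_on with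
  | empty => rw [gb_E_empty]
  | insert a s ha ih => rw [gb_E_insert ρ ha, ih]; ring

theorem gb_E_lin {ι : Type*} [DecidableEq ι] (ρ : ℝ) (a : ι → ℝ) (s : Finset ι) :
    ∀ c : ℝ, gbE ρ s (fun t => c + ∑ i ∈ t, a i) = c + ρ * ∑ i ∈ s, a i := by
  induction s using Finset.induction_on with
  | empty => intro c; rw [gb_E_empty]; simp
  | insert b s hb ih =>
    intro c
    have h1 : gbE ρ s (fun t => c + ∑ i ∈ insert b t, a i)
        = gbE ρ s (fun t => (c + a b) + ∑ i ∈ t, a i) := by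
      unfold gbE
      apply Finset.sum_congr rfl
      intro t ht
      have hbt : b ∉ t := fun h => hb (Finset.mem_powerset.1 ht h)
      beta_reduce
      rw [Finset.sum_insert hbt]
      ring
    rw [gb_E_insert ρ hb, h1, ih, ih, Finset.sum_insert hb]
    ring

theorem gb_E_sq {ι : Type*} [DecidableEq ι] (ρ : ℝ) (a : ι → ℝ) (s : Finset ι) :
    ∀ c : ℝ, gbE ρ s (fun t => (c + ∑ i ∈ t, a i) ^ 2) =
      (c + ρ * ∑ i ∈ s, a i) ^ 2 + ρ * (1 - ρ) * ∑ i ∈ s, a i ^ 2 := by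
  induction s using Finset.induction_on with
  | empty => intro c; rw [gb_E_empty]; simp
  | insert b s hb ih =>
    intro c
    have h1 : gbE ρ s (fun t => (c + ∑ i ∈ insert b t, a i) ^ 2)
        = gbE ρ s (fun t => ((c + a b) + ∑ i ∈ t, a i) ^ 2) := by
      unfold gbE
      apply Finset.sum_congr rfl
      intro t ht
      have hbt : b ∉ t := fun h => hb (Finset.mem_powerset.1 ht h)
      beta_reduce
      rw [Finset.sum_insert hbt]
      ring
    rw [gb_E_insert ρ hb, h1, ih, ih, Finset.sum_insert hb, Finset.sum_insert hb]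
    ring

theorem gb_E_mono {ι : Type*} {ρ : ℝ} (h0 : 0 ≤ ρ) (h1 : ρ ≤ 1) (s : Finset ι)
    {f g : Finset ι → ℝ} (h : ∀ t, f t ≤ g t) : gbE ρ s f ≤ gbE ρ s g := by
  unfold gbE
  apply Finset.sum_le_sum
  intro t _
  apply mul_le_mul_of_nonneg_left (h t)
  exact mul_nonneg (pow_nonneg h0 _) (pow_nonneg (by linarith) _)

theorem gb_E_add {ι : Type*} (ρ : ℝ) (s : Finset ι) (f g : Finset ι → ℝ) :
    gbE ρ s (fun t => f t + g t) = gbE ρ s f + gbE ρ s g := by
  unfold gbE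
  rw [← Finset.sum_add_distrib]
  apply Finset.sum_congr rfl
  intro t _
  ring

theorem gb_E_mul {ι : Type*} (ρ c : ℝ) (s : Finset ι) (f : Finset ι → ℝ) :
    gbE ρ s (fun t => c * f t) = c * gbE ρ s f := by
  unfold gbE
  rw [Finset.mul_sum]
  apply Finset.sum_congr rfl
  intro t _
  ring

theorem gb_E_sum {ι κ : Type*} (ρ : ℝ) (s : Finset ι) (u : Finset κ)
    (f : κ → Finset ι → ℝ) :
    gbE ρ s (fun t => ∑ k ∈ u, f k t) = ∑ k ∈ u, gbE ρ s (f k) := by
  unfold gbE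
  rw [Finset.sum_comm]
  apply Finset.sum_congr rfl
  intro t _
  rw [Finset.mul_sum]

/-- Jensen's inequality for the exponential. -/
theorem gb_E_exp {ι : Type*} [DecidableEq ι] {ρ : ℝ} (h0 : 0 ≤ ρ) (h1 : ρ ≤ 1) (s : Finset ι)
    (f : Finset ι → ℝ) : Real.exp (gbE ρ s f) ≤ gbE ρ s (fun t => Real.exp (f t)) := by
  have hw := gb_E_one (ι := ι) ρ 1 s
  unfold gbE at hw ⊢
  simp only [mul_one] at hw
  have := convexOn_exp.map_sum_le (t := s.powerset)
    (w := fun t => ρ ^ t.card * (1 - ρ) ^ (s.card - t.card)) (p := f)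
    (fun t _ => mul_nonneg (pow_nonneg h0 _) (pow_nonneg (by linarith) _)) hw
    (fun _ _ => Set.mem_univ _)
  simpa [smul_eq_mul] using this

/-- Expectation of a function with a quadratic minorant. -/
theorem gb_E_quad {ι : Type*} [DecidableEq ι] {ρ : ℝ} (h0 : 0 < ρ) (h1 : ρ ≤ 1) (s : Finset ι)
    (a : ι → ℝ) {δ : ℝ} (ha0 : ∀ i, 0 ≤ a i) (ha : ∀ i, a i ≤ δ) {c A B : ℝ} (hB : 0 ≤ B)
    (f : Finset ι → ℝ)
    (hf : ∀ t, c + A * ((∑ i ∈ t, a i) / ρ - ∑ i ∈ s, a i)
      - B * ((∑ i ∈ t, a i) / ρ - ∑ i ∈ s, a i) ^ 2 ≤ f t) :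
    c - B * (δ * (∑ i ∈ s, a i) / ρ) ≤ gbE ρ s f := by
  set r := ∑ i ∈ s, a i with hr
  have hρ : ρ ≠ 0 := ne_of_gt h0
  refine le_trans ?_ (gb_E_mono h0.le h1 s hf)
  have e1 : gbE ρ s (fun t => c + A * ((∑ i ∈ t, a i) / ρ - r)
      - B * ((∑ i ∈ t, a i) / ρ - r) ^ 2) =
      c + (A / ρ) * gbE ρ s (fun t => (-(ρ * r)) + ∑ i ∈ t, a i)
        + (-(B / ρ ^ 2)) * gbE ρ s (fun t => ((-(ρ * r)) + ∑ i ∈ t, a i) ^ 2) := by
    rw [← gb_E_mul, ← gb_E_mul]
    nth_rewrite 2 [← gb_E_one (ι := ι) ρ c s]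
    rw [← gb_E_add, ← gb_E_add]
    unfold gbE
    apply Finset.sum_congr rfl
    intro t _
    field_simp
    ring
  rw [e1, gb_E_lin, gb_E_sq, ← hr]
  have h2 : ∑ i ∈ s, a i ^ 2 ≤ δ * r := by
    rw [hr, Finset.mul_sum]
    apply Finset.sum_le_sum
    intro i _
    rw [pow_two]
    exact mul_le_mul_of_nonneg_right (ha i) (ha0 i)
  have h3 : 0 ≤ ∑ i ∈ s, a i ^ 2 := Finset.sum_nonneg (fun i _ => sq_nonneg _)
  have h4 : (-(ρ * r) + ρ * r) = 0 := by ring
  rw [h4]
  have h5 : B / ρ ^ 2 * (0 ^ 2 + ρ * (1 - ρ) * ∑ i ∈ s, a i ^ 2) =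
      B / ρ * ((1 - ρ) * ∑ i ∈ s, a i ^ 2) := by
    field_simp
    ring
  have h6 : B * (δ * r / ρ) = B / ρ * (δ * r) := by field_simp
  have h7 : (1 - ρ) * ∑ i ∈ s, a i ^ 2 ≤ δ * r := by
    nlinarith
  have h8 : B / ρ * ((1 - ρ) * ∑ i ∈ s, a i ^ 2) ≤ B / ρ * (δ * r) :=
    mul_le_mul_of_nonneg_left h7 (div_nonneg hB h0.le)
  have h9 : -(B / ρ ^ 2) * (0 ^ 2 + ρ * (1 - ρ) * ∑ i ∈ s, a i ^ 2) =
      -(B / ρ * ((1 - ρ) * ∑ i ∈ s, a i ^ 2)) := by
    rw [← h5]; ring
  rw [h9, h6]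
  simp only [mul_zero, add_zero]
  linarith

/-- The multiplier. -/
noncomputable def gbM (κ p a : ℝ) : ℝ := p / max (1 - a) κ

theorem gb_max_pos {κ : ℝ} (hκ : 0 < κ) (a : ℝ) : 0 < max (1 - a) κ := lt_max_of_lt_right hκ

theorem gb_M_pos {κ p : ℝ} (hκ : 0 < κ) (hp : 0 < p) (a : ℝ) : 0 < gbM κ p a :=
  div_pos hp (gb_max_pos hκ a)

/-- `log ∘ m` is `1/κ`-Lipschitz from one side. -/
theorem gb_logM_lip {κ p : ℝ} (hκ : 0 < κ) (hp : 0 < p) {a b : ℝ} (hab : a ≤ b) :
    0 ≤ Real.log (gbM κ p b) - Real.log (gbM κ p a) ∧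
      Real.log (gbM κ p b) - Real.log (gbM κ p a) ≤ (b - a) / κ := by
  have hx := gb_max_pos hκ a
  have hy := gb_max_pos hκ b
  have e : Real.log (gbM κ p b) - Real.log (gbM κ p a) =
      Real.log (max (1 - a) κ) - Real.log (max (1 - b) κ) := by
    unfold gbM
    rw [Real.log_div hp.ne' hx.ne', Real.log_div hp.ne' hy.ne']
    ring
  rw [e]
  have hyx : max (1 - b) κ ≤ max (1 - a) κ := max_le_max (by linarith) le_rfl
  have hd : max (1 - a) κ - max (1 - b) κ ≤ b - a := by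
    rcases le_total (1 - a) κ with h | h
    · rw [max_eq_right h]
      have : κ ≤ max (1 - b) κ := le_max_right _ _
      linarith
    · rw [max_eq_left h]
      have : 1 - b ≤ max (1 - b) κ := le_max_left _ _
      linarith
  constructor
  · have := Real.log_le_log hy hyx
    linarith
  · rw [← Real.log_div hx.ne' hy.ne']
    have h1 := Real.log_le_sub_one_of_pos (div_pos hx hy)
    have h2 : max (1 - a) κ / max (1 - b) κ - 1 =
        (max (1 - a) κ - max (1 - b) κ) / max (1 - b) κ := by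
      field_simp
    rw [h2] at h1
    refine h1.trans ?_
    have hκy : κ ≤ max (1 - b) κ := le_max_right _ _
    calc (max (1 - a) κ - max (1 - b) κ) / max (1 - b) κ
        ≤ (max (1 - a) κ - max (1 - b) κ) / κ :=
          div_le_div_of_nonneg_left (by linarith) hκ hκy
      _ ≤ (b - a) / κ := div_le_div_of_nonneg_right hd hκ.le

theorem gb_logM_quad {κ p : ℝ} (hκ : 0 < κ) (hp : 0 < p) (r x : ℝ) :
    (1 + Real.log (gbM κ p r)) * (r - x) - (x - r) ^ 2 / κ ≤
      (1 + Real.log (gbM κ p x)) * (r - x) := by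
  have key : (Real.log (gbM κ p x) - Real.log (gbM κ p r)) * (x - r) ≤ (x - r) ^ 2 / κ := by
    rcases le_total r x with h | h
    · obtain ⟨_, h2⟩ := gb_logM_lip hκ hp h
      have := mul_le_mul_of_nonneg_right h2 (sub_nonneg.2 h)
      calc _ ≤ _ := this
        _ = _ := by ring
    · obtain ⟨_, h2⟩ := gb_logM_lip hκ hp h
      have := mul_le_mul_of_nonneg_right h2 (sub_nonneg.2 h)
      calc _ = (Real.log (gbM κ p r) - Real.log (gbM κ p x)) * (r - x) := by ring
        _ ≤ _ := this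
        _ = _ := by ring
  nlinarith

theorem gb_log_quad {κ : ℝ} (hκ : 0 < κ) {r x : ℝ} (hr : 0 ≤ r) (hx : 0 ≤ x) :
    Real.log (r + κ) + (1 / (r + κ)) * (x - r) - 1 / ((r + κ) * κ) * (x - r) ^ 2 ≤
      Real.log (x + κ) := by
  have h1 : 0 < r + κ := by linarith
  have h2 : 0 < x + κ := by linarith
  -- log ((r+κ)/(x+κ)) ≤ (r+κ)/(x+κ) - 1
  have h3 := Real.log_le_sub_one_of_pos (div_pos h1 h2)
  rw [Real.log_div h1.ne' h2.ne'] at h3
  have h4 : (r + κ) / (x + κ) - 1 = (r - x) / (x + κ) := by field_simp; ring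
  rw [h4] at h3
  have h5 : (1 / (r + κ)) * (x - r) - 1 / ((r + κ) * κ) * (x - r) ^ 2 ≤ (x - r) / (x + κ) := by
    have e : (x - r) / (x + κ) - ((1 / (r + κ)) * (x - r) - 1 / ((r + κ) * κ) * (x - r) ^ 2)
        = (x - r) ^ 2 * x / ((r + κ) * κ * (x + κ)) := by
      field_simp
      ring
    have : 0 ≤ (x - r) ^ 2 * x / ((r + κ) * κ * (x + κ)) := by positivity
    linarith
  have h6 : (r - x) / (x + κ) = -((x - r) / (x + κ)) := by rw [← neg_sub, neg_div]
  rw [h6] at h3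
  linarith

/-- One factor of the product: Hoelder's inequality in disguise. -/
theorem gb_holder {ι : Type*} (s : Finset ι) (v c u : ι → ℝ) (hv : ∀ k ∈ s, 0 ≤ v k)
    (hv1 : ∑ k ∈ s, v k = 1) {p b : ℝ} (hp : 0 ≤ p) (hb : 0 ≤ b)
    (h : ∀ k ∈ s, p + b * Real.exp (u k) ≤ Real.exp (c k)) :
    p + b * Real.exp (∑ k ∈ s, v k * u k) ≤ Real.exp (∑ k ∈ s, v k * c k) := by
  have j1 : Real.exp (∑ k ∈ s, v k * (-c k)) ≤ ∑ k ∈ s, v k * Real.exp (-c k) := by
    have := convexOn_exp.map_sum_le (t := s) (w := v) (p := fun k => -c k) hv hv1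
      (fun _ _ => Set.mem_univ _)
    simpa [smul_eq_mul] using this
  have j2 : Real.exp (∑ k ∈ s, v k * (u k - c k)) ≤ ∑ k ∈ s, v k * Real.exp (u k - c k) := by
    have := convexOn_exp.map_sum_le (t := s) (w := v) (p := fun k => u k - c k) hv hv1
      (fun _ _ => Set.mem_univ _)
    simpa [smul_eq_mul] using this
  have j3 : p * Real.exp (∑ k ∈ s, v k * (-c k)) + b * Real.exp (∑ k ∈ s, v k * (u k - c k)) ≤ 1 := by
    calc _ ≤ p * (∑ k ∈ s, v k * Real.exp (-c k)) + b * (∑ k ∈ s, v k * Real.exp (u k - c k)) :=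
          add_le_add (mul_le_mul_of_nonneg_left j1 hp) (mul_le_mul_of_nonneg_left j2 hb)
      _ = ∑ k ∈ s, v k * ((p + b * Real.exp (u k)) * Real.exp (-c k)) := by
          rw [Finset.mul_sum, Finset.mul_sum, ← Finset.sum_add_distrib]
          apply Finset.sum_congr rfl
          intro k _
          rw [sub_eq_add_neg, Real.exp_add]
          ring
      _ ≤ ∑ k ∈ s, v k * 1 := by
          apply Finset.sum_le_sum
          intro k hk
          apply mul_le_mul_of_nonneg_left _ (hv k hk)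
          calc (p + b * Real.exp (u k)) * Real.exp (-c k) ≤ Real.exp (c k) * Real.exp (-c k) :=
                mul_le_mul_of_nonneg_right (h k hk) (Real.exp_pos _).le
            _ = 1 := by rw [← Real.exp_add]; simp
      _ = 1 := by rw [← Finset.sum_mul, hv1, one_mul]
  have e1 : ∑ k ∈ s, v k * (-c k) = -(∑ k ∈ s, v k * c k) := by
    rw [← Finset.sum_neg_distrib]; apply Finset.sum_congr rfl; intro k _; ring
  have e2 : ∑ k ∈ s, v k * (u k - c k) = (∑ k ∈ s, v k * u k) - ∑ k ∈ s, v k * c k := by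
    rw [← Finset.sum_sub_distrib]; apply Finset.sum_congr rfl; intro k _; ring
  rw [e1, e2, sub_eq_add_neg, Real.exp_add] at j3
  have hpos := Real.exp_pos (∑ k ∈ s, v k * c k)
  have e3 : Real.exp (-(∑ k ∈ s, v k * c k)) * Real.exp (∑ k ∈ s, v k * c k) = 1 := by
    rw [← Real.exp_add]; simp
  calc p + b * Real.exp (∑ k ∈ s, v k * u k)
      = (p * Real.exp (-(∑ k ∈ s, v k * c k)) +
        b * (Real.exp (∑ k ∈ s, v k * u k) * Real.exp (-(∑ k ∈ s, v k * c k)))) *
          Real.exp (∑ k ∈ s, v k * c k) := by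
        have : (p * Real.exp (-(∑ k ∈ s, v k * c k)) +
          b * (Real.exp (∑ k ∈ s, v k * u k) * Real.exp (-(∑ k ∈ s, v k * c k)))) *
          Real.exp (∑ k ∈ s, v k * c k) = (p + b * Real.exp (∑ k ∈ s, v k * u k)) *
            (Real.exp (-(∑ k ∈ s, v k * c k)) * Real.exp (∑ k ∈ s, v k * c k)) := by ring
        rw [this, e3, mul_one]
    _ ≤ 1 * Real.exp (∑ k ∈ s, v k * c k) := mul_le_mul_of_nonneg_right j3 hpos.le
    _ = _ := one_mul _

/-- The scalar inequality at the end of step (3). -/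
theorem gb_scalar {κ p : ℝ} (hκ : 0 < κ) (hκp : κ ≤ p) (a : ℝ) :
    (1 - a) * Real.log (gbM κ p a) + p / gbM κ p a ≤ p := by
  have hp : 0 < p := lt_of_lt_of_le hκ hκp
  unfold gbM
  rcases le_total κ (1 - a) with h | h
  · rw [max_eq_left h]
    have hq : 0 < 1 - a := lt_of_lt_of_le hκ h
    have h1 := Real.log_le_sub_one_of_pos (div_pos hp hq)
    have h2 := mul_le_mul_of_nonneg_left h1 hq.le
    have h3 : (1 - a) * (p / (1 - a) - 1) = p - (1 - a) := by field_simp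
    have h4 : p / (p / (1 - a)) = 1 - a := by field_simp
    rw [h4]
    linarith
  · rw [max_eq_right h]
    have h1 := Real.log_le_sub_one_of_pos (div_pos hp hκ)
    have h2 := mul_le_mul_of_nonneg_left h1 hκ.le
    have h3 : κ * (p / κ - 1) = p - κ := by field_simp
    have h4 : p / (p / κ) = κ := by field_simp
    rw [h4]
    have h5 : 0 ≤ Real.log (p / κ) := Real.log_nonneg ((one_le_div hκ).2 hκp)
    have h6 := mul_le_mul_of_nonneg_right h h5
    linarith

theorem gb_exp_ite (S : Finset (Fin n)) (f : Fin n → ℝ) (b : ℝ) :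
    Real.exp (∑ k, if k ∈ S then f k else b) =
      (∏ k ∈ S, Real.exp (f k)) * Real.exp b ^ (n - S.card) := by
  rw [Real.exp_sum]
  have e : ∀ k, Real.exp (if k ∈ S then f k else b) =
      if k ∈ S then Real.exp (f k) else Real.exp b := by
    intro k; split_ifs <;> rfl
  simp only [e]
  rw [Finset.prod_ite, Finset.prod_const]
  congr 1
  · apply Finset.prod_congr _ (fun _ _ => rfl)
    ext k; simp
  · congr 1
    have : (Finset.univ.filter (fun k => ¬ k ∈ S)) = Sᶜ := by ext k; simp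
    rw [this, Finset.card_compl, Fintype.card_fin]

theorem gb_sum_exp_ite (f : Fin n → ℝ) (b : ℝ) :
    ∑ S : Finset (Fin n), Real.exp (∑ k, if k ∈ S then f k else b) =
      ∏ k, (Real.exp (f k) + Real.exp b) := by
  rw [Finset.prod_add]
  rw [Finset.powerset_univ]
  apply Finset.sum_congr rfl
  intro S _
  rw [gb_exp_ite, Finset.prod_const]
  congr 2
  rw [← Finset.compl_eq_univ_sdiff, Finset.card_compl, Fintype.card_fin]

/-- The linearised exponent. -/
noncomputable def gbL (V : Matrix (Fin n) (Fin n) ℝ) (κ ρ p : ℝ) (τ S : Finset (Fin n)) : ℝ :=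
  ∑ k, ((if k ∈ S then Real.log ((∑ i ∈ τ, V i k) / ρ + κ) - 1 else Real.log p) +
    (1 + Real.log (gbM κ p ((∑ i ∈ τ, V i k) / ρ))) *
      (∑ i ∈ S, V i k - (∑ i ∈ τ, V i k) / ρ))

theorem gb_stepA {V : Matrix (Fin n) (Fin n) ℝ} {δ κ ρ p : ℝ} (hV : ∀ i j, 0 ≤ V i j)
    (hVδ : ∀ i j, V i j ≤ δ) (hcol : ∀ j, ∑ i, V i j = 1)
    (hδ : 0 ≤ δ) (hκ0 : 0 < κ) (hρ0 : 0 < ρ) (hρ1 : ρ ≤ 1) (hp : 0 < p)
    (S : Finset (Fin n)) :
    (∑ k, if k ∈ S then Real.log (∑ i ∈ S, V i k + κ) - 1 else Real.log p) ≤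
      gbE ρ Finset.univ (fun O => gbL V κ ρ p (O ∩ S) S) + n * (2 * δ / (ρ * κ)) := by
  have e0 : gbE ρ Finset.univ (fun O => gbL V κ ρ p (O ∩ S) S) =
      ∑ k, gbE ρ Finset.univ (fun O =>
        ((if k ∈ S then Real.log ((∑ i ∈ O ∩ S, V i k) / ρ + κ) - 1 else Real.log p) +
        (1 + Real.log (gbM κ p ((∑ i ∈ O ∩ S, V i k) / ρ))) *
        (∑ i ∈ S, V i k - (∑ i ∈ O ∩ S, V i k) / ρ))) := by
    unfold gbL
    exact gb_E_sum ρ Finset.univ Finset.univ _
  have e1 : (n : ℝ) * (2 * δ / (ρ * κ)) = ∑ _k : Fin n, 2 * δ / (ρ * κ) := by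
    rw [Finset.sum_const, Finset.card_univ, Fintype.card_fin, nsmul_eq_mul]
  rw [e0, e1, ← Finset.sum_add_distrib]
  apply Finset.sum_le_sum
  intro k _
  set r := ∑ i ∈ S, V i k with hr
  have hr0 : 0 ≤ r := Finset.sum_nonneg (fun i _ => hV i k)
  have hr1 : r ≤ 1 := by
    rw [← hcol k]
    exact Finset.sum_le_sum_of_subset_of_nonneg (Finset.subset_univ _) (fun i _ _ => hV i k)
  have hsum : ∀ O : Finset (Fin n), ∑ i ∈ O, (if i ∈ S then V i k else 0) =
      ∑ i ∈ O ∩ S, V i k := by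
    intro O
    rw [Finset.sum_ite_mem]
  have hsumu : ∑ i, (if i ∈ S then V i k else 0) = r := by
    rw [hsum, Finset.univ_inter]
  have ha0 : ∀ i, 0 ≤ (if i ∈ S then V i k else 0) := by
    intro i; split_ifs
    · exact hV i k
    · exact le_rfl
  have haδ : ∀ i, (if i ∈ S then V i k else 0) ≤ δ := by
    intro i; split_ifs
    · exact hVδ i k
    · exact hδ
  have hrk : 0 < r + κ := by linarith
  by_cases hk : k ∈ S
  · simp only [hk, if_true]
    have hB : 0 ≤ 1 / ((r + κ) * κ) + 1 / κ := by positivity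
    have hq := gb_E_quad hρ0 hρ1 Finset.univ (fun i => if i ∈ S then V i k else 0)
      ha0 haδ (c := Real.log (r + κ) - 1)
      (A := 1 / (r + κ) - (1 + Real.log (gbM κ p r))) hB
      (fun O => (Real.log ((∑ i ∈ O ∩ S, V i k) / ρ + κ) - 1) +
        (1 + Real.log (gbM κ p ((∑ i ∈ O ∩ S, V i k) / ρ))) *
        (r - (∑ i ∈ O ∩ S, V i k) / ρ)) ?_
    · rw [hsumu] at hq
      have h1 : (1 / ((r + κ) * κ) + 1 / κ) * (δ * r / ρ) ≤ 2 * δ / (ρ * κ) := by
        have e2 : (1 / ((r + κ) * κ) + 1 / κ) * (δ * r / ρ) =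
            (δ / (ρ * κ)) * (r / (r + κ) + r) := by
          field_simp
        have h2 : r / (r + κ) ≤ 1 := (div_le_one hrk).2 (by linarith)
        rw [e2]
        calc (δ / (ρ * κ)) * (r / (r + κ) + r) ≤ (δ / (ρ * κ)) * 2 :=
              mul_le_mul_of_nonneg_left (by linarith) (by positivity)
          _ = _ := by ring
      linarith
    · intro O
      rw [hsum, hsumu]
      have hx : 0 ≤ (∑ i ∈ O ∩ S, V i k) / ρ :=
        div_nonneg (Finset.sum_nonneg (fun i _ => hV i k)) hρ0.le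
      have h1 := gb_log_quad hκ0 hr0 hx
      have h2 := gb_logM_quad hκ0 hp r ((∑ i ∈ O ∩ S, V i k) / ρ)
      generalize (∑ i ∈ O ∩ S, V i k) / ρ = x at h1 h2 ⊢
      have e3 : (1 / ((r + κ) * κ) + 1 / κ) * (x - r) ^ 2 =
        1 / ((r + κ) * κ) * (x - r) ^ 2 + (x - r) ^ 2 / κ := by ring
      have e4 : (1 / (r + κ) - (1 + Real.log (gbM κ p r))) * (x - r) =
        1 / (r + κ) * (x - r) + (1 + Real.log (gbM κ p r)) * (r - x) := by ring
      rw [e3, e4]
      linarith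
  · simp only [hk, if_false]
    have hB : 0 ≤ 1 / κ := by positivity
    have hq := gb_E_quad hρ0 hρ1 Finset.univ (fun i => if i ∈ S then V i k else 0)
      ha0 haδ (c := Real.log p)
      (A := - (1 + Real.log (gbM κ p r))) hB
      (fun O => Real.log p +
        (1 + Real.log (gbM κ p ((∑ i ∈ O ∩ S, V i k) / ρ))) *
        (r - (∑ i ∈ O ∩ S, V i k) / ρ)) ?_
    · rw [hsumu] at hq
      have h1 : (1 / κ) * (δ * r / ρ) ≤ 2 * δ / (ρ * κ) := by
        have e2 : (1 / κ) * (δ * r / ρ) = (δ / (ρ * κ)) * r := by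
          field_simp
        rw [e2]
        calc (δ / (ρ * κ)) * r ≤ (δ / (ρ * κ)) * 2 :=
              mul_le_mul_of_nonneg_left (by linarith) (by positivity)
          _ = _ := by ring
      linarith
    · intro O
      rw [hsum, hsumu]
      have h2 := gb_logM_quad hκ0 hp r ((∑ i ∈ O ∩ S, V i k) / ρ)
      generalize (∑ i ∈ O ∩ S, V i k) / ρ = x at h2 ⊢
      have e3 : (1 / κ) * (x - r) ^ 2 = (x - r) ^ 2 / κ := by ring
      have e4 : (- (1 + Real.log (gbM κ p r))) * (x - r) =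
        (1 + Real.log (gbM κ p r)) * (r - x) := by ring
      rw [e3, e4]
      linarith

/-- Step (3): the sum over all `S` for a fixed sample `τ`. -/
theorem gb_stepD {V : Matrix (Fin n) (Fin n) ℝ} {κ ρ p : ℝ} (hV : ∀ i j, 0 ≤ V i j)
    (hrow : ∀ i, ∑ j, V i j = 1) (hcol : ∀ j, ∑ i, V i j = 1)
    (hκ0 : 0 < κ) (hρ0 : 0 < ρ) (hκp : κ ≤ p) (τ : Finset (Fin n)) :
    ∑ S : Finset (Fin n), Real.exp (gbL V κ ρ p τ S) ≤ Real.exp (n * (p - 1 + κ)) := by
  have hp : 0 < p := lt_of_lt_of_le hκ0 hκp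
  set θ : Fin n → ℝ := fun k => (∑ i ∈ τ, V i k) / ρ with hθ
  have hθ0 : ∀ k, 0 ≤ θ k := fun k =>
    div_nonneg (Finset.sum_nonneg (fun i _ => hV i k)) hρ0.le
  set g : Fin n → ℝ := fun k => 1 + Real.log (gbM κ p (θ k)) with hg
  have e1 : ∀ S : Finset (Fin n), gbL V κ ρ p τ S =
      -(∑ k, g k * θ k) + ∑ i, (if i ∈ S then (Real.log (θ i + κ) - 1 + ∑ k, V i k * g k)
        else Real.log p) := by
    intro S
    have h1 : gbL V κ ρ p τ S = (∑ k, (if k ∈ S then Real.log (θ k + κ) - 1 else Real.log p)) +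
        (∑ k, g k * ∑ i ∈ S, V i k) - ∑ k, g k * θ k := by
      unfold gbL
      rw [← Finset.sum_add_distrib, ← Finset.sum_sub_distrib]
      apply Finset.sum_congr rfl
      intro k _
      simp only [hg, hθ]
      ring
    have h2 : ∑ k, g k * ∑ i ∈ S, V i k = ∑ i, (if i ∈ S then ∑ k, V i k * g k else 0) := by
      rw [Finset.sum_ite_mem, Finset.univ_inter]
      simp only [Finset.mul_sum]
      rw [Finset.sum_comm]
      apply Finset.sum_congr rfl
      intro i _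
      apply Finset.sum_congr rfl
      intro k _
      ring
    have h3 : (∑ i, (if i ∈ S then (Real.log (θ i + κ) - 1 + ∑ k, V i k * g k)
        else Real.log p)) = (∑ k, (if k ∈ S then Real.log (θ k + κ) - 1 else Real.log p)) +
        ∑ i, (if i ∈ S then ∑ k, V i k * g k else 0) := by
      rw [← Finset.sum_add_distrib]
      apply Finset.sum_congr rfl
      intro i _
      split_ifs
      · rfl
      · ring
    rw [h1, h2, h3]
    ring
  have e2 : ∑ S : Finset (Fin n), Real.exp (gbL V κ ρ p τ S) =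
      Real.exp (-(∑ k, g k * θ k)) *
        ∏ i, (Real.exp (Real.log (θ i + κ) - 1 + ∑ k, V i k * g k) + Real.exp (Real.log p)) := by
    rw [← gb_sum_exp_ite, Finset.mul_sum]
    apply Finset.sum_congr rfl
    intro S _
    rw [e1, Real.exp_add]
  rw [e2]
  set c : Fin n → Fin n → ℝ := fun i k =>
    Real.log (gbM κ p (θ k)) + p / gbM κ p (θ k) + θ i + κ - 1 with hc
  have hfac : ∀ i, Real.exp (Real.log (θ i + κ) - 1 + ∑ k, V i k * g k) +
      Real.exp (Real.log p) ≤ Real.exp (∑ k, V i k * c i k) := by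
    intro i
    have hb : 0 < θ i + κ := by linarith [hθ0 i]
    have h1 : ∑ k, V i k * g k = 1 + ∑ k, V i k * Real.log (gbM κ p (θ k)) := by
      rw [← hrow i, ← Finset.sum_add_distrib]
      apply Finset.sum_congr rfl
      intro k _
      simp only [hg]
      ring
    have h2 : Real.exp (Real.log (θ i + κ) - 1 + ∑ k, V i k * g k) =
        (θ i + κ) * Real.exp (∑ k, V i k * Real.log (gbM κ p (θ k))) := by
      rw [h1, show Real.log (θ i + κ) - 1 + (1 + ∑ k, V i k * Real.log (gbM κ p (θ k))) =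
        Real.log (θ i + κ) + ∑ k, V i k * Real.log (gbM κ p (θ k)) by ring, Real.exp_add,
        Real.exp_log hb]
    rw [h2, Real.exp_log hp, add_comm]
    apply gb_holder Finset.univ (V i) (c i) _ (fun k _ => hV i k) (hrow i) hp.le hb.le
    intro k _
    have hm := gb_M_pos hκ0 hp (θ k)
    rw [Real.exp_log hm]
    have h3 : Real.exp (c i k) = gbM κ p (θ k) * Real.exp (p / gbM κ p (θ k) + (θ i + κ) - 1) := by
      rw [show c i k = Real.log (gbM κ p (θ k)) + (p / gbM κ p (θ k) + (θ i + κ) - 1) by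
        simp only [hc]; ring, Real.exp_add, Real.exp_log hm]
    rw [h3]
    have h4 := Real.add_one_le_exp (p / gbM κ p (θ k) + (θ i + κ) - 1)
    have h5 := mul_le_mul_of_nonneg_left h4 hm.le
    have h6 : gbM κ p (θ k) * (p / gbM κ p (θ k) + (θ i + κ) - 1 + 1) =
        p + (θ i + κ) * gbM κ p (θ k) := by
      field_simp
      ring
    linarith
  have hprod : ∏ i, (Real.exp (Real.log (θ i + κ) - 1 + ∑ k, V i k * g k) +
      Real.exp (Real.log p)) ≤ Real.exp (∑ i, ∑ k, V i k * c i k) := by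
    rw [Real.exp_sum]
    apply Finset.prod_le_prod
    · intro i _; positivity
    · intro i _; exact hfac i
  refine (mul_le_mul_of_nonneg_left hprod (Real.exp_pos _).le).trans ?_
  rw [← Real.exp_add]
  apply Real.exp_le_exp.2
  have s1 : ∑ i, ∑ k, V i k * c i k =
      (∑ k, (Real.log (gbM κ p (θ k)) + p / gbM κ p (θ k))) + (∑ i, θ i) + n * (κ - 1) := by
    have t1 : ∀ i k, V i k * c i k =
        V i k * (Real.log (gbM κ p (θ k)) + p / gbM κ p (θ k)) + V i k * (θ i + κ - 1) := by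
      intro i k; simp only [hc]; ring
    simp only [t1, Finset.sum_add_distrib]
    have t2 : ∑ i, ∑ k, V i k * (Real.log (gbM κ p (θ k)) + p / gbM κ p (θ k)) =
        ∑ k, (Real.log (gbM κ p (θ k)) + p / gbM κ p (θ k)) := by
      rw [Finset.sum_comm]
      apply Finset.sum_congr rfl
      intro k _
      rw [← Finset.sum_mul, hcol k, one_mul]
    have t3 : ∑ i, ∑ k, V i k * (θ i + κ - 1) = ∑ i, θ i + n * (κ - 1) := by
      have t4 : ∀ i, ∑ k, V i k * (θ i + κ - 1) = θ i + (κ - 1) := by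
        intro i
        rw [← Finset.sum_mul, hrow i, one_mul]; ring
      simp only [t4, Finset.sum_add_distrib, Finset.sum_const, Finset.card_univ,
        Fintype.card_fin, nsmul_eq_mul]
    rw [t2, t3, Finset.sum_add_distrib]
    ring
  have s2 : (n : ℝ) * (κ - 1) = ∑ _k : Fin n, (κ - 1) := by
    rw [Finset.sum_const, Finset.card_univ, Fintype.card_fin, nsmul_eq_mul]
  have s3 : (n : ℝ) * (p - 1 + κ) = ∑ _k : Fin n, (p - 1 + κ) := by
    rw [Finset.sum_const, Finset.card_univ, Fintype.card_fin, nsmul_eq_mul]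
  rw [s1, s2, s3, ← Finset.sum_neg_distrib, ← Finset.sum_add_distrib, ← Finset.sum_add_distrib,
    ← Finset.sum_add_distrib]
  apply Finset.sum_le_sum
  intro k _
  have h1 := gb_scalar hκ0 hκp (θ k)
  simp only [hg]
  nlinarith

/-- The main case `κ ≤ p ≤ 1` (in fact all `p ≥ κ`). -/
theorem gb_main {V : Matrix (Fin n) (Fin n) ℝ} {δ κ ρ p : ℝ} (hV : ∀ i j, 0 ≤ V i j)
    (hVδ : ∀ i j, V i j ≤ δ) (hrow : ∀ i, ∑ j, V i j = 1) (hcol : ∀ j, ∑ i, V i j = 1)
    (hδ : 0 ≤ δ) (hκ0 : 0 < κ) (hρ0 : 0 < ρ) (hρ1 : ρ ≤ 1) (hκp : κ ≤ p) :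
    ∑ S : Finset (Fin n), p ^ (n - S.card) *
        ∏ k ∈ S, ((∑ i ∈ S, V i k + κ) / Real.exp 1) ≤
      Real.exp (n * (p - 1 + κ + ρ + 2 * δ / (ρ * κ))) := by
  have hp : 0 < p := lt_of_lt_of_le hκ0 hκp
  -- each term
  have hterm : ∀ S : Finset (Fin n), p ^ (n - S.card) *
        ∏ k ∈ S, ((∑ i ∈ S, V i k + κ) / Real.exp 1) ≤
      Real.exp (n * (2 * δ / (ρ * κ))) *
        gbE ρ Finset.univ (fun O => Real.exp (gbL V κ ρ p (O ∩ S) S)) := by
    intro S
    have e1 : p ^ (n - S.card) * ∏ k ∈ S, ((∑ i ∈ S, V i k + κ) / Real.exp 1) =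
        Real.exp (∑ k, if k ∈ S then Real.log (∑ i ∈ S, V i k + κ) - 1 else Real.log p) := by
      rw [gb_exp_ite, Real.exp_log hp, mul_comm]
      congr 1
      apply Finset.prod_congr rfl
      intro k _
      have : 0 < ∑ i ∈ S, V i k + κ :=
        add_pos_of_nonneg_of_pos (Finset.sum_nonneg (fun i _ => hV i k)) hκ0
      rw [Real.exp_sub, Real.exp_log this]
    rw [e1]
    refine (Real.exp_le_exp.2 (gb_stepA hV hVδ hcol hδ hκ0 hρ0 hρ1 hp S)).trans ?_
    rw [Real.exp_add, mul_comm]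
    exact mul_le_mul_of_nonneg_left (gb_E_exp hρ0.le hρ1 _ _) (Real.exp_pos _).le
  refine (Finset.sum_le_sum (fun S _ => hterm S)).trans ?_
  rw [← Finset.mul_sum]
  have h1 : ∑ S : Finset (Fin n), gbE ρ Finset.univ (fun O => Real.exp (gbL V κ ρ p (O ∩ S) S)) ≤
      gbE ρ Finset.univ (fun O : Finset (Fin n) => 2 ^ O.card * Real.exp (n * (p - 1 + κ))) := by
    rw [← gb_E_sum ρ Finset.univ Finset.univ]
    apply gb_E_mono hρ0.le hρ1
    intro O
    calc ∑ S : Finset (Fin n), Real.exp (gbL V κ ρ p (O ∩ S) S)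
        ≤ ∑ S : Finset (Fin n), ∑ τ ∈ O.powerset, Real.exp (gbL V κ ρ p τ S) := by
          apply Finset.sum_le_sum
          intro S _
          exact Finset.single_le_sum (f := fun τ => Real.exp (gbL V κ ρ p τ S))
            (fun τ _ => (Real.exp_pos _).le)
            (Finset.mem_powerset.2 Finset.inter_subset_left)
      _ = ∑ τ ∈ O.powerset, ∑ S : Finset (Fin n), Real.exp (gbL V κ ρ p τ S) := Finset.sum_comm
      _ ≤ ∑ τ ∈ O.powerset, Real.exp (n * (p - 1 + κ)) :=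
          Finset.sum_le_sum (fun τ _ => gb_stepD hV hrow hcol hκ0 hρ0 hκp τ)
      _ = 2 ^ O.card * Real.exp (n * (p - 1 + κ)) := by
          rw [Finset.sum_const, Finset.card_powerset, nsmul_eq_mul]
          push_cast
          ring
  have h2 : gbE ρ Finset.univ (fun O : Finset (Fin n) => 2 ^ O.card * Real.exp (n * (p - 1 + κ)))
      = (1 + ρ) ^ n * Real.exp (n * (p - 1 + κ)) := by
    have e1 : gbE ρ Finset.univ
        (fun O : Finset (Fin n) => 2 ^ O.card * Real.exp (n * (p - 1 + κ))) =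
        (∑ O ∈ (Finset.univ : Finset (Fin n)).powerset,
          (2 * ρ) ^ O.card * (1 - ρ) ^ ((Finset.univ : Finset (Fin n)).card - O.card)) *
          Real.exp (n * (p - 1 + κ)) := by
      unfold gbE
      rw [Finset.sum_mul]
      apply Finset.sum_congr rfl
      intro O _
      rw [mul_pow]
      ring
    rw [e1, Finset.sum_pow_mul_eq_add_pow, Finset.card_univ, Fintype.card_fin]
    congr 2
    ring
  have h3 : (1 + ρ) ^ n ≤ Real.exp (n * ρ) := by
    have : 1 + ρ ≤ Real.exp ρ := by linarith [Real.add_one_le_exp ρ]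
    calc (1 + ρ) ^ n ≤ Real.exp ρ ^ n := pow_le_pow_left₀ (by linarith) this n
      _ = Real.exp (n * ρ) := by rw [← Real.exp_nat_mul]
  calc Real.exp (n * (2 * δ / (ρ * κ))) * ∑ S : Finset (Fin n),
        gbE ρ Finset.univ (fun O => Real.exp (gbL V κ ρ p (O ∩ S) S))
      ≤ Real.exp (n * (2 * δ / (ρ * κ))) * ((1 + ρ) ^ n * Real.exp (n * (p - 1 + κ))) := by
        apply mul_le_mul_of_nonneg_left _ (Real.exp_pos _).le
        rw [← h2]; exact h1
    _ ≤ Real.exp (n * (2 * δ / (ρ * κ))) * (Real.exp (n * ρ) * Real.exp (n * (p - 1 + κ))) := by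
        apply mul_le_mul_of_nonneg_left _ (Real.exp_pos _).le
        exact mul_le_mul_of_nonneg_right h3 (Real.exp_pos _).le
    _ = Real.exp (n * (p - 1 + κ + ρ + 2 * δ / (ρ * κ))) := by
        rw [← Real.exp_add, ← Real.exp_add]
        congr 1
        ring

theorem G_bound {V : Matrix (Fin n) (Fin n) ℝ} {δ κ ρ p : ℝ} (hV : ∀ i j, 0 ≤ V i j)
    (hVδ : ∀ i j, V i j ≤ δ) (hrow : ∀ i, ∑ j, V i j = 1) (hcol : ∀ j, ∑ i, V i j = 1)
    (hδ : 0 ≤ δ) (hκ0 : 0 < κ) (hκ1 : κ ≤ 1) (hρ0 : 0 < ρ) (hρ1 : ρ ≤ 1) (hp : 0 ≤ p) :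
    ∑ S : Finset (Fin n), p ^ (n - S.card) *
        ∏ k ∈ S, ((∑ i ∈ S, V i k + κ) / Real.exp 1) ≤
      Real.exp (n * (psi p + 2 * κ + ρ + 2 * δ / (ρ * κ))) := by
  have hpos : ∀ S : Finset (Fin n), 0 ≤ ∏ k ∈ S, ((∑ i ∈ S, V i k + κ) / Real.exp 1) := by
    intro S
    apply Finset.prod_nonneg
    intro k _
    apply div_nonneg _ (Real.exp_pos _).le
    exact add_nonneg (Finset.sum_nonneg (fun i _ => hV i k)) hκ0.le
  have hn : (0 : ℝ) ≤ n := Nat.cast_nonneg n
  rcases lt_or_ge 1 p with h1 | h1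
  · -- p > 1
    have hm := gb_main hV hVδ hrow hcol hδ hκ0 hρ0 hρ1 hκ1
    have hp0 : 0 < p := by linarith
    have h2 : ∑ S : Finset (Fin n), p ^ (n - S.card) *
        ∏ k ∈ S, ((∑ i ∈ S, V i k + κ) / Real.exp 1) ≤
        p ^ n * ∑ S : Finset (Fin n), 1 ^ (n - S.card) *
        ∏ k ∈ S, ((∑ i ∈ S, V i k + κ) / Real.exp 1) := by
      rw [Finset.mul_sum]
      apply Finset.sum_le_sum
      intro S _
      rw [one_pow, one_mul]
      apply mul_le_mul_of_nonneg_right _ (hpos S)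
      exact pow_le_pow_right₀ h1.le (Nat.sub_le _ _)
    refine h2.trans ((mul_le_mul_of_nonneg_left hm (pow_nonneg hp _)).trans ?_)
    have h3 : p ^ n = Real.exp (n * Real.log p) := by
      rw [Real.exp_nat_mul, Real.exp_log hp0]
    rw [h3, ← Real.exp_add]
    apply Real.exp_le_exp.2
    have h4 : psi p = Real.log p := by
      unfold psi; rw [if_neg (not_le.2 h1)]
    rw [h4, ← mul_add]
    apply mul_le_mul_of_nonneg_left _ hn
    linarith
  · have h4 : psi p = p - 1 := by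
      unfold psi; rw [if_pos h1]
    rw [h4]
    rcases le_total κ p with h5 | h5
    · refine (gb_main hV hVδ hrow hcol hδ hκ0 hρ0 hρ1 h5).trans ?_
      apply Real.exp_le_exp.2
      apply mul_le_mul_of_nonneg_left _ hn
      linarith
    · have hm := gb_main hV hVδ hrow hcol hδ hκ0 hρ0 hρ1 (le_refl κ)
      have h2 : ∑ S : Finset (Fin n), p ^ (n - S.card) *
        ∏ k ∈ S, ((∑ i ∈ S, V i k + κ) / Real.exp 1) ≤
        ∑ S : Finset (Fin n), κ ^ (n - S.card) *
        ∏ k ∈ S, ((∑ i ∈ S, V i k + κ) / Real.exp 1) := by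
        apply Finset.sum_le_sum
        intro S _
        apply mul_le_mul_of_nonneg_right _ (hpos S)
        exact pow_le_pow_left₀ hp h5 _
      refine h2.trans (hm.trans ?_)
      apply Real.exp_le_exp.2
      apply mul_le_mul_of_nonneg_left _ hn
      linarith

end Pool.Agent.Circ
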