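import Pool.Agent.Lib.Circ.LinNeg

/-!
# Module H: resampling one row, small exponents

Let `t₀ = 1 / log ((6K)^(4/α) n)` (note `t₀ ≤ α/4`), `m = 1 + E Q`. Pointwise convexity:
`((1+Q)/m)^(-t₀) ≤ (1/m) (1 + Σ_l s_l² (|w_l|²/s_l²)^(-t₀))`, so by `lf_neg`
`E ((1+Q)/m)^(-t₀) ≤ exp 1`; `E ((1+Q)/m)^t₀ ≤ 1` by Jensen. So
`E E' ((1+Q)/(1+Q'))^t₀ ≤ e`. By symmetry the expectation at `t` is
`E E' cosh (t (Y-Y'))`, `Y = log (1+Q)`, and `cosh (s y) - 1 ≤ s² (cosh y - 1)` for `0 ≤ s ≤ 1`.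
-/

set_option autoImplicit false

open MeasureTheory ProbabilityTheory Filter Matrix Finset

namespace Pool.Agent.Circ

variable {n : ℕ}

/-- Jensen's inequality for negative powers. -/
lemma ors_jensen {ι : Type*} (s : Finset ι) (p x : ι → ℝ) (hp : ∀ i ∈ s, 0 ≤ p i)
    (hsum : ∑ i ∈ s, p i = 1) (hx : ∀ i ∈ s, 0 < x i) {t : ℝ} (ht : 0 ≤ t) :
    (∑ i ∈ s, p i * x i) ^ (-t) ≤ ∑ i ∈ s, p i * x i ^ (-t) := by
  have h1 : ∏ i ∈ s, x i ^ p i ≤ ∑ i ∈ s, p i * x i :=
    Real.geom_mean_le_arith_mean_weighted s p x hp hsum fun i hi => (hx i hi).le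
  have h2 : 0 < ∏ i ∈ s, x i ^ p i :=
    Finset.prod_pos fun i hi => Real.rpow_pos_of_pos (hx i hi) _
  have h3 : (∑ i ∈ s, p i * x i) ^ (-t) ≤ (∏ i ∈ s, x i ^ p i) ^ (-t) :=
    Real.rpow_le_rpow_of_nonpos h2 h1 (by linarith)
  have h4 : (∏ i ∈ s, x i ^ p i) ^ (-t) = ∏ i ∈ s, (x i ^ (-t)) ^ p i := by
    rw [← Real.finsetProd_rpow s _ fun i hi => Real.rpow_nonneg (hx i hi).le _]
    refine Finset.prod_congr rfl fun i hi => ?_
    rw [← Real.rpow_mul (hx i hi).le, ← Real.rpow_mul (hx i hi).le, mul_comm]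
  rw [h4] at h3
  exact h3.trans (Real.geom_mean_le_arith_mean_weighted s p _ hp hsum
    fun i hi => Real.rpow_nonneg (hx i hi).le _)

/-- `sinh (s u) ≤ s sinh u` -/
lemma ors_sinh {s u : ℝ} (hs0 : 0 ≤ s) (hs1 : s ≤ 1) (hu : 0 ≤ u) :
    Real.sinh (s * u) ≤ s * Real.sinh u := by
  have hmono : MonotoneOn (fun u : ℝ => s * Real.sinh u - Real.sinh (s * u)) (Set.Ici 0) := by
    apply monotoneOn_of_deriv_nonneg (convex_Ici 0)
    · fun_prop
    · fun_prop
    · intro x hx
      rw [interior_Ici, Set.mem_Ioi] at hx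
      have h1 : HasDerivAt (fun u : ℝ => s * Real.sinh u - Real.sinh (s * u))
          (s * Real.cosh x - Real.cosh (s * x) * (s * 1)) x := by
        apply HasDerivAt.sub
        · exact (Real.hasDerivAt_sinh x).const_mul s
        · exact ((hasDerivAt_id x).const_mul s).sinh
      rw [h1.deriv]
      have h2 : Real.cosh (s * x) ≤ Real.cosh x := by
        rw [Real.cosh_le_cosh, abs_of_nonneg (by positivity), abs_of_pos hx]
        nlinarith
      nlinarith
  have := hmono (Set.mem_Ici.2 le_rfl) (Set.mem_Ici.2 hu) hu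
  simp at this
  linarith

lemma ors_cosh {s : ℝ} (hs0 : 0 ≤ s) (hs1 : s ≤ 1) (y : ℝ) :
    Real.cosh (s * y) ≤ 1 + s ^ 2 * (Real.cosh y - 1) := by
  wlog hy : 0 ≤ y generalizing y
  · have := this (-y) (by linarith)
    rwa [mul_neg, Real.cosh_neg, Real.cosh_neg] at this
  have h (x : ℝ) : Real.cosh x = 1 + 2 * Real.sinh (x / 2) ^ 2 := by
    have h1 := Real.cosh_two_mul (x / 2)
    have h2 := Real.cosh_sq (x / 2)
    rw [show 2 * (x / 2) = x by ring] at h1
    rw [h1, h2]; ring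
  rw [h (s * y), h y]
  have h1 := ors_sinh hs0 hs1 (show 0 ≤ y / 2 by positivity)
  have h2 : 0 ≤ Real.sinh (s * (y / 2)) := Real.sinh_nonneg_iff.2 (by positivity)
  have h3 := pow_le_pow_left₀ h2 h1 2
  rw [show s * y / 2 = s * (y / 2) by ring]
  nlinarith

/-- the inequality for powers of a ratio -/
lemma ors_ratio {s t0 r : ℝ} (hs0 : 0 ≤ s) (hs1 : s ≤ 1) (hr : 0 < r) :
    r ^ (s * t0) + (r⁻¹) ^ (s * t0) ≤ 2 * (1 - s ^ 2) + s ^ 2 * (r ^ t0 + (r⁻¹) ^ t0) := by
  have h (a : ℝ) : r ^ a + (r⁻¹) ^ a = 2 * Real.cosh (Real.log r * a) := by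
    rw [Real.cosh_eq, Real.rpow_def_of_pos hr, Real.rpow_def_of_pos (inv_pos.2 hr),
      Real.log_inv]
    rw [show -Real.log r * a = -(Real.log r * a) by ring]
    ring
  rw [h, h]
  have h1 := ors_cosh hs0 hs1 (Real.log r * t0)
  rw [show s * (Real.log r * t0) = Real.log r * (s * t0) by ring] at h1
  linarith

/-- coefficients of the affine forms -/
noncomputable def orsC (g : Matrix (Fin n) (Fin n) ℂ) (u : Fin n → ℝ) (l k : Fin n) : ℂ :=
  g l k * u k

/-- constants of the affine forms -/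
noncomputable def orsB (g : Matrix (Fin n) (Fin n) ℂ) (z : ℂ) (i l : Fin n) : ℂ := g l i * z

/-- second moments of the affine forms -/
noncomputable def orsS (g : Matrix (Fin n) (Fin n) ℂ) (u : Fin n → ℝ) (z : ℂ) (i l : Fin n) :
    ℝ := ∑ k, ‖orsC g u l k‖ ^ 2 + ‖orsB g z i l‖ ^ 2

lemma ors_form (g : Matrix (Fin n) (Fin n) ℂ) (u : Fin n → ℝ) (z : ℂ) (i l : Fin n)
    (x : Fin n → ℂ) :
    ∑ k, g l k * arow u z i x k = ∑ k, orsC g u l k * x k - orsB g z i l := by
  simp only [arow, orsC, orsB, mul_sub, Finset.sum_sub_distrib, mul_assoc]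
  congr 1
  simp

lemma orsS_nonneg (g : Matrix (Fin n) (Fin n) ℂ) (u : Fin n → ℝ) (z : ℂ) (i l : Fin n) :
    0 ≤ orsS g u z i l := by
  unfold orsS; positivity

lemma ors_Q (g : Matrix (Fin n) (Fin n) ℂ) (u : Fin n → ℝ) (z : ℂ) (i : Fin n)
    (x : Fin n → ℂ) :
    Q g u z i x = ∑ l, ‖∑ k, orsC g u l k * x k - orsB g z i l‖ ^ 2 := by
  simp only [Q, ors_form]

lemma ors_Q_nonneg (g : Matrix (Fin n) (Fin n) ℂ) (u : Fin n → ℝ) (z : ℂ) (i : Fin n)
    (x : Fin n → ℂ) : 0 ≤ Q g u z i x := by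
  unfold Q; positivity

lemma ors_Q_meas (g : Matrix (Fin n) (Fin n) ℂ) (u : Fin n → ℝ) (z : ℂ) (i : Fin n) :
    Measurable (fun x : Fin n → ℂ => Q g u z i x) := by
  simp only [ors_Q]
  fun_prop

/-- if the second moment vanishes, the form vanishes -/
lemma ors_zero {g : Matrix (Fin n) (Fin n) ℂ} {u : Fin n → ℝ} {z : ℂ} {i l : Fin n}
    (h : orsS g u z i l = 0) (x : Fin n → ℂ) :
    ∑ k, orsC g u l k * x k - orsB g z i l = 0 := by
  unfold orsS at h
  have h1 : 0 ≤ ∑ k, ‖orsC g u l k‖ ^ 2 := by positivity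
  have h2 : 0 ≤ ‖orsB g z i l‖ ^ 2 := by positivity
  have h3 : ∑ k, ‖orsC g u l k‖ ^ 2 = 0 := by linarith
  have h4 : ‖orsB g z i l‖ ^ 2 = 0 := by linarith
  rw [Finset.sum_eq_zero_iff_of_nonneg (fun k _ => by positivity)] at h3
  have h5 : orsB g z i l = 0 := by simpa using h4
  have h6 : ∀ k, orsC g u l k = 0 := fun k => by simpa using h3 k (Finset.mem_univ k)
  simp [h5, h6]

/-- upper moment -/
lemma ors_up {μ : Measure ℂ} [IsProbabilityMeasure μ] {m : ℝ} (hμ : Law4 μ m)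
    (g : Matrix (Fin n) (Fin n) ℂ) (u : Fin n → ℝ) (z : ℂ) (i : Fin n) {t : ℝ} (ht0 : 0 ≤ t)
    (ht1 : t ≤ 1) :
    ∫⁻ x, ENNReal.ofReal ((1 + Q g u z i x) ^ t) ∂(Measure.pi fun _ : Fin n => μ) ≤
      ENNReal.ofReal ((1 + ∑ l, orsS g u z i l) ^ t) := by
  set M := 1 + ∑ l, orsS g u z i l with hM
  have hM1 : 1 ≤ M := by
    have : 0 ≤ ∑ l, orsS g u z i l := Finset.sum_nonneg fun l _ => orsS_nonneg g u z i l
    linarith
  have hM0 : 0 < M := by linarith
  have hMt : 0 < M ^ t := Real.rpow_pos_of_pos hM0 t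
  have hint : ∫⁻ x, ENNReal.ofReal (Q g u z i x) ∂(Measure.pi fun _ : Fin n => μ) =
      ENNReal.ofReal (∑ l, orsS g u z i l) := by
    simp only [ors_Q]
    simp_rw [ENNReal.ofReal_sum_of_nonneg (fun l _ => sq_nonneg _)]
    rw [lintegral_finsetSum _ (fun l _ => by fun_prop)]
    rw [ENNReal.ofReal_sum_of_nonneg (fun l _ => orsS_nonneg g u z i l)]
    exact Finset.sum_congr rfl fun l _ => lf_sq hμ _ _
  have hpt : ∀ x, ENNReal.ofReal ((1 + Q g u z i x) ^ t) ≤
      ENNReal.ofReal (M ^ t * (1 - t) + M ^ t * t / M) +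
        ENNReal.ofReal (M ^ t * t / M) * ENNReal.ofReal (Q g u z i x) := by
    intro x
    have hQ := ors_Q_nonneg g u z i x
    rw [← ENNReal.ofReal_mul (by positivity), ← ENNReal.ofReal_add
      (add_nonneg (mul_nonneg hMt.le (by linarith)) (by positivity)) (by positivity)]
    apply ENNReal.ofReal_le_ofReal
    have h1 := rpow_one_add_le_one_add_mul_self (s := (1 + Q g u z i x) / M - 1)
      (by have : 0 ≤ (1 + Q g u z i x) / M := by positivity
          linarith) ht0 ht1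
    rw [add_sub_cancel, Real.div_rpow (by positivity) hM0.le, div_le_iff₀ hMt] at h1
    refine h1.trans (le_of_eq ?_)
    field_simp
    ring
  refine (lintegral_mono hpt).trans ?_
  rw [lintegral_add_left measurable_const, lintegral_const,
    lintegral_const_mul _ (ors_Q_meas g u z i).ennreal_ofReal, hint, measure_univ, mul_one,
    ← ENNReal.ofReal_mul (by positivity), ← ENNReal.ofReal_add
      (add_nonneg (mul_nonneg hMt.le (by linarith)) (by positivity))
      (mul_nonneg (by positivity) (by linarith))]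
  apply ENNReal.ofReal_le_ofReal
  have : ∑ l, orsS g u z i l = M - 1 := by rw [hM]; ring
  rw [this]
  apply le_of_eq
  field_simp
  ring

/-- pointwise bound for the negative power -/
lemma ors_down_pt (g : Matrix (Fin n) (Fin n) ℂ) (u : Fin n → ℝ) (z : ℂ) (i : Fin n) {t : ℝ}
    (ht0 : 0 < t) (x : Fin n → ℂ) :
    ENNReal.ofReal ((1 + Q g u z i x) ^ (-t)) ≤
      ENNReal.ofReal ((1 + ∑ l, orsS g u z i l) ^ (-t - 1)) *
        (1 + ∑ l, ENNReal.ofReal (orsS g u z i l ^ (1 + t)) *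
          ‖∑ k, orsC g u l k * x k - orsB g z i l‖ₑ ^ (-2 * t)) := by
  set M := 1 + ∑ l, orsS g u z i l with hM
  have hM1 : 1 ≤ M := by
    have : 0 ≤ ∑ l, orsS g u z i l := Finset.sum_nonneg fun l _ => orsS_nonneg g u z i l
    linarith
  have hM0 : 0 < M := by linarith
  have hMt : 0 < M ^ (-t - 1) := Real.rpow_pos_of_pos hM0 _
  set w : Fin n → ℂ := fun l => ∑ k, orsC g u l k * x k - orsB g z i l with hw
  by_cases hbad : ∃ l, orsS g u z i l ≠ 0 ∧ w l = 0
  · obtain ⟨l, hl, hl'⟩ := hbad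
    have h1 : ENNReal.ofReal (orsS g u z i l ^ (1 + t)) *
        ‖∑ k, orsC g u l k * x k - orsB g z i l‖ₑ ^ (-2 * t) = ⊤ := by
      have h2 : ‖∑ k, orsC g u l k * x k - orsB g z i l‖ₑ = 0 := by
        rw [enorm_eq_zero]; exact hl'
      rw [h2, ENNReal.zero_rpow_of_neg (by linarith), ENNReal.mul_top]
      have : 0 < orsS g u z i l := lt_of_le_of_ne (orsS_nonneg g u z i l) (Ne.symm hl)
      have := Real.rpow_pos_of_pos this (1 + t)
      simpa using this
    have h3 : ∑ l, ENNReal.ofReal (orsS g u z i l ^ (1 + t)) *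
          ‖∑ k, orsC g u l k * x k - orsB g z i l‖ₑ ^ (-2 * t) = ⊤ :=
      top_le_iff.1 (h1 ▸ Finset.single_le_sum (f := fun l =>
        ENNReal.ofReal (orsS g u z i l ^ (1 + t)) *
          ‖∑ k, orsC g u l k * x k - orsB g z i l‖ₑ ^ (-2 * t)) (fun _ _ => zero_le)
          (Finset.mem_univ l))
    rw [h3, add_top, ENNReal.mul_top (by simpa using hMt)]
    exact le_top
  · push Not at hbad
    -- real inequality
    have hterm : ∀ l, ENNReal.ofReal (orsS g u z i l ^ (1 + t)) *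
          ‖∑ k, orsC g u l k * x k - orsB g z i l‖ₑ ^ (-2 * t) =
        ENNReal.ofReal (orsS g u z i l ^ (1 + t) * (‖w l‖ ^ 2) ^ (-t)) := by
      intro l
      by_cases hl : orsS g u z i l = 0
      · rw [hl, Real.zero_rpow (by linarith)]; simp
      · have h1 : w l ≠ 0 := hbad l hl
        have h2 : 0 < ‖w l‖ := norm_pos_iff.2 h1
        rw [ENNReal.ofReal_mul (Real.rpow_nonneg (orsS_nonneg g u z i l) _)]
        congr 1
        rw [← ofReal_norm, ENNReal.ofReal_rpow_of_pos h2]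
        congr 1
        rw [← Real.rpow_natCast, ← Real.rpow_mul h2.le]
        congr 1
        push_cast; ring
    simp_rw [hterm]
    have hnn : ∀ l, 0 ≤ orsS g u z i l ^ (1 + t) * (‖w l‖ ^ 2) ^ (-t) := fun l =>
      mul_nonneg (Real.rpow_nonneg (orsS_nonneg g u z i l) _) (Real.rpow_nonneg (sq_nonneg _) _)
    rw [← ENNReal.ofReal_sum_of_nonneg (fun l _ => hnn l), ← ENNReal.ofReal_one,
      ← ENNReal.ofReal_add zero_le_one (Finset.sum_nonneg fun l _ => hnn l),
      ← ENNReal.ofReal_mul hMt.le]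
    apply ENNReal.ofReal_le_ofReal
    -- Jensen over Option
    let p : Option (Fin n) → ℝ := fun o => match o with
      | none => 1 / M
      | some l => orsS g u z i l / M
    let y : Option (Fin n) → ℝ := fun o => match o with
      | none => 1
      | some l => if orsS g u z i l = 0 then 1 else ‖w l‖ ^ 2 / orsS g u z i l
    have hJ := ors_jensen (Finset.univ : Finset (Option (Fin n))) p y (fun o _ => by
      rcases o with _ | l
      · simp only [p]; positivity
      · simp only [p]; exact div_nonneg (orsS_nonneg g u z i l) hM0.le) (by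
      rw [Fintype.sum_option]
      simp only [p]
      rw [← Finset.sum_div, ← add_div, ← hM, div_self hM0.ne']) (fun o _ => by
      rcases o with _ | l
      · simp only [y]; norm_num
      · simp only [y]
        split_ifs with h
        · norm_num
        · have h1 : 0 < orsS g u z i l := lt_of_le_of_ne (orsS_nonneg g u z i l) (Ne.symm h)
          have h2 : 0 < ‖w l‖ := norm_pos_iff.2 (hbad l h)
          positivity) ht0.le
    rw [Fintype.sum_option, Fintype.sum_option] at hJ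
    simp only [p, y] at hJ
    have e1 : 1 / M * 1 + ∑ l, orsS g u z i l / M *
        (if orsS g u z i l = 0 then 1 else ‖w l‖ ^ 2 / orsS g u z i l) =
        (1 + Q g u z i x) / M := by
      rw [ors_Q, add_div, Finset.sum_div, mul_one]
      congr 1
      refine Finset.sum_congr rfl fun l _ => ?_
      split_ifs with h
      · rw [ors_zero h x, h]; simp
      · field_simp
        simp only [hw]
    have e2 : ∀ l, orsS g u z i l / M *
        (if orsS g u z i l = 0 then 1 else ‖w l‖ ^ 2 / orsS g u z i l) ^ (-t) =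
        orsS g u z i l ^ (1 + t) * (‖w l‖ ^ 2) ^ (-t) / M := by
      intro l
      split_ifs with h
      · rw [h, Real.zero_rpow (by linarith)]; simp
      · have h1 : 0 < orsS g u z i l := lt_of_le_of_ne (orsS_nonneg g u z i l) (Ne.symm h)
        rw [Real.div_rpow (sq_nonneg _) h1.le, Real.rpow_neg h1.le, Real.rpow_add h1,
          Real.rpow_one]
        field_simp
    rw [e1, Finset.sum_congr rfl (fun l _ => e2 l), Real.one_rpow, ← Finset.sum_div,
      mul_one, ← add_div, Real.div_rpow (by have := ors_Q_nonneg g u z i x; linarith) hM0.le]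
      at hJ
    have hMt' : 0 < M ^ (-t) := Real.rpow_pos_of_pos hM0 _
    rw [div_le_iff₀ hMt'] at hJ
    refine hJ.trans (le_of_eq ?_)
    rw [Real.rpow_sub hM0, Real.rpow_one]
    ring

/-- lower moment -/
lemma ors_down {μ : Measure ℂ} [IsProbabilityMeasure μ] {m K α : ℝ} (hμ : Law4 μ m)
    (hK : LawNeg μ K α) (hn : 0 < n) (g : Matrix (Fin n) (Fin n) ℂ) (u : Fin n → ℝ) (z : ℂ)
    (i : Fin n) {t : ℝ} (ht0 : 0 < t) (htα : t ≤ α / 4)
    (ht : t * Real.log ((6 * K) ^ (4 / α) * n) = 1) :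
    ∫⁻ x, ENNReal.ofReal ((1 + Q g u z i x) ^ (-t)) ∂(Measure.pi fun _ : Fin n => μ) ≤
      ENNReal.ofReal (Real.exp 1 * (1 + ∑ l, orsS g u z i l) ^ (-t)) := by
  set M := 1 + ∑ l, orsS g u z i l with hM
  have hM1 : 1 ≤ M := by
    have : 0 ≤ ∑ l, orsS g u z i l := Finset.sum_nonneg fun l _ => orsS_nonneg g u z i l
    linarith
  have hM0 : 0 < M := by linarith
  have hMt : 0 < M ^ (-t - 1) := Real.rpow_pos_of_pos hM0 _
  have hA : 0 < (6 * K) ^ (4 / α) * n := by
    have := hK.K1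
    positivity
  have hAt : ((6 * K) ^ (4 / α) * n) ^ t = Real.exp 1 := by
    rw [Real.rpow_def_of_pos hA, mul_comm, ht]
  have hmeas : ∀ l, Measurable (fun x : Fin n → ℂ =>
      ‖∑ k, orsC g u l k * x k - orsB g z i l‖ₑ ^ (-2 * t)) := fun l => by fun_prop
  have hl : ∀ l, ∫⁻ x : Fin n → ℂ, ENNReal.ofReal (orsS g u z i l ^ (1 + t)) *
      ‖∑ k, orsC g u l k * x k - orsB g z i l‖ₑ ^ (-2 * t)
        ∂(Measure.pi fun _ : Fin n => μ) ≤ ENNReal.ofReal (Real.exp 1 * orsS g u z i l) := by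
    intro l
    rw [lintegral_const_mul _ (hmeas l)]
    by_cases h : orsS g u z i l = 0
    · rw [h, Real.zero_rpow (by linarith)]; simp
    · have h1 : 0 < orsS g u z i l := lt_of_le_of_ne (orsS_nonneg g u z i l) (Ne.symm h)
      have h2 := lf_neg hμ hK hn (orsC g u l) (orsB g z i l) h1 rfl ht0.le htα
      refine (mul_le_mul_right h2 _).trans ?_
      rw [← ENNReal.ofReal_mul (by positivity), hAt]
      apply ENNReal.ofReal_le_ofReal
      rw [Real.rpow_neg h1.le, Real.rpow_add h1, Real.rpow_one]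
      apply le_of_eq
      field_simp
  refine (lintegral_mono (ors_down_pt g u z i ht0)).trans ?_
  rw [lintegral_const_mul _ (by fun_prop), lintegral_add_left measurable_const,
    lintegral_const, measure_univ, mul_one, lintegral_finsetSum _ (fun l _ => by fun_prop)]
  have h3 : (1 : ENNReal) + ∑ l, ∫⁻ x : Fin n → ℂ, ENNReal.ofReal (orsS g u z i l ^ (1 + t)) *
      ‖∑ k, orsC g u l k * x k - orsB g z i l‖ₑ ^ (-2 * t)
        ∂(Measure.pi fun _ : Fin n => μ) ≤ ENNReal.ofReal (Real.exp 1 * M) := by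
    refine (add_le_add le_rfl (Finset.sum_le_sum fun l _ => hl l)).trans ?_
    rw [← ENNReal.ofReal_sum_of_nonneg (fun l _ => mul_nonneg (Real.exp_pos 1).le
      (orsS_nonneg g u z i l)), ← ENNReal.ofReal_one, ← ENNReal.ofReal_add zero_le_one
      (Finset.sum_nonneg fun l _ => mul_nonneg (Real.exp_pos 1).le (orsS_nonneg g u z i l))]
    apply ENNReal.ofReal_le_ofReal
    rw [← Finset.mul_sum, hM, mul_add, mul_one]
    have := Real.add_one_le_exp (1 : ℝ)
    linarith
  refine (mul_le_mul_right h3 _).trans ?_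
  rw [← ENNReal.ofReal_mul hMt.le]
  apply ENNReal.ofReal_le_ofReal
  rw [Real.rpow_sub hM0, Real.rpow_one]
  apply le_of_eq
  field_simp

/-- the double integral is a product -/
lemma ors_prod {μ : Measure ℂ} [IsProbabilityMeasure μ]
    (g : Matrix (Fin n) (Fin n) ℂ) (u : Fin n → ℝ) (z : ℂ) (i : Fin n) (t : ℝ) :
    ∫⁻ x, ∫⁻ y, ENNReal.ofReal (((1 + Q g u z i x) / (1 + Q g u z i y)) ^ t)
        ∂(Measure.pi fun _ : Fin n => μ) ∂(Measure.pi fun _ : Fin n => μ) =
      (∫⁻ x, ENNReal.ofReal ((1 + Q g u z i x) ^ t) ∂(Measure.pi fun _ : Fin n => μ)) *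
      ∫⁻ y, ENNReal.ofReal ((1 + Q g u z i y) ^ (-t)) ∂(Measure.pi fun _ : Fin n => μ) := by
  have hm := ors_Q_meas g u z i
  have h1 : ∀ x y, ENNReal.ofReal (((1 + Q g u z i x) / (1 + Q g u z i y)) ^ t) =
      ENNReal.ofReal ((1 + Q g u z i x) ^ t) * ENNReal.ofReal ((1 + Q g u z i y) ^ (-t)) := by
    intro x y
    have hx := ors_Q_nonneg g u z i x
    have hy := ors_Q_nonneg g u z i y
    rw [← ENNReal.ofReal_mul (by positivity), Real.div_rpow (by positivity) (by positivity),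
      Real.rpow_neg (by positivity), div_eq_mul_inv]
  simp_rw [h1]
  have h2 : ∀ x : Fin n → ℂ, ∫⁻ y, ENNReal.ofReal ((1 + Q g u z i x) ^ t) *
      ENNReal.ofReal ((1 + Q g u z i y) ^ (-t)) ∂(Measure.pi fun _ : Fin n => μ) =
      ENNReal.ofReal ((1 + Q g u z i x) ^ t) *
      ∫⁻ y, ENNReal.ofReal ((1 + Q g u z i y) ^ (-t)) ∂(Measure.pi fun _ : Fin n => μ) :=
    fun x => lintegral_const_mul _ (by fun_prop)
  simp_rw [h2]
  rw [lintegral_mul_const _ (by fun_prop)]

theorem one_row_small {μ : Measure ℂ} [IsProbabilityMeasure μ] {m K α : ℝ} (hμ : Law4 μ m)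
    (hK : LawNeg μ K α) (hn : 0 < n) (g : Matrix (Fin n) (Fin n) ℂ) (u : Fin n → ℝ) (z : ℂ)
    (i : Fin n) {t : ℝ} (ht0 : 0 ≤ t) (ht : t * Real.log ((6 * K) ^ (4 / α) * n) ≤ 1) :
    ∫⁻ x, ∫⁻ y, ENNReal.ofReal (((1 + Q g u z i x) / (1 + Q g u z i y)) ^ t)
        ∂(Measure.pi fun _ : Fin n => μ) ∂(Measure.pi fun _ : Fin n => μ) ≤
      ENNReal.ofReal (1 + 2 * (t * Real.log ((6 * K) ^ (4 / α) * n)) ^ 2) := by
  have hm := ors_Q_meas g u z i
  have hQ := ors_Q_nonneg g u z i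
  set P := (Measure.pi fun _ : Fin n => μ) with hP
  set L := Real.log ((6 * K) ^ (4 / α) * n) with hL
  have hK1 := hK.K1
  have hα0 := hK.α0
  have hα1 := hK.α1
  -- the size of `L`
  have hLbig : 4 / α ≤ L := by
    have h1 : (0:ℝ) < (6 * K) ^ (4 / α) := by positivity
    have h2 : (1:ℝ) ≤ n := by exact_mod_cast hn
    rw [hL, Real.log_mul h1.ne' (by positivity), Real.log_rpow (by positivity)]
    have h3 : 0 ≤ Real.log n := Real.log_nonneg h2
    have h4 : 1 ≤ Real.log (6 * K) := by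
      rw [Real.le_log_iff_exp_le (by positivity)]
      have := Real.exp_one_lt_d9
      linarith
    have h5 : 4 / α * 1 ≤ 4 / α * Real.log (6 * K) :=
      mul_le_mul_of_nonneg_left h4 (by positivity)
    linarith
  have hLpos : 0 < L := lt_of_lt_of_le (by positivity) hLbig
  set t0 := 1 / L with ht0'
  have ht0pos : 0 < t0 := by positivity
  have ht0L : t0 * L = 1 := by rw [ht0']; field_simp
  have ht0α : t0 ≤ α / 4 := by
    rw [ht0', div_le_iff₀ hLpos]
    have := mul_le_mul_of_nonneg_left hLbig (show 0 ≤ α / 4 by positivity)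
    have h2 : α / 4 * (4 / α) = 1 := by field_simp
    linarith
  -- exponent `t0`
  have hI0 : ∫⁻ x, ∫⁻ y, ENNReal.ofReal (((1 + Q g u z i x) / (1 + Q g u z i y)) ^ t0)
        ∂P ∂P ≤ ENNReal.ofReal (Real.exp 1) := by
    rw [hP, ors_prod]
    have h1 := ors_up hμ g u z i ht0pos.le (by linarith)
    have h2 := ors_down hμ hK hn g u z i ht0pos ht0α ht0L
    refine (mul_le_mul' h1 h2).trans ?_
    have hM1 : 0 < 1 + ∑ l, orsS g u z i l := by
      have : 0 ≤ ∑ l, orsS g u z i l := Finset.sum_nonneg fun l _ => orsS_nonneg g u z i l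
      linarith
    rw [← ENNReal.ofReal_mul (by positivity)]
    apply ENNReal.ofReal_le_ofReal
    rw [Real.rpow_neg hM1.le]
    have := Real.rpow_pos_of_pos hM1 t0
    apply le_of_eq
    field_simp
  -- symmetry
  have hsymm : ∀ a : ℝ, ∫⁻ x, ∫⁻ y, ENNReal.ofReal
      ((((1 + Q g u z i x) / (1 + Q g u z i y))⁻¹) ^ a) ∂P ∂P =
      ∫⁻ x, ∫⁻ y, ENNReal.ofReal (((1 + Q g u z i x) / (1 + Q g u z i y)) ^ a) ∂P ∂P := by
    intro a
    rw [lintegral_lintegral_swap (by fun_prop)]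
    simp_rw [inv_div]
  have hmeas : ∀ a : ℝ, Measurable (fun q : (Fin n → ℂ) × (Fin n → ℂ) => ENNReal.ofReal
      (((1 + Q g u z i q.1) / (1 + Q g u z i q.2)) ^ a)) := fun a => by fun_prop
  have hmeas' : ∀ a : ℝ, Measurable (fun q : (Fin n → ℂ) × (Fin n → ℂ) => ENNReal.ofReal
      ((((1 + Q g u z i q.1) / (1 + Q g u z i q.2))⁻¹) ^ a)) := fun a => by fun_prop
  have hadd : ∀ a : ℝ, ∫⁻ x, ∫⁻ y, (ENNReal.ofReal
        (((1 + Q g u z i x) / (1 + Q g u z i y)) ^ a) + ENNReal.ofReal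
        ((((1 + Q g u z i x) / (1 + Q g u z i y))⁻¹) ^ a)) ∂P ∂P =
      2 * ∫⁻ x, ∫⁻ y, ENNReal.ofReal (((1 + Q g u z i x) / (1 + Q g u z i y)) ^ a) ∂P ∂P := by
    intro a
    have h1 : ∀ x, ∫⁻ y, (ENNReal.ofReal
        (((1 + Q g u z i x) / (1 + Q g u z i y)) ^ a) + ENNReal.ofReal
        ((((1 + Q g u z i x) / (1 + Q g u z i y))⁻¹) ^ a)) ∂P =
        (∫⁻ y, ENNReal.ofReal (((1 + Q g u z i x) / (1 + Q g u z i y)) ^ a) ∂P) +
        ∫⁻ y, ENNReal.ofReal ((((1 + Q g u z i x) / (1 + Q g u z i y))⁻¹) ^ a) ∂P := fun x =>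
      lintegral_add_left (by fun_prop) _
    simp_rw [h1]
    rw [lintegral_add_left (Measurable.lintegral_prod_right (hmeas a)), hsymm, two_mul]
  -- comparison
  set s := t * L with hs
  have hs0 : 0 ≤ s := by positivity
  have hst : s * t0 = t := by
    rw [hs, mul_assoc, mul_comm L, ht0L, mul_one]
  have hs2 : s ^ 2 ≤ 1 := by nlinarith
  have hpt : ∀ x y, ENNReal.ofReal (((1 + Q g u z i x) / (1 + Q g u z i y)) ^ t) +
      ENNReal.ofReal ((((1 + Q g u z i x) / (1 + Q g u z i y))⁻¹) ^ t) ≤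
      ENNReal.ofReal (2 * (1 - s ^ 2)) + ENNReal.ofReal (s ^ 2) *
        (ENNReal.ofReal (((1 + Q g u z i x) / (1 + Q g u z i y)) ^ t0) +
      ENNReal.ofReal ((((1 + Q g u z i x) / (1 + Q g u z i y))⁻¹) ^ t0)) := by
    intro x y
    have hx := hQ x
    have hy := hQ y
    have hr : 0 < (1 + Q g u z i x) / (1 + Q g u z i y) := by positivity
    have := ors_ratio (t0 := t0) hs0 ht hr
    rw [hst] at this
    rw [← ENNReal.ofReal_add (by positivity) (by positivity),
      ← ENNReal.ofReal_add (by positivity) (by positivity),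
      ← ENNReal.ofReal_mul (by positivity), ← ENNReal.ofReal_add (by linarith) (by positivity)]
    exact ENNReal.ofReal_le_ofReal this
  have hfin : 2 * ∫⁻ x, ∫⁻ y, ENNReal.ofReal (((1 + Q g u z i x) / (1 + Q g u z i y)) ^ t)
      ∂P ∂P ≤ 2 * ENNReal.ofReal (1 + 2 * s ^ 2) := by
    rw [← hadd]
    refine (lintegral_mono fun x => lintegral_mono fun y => hpt x y).trans ?_
    have h1 : ∀ x, ∫⁻ y, (ENNReal.ofReal (2 * (1 - s ^ 2)) + ENNReal.ofReal (s ^ 2) *
        (ENNReal.ofReal (((1 + Q g u z i x) / (1 + Q g u z i y)) ^ t0) +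
      ENNReal.ofReal ((((1 + Q g u z i x) / (1 + Q g u z i y))⁻¹) ^ t0))) ∂P =
        ENNReal.ofReal (2 * (1 - s ^ 2)) + ENNReal.ofReal (s ^ 2) *
        ∫⁻ y, (ENNReal.ofReal (((1 + Q g u z i x) / (1 + Q g u z i y)) ^ t0) +
      ENNReal.ofReal ((((1 + Q g u z i x) / (1 + Q g u z i y))⁻¹) ^ t0)) ∂P := by
      intro x
      rw [lintegral_add_left measurable_const, lintegral_const, measure_univ, mul_one,
        lintegral_const_mul _ (by fun_prop)]
    simp_rw [h1]
    rw [lintegral_add_left measurable_const, lintegral_const, measure_univ, mul_one,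
      lintegral_const_mul _ (Measurable.lintegral_prod_right ((hmeas t0).add (hmeas' t0))), hadd]
    have h2 : ENNReal.ofReal (s ^ 2) * (2 * ∫⁻ x, ∫⁻ y, ENNReal.ofReal
        (((1 + Q g u z i x) / (1 + Q g u z i y)) ^ t0) ∂P ∂P) ≤
        ENNReal.ofReal (s ^ 2) * (2 * ENNReal.ofReal (Real.exp 1)) := by
      gcongr
    refine (add_le_add le_rfl h2).trans ?_
    rw [show (2 : ENNReal) = ENNReal.ofReal 2 by simp, ← ENNReal.ofReal_mul (by norm_num),
      ← ENNReal.ofReal_mul (by positivity), ← ENNReal.ofReal_add (by linarith) (by positivity),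
      ← ENNReal.ofReal_mul (by norm_num)]
    apply ENNReal.ofReal_le_ofReal
    have := Real.exp_one_lt_d9
    nlinarith [sq_nonneg s]
  have h2 : (2 : ENNReal) ≠ 0 := by norm_num
  exact (ENNReal.mul_le_mul_iff_right h2 (by norm_num)).1 hfin

end Pool.Agent.Circ
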