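import Pool.Agent.Lib.Circ.LinForm
import Pool.Agent.Lib.Circ.EfronStein

/-!
# Module I2: resampling one row, exponent two

`V = Var Q ≤ V₀ = (8(1+‖z‖²) + 2m) δ / η⁴` by `efron_stein`: with `y_k = u_k x_k`,
`w_l^{(k)}` = the form without `y_k`, `Q - E_k Q = 2 Re (β_k y_k) + γ_k (|y_k|² - u_k²)`,
`β_k = Σ_l conj (w_l^{(k)}) g_lk`, `γ_k = Σ_l |g_lk|² ≤ η⁻²`,
`E |β_k|² = Σ_{j≠k} u_j² |M_jk|² + |z|² |M_ik|²`, `M = gᴴ g`, `Σ_j |M_jk|² ≤ η⁻⁴`.
Then with `a = 1 + E Q ≥ 1`: `E (1+Q)² = a² + V`, and for `x, a ≥ 1`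
`x⁻² ≤ a⁻² - 2 (x-a) a⁻³ + 3 (x-a)² a⁻²`, so `E (1+Q)⁻² ≤ a⁻² (1 + 3V)`;
product `≤ (1+V)(1+3V) ≤ 1 + 7 V₀`.
-/

set_option autoImplicit false

open MeasureTheory ProbabilityTheory Filter Matrix Finset

namespace Pool.Agent.Circ

variable {n : ℕ}

theorem o2_col (g : Matrix (Fin n) (Fin n) ℂ) {c : ℝ}
    (hg : ∀ x : Fin n → ℂ, ∑ l, ‖∑ k, g l k * x k‖ ^ 2 ≤ c * ∑ k, ‖x k‖ ^ 2) (k : Fin n) :
    ∑ l, ‖g l k‖ ^ 2 ≤ c := by
  have h := hg (Pi.single k 1)
  have h1 : ∀ l, ∑ j, g l j * (Pi.single k (1 : ℂ) : Fin n → ℂ) j = g l k := by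
    intro l
    rw [Finset.sum_eq_single k]
    · simp
    · intro b _ hb
      simp [hb]
    · simp
  have h2 : ∑ j, ‖(Pi.single k (1 : ℂ) : Fin n → ℂ) j‖ ^ 2 = 1 := by
    rw [Finset.sum_eq_single k]
    · simp
    · intro b _ hb
      simp [hb]
    · simp
  simp only [h1] at h
  rw [h2] at h
  linarith

theorem o2_gram (g : Matrix (Fin n) (Fin n) ℂ) {c : ℝ} (hc : 0 < c)
    (hg : ∀ x : Fin n → ℂ, ∑ l, ‖∑ k, g l k * x k‖ ^ 2 ≤ c * ∑ k, ‖x k‖ ^ 2) (k : Fin n) :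
    ∑ j, ‖∑ l, starRingEnd ℂ (g l j) * g l k‖ ^ 2 ≤ c ^ 2 := by
  set v : Fin n → ℂ := fun j => ∑ l, starRingEnd ℂ (g l j) * g l k with hv
  have hS : ∑ j, ‖v j‖ ^ 2 ≤ ∑ l, ‖g l k‖ * ‖∑ j, g l j * v j‖ := by
    have h1 : ((∑ j, ‖v j‖ ^ 2 : ℝ) : ℂ) = ∑ l, g l k * starRingEnd ℂ (∑ j, g l j * v j) := by
      push_cast
      have h2 : ∀ j, ((‖v j‖ : ℂ)) ^ 2 = ∑ l, g l k * starRingEnd ℂ (g l j * v j) := by
        intro j
        rw [← Complex.conj_mul']
        conv_lhs => rw [show v j = ∑ l, starRingEnd ℂ (g l j) * g l k from rfl]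
        rw [← show v j = ∑ l, starRingEnd ℂ (g l j) * g l k from rfl, Finset.mul_sum]
        refine Finset.sum_congr rfl fun l _ => ?_
        rw [map_mul]
        ring
      rw [Finset.sum_congr rfl fun j _ => h2 j, Finset.sum_comm]
      refine Finset.sum_congr rfl fun l _ => ?_
      rw [map_sum, Finset.mul_sum]
    have h3 : ∑ j, ‖v j‖ ^ 2 = ‖((∑ j, ‖v j‖ ^ 2 : ℝ) : ℂ)‖ := by
      rw [Complex.norm_real, Real.norm_of_nonneg (Finset.sum_nonneg fun j _ => by positivity)]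
    rw [h3, h1]
    refine (norm_sum_le _ _).trans (Finset.sum_le_sum fun l _ => ?_)
    rw [norm_mul, RCLike.norm_conj]
  have h4 : 2 * c * ∑ j, ‖v j‖ ^ 2 ≤ c ^ 2 * ∑ l, ‖g l k‖ ^ 2 + ∑ l, ‖∑ j, g l j * v j‖ ^ 2 := by
    calc 2 * c * ∑ j, ‖v j‖ ^ 2 ≤ 2 * c * ∑ l, ‖g l k‖ * ‖∑ j, g l j * v j‖ := by gcongr
      _ = ∑ l, 2 * (c * ‖g l k‖) * ‖∑ j, g l j * v j‖ := by
        rw [Finset.mul_sum]
        refine Finset.sum_congr rfl fun l _ => by ring
      _ ≤ ∑ l, ((c * ‖g l k‖) ^ 2 + ‖∑ j, g l j * v j‖ ^ 2) :=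
        Finset.sum_le_sum fun l _ => two_mul_le_add_sq _ _
      _ = _ := by
        rw [Finset.sum_add_distrib, Finset.mul_sum]
        congr 1
        refine Finset.sum_congr rfl fun l _ => by ring
  have h5 := o2_col g hg k
  have h6 := hg v
  have h7 : 0 ≤ ∑ j, ‖v j‖ ^ 2 := Finset.sum_nonneg fun j _ => by positivity
  have h8 : c ^ 2 * ∑ l, ‖g l k‖ ^ 2 ≤ c ^ 2 * c := by gcongr
  have h9 : c * ∑ j, ‖v j‖ ^ 2 ≤ c * c ^ 2 := by nlinarith
  exact le_of_mul_le_mul_left h9 hc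

/-- Resampling one coordinate. -/
theorem o2_resample (μ : Measure ℂ) [IsProbabilityMeasure μ] (k : Fin n)
    {f : (Fin n → ℂ) → ENNReal} (hf : Measurable f) :
    ∫⁻ x, f x ∂(Measure.pi fun _ : Fin n => μ) =
      ∫⁻ x, ∫⁻ y, f (Function.update x k y) ∂μ ∂(Measure.pi fun _ : Fin n => μ) := by
  have hg : Measurable fun x : Fin n → ℂ => ∫⁻ y, f (Function.update x k y) ∂μ := by
    have : Measurable fun p : (Fin n → ℂ) × ℂ => f (Function.update p.1 k p.2) := by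
      refine hf.comp ?_
      fun_prop
    exact this.lintegral_prod_right'
  have x0 : Fin n → ℂ := fun _ => 0
  rw [lintegral_eq_lmarginal_univ x0, lintegral_eq_lmarginal_univ (f := fun x => ∫⁻ y, f (Function.update x k y) ∂μ) x0]
  have hu : (Finset.univ : Finset (Fin n)) = insert k (Finset.univ.erase k) := by simp
  rw [hu, lmarginal_insert' _ hf (by simp), lmarginal_insert' _ hg (by simp)]
  simp

theorem o2_int2 {μ : Measure ℂ} [IsProbabilityMeasure μ] {m : ℝ} (hμ : Law4 μ m) :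
    Integrable (fun x : ℂ => ‖x‖ ^ 2) μ := by
  refine ((integrable_const (1 : ℝ)).add hμ.int4).mono'
    (by fun_prop) (Filter.Eventually.of_forall fun x => ?_)
  simp only [Pi.add_apply]
  rw [Real.norm_of_nonneg (by positivity)]
  nlinarith [sq_nonneg (‖x‖ ^ 2 - 1), sq_nonneg (‖x‖ ^ 2)]

theorem o2_int1 {μ : Measure ℂ} [IsProbabilityMeasure μ] {m : ℝ} (hμ : Law4 μ m) :
    Integrable (fun x : ℂ => x) μ := by
  refine ((integrable_const (1 : ℝ)).add (o2_int2 hμ)).mono'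
    (by fun_prop) (Filter.Eventually.of_forall fun x => ?_)
  simp only [Pi.add_apply]
  nlinarith [sq_nonneg (‖x‖ - 1), sq_nonneg (‖x‖)]

theorem o2_affine {μ : Measure ℂ} [IsProbabilityMeasure μ] {m : ℝ} (hμ : Law4 μ m) (A : ℝ)
    (b : ℂ) (γ : ℝ) :
    ∫ y, (A + 2 * (b * y).re + γ * ‖y‖ ^ 2) ∂μ = A + γ := by
  have h1 : Integrable (fun y : ℂ => b * y) μ := (o2_int1 hμ).const_mul b
  have h2 : Integrable (fun y : ℂ => (b * y).re) μ := h1.re
  have h3 : ∫ y, (b * y).re ∂μ = 0 := by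
    have h4 : ∫ y, (b * y).re ∂μ = (∫ y, b * y ∂μ).re := integral_re h1
    rw [h4, integral_const_mul, hμ.mean]
    simp
  have h5 : Integrable (fun y : ℂ => A + 2 * (b * y).re) μ :=
    (integrable_const A).add (h2.const_mul 2)
  rw [integral_add h5 ((o2_int2 hμ).const_mul γ),
    integral_add (integrable_const A) (h2.const_mul 2), integral_const_mul, integral_const_mul, h3,
    hμ.var]
  simp

theorem o2_m_nonneg {μ : Measure ℂ} {m : ℝ} (hμ : Law4 μ m) : 0 ≤ m :=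
  le_trans (integral_nonneg fun x => by positivity) hμ.m4

theorem o2_var4 {μ : Measure ℂ} [IsProbabilityMeasure μ] {m : ℝ} (hμ : Law4 μ m) :
    Integrable (fun x : ℂ => (‖x‖ ^ 2 - 1) ^ 2) μ ∧ ∫ x, (‖x‖ ^ 2 - 1) ^ 2 ∂μ ≤ m := by
  have h : (fun x : ℂ => (‖x‖ ^ 2 - 1) ^ 2) = fun x : ℂ => (‖x‖ ^ 4 - 2 * ‖x‖ ^ 2) + 1 := by
    funext x; ring
  have hi1 : Integrable (fun x : ℂ => ‖x‖ ^ 4 - 2 * ‖x‖ ^ 2) μ :=
    hμ.int4.sub ((o2_int2 hμ).const_mul 2)
  constructor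
  · rw [h]
    exact hi1.add (integrable_const 1)
  · rw [h, integral_add hi1 (integrable_const 1), integral_sub hμ.int4 ((o2_int2 hμ).const_mul 2),
      integral_const_mul, hμ.var]
    have := hμ.m4
    simp
    linarith

/-- The form without the `k`-th variable. -/
noncomputable def o2w (g : Matrix (Fin n) (Fin n) ℂ) (u : Fin n → ℝ) (z : ℂ) (i k l : Fin n)
    (x : Fin n → ℂ) : ℂ :=
  ∑ j, (if j = k then 0 else g l j * (u j : ℂ)) * x j - g l i * z

theorem o2w_update (g : Matrix (Fin n) (Fin n) ℂ) (u : Fin n → ℝ) (z : ℂ) (i k l : Fin n)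
    (x : Fin n → ℂ) (y : ℂ) : o2w g u z i k l (Function.update x k y) = o2w g u z i k l x := by
  unfold o2w
  congr 1
  refine Finset.sum_congr rfl fun j _ => ?_
  by_cases h : j = k
  · simp [h]
  · simp [h]

theorem o2_split (g : Matrix (Fin n) (Fin n) ℂ) (u : Fin n → ℝ) (z : ℂ) (i k l : Fin n)
    (x : Fin n → ℂ) :
    ∑ j, g l j * arow u z i x j = o2w g u z i k l x + g l k * u k * x k := by
  unfold o2w arow
  have h1 : ∑ j, g l j * ((u j : ℂ) * x j - if j = i then z else 0) =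
      ∑ j, (g l j * (u j : ℂ) * x j) - g l i * z := by
    simp only [mul_sub, Finset.sum_sub_distrib]
    congr 1
    · refine Finset.sum_congr rfl fun j _ => by ring
    · rw [Finset.sum_eq_single i]
      · simp
      · intro b _ hb; simp [hb]
      · simp
  have h2 : ∑ j, (g l j * (u j : ℂ) * x j) =
      ∑ j, (if j = k then 0 else g l j * (u j : ℂ)) * x j + g l k * u k * x k := by
    rw [← Finset.add_sum_erase _ _ (Finset.mem_univ k), ← Finset.add_sum_erase _ _ (Finset.mem_univ k)]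
    simp only [if_true, zero_mul, zero_add]
    rw [add_comm]
    congr 1
    refine Finset.sum_congr rfl fun j hj => ?_
    rw [if_neg (Finset.ne_of_mem_erase hj)]
  rw [h1, h2]
  ring

theorem o2_expand (g : Matrix (Fin n) (Fin n) ℂ) (u : Fin n → ℝ) (z : ℂ) (i k : Fin n)
    (x : Fin n → ℂ) :
    Q g u z i x = (∑ l, ‖o2w g u z i k l x‖ ^ 2) +
      2 * ((∑ l, starRingEnd ℂ (o2w g u z i k l x) * (g l k * u k)) * x k).re +
      ((∑ l, ‖g l k‖ ^ 2) * u k ^ 2) * ‖x k‖ ^ 2 := by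
  unfold Q
  have h : ∀ l, ‖∑ j, g l j * arow u z i x j‖ ^ 2 = ‖o2w g u z i k l x‖ ^ 2 +
      2 * (starRingEnd ℂ (o2w g u z i k l x) * (g l k * u k) * x k).re +
      ‖g l k‖ ^ 2 * u k ^ 2 * ‖x k‖ ^ 2 := by
    intro l
    rw [o2_split g u z i k l x]
    generalize o2w g u z i k l x = w
    rw [← Complex.normSq_eq_norm_sq, Complex.normSq_add, Complex.normSq_eq_norm_sq,
      Complex.normSq_eq_norm_sq, norm_mul, norm_mul, Complex.norm_real, Real.norm_eq_abs]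
    have h1 : (w * starRingEnd ℂ (g l k * u k * x k)).re =
        (starRingEnd ℂ w * (g l k * u k) * x k).re := by
      rw [← Complex.conj_re]
      congr 1
      simp only [map_mul, Complex.conj_conj]
      ring
    rw [h1, mul_pow, mul_pow, sq_abs]
    ring
  rw [Finset.sum_congr rfl fun l _ => h l, Finset.sum_add_distrib, Finset.sum_add_distrib,
    ← Finset.mul_sum, Finset.sum_mul, Finset.sum_mul, Finset.sum_mul, Complex.re_sum]

theorem o2_meas (g : Matrix (Fin n) (Fin n) ℂ) (u : Fin n → ℝ) (z : ℂ) (i : Fin n) :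
    Measurable (Q g u z i) := by
  unfold Q arow
  fun_prop

theorem o2w_meas (g : Matrix (Fin n) (Fin n) ℂ) (u : Fin n → ℝ) (z : ℂ) (i k l : Fin n) :
    Measurable (o2w g u z i k l) := by
  unfold o2w
  fun_prop


theorem o2_cond {μ : Measure ℂ} [IsProbabilityMeasure μ] {m : ℝ} (hμ : Law4 μ m)
    (g : Matrix (Fin n) (Fin n) ℂ) (u : Fin n → ℝ) (z : ℂ) (i k : Fin n) (x : Fin n → ℂ) :
    ∫ y, Q g u z i (Function.update x k y) ∂μ = (∑ l, ‖o2w g u z i k l x‖ ^ 2) +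
      (∑ l, ‖g l k‖ ^ 2) * u k ^ 2 := by
  rw [← o2_affine hμ (∑ l, ‖o2w g u z i k l x‖ ^ 2)
    (∑ l, starRingEnd ℂ (o2w g u z i k l x) * (g l k * u k)) ((∑ l, ‖g l k‖ ^ 2) * u k ^ 2)]
  refine integral_congr_ae (Filter.Eventually.of_forall fun y => ?_)
  simp only
  rw [o2_expand g u z i k]
  simp only [o2w_update, Function.update_self]

theorem o2_loc {μ : Measure ℂ} [IsProbabilityMeasure μ] {m : ℝ} (hμ : Law4 μ m)
    (g : Matrix (Fin n) (Fin n) ℂ) (u : Fin n → ℝ) (z : ℂ) (i k : Fin n) (x : Fin n → ℂ) :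
    Integrable (fun y => Q g u z i (Function.update x k y)) μ := by
  have h : (fun y => Q g u z i (Function.update x k y)) = fun y =>
      (∑ l, ‖o2w g u z i k l x‖ ^ 2) +
      2 * ((∑ l, starRingEnd ℂ (o2w g u z i k l x) * (g l k * u k)) * y).re +
      ((∑ l, ‖g l k‖ ^ 2) * u k ^ 2) * ‖y‖ ^ 2 := by
    funext y
    rw [o2_expand g u z i k]
    simp only [o2w_update, Function.update_self]
  rw [h]
  have h1 : Integrable (fun y : ℂ =>
      (∑ l, starRingEnd ℂ (o2w g u z i k l x) * (g l k * u k)) * y) μ :=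
    (o2_int1 hμ).const_mul _
  exact ((integrable_const _).add (h1.re.const_mul 2)).add ((o2_int2 hμ).const_mul _)

/-- The bound for a single Efron-Stein term, pointwise. -/
theorem o2_point {μ : Measure ℂ} [IsProbabilityMeasure μ] {m : ℝ} (hμ : Law4 μ m)
    (g : Matrix (Fin n) (Fin n) ℂ) (u : Fin n → ℝ) (z : ℂ) (i k : Fin n) (x : Fin n → ℂ) :
    (Q g u z i x - ∫ y, Q g u z i (Function.update x k y) ∂μ) ^ 2 ≤
      8 * ‖∑ l, starRingEnd ℂ (o2w g u z i k l x) * (g l k * u k)‖ ^ 2 * ‖x k‖ ^ 2 +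
      2 * ((∑ l, ‖g l k‖ ^ 2) * u k ^ 2) ^ 2 * (‖x k‖ ^ 2 - 1) ^ 2 := by
  rw [o2_cond hμ, o2_expand g u z i k]
  generalize (∑ l, starRingEnd ℂ (o2w g u z i k l x) * (g l k * u k)) = b
  generalize ((∑ l, ‖g l k‖ ^ 2) * u k ^ 2) = γ
  generalize (∑ l, ‖o2w g u z i k l x‖ ^ 2) = A
  have h1 : |(b * x k).re| ≤ ‖b‖ * ‖x k‖ := by
    rw [← norm_mul]
    exact Complex.abs_re_le_norm _
  have h2 : (b * x k).re ^ 2 ≤ (‖b‖ * ‖x k‖) ^ 2 := sq_le_sq' (by
    have := neg_abs_le (b * x k).re; linarith) ((le_abs_self _).trans h1)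
  have h3 : (A + 2 * (b * x k).re + γ * ‖x k‖ ^ 2 - (A + γ)) ^ 2 ≤
      8 * (b * x k).re ^ 2 + 2 * (γ ^ 2 * (‖x k‖ ^ 2 - 1) ^ 2) := by
    nlinarith [sq_nonneg (2 * (b * x k).re - γ * (‖x k‖ ^ 2 - 1))]
  calc _ ≤ _ := h3
    _ ≤ 8 * (‖b‖ * ‖x k‖) ^ 2 + 2 * (γ ^ 2 * (‖x k‖ ^ 2 - 1) ^ 2) := by gcongr
    _ = _ := by ring

/-- `β` as an affine form. -/
theorem o2_beta (g : Matrix (Fin n) (Fin n) ℂ) (u : Fin n → ℝ) (z : ℂ) (i k : Fin n)
    (x : Fin n → ℂ) :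
    ‖∑ l, starRingEnd ℂ (o2w g u z i k l x) * (g l k * u k)‖ =
      ‖∑ j, (u k * (if j = k then 0 else (∑ l, starRingEnd ℂ (g l k) * g l j) * (u j : ℂ))) * x j -
        u k * ((∑ l, starRingEnd ℂ (g l k) * g l i) * z)‖ := by
  rw [← RCLike.norm_conj]
  congr 1
  rw [map_sum]
  have h1 : ∀ l, starRingEnd ℂ (starRingEnd ℂ (o2w g u z i k l x) * (g l k * u k)) =
      u k * (∑ j, (starRingEnd ℂ (g l k) * (if j = k then 0 else g l j * (u j : ℂ))) * x j) -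
      u k * ((starRingEnd ℂ (g l k) * g l i) * z) := by
    intro l
    unfold o2w
    simp only [map_mul, Complex.conj_conj, Complex.conj_ofReal]
    rw [sub_mul, Finset.sum_mul, Finset.mul_sum]
    congr 1
    · refine Finset.sum_congr rfl fun j _ => by ring
    · ring
  rw [Finset.sum_congr rfl fun l _ => h1 l, Finset.sum_sub_distrib]
  congr 1
  · rw [← Finset.mul_sum, Finset.sum_comm, Finset.mul_sum]
    refine Finset.sum_congr rfl fun j _ => ?_
    by_cases h : j = k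
    · simp [h]
    · simp only [h, if_false]
      rw [mul_assoc]
      congr 1
      rw [Finset.sum_mul, Finset.sum_mul]
      refine Finset.sum_congr rfl fun l _ => by ring
  · rw [← Finset.mul_sum, Finset.sum_mul]

/-- One Efron-Stein term. -/
theorem o2_term {μ : Measure ℂ} [IsProbabilityMeasure μ] {m : ℝ} (hμ : Law4 μ m)
    (g : Matrix (Fin n) (Fin n) ℂ) (u : Fin n → ℝ) (z : ℂ) (i k : Fin n) :
    ∫ x, (Q g u z i x - ∫ y, Q g u z i (Function.update x k y) ∂μ) ^ 2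
        ∂(Measure.pi fun _ : Fin n => μ) ≤
      8 * (∑ j, ‖(u k * (if j = k then 0 else
          (∑ l, starRingEnd ℂ (g l k) * g l j) * (u j : ℂ)) : ℂ)‖ ^ 2 +
        ‖(u k * ((∑ l, starRingEnd ℂ (g l k) * g l i) * z) : ℂ)‖ ^ 2) +
      2 * ((∑ l, ‖g l k‖ ^ 2) * u k ^ 2) ^ 2 * m := by
  have hm := o2_m_nonneg hμ
  set b : (Fin n → ℂ) → ℂ := fun x => ∑ l, starRingEnd ℂ (o2w g u z i k l x) * (g l k * u k)
    with hb
  set γ : ℝ := (∑ l, ‖g l k‖ ^ 2) * u k ^ 2 with hγ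
  have hbm : Measurable b := by
    have : ∀ l, Measurable (o2w g u z i k l) := fun l => o2w_meas g u z i k l
    refine Finset.measurable_sum _ fun l _ => ?_
    exact ((Complex.continuous_conj.measurable.comp (this l))).mul_const _
  have hbu : ∀ x y, b (Function.update x k y) = b x := by
    intro x y
    simp only [hb, o2w_update]
  have hQm := o2_meas g u z i
  have hcond : (fun x => ∫ y, Q g u z i (Function.update x k y) ∂μ) =
      fun x => (∑ l, ‖o2w g u z i k l x‖ ^ 2) + (∑ l, ‖g l k‖ ^ 2) * u k ^ 2 := by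
    funext x
    exact o2_cond hμ g u z i k x
  have hcm : Measurable (fun x => ∫ y, Q g u z i (Function.update x k y) ∂μ) := by
    rw [hcond]
    have : ∀ l, Measurable (o2w g u z i k l) := fun l => o2w_meas g u z i k l
    fun_prop
  have hsm : Measurable (fun x => (Q g u z i x -
      ∫ y, Q g u z i (Function.update x k y) ∂μ) ^ 2) := (hQm.sub hcm).pow_const 2
  rw [integral_eq_lintegral_of_nonneg_ae (Filter.Eventually.of_forall fun x => sq_nonneg _)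
    hsm.aestronglyMeasurable]
  refine ENNReal.toReal_le_of_le_ofReal (by positivity) ?_
  calc ∫⁻ x, ENNReal.ofReal ((Q g u z i x - ∫ y, Q g u z i (Function.update x k y) ∂μ) ^ 2)
        ∂(Measure.pi fun _ : Fin n => μ)
      ≤ ∫⁻ x, ENNReal.ofReal (8 * ‖b x‖ ^ 2 * ‖x k‖ ^ 2 + 2 * γ ^ 2 * (‖x k‖ ^ 2 - 1) ^ 2)
        ∂(Measure.pi fun _ : Fin n => μ) :=
        lintegral_mono fun x => ENNReal.ofReal_le_ofReal (o2_point hμ g u z i k x)
    _ = ∫⁻ x, ∫⁻ y, ENNReal.ofReal (8 * ‖b x‖ ^ 2 * ‖y‖ ^ 2 + 2 * γ ^ 2 * (‖y‖ ^ 2 - 1) ^ 2) ∂μ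
        ∂(Measure.pi fun _ : Fin n => μ) := by
        rw [o2_resample μ k (by fun_prop)]
        simp only [hbu, Function.update_self]
    _ ≤ ∫⁻ x, ENNReal.ofReal (8 * ‖b x‖ ^ 2 + 2 * γ ^ 2 * m) ∂(Measure.pi fun _ : Fin n => μ) := by
        refine lintegral_mono fun x => ?_
        have hi : Integrable (fun y : ℂ => 8 * ‖b x‖ ^ 2 * ‖y‖ ^ 2 +
            2 * γ ^ 2 * (‖y‖ ^ 2 - 1) ^ 2) μ :=
          ((o2_int2 hμ).const_mul _).add ((o2_var4 hμ).1.const_mul _)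
        rw [← ofReal_integral_eq_lintegral_ofReal hi
          (Filter.Eventually.of_forall fun y => by positivity)]
        refine ENNReal.ofReal_le_ofReal ?_
        rw [integral_add ((o2_int2 hμ).const_mul _) ((o2_var4 hμ).1.const_mul _),
          integral_const_mul, integral_const_mul, hμ.var, mul_one]
        have := (o2_var4 hμ).2
        gcongr
    _ = 8 * ∫⁻ x, ENNReal.ofReal (‖b x‖ ^ 2) ∂(Measure.pi fun _ : Fin n => μ) +
          ENNReal.ofReal (2 * γ ^ 2 * m) := by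
        have h1 : ∀ x, ENNReal.ofReal (8 * ‖b x‖ ^ 2 + 2 * γ ^ 2 * m) =
            8 * ENNReal.ofReal (‖b x‖ ^ 2) + ENNReal.ofReal (2 * γ ^ 2 * m) := by
          intro x
          rw [ENNReal.ofReal_add (by positivity) (by positivity),
            ENNReal.ofReal_mul (by norm_num)]
          norm_num
        simp only [h1]
        rw [lintegral_add_right _ measurable_const, lintegral_const_mul _ (by fun_prop)]
        simp
    _ = _ := by
        have h2 : ∀ x, ENNReal.ofReal (‖b x‖ ^ 2) = ENNReal.ofReal (‖∑ j, (u k * (if j = k then 0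
            else (∑ l, starRingEnd ℂ (g l k) * g l j) * (u j : ℂ))) * x j -
            u k * ((∑ l, starRingEnd ℂ (g l k) * g l i) * z)‖ ^ 2) := by
          intro x
          rw [hb]
          simp only
          rw [o2_beta]
        simp only [h2]
        rw [lf_sq hμ]
        rw [ENNReal.ofReal_add (p := 8 * _) (by positivity) (by positivity)]
        congr 1
        rw [ENNReal.ofReal_mul (by norm_num)]
        norm_num


theorem o2_int_coord {μ : Measure ℂ} [IsProbabilityMeasure μ] {m : ℝ} (hμ : Law4 μ m)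
    (k : Fin n) :
    Integrable (fun x : Fin n → ℂ => ‖x k‖ ^ 4) (Measure.pi fun _ : Fin n => μ) := by
  have h := (measurePreserving_eval (fun _ : Fin n => μ) k).integrable_comp_of_integrable
    (g := fun x : ℂ => ‖x‖ ^ 4) hμ.int4
  exact h

theorem o2_Q_sq_int {μ : Measure ℂ} [IsProbabilityMeasure μ] {m : ℝ} (hμ : Law4 μ m)
    (g : Matrix (Fin n) (Fin n) ℂ) (u : Fin n → ℝ) (z : ℂ) (i : Fin n) {c : ℝ} (hc : 0 ≤ c)
    (hg : ∀ x : Fin n → ℂ, ∑ l, ‖∑ k, g l k * x k‖ ^ 2 ≤ c * ∑ k, ‖x k‖ ^ 2) :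
    Integrable (fun x => Q g u z i x ^ 2) (Measure.pi fun _ : Fin n => μ) := by
  have hdom : Integrable (fun x : Fin n → ℂ => c ^ 2 * (n * ∑ k, (8 * u k ^ 4 * ‖x k‖ ^ 4 +
      8 * ‖z‖ ^ 4))) (Measure.pi fun _ : Fin n => μ) := by
    refine Integrable.const_mul (Integrable.const_mul ?_ _) _
    exact integrable_finsetSum _ fun k _ => ((o2_int_coord hμ k).const_mul _).add
      (integrable_const _)
  refine hdom.mono' ((o2_meas g u z i).pow_const 2).aestronglyMeasurable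
    (Filter.Eventually.of_forall fun x => ?_)
  have hQ0 : 0 ≤ Q g u z i x := Finset.sum_nonneg fun l _ => by positivity
  rw [Real.norm_of_nonneg (by positivity)]
  have h1 : Q g u z i x ≤ c * ∑ k, ‖arow u z i x k‖ ^ 2 := hg (arow u z i x)
  have h2 : ∀ k, ‖arow u z i x k‖ ^ 2 ≤ 2 * u k ^ 2 * ‖x k‖ ^ 2 + 2 * ‖z‖ ^ 2 := by
    intro k
    unfold arow
    have h3 : ‖(u k : ℂ) * x k - (if k = i then z else 0)‖ ≤ |u k| * ‖x k‖ + ‖z‖ := by
      refine (norm_sub_le _ _).trans ?_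
      rw [norm_mul, Complex.norm_real, Real.norm_eq_abs]
      gcongr
      split_ifs
      · exact le_rfl
      · simp
    calc _ ≤ (|u k| * ‖x k‖ + ‖z‖) ^ 2 := by gcongr
      _ ≤ 2 * (|u k| * ‖x k‖) ^ 2 + 2 * ‖z‖ ^ 2 := by
        nlinarith [sq_nonneg (|u k| * ‖x k‖ - ‖z‖)]
      _ = _ := by rw [mul_pow, sq_abs]; ring
  have h4 : Q g u z i x ≤ c * ∑ k, (2 * u k ^ 2 * ‖x k‖ ^ 2 + 2 * ‖z‖ ^ 2) :=
    h1.trans (by
      gcongr with k _
      exact h2 k)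
  calc Q g u z i x ^ 2 ≤ (c * ∑ k, (2 * u k ^ 2 * ‖x k‖ ^ 2 + 2 * ‖z‖ ^ 2)) ^ 2 := by gcongr
    _ = c ^ 2 * (∑ k, (2 * u k ^ 2 * ‖x k‖ ^ 2 + 2 * ‖z‖ ^ 2)) ^ 2 := by ring
    _ ≤ c ^ 2 * (n * ∑ k, (2 * u k ^ 2 * ‖x k‖ ^ 2 + 2 * ‖z‖ ^ 2) ^ 2) := by
      gcongr
      have := sq_sum_le_card_mul_sum_sq (s := (Finset.univ : Finset (Fin n)))
        (f := fun k => (2 * u k ^ 2 * ‖x k‖ ^ 2 + 2 * ‖z‖ ^ 2))
      simpa using this
    _ ≤ _ := by
      gcongr with k _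
      nlinarith [sq_nonneg (2 * u k ^ 2 * ‖x k‖ ^ 2 - 2 * ‖z‖ ^ 2)]

theorem o2_sum {m : ℝ} (hm : 0 ≤ m)
    (g : Matrix (Fin n) (Fin n) ℂ) (u : Fin n → ℝ) (z : ℂ) (i : Fin n) {δ c : ℝ}
    (hu1 : ∑ k, u k ^ 2 = 1) (huδ : ∀ k, u k ^ 2 ≤ δ) (hc : 0 < c)
    (hg : ∀ x : Fin n → ℂ, ∑ l, ‖∑ k, g l k * x k‖ ^ 2 ≤ c * ∑ k, ‖x k‖ ^ 2) :
    ∑ k, (8 * (∑ j, ‖(u k * (if j = k then 0 else
          (∑ l, starRingEnd ℂ (g l k) * g l j) * (u j : ℂ)) : ℂ)‖ ^ 2 +
        ‖(u k * ((∑ l, starRingEnd ℂ (g l k) * g l i) * z) : ℂ)‖ ^ 2) +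
      2 * ((∑ l, ‖g l k‖ ^ 2) * u k ^ 2) ^ 2 * m) ≤
      (8 * (1 + ‖z‖ ^ 2) + 2 * m) * δ * c ^ 2 := by
  have hδ : 0 ≤ δ := le_trans (sq_nonneg _) (huδ i)
  have h1 : ∑ k, ∑ j, ‖(u k * (if j = k then 0 else
          (∑ l, starRingEnd ℂ (g l k) * g l j) * (u j : ℂ)) : ℂ)‖ ^ 2 ≤ δ * c ^ 2 := by
    calc _ ≤ ∑ k, ∑ j, δ * u j ^ 2 * ‖∑ l, starRingEnd ℂ (g l k) * g l j‖ ^ 2 := by
          refine Finset.sum_le_sum fun k _ => Finset.sum_le_sum fun j _ => ?_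
          have hk := huδ k
          split_ifs
          · simp only [mul_zero, norm_zero]
            have : (0 : ℝ) ≤ δ * u j ^ 2 * ‖∑ l, starRingEnd ℂ (g l k) * g l j‖ ^ 2 := by
              positivity
            simpa using this
          · rw [norm_mul, norm_mul, Complex.norm_real, Complex.norm_real, Real.norm_eq_abs,
              Real.norm_eq_abs, mul_pow, mul_pow, sq_abs, sq_abs]
            calc _ = u k ^ 2 * (u j ^ 2 * ‖∑ l, starRingEnd ℂ (g l k) * g l j‖ ^ 2) := by ring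
              _ ≤ δ * (u j ^ 2 * ‖∑ l, starRingEnd ℂ (g l k) * g l j‖ ^ 2) := by gcongr
              _ = _ := by ring
      _ = ∑ j, δ * u j ^ 2 * ∑ k, ‖∑ l, starRingEnd ℂ (g l k) * g l j‖ ^ 2 := by
          rw [Finset.sum_comm]
          refine Finset.sum_congr rfl fun j _ => ?_
          rw [Finset.mul_sum]
      _ ≤ ∑ j, δ * u j ^ 2 * c ^ 2 := by
          refine Finset.sum_le_sum fun j _ => ?_
          have := o2_gram g hc hg j
          gcongr
      _ = _ := by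
          rw [← Finset.sum_mul, ← Finset.mul_sum, hu1]
          ring
  have h2 : ∑ k, ‖(u k * ((∑ l, starRingEnd ℂ (g l k) * g l i) * z) : ℂ)‖ ^ 2 ≤
      ‖z‖ ^ 2 * δ * c ^ 2 := by
    calc _ ≤ ∑ k, ‖z‖ ^ 2 * δ * ‖∑ l, starRingEnd ℂ (g l k) * g l i‖ ^ 2 := by
          refine Finset.sum_le_sum fun k _ => ?_
          have hk := huδ k
          rw [norm_mul, norm_mul, Complex.norm_real, Real.norm_eq_abs, mul_pow, mul_pow, sq_abs]
          calc _ = u k ^ 2 * (‖∑ l, starRingEnd ℂ (g l k) * g l i‖ ^ 2 * ‖z‖ ^ 2) := by ring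
            _ ≤ δ * (‖∑ l, starRingEnd ℂ (g l k) * g l i‖ ^ 2 * ‖z‖ ^ 2) := by gcongr
            _ = _ := by ring
      _ = ‖z‖ ^ 2 * δ * ∑ k, ‖∑ l, starRingEnd ℂ (g l k) * g l i‖ ^ 2 := by
          rw [Finset.mul_sum]
      _ ≤ _ := by
          have := o2_gram g hc hg i
          gcongr
  have h3 : ∑ k, ((∑ l, ‖g l k‖ ^ 2) * u k ^ 2) ^ 2 ≤ δ * c ^ 2 := by
    calc _ ≤ ∑ k, c ^ 2 * δ * u k ^ 2 := by
          refine Finset.sum_le_sum fun k _ => ?_
          have hk := huδ k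
          have hk2 := o2_col g hg k
          have hk3 : 0 ≤ ∑ l, ‖g l k‖ ^ 2 := Finset.sum_nonneg fun l _ => by positivity
          calc _ = (∑ l, ‖g l k‖ ^ 2) ^ 2 * (u k ^ 2 * u k ^ 2) := by ring
            _ ≤ c ^ 2 * (δ * u k ^ 2) := by gcongr
            _ = _ := by ring
      _ = _ := by
          rw [← Finset.mul_sum, hu1]
          ring
  rw [Finset.sum_add_distrib, ← Finset.mul_sum, Finset.sum_add_distrib, ← Finset.sum_mul,
    ← Finset.mul_sum]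
  nlinarith

theorem o2_pw {x a : ℝ} (hx : 1 ≤ x) (ha : 1 ≤ a) :
    (x ^ 2)⁻¹ ≤ (a ^ 2)⁻¹ - 2 * (x - a) * (a ^ 3)⁻¹ + 3 * (x - a) ^ 2 * (a ^ 2)⁻¹ := by
  have h0 : 0 < x := by linarith
  have h1 : 0 < a := by linarith
  have h2 : (a ^ 2)⁻¹ - 2 * (x - a) * (a ^ 3)⁻¹ + 3 * (x - a) ^ 2 * (a ^ 2)⁻¹ - (x ^ 2)⁻¹ =
      (x - a) ^ 2 * (3 * x ^ 2 * a - (2 * x + a)) * ((x ^ 2)⁻¹ * (a ^ 3)⁻¹) := by
    field_simp
    ring
  have h3 : 0 ≤ 3 * x ^ 2 * a - (2 * x + a) := by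
    have h4 : x * 1 ≤ x * (x * a) := by
      gcongr
      nlinarith
    have h5 : 1 * a ≤ x ^ 2 * a := by
      gcongr
      nlinarith
    nlinarith
  have h4 : 0 ≤ (x - a) ^ 2 * (3 * x ^ 2 * a - (2 * x + a)) * ((x ^ 2)⁻¹ * (a ^ 3)⁻¹) := by
    positivity
  linarith

theorem one_row_two {μ : Measure ℂ} [IsProbabilityMeasure μ] {m : ℝ} (hμ : Law4 μ m)
    (g : Matrix (Fin n) (Fin n) ℂ) (u : Fin n → ℝ) (z : ℂ) (i : Fin n) {δ η : ℝ}
    (hu : ∀ k, 0 ≤ u k) (hu1 : ∑ k, u k ^ 2 = 1) (huδ : ∀ k, u k ^ 2 ≤ δ) (hη : 0 < η)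
    (hg : ∀ x : Fin n → ℂ, ∑ l, ‖∑ k, g l k * x k‖ ^ 2 ≤ (η ^ 2)⁻¹ * ∑ k, ‖x k‖ ^ 2)
    (hV : (8 * (1 + ‖z‖ ^ 2) + 2 * m) * δ / η ^ 4 ≤ 1) :
    ∫⁻ x, ∫⁻ y, ENNReal.ofReal (((1 + Q g u z i x) / (1 + Q g u z i y)) ^ (2 : ℝ))
        ∂(Measure.pi fun _ : Fin n => μ) ∂(Measure.pi fun _ : Fin n => μ) ≤
      ENNReal.ofReal (1 + 7 * ((8 * (1 + ‖z‖ ^ 2) + 2 * m) * δ / η ^ 4)) := by
  set P : Measure (Fin n → ℂ) := Measure.pi fun _ : Fin n => μ with hP
  set V₀ : ℝ := (8 * (1 + ‖z‖ ^ 2) + 2 * m) * δ / η ^ 4 with hV₀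
  set q : (Fin n → ℂ) → ℝ := Q g u z i with hq
  have hm := o2_m_nonneg hμ
  have hc : 0 < (η ^ 2)⁻¹ := by positivity
  have hδ : 0 ≤ δ := le_trans (sq_nonneg _) (huδ i)
  have hV0 : 0 ≤ V₀ := by positivity
  have hqm : Measurable q := o2_meas g u z i
  have hq0 : ∀ x, 0 ≤ q x := fun x => Finset.sum_nonneg fun l _ => by positivity
  have hq2 : Integrable (fun x => q x ^ 2) P := o2_Q_sq_int hμ g u z i hc.le hg
  have hq1 : Integrable q P := by
    refine ((integrable_const (1 : ℝ)).add hq2).mono' hqm.aestronglyMeasurable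
      (Filter.Eventually.of_forall fun x => ?_)
    simp only [Pi.add_apply]
    rw [Real.norm_of_nonneg (hq0 x)]
    nlinarith [sq_nonneg (q x - 1), sq_nonneg (q x)]
  set E : ℝ := ∫ x, q x ∂P with hE
  have hE0 : 0 ≤ E := integral_nonneg hq0
  set V : ℝ := ∫ x, q x ^ 2 ∂P - E ^ 2 with hVdef
  have hVle : V ≤ V₀ := by
    have h1 := efron_stein μ q hqm hq2 (fun x k => o2_loc hμ g u z i k x)
    have h2 := Finset.sum_le_sum fun k (_ : k ∈ Finset.univ) => o2_term hμ g u z i k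
    have h3 := o2_sum hm g u z i hu1 huδ hc hg
    have h4 : (8 * (1 + ‖z‖ ^ 2) + 2 * m) * δ * ((η ^ 2)⁻¹) ^ 2 = V₀ := by
      rw [hV₀]
      field_simp
    rw [h4] at h3
    exact h1.trans (h2.trans h3)
  -- the centred second moment
  have hcent : ∫ x, (q x - E) ^ 2 ∂P = V := by
    have h1 : (fun x => (q x - E) ^ 2) = fun x => (q x ^ 2 - (2 * E) * q x) + E ^ 2 := by
      funext x; ring
    have h2 : Integrable (fun x => q x ^ 2 - (2 * E) * q x) P := hq2.sub (hq1.const_mul _)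
    rw [h1, integral_add h2 (integrable_const _),
      integral_sub hq2 (hq1.const_mul _), integral_const_mul]
    simp only [integral_const, probReal_univ, smul_eq_mul, one_mul]
    rw [hVdef, ← hE]
    ring
  have hVnn : 0 ≤ V := by
    rw [← hcent]
    exact integral_nonneg fun x => sq_nonneg _
  have hci : Integrable (fun x => (q x - E) ^ 2) P := by
    have h1 : (fun x => (q x - E) ^ 2) = fun x => (q x ^ 2 - (2 * E) * q x) + E ^ 2 := by
      funext x; ring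
    rw [h1]
    exact (hq2.sub (hq1.const_mul _)).add (integrable_const _)
  -- first factor
  have hA : ∫⁻ x, ENNReal.ofReal ((1 + q x) ^ 2) ∂P = ENNReal.ofReal ((1 + E) ^ 2 + V) := by
    have h1 : (fun x => (1 + q x) ^ 2) = fun x => (q x ^ 2 + 2 * q x) + 1 := by
      funext x; ring
    have hi : Integrable (fun x => (1 + q x) ^ 2) P := by
      rw [h1]
      exact (hq2.add (hq1.const_mul _)).add (integrable_const _)
    rw [← ofReal_integral_eq_lintegral_ofReal hi (Filter.Eventually.of_forall fun x => by positivity)]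
    congr 1
    have h2 : Integrable (fun x => q x ^ 2 + 2 * q x) P := hq2.add (hq1.const_mul _)
    rw [h1, integral_add h2 (integrable_const _),
      integral_add hq2 (hq1.const_mul _), integral_const_mul]
    simp only [integral_const, probReal_univ, smul_eq_mul, one_mul]
    rw [hVdef, ← hE]
    ring
  -- second factor
  have hB : ∫⁻ y, ENNReal.ofReal (((1 + q y) ^ 2)⁻¹) ∂P ≤
      ENNReal.ofReal (((1 + E) ^ 2)⁻¹ * (1 + 3 * V)) := by
    have hi1 : Integrable (fun y => q y - E) P := hq1.sub (integrable_const _)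
    have hi2 : Integrable (fun y => ((1 + E) ^ 2)⁻¹ - (2 * ((1 + E) ^ 3)⁻¹) * (q y - E)) P :=
      (integrable_const _).sub (hi1.const_mul _)
    have hi : Integrable (fun y => (((1 + E) ^ 2)⁻¹ - (2 * ((1 + E) ^ 3)⁻¹) * (q y - E)) +
        (3 * ((1 + E) ^ 2)⁻¹) * (q y - E) ^ 2) P := hi2.add (hci.const_mul _)
    have hpw : ∀ y, ((1 + q y) ^ 2)⁻¹ ≤ (((1 + E) ^ 2)⁻¹ - (2 * ((1 + E) ^ 3)⁻¹) * (q y - E)) +
        (3 * ((1 + E) ^ 2)⁻¹) * (q y - E) ^ 2 := by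
      intro y
      have h := o2_pw (x := 1 + q y) (a := 1 + E) (by linarith [hq0 y]) (by linarith)
      calc _ ≤ _ := h
        _ = _ := by ring
    refine (lintegral_mono fun y => ENNReal.ofReal_le_ofReal (hpw y)).trans ?_
    rw [← ofReal_integral_eq_lintegral_ofReal hi
      (Filter.Eventually.of_forall fun y => le_trans (by positivity) (hpw y))]
    refine ENNReal.ofReal_le_ofReal (le_of_eq ?_)
    rw [integral_add hi2 (hci.const_mul _), integral_sub (integrable_const _)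
        (hi1.const_mul _), integral_const_mul, integral_const_mul,
        hcent, integral_sub hq1 (integrable_const _)]
    simp only [integral_const, probReal_univ, smul_eq_mul, one_mul]
    rw [← hE]
    ring
  have hsplit : ∀ x y, ENNReal.ofReal (((1 + q x) / (1 + q y)) ^ (2 : ℝ)) =
      ENNReal.ofReal ((1 + q x) ^ 2) * ENNReal.ofReal (((1 + q y) ^ 2)⁻¹) := by
    intro x y
    rw [← ENNReal.ofReal_mul (by positivity), Real.rpow_two, div_pow, div_eq_mul_inv]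
  simp only [hsplit]
  have h5 : ∀ x, ∫⁻ y, ENNReal.ofReal ((1 + q x) ^ 2) * ENNReal.ofReal (((1 + q y) ^ 2)⁻¹) ∂P =
      ENNReal.ofReal ((1 + q x) ^ 2) * ∫⁻ y, ENNReal.ofReal (((1 + q y) ^ 2)⁻¹) ∂P := by
    intro x
    rw [lintegral_const_mul _ (by fun_prop)]
  simp only [h5]
  rw [lintegral_mul_const _ (by fun_prop), hA]
  calc _ ≤ ENNReal.ofReal ((1 + E) ^ 2 + V) * ENNReal.ofReal (((1 + E) ^ 2)⁻¹ * (1 + 3 * V)) := by
        gcongr
    _ = ENNReal.ofReal (((1 + E) ^ 2 + V) * (((1 + E) ^ 2)⁻¹ * (1 + 3 * V))) := by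
        rw [ENNReal.ofReal_mul (p := (1 + E) ^ 2 + V) (by positivity)]
    _ ≤ _ := by
        refine ENNReal.ofReal_le_ofReal ?_
        have h6 : ((1 + E) ^ 2 + V) * (((1 + E) ^ 2)⁻¹ * (1 + 3 * V)) =
            (1 + V * ((1 + E) ^ 2)⁻¹) * (1 + 3 * V) := by
          field_simp
        have h7 : ((1 + E) ^ 2)⁻¹ ≤ 1 := inv_le_one_of_one_le₀ (by nlinarith)
        rw [h6]
        have h8 : V * ((1 + E) ^ 2)⁻¹ ≤ V := by
          calc _ ≤ V * 1 := by gcongr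
            _ = V := mul_one _
        calc _ ≤ (1 + V) * (1 + 3 * V) := by gcongr
          _ ≤ (1 + V₀) * (1 + 3 * V₀) := by gcongr
          _ ≤ _ := by nlinarith

end Pool.Agent.Circ
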