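import Mathlib

/-!
# Module J: tensorisation of the resampling bound

Induction on `n` (`measurePreserving_piFinSuccAbove` at `0`): with `Z = (a, y)`,
one row: `∫ f(a,y)^t dν(a) ≤ K exp (t ∫ log f(a,y) dν(a))` because
`∫ f(a')^(-t) ≥ exp (-t ∫ log f)` (Jensen). Put `f₁(y) = exp (∫ log f(a,y) dν(a))`; its
resampling ratios satisfy the same bound by Jensen, `|log f₁| ≤ (C + ∫ φ) + Σ φ(y_i)`.
-/

set_option autoImplicit false

open MeasureTheory ProbabilityTheory Filter Matrix Finset

namespace Pool.Agent.Circ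

/-- Jensen's inequality for `exp`. -/
theorem tens_jensen {Y : Type} [MeasurableSpace Y] (ν : Measure Y) [IsProbabilityMeasure ν]
    (u : Y → ℝ) (hu : Integrable u ν) :
    ENNReal.ofReal (Real.exp (∫ a, u a ∂ν)) ≤ ∫⁻ a, ENNReal.ofReal (Real.exp (u a)) ∂ν := by
  by_cases hI : Integrable (fun a => Real.exp (u a)) ν
  · rw [← ofReal_integral_eq_lintegral_ofReal hI (ae_of_all _ fun a => (Real.exp_pos _).le)]
    apply ENNReal.ofReal_le_ofReal
    set m := ∫ a, u a ∂ν with hm
    have h1 : Real.exp m = ∫ a, Real.exp m * (1 + (u a - m)) ∂ν := by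
      have h0 : ∫ a, (1 + (u a - m)) ∂ν = 1 := by
        have e1 : ∫ a, (1 + (u a - m)) ∂ν = ∫ _a : Y, (1 : ℝ) ∂ν + ∫ a, (u a - m) ∂ν :=
          integral_add (integrable_const _) (hu.sub (integrable_const _))
        have e2 : ∫ a, (u a - m) ∂ν = ∫ a, u a ∂ν - ∫ _a : Y, m ∂ν :=
          integral_sub hu (integrable_const _)
        rw [e1, e2]
        simp [hm]
      rw [integral_const_mul, h0, mul_one]
    rw [h1]
    refine integral_mono ?_ hI fun a => ?_
    · exact ((integrable_const _).add (hu.sub (integrable_const _))).const_mul _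
    · have h2 : u a - m + 1 ≤ Real.exp (u a - m) := Real.add_one_le_exp _
      have h3 : Real.exp (u a) = Real.exp m * Real.exp (u a - m) := by
        rw [← Real.exp_add]; ring_nf
      change Real.exp m * (1 + (u a - m)) ≤ Real.exp (u a)
      rw [h3]
      exact mul_le_mul_of_nonneg_left (by linarith) (Real.exp_pos _).le
  · have h : ∫⁻ a, ENNReal.ofReal (Real.exp (u a)) ∂ν = ⊤ := by
      by_contra hne
      apply hI
      refine ⟨Real.continuous_exp.comp_aestronglyMeasurable hu.1, ?_⟩
      rw [hasFiniteIntegral_iff_ofReal (ae_of_all _ fun a => (Real.exp_pos _).le)]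
      exact lt_top_iff_ne_top.2 hne
    rw [h]
    exact le_top

/-- one row -/
theorem tens_row {Y : Type} [MeasurableSpace Y] (ν : Measure Y) [IsProbabilityMeasure ν]
    (g : Y → ℝ) (hg : Measurable g) (hpos : ∀ a, 0 < g a)
    (hlog : Integrable (fun a => Real.log (g a)) ν) {t K : ℝ}
    (hK : ∫⁻ a, ∫⁻ b, ENNReal.ofReal ((g a / g b) ^ t) ∂ν ∂ν ≤ ENNReal.ofReal K) :
    ∫⁻ a, ENNReal.ofReal (g a ^ t) ∂ν ≤
      ENNReal.ofReal K * ENNReal.ofReal (Real.exp (t * ∫ a, Real.log (g a) ∂ν)) := by
  have hmeas : Measurable fun a => ENNReal.ofReal (g a ^ t) :=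
    (hg.pow_const t).ennreal_ofReal
  have hmeas' : Measurable fun a => ENNReal.ofReal (g a ^ (-t)) :=
    (hg.pow_const (-t)).ennreal_ofReal
  have hsplit : ∀ a b, ENNReal.ofReal ((g a / g b) ^ t) =
      ENNReal.ofReal (g a ^ t) * ENNReal.ofReal (g b ^ (-t)) := fun a b => by
    rw [← ENNReal.ofReal_mul (Real.rpow_nonneg (hpos a).le t),
      Real.div_rpow (hpos a).le (hpos b).le, Real.rpow_neg (hpos b).le, div_eq_mul_inv]
  have h1 : ∫⁻ a, ∫⁻ b, ENNReal.ofReal ((g a / g b) ^ t) ∂ν ∂ν =
      (∫⁻ a, ENNReal.ofReal (g a ^ t) ∂ν) * ∫⁻ b, ENNReal.ofReal (g b ^ (-t)) ∂ν := by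
    simp_rw [hsplit]
    rw [← lintegral_mul_const _ hmeas]
    refine lintegral_congr fun a => ?_
    rw [lintegral_const_mul _ hmeas']
  have h2 : ENNReal.ofReal (Real.exp (-(t * ∫ a, Real.log (g a) ∂ν))) ≤
      ∫⁻ b, ENNReal.ofReal (g b ^ (-t)) ∂ν := by
    have h3 := tens_jensen ν (fun a => -(t * Real.log (g a))) (hlog.const_mul t).neg
    rw [integral_neg, integral_const_mul] at h3
    refine h3.trans (le_of_eq (lintegral_congr fun b => ?_))
    rw [Real.rpow_def_of_pos (hpos b)]
    congr 2
    ring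
  set M := t * ∫ a, Real.log (g a) ∂ν
  have h4 : (∫⁻ a, ENNReal.ofReal (g a ^ t) ∂ν) * ENNReal.ofReal (Real.exp (-M)) ≤
      ENNReal.ofReal K := by
    rw [h1] at hK
    exact (mul_le_mul_right h2 _).trans hK
  calc ∫⁻ a, ENNReal.ofReal (g a ^ t) ∂ν
      = (∫⁻ a, ENNReal.ofReal (g a ^ t) ∂ν) * ENNReal.ofReal (Real.exp (-M)) *
          ENNReal.ofReal (Real.exp M) := by
        rw [mul_assoc, ← ENNReal.ofReal_mul (Real.exp_pos _).le, ← Real.exp_add]
        simp
    _ ≤ ENNReal.ofReal K * ENNReal.ofReal (Real.exp M) := mul_le_mul_left h4 _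

theorem tensor {Y : Type} [MeasurableSpace Y] (ν : Measure Y) [IsProbabilityMeasure ν]
    {n : ℕ} (f : (Fin n → Y) → ℝ) (hf : Measurable f) (hpos : ∀ x, 0 < f x) (φ : Y → ℝ)
    (hφm : Measurable φ) (hφ : Integrable φ ν) (C : ℝ)
    (hlog : ∀ x, |Real.log (f x)| ≤ C + ∑ i, φ (x i)) {t K : ℝ} (ht : 0 ≤ t) (hK1 : 1 ≤ K)
    (hK : ∀ x i, ∫⁻ a, ∫⁻ b, ENNReal.ofReal
      ((f (Function.update x i a) / f (Function.update x i b)) ^ t) ∂ν ∂ν ≤ ENNReal.ofReal K) :
    ∫⁻ x, ENNReal.ofReal (f x ^ t) ∂(Measure.pi fun _ : Fin n => ν) ≤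
      ENNReal.ofReal (K ^ n *
        Real.exp (t * ∫ x, Real.log (f x) ∂(Measure.pi fun _ : Fin n => ν))) := by
  induction n generalizing C with
  | zero =>
    rw [Measure.pi_of_empty (fun _ : Fin 0 => ν), lintegral_dirac, integral_dirac]
    apply ENNReal.ofReal_le_ofReal
    rw [Real.rpow_def_of_pos (hpos _), pow_zero, one_mul, mul_comm]
  | succ n ih =>
    -- notation
    have hmp := measurePreserving_piFinSuccAbove (fun _ : Fin (n + 1) => ν) 0
    have hsymm : ∀ z : Y × (Fin n → Y),
        (MeasurableEquiv.piFinSuccAbove (fun _ : Fin (n + 1) => Y) 0).symm z =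
          (Fin.cons z.1 z.2 : Fin (n + 1) → Y) := fun z => by
      simp [MeasurableEquiv.piFinSuccAbove]
      rfl
    have hmp' : MeasurePreserving (fun z : Y × (Fin n → Y) => (Fin.cons z.1 z.2 : Fin (n + 1) → Y))
        (ν.prod (Measure.pi fun _ : Fin n => ν)) (Measure.pi fun _ : Fin (n + 1) => ν) := by
      have h := hmp.symm
      have h2 : (⇑(MeasurableEquiv.piFinSuccAbove (fun _ : Fin (n + 1) => Y) 0).symm) =
          fun z : Y × (Fin n → Y) => (Fin.cons z.1 z.2 : Fin (n + 1) → Y) := funext hsymm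
      rw [h2] at h
      exact h
    have hcons := hmp'.measurable
    have hlogm : Measurable fun x => Real.log (f x) := Real.measurable_log.comp hf
    have hL : ∀ F : (Fin (n + 1) → Y) → ENNReal, Measurable F →
        ∫⁻ x, F x ∂(Measure.pi fun _ : Fin (n + 1) => ν) =
          ∫⁻ y, ∫⁻ a, F (Fin.cons a y) ∂ν ∂(Measure.pi fun _ : Fin n => ν) := by
      intro F hF
      exact (hmp'.lintegral_comp hF).symm.trans
        (lintegral_prod_symm (fun z : Y × (Fin n → Y) => F (Fin.cons z.1 z.2))
          (hF.comp hcons).aemeasurable)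
    have hev : ∀ (m : ℕ) (i : Fin m), Integrable (fun x : Fin m → Y => φ (x i))
        (Measure.pi fun _ : Fin m => ν) := by
      intro m i
      exact ((measurePreserving_eval (fun _ : Fin m => ν) i).integrable_comp
        hφm.aestronglyMeasurable).2 hφ
    have hint : Integrable (fun x => Real.log (f x)) (Measure.pi fun _ : Fin (n + 1) => ν) := by
      refine Integrable.mono' (g := fun x => C + ∑ i, φ (x i)) ?_ hlogm.aestronglyMeasurable
        (ae_of_all _ fun x => ?_)
      · exact (integrable_const _).add (integrable_finsetSum _ fun i _ => hev _ i)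
      · rw [Real.norm_eq_abs]
        exact hlog x
    have hsum : ∀ a (y : Fin n → Y), ∑ i, φ ((Fin.cons a y : Fin (n + 1) → Y) i) =
        φ a + ∑ i, φ (y i) := fun a y => by
      rw [Fin.sum_univ_succ]
      simp
    have hrow : ∀ y : Fin n → Y, Integrable (fun a => Real.log (f (Fin.cons a y))) ν := by
      intro y
      refine Integrable.mono' (g := fun a => C + (φ a + ∑ i, φ (y i))) ?_ ?_
        (ae_of_all _ fun a => ?_)
      · exact (integrable_const _).add (hφ.add (integrable_const _))
      · exact (hlogm.comp (hcons.comp measurable_prodMk_right)).aestronglyMeasurable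
      · rw [Real.norm_eq_abs, ← hsum a y]
        exact hlog _
    let f₁ : (Fin n → Y) → ℝ := fun y => Real.exp (∫ a, Real.log (f (Fin.cons a y)) ∂ν)
    have hf₁m : Measurable f₁ := by
      refine Real.measurable_exp.comp ?_
      have : StronglyMeasurable fun z : Y × (Fin n → Y) => Real.log (f (Fin.cons z.1 z.2)) :=
        (hlogm.comp hcons).stronglyMeasurable
      exact this.integral_prod_left'.measurable
    have hlog₁ : ∀ y, |Real.log (f₁ y)| ≤ (C + ∫ a, φ a ∂ν) + ∑ i, φ (y i) := by
      intro y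
      change |Real.log (Real.exp _)| ≤ _
      rw [Real.log_exp]
      have h1 : |∫ a, Real.log (f (Fin.cons a y)) ∂ν| ≤
          ∫ a, (C + (φ a + ∑ i, φ (y i))) ∂ν := by
        rw [← Real.norm_eq_abs]
        refine norm_integral_le_of_norm_le ?_ (ae_of_all _ fun a => ?_)
        · exact (integrable_const _).add (hφ.add (integrable_const _))
        · rw [Real.norm_eq_abs, ← hsum a y]
          exact hlog _
      have h2 : ∫ a, (C + (φ a + ∑ i, φ (y i))) ∂ν = C + (∫ a, φ a ∂ν + ∑ i, φ (y i)) := by
        have e1 : ∫ a, (C + (φ a + ∑ i, φ (y i))) ∂ν =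
            ∫ _a : Y, C ∂ν + ∫ a, (φ a + ∑ i, φ (y i)) ∂ν :=
          integral_add (integrable_const _) (hφ.add (integrable_const _))
        have e2 : ∫ a, (φ a + ∑ i, φ (y i)) ∂ν = ∫ a, φ a ∂ν + ∫ _a : Y, ∑ i, φ (y i) ∂ν :=
          integral_add hφ (integrable_const _)
        rw [e1, e2]
        simp
      linarith
    have hK₁ : ∀ y i, ∫⁻ a, ∫⁻ b, ENNReal.ofReal
        ((f₁ (Function.update y i a) / f₁ (Function.update y i b)) ^ t) ∂ν ∂ν ≤
          ENNReal.ofReal K := by
      intro y i
      have hR : Measurable fun p : Y × Y =>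
          f (Fin.cons p.1 (Function.update y i p.2) : Fin (n + 1) → Y) := by
        refine hf.comp (hcons.comp (measurable_fst.prodMk ?_))
        exact (measurable_update y).comp measurable_snd
      have hH : Measurable fun p : (Y × Y) × Y => ENNReal.ofReal
          ((f (Fin.cons p.1.2 (Function.update y i p.1.1) : Fin (n + 1) → Y) /
            f (Fin.cons p.1.2 (Function.update y i p.2) : Fin (n + 1) → Y)) ^ t) := by
        refine (Measurable.pow_const (Measurable.div ?_ ?_) t).ennreal_ofReal
        · exact hR.comp ((measurable_snd.comp measurable_fst).prodMk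
            (measurable_fst.comp measurable_fst))
        · exact hR.comp ((measurable_snd.comp measurable_fst).prodMk measurable_snd)
      have hle : ∀ b b', ENNReal.ofReal
          ((f₁ (Function.update y i b) / f₁ (Function.update y i b')) ^ t) ≤
          ∫⁻ a, ENNReal.ofReal ((f (Fin.cons a (Function.update y i b) : Fin (n + 1) → Y) /
            f (Fin.cons a (Function.update y i b') : Fin (n + 1) → Y)) ^ t) ∂ν := by
        intro b b'
        have hi := (((hrow (Function.update y i b)).sub
          (hrow (Function.update y i b'))).const_mul t)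
        have h := tens_jensen ν _ hi
        have e1 : (f₁ (Function.update y i b) / f₁ (Function.update y i b')) ^ t =
            Real.exp (∫ a, t * (Real.log (f (Fin.cons a (Function.update y i b))) -
              Real.log (f (Fin.cons a (Function.update y i b')))) ∂ν) := by
          rw [integral_const_mul, integral_sub (hrow _) (hrow _)]
          change (Real.exp _ / Real.exp _) ^ t = _
          rw [← Real.exp_sub, ← Real.exp_mul]
          ring_nf
        rw [e1]
        refine h.trans (le_of_eq (lintegral_congr fun a => ?_))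
        congr 1
        change Real.exp (t * (Real.log _ - Real.log _)) = _
        rw [← Real.log_div (hpos _).ne' (hpos _).ne', Real.rpow_def_of_pos (div_pos (hpos _) (hpos _)),
          mul_comm]
      calc ∫⁻ b, ∫⁻ b', ENNReal.ofReal
            ((f₁ (Function.update y i b) / f₁ (Function.update y i b')) ^ t) ∂ν ∂ν
          ≤ ∫⁻ b, ∫⁻ b', ∫⁻ a, ENNReal.ofReal
              ((f (Fin.cons a (Function.update y i b) : Fin (n + 1) → Y) /
                f (Fin.cons a (Function.update y i b') : Fin (n + 1) → Y)) ^ t) ∂ν ∂ν ∂ν :=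
            lintegral_mono fun b => lintegral_mono fun b' => hle b b'
        _ = ∫⁻ b, ∫⁻ a, ∫⁻ b', ENNReal.ofReal
              ((f (Fin.cons a (Function.update y i b) : Fin (n + 1) → Y) /
                f (Fin.cons a (Function.update y i b') : Fin (n + 1) → Y)) ^ t) ∂ν ∂ν ∂ν := by
            refine lintegral_congr fun b => ?_
            refine lintegral_lintegral_swap ?_
            refine Measurable.aemeasurable ?_
            exact hH.comp (((measurable_const (a := b)).prodMk measurable_snd).prodMk measurable_fst)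
        _ = ∫⁻ a, ∫⁻ b, ∫⁻ b', ENNReal.ofReal
              ((f (Fin.cons a (Function.update y i b) : Fin (n + 1) → Y) /
                f (Fin.cons a (Function.update y i b') : Fin (n + 1) → Y)) ^ t) ∂ν ∂ν ∂ν := by
            refine lintegral_lintegral_swap ?_
            exact hH.lintegral_prod_right'.aemeasurable
        _ ≤ ∫⁻ _a : Y, ENNReal.ofReal K ∂ν := by
            refine lintegral_mono fun a => ?_
            have h := hK (Fin.cons a y) i.succ
            simp only [← Fin.cons_update] at h
            exact h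
        _ = ENNReal.ofReal K := by simp
    have hIH := ih f₁ hf₁m (fun y => Real.exp_pos _) (C + ∫ a, φ a ∂ν) hlog₁ hK₁
    have hfub : ∫ x, Real.log (f x) ∂(Measure.pi fun _ : Fin (n + 1) => ν) =
        ∫ y, Real.log (f₁ y) ∂(Measure.pi fun _ : Fin n => ν) := by
      have h1 : Integrable (fun z : Y × (Fin n → Y) => Real.log (f (Fin.cons z.1 z.2)))
          (ν.prod (Measure.pi fun _ : Fin n => ν)) :=
        (hmp'.integrable_comp hlogm.aestronglyMeasurable).2 hint
      have h2 := integral_prod_symm _ h1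
      have h3 : ∫ z : Y × (Fin n → Y), Real.log (f (Fin.cons z.1 z.2))
          ∂(ν.prod (Measure.pi fun _ : Fin n => ν)) =
          ∫ x, Real.log (f x) ∂(Measure.pi fun _ : Fin (n + 1) => ν) := by
        conv_rhs => rw [← hmp'.map_eq]
        rw [integral_map hcons.aemeasurable hlogm.aestronglyMeasurable]
      rw [← h3, h2]
      refine integral_congr_ae (ae_of_all _ fun y => ?_)
      change _ = Real.log (Real.exp _)
      rw [Real.log_exp]
    have hrowle : ∀ y : Fin n → Y, ∫⁻ a, ENNReal.ofReal (f (Fin.cons a y) ^ t) ∂ν ≤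
        ENNReal.ofReal K * ENNReal.ofReal (f₁ y ^ t) := by
      intro y
      have hKy : ∫⁻ a, ∫⁻ b, ENNReal.ofReal
          ((f (Fin.cons a y) / f (Fin.cons b y)) ^ t) ∂ν ∂ν ≤ ENNReal.ofReal K := by
        obtain ⟨a0⟩ : Nonempty Y := by
          by_contra hne
          rw [not_nonempty_iff] at hne
          have h1 : ν Set.univ = 1 := measure_univ
          rw [Set.univ_eq_empty_iff.2 hne, measure_empty] at h1
          exact zero_ne_one h1
        have h := hK (Fin.cons a0 y) 0
        simp only [Fin.update_cons_zero] at h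
        exact h
      have h := tens_row ν (fun a => f (Fin.cons a y)) (hf.comp (hcons.comp measurable_prodMk_right))
        (fun a => hpos _) (hrow y) hKy
      refine h.trans (le_of_eq ?_)
      congr 2
      change _ = (Real.exp _) ^ t
      rw [← Real.exp_mul, mul_comm]
    have hf₁t : Measurable fun y => ENNReal.ofReal (f₁ y ^ t) := (hf₁m.pow_const t).ennreal_ofReal
    calc ∫⁻ x, ENNReal.ofReal (f x ^ t) ∂(Measure.pi fun _ : Fin (n + 1) => ν)
        = ∫⁻ y, ∫⁻ a, ENNReal.ofReal (f (Fin.cons a y) ^ t) ∂ν ∂(Measure.pi fun _ : Fin n => ν) :=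
          hL _ (hf.pow_const t).ennreal_ofReal
      _ ≤ ∫⁻ y, ENNReal.ofReal K * ENNReal.ofReal (f₁ y ^ t) ∂(Measure.pi fun _ : Fin n => ν) :=
          lintegral_mono hrowle
      _ = ENNReal.ofReal K * ∫⁻ y, ENNReal.ofReal (f₁ y ^ t) ∂(Measure.pi fun _ : Fin n => ν) :=
          lintegral_const_mul _ hf₁t
      _ ≤ ENNReal.ofReal K * ENNReal.ofReal (K ^ n *
            Real.exp (t * ∫ y, Real.log (f₁ y) ∂(Measure.pi fun _ : Fin n => ν))) :=
          mul_le_mul_right hIH _
      _ = ENNReal.ofReal (K ^ (n + 1) *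
            Real.exp (t * ∫ x, Real.log (f x) ∂(Measure.pi fun _ : Fin (n + 1) => ν))) := by
          rw [← ENNReal.ofReal_mul (by linarith), hfub]
          congr 1
          ring

end Pool.Agent.Circ
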