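import Pool.Agent.Lib.Circ.Bregman

/-!
# Module D: upper bound for the matching polynomial

`F (Bmat U p) 1 η² univ univ = Σ_S p^(n-|S|) F V 1 η² S S` (add the diagonal entries one at a
time, `F_addEntry`), `V i j = U i j ^ 2`; then `F_split`, `bregman` with
`Σ_{i ∈ R'} V i k ≤ Σ_{i ∈ S} V i k`, and `(m choose k) η^k ≤ (1+η)^m` for the choice of the
set of matched rows.
-/

set_option autoImplicit false

open MeasureTheory ProbabilityTheory Filter Matrix Finset

namespace Pool.Agent.Circ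

variable {n : ℕ}

/-- Adding the diagonal entries in `T`. -/
theorem zup_diag (V : Matrix (Fin n) (Fin n) ℝ) (p : ℝ) (r c : Fin n → ℝ)
    (T : Finset (Fin n)) : ∀ R C : Finset (Fin n), T ⊆ R → T ⊆ C →
      F (Matrix.of fun i j => V i j + if j = i ∧ i ∈ T then p else 0) r c R C =
        ∑ S ∈ T.powerset, p ^ S.card * F V r c (R \ S) (C \ S) := by
  induction T using Finset.induction_on with
  | empty =>
    intro R C _ _
    have : (Matrix.of fun i j => V i j + if j = i ∧ i ∈ (∅ : Finset (Fin n)) then p else 0) = V := by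
      ext i j
      simp
    rw [this]
    simp
  | insert a T ha ih =>
    intro R C hR hC
    have haR : a ∈ R := hR (Finset.mem_insert_self a T)
    have haC : a ∈ C := hC (Finset.mem_insert_self a T)
    have hTR : T ⊆ R := fun x hx => hR (Finset.mem_insert_of_mem hx)
    have hTC : T ⊆ C := fun x hx => hC (Finset.mem_insert_of_mem hx)
    have hTR' : T ⊆ R.erase a := fun x hx =>
      Finset.mem_erase.2 ⟨fun h => ha (h ▸ hx), hTR hx⟩
    have hTC' : T ⊆ C.erase a := fun x hx =>
      Finset.mem_erase.2 ⟨fun h => ha (h ▸ hx), hTC hx⟩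
    rw [F_addEntry (B := Matrix.of fun i j => V i j + if j = i ∧ i ∈ T then p else 0)
      r c haR haC p, ih R C hTR hTC, ih _ _ hTR' hTC', Finset.sum_powerset_insert ha,
      Finset.mul_sum]
    · congr 1
      refine Finset.sum_congr rfl fun S hS => ?_
      have haS : a ∉ S := fun h => ha ((Finset.mem_powerset.1 hS) h)
      rw [Finset.card_insert_of_notMem haS, Finset.sdiff_insert, Finset.sdiff_insert,
        Finset.erase_sdiff_comm, Finset.erase_sdiff_comm, pow_succ]
      ring
    · intro i' j'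
      simp only [Matrix.of_apply, Finset.mem_insert]
      by_cases h1 : j' = i'
      · subst h1
        by_cases h2 : j' = a
        · subst h2
          simp [ha]
        · simp [h2]
      · have h3 : ¬ (i' = a ∧ j' = a) := fun h => h1 (h.2.trans h.1.symm)
        simp [h1, h3]

theorem F_Bmat (U : Matrix (Fin n) (Fin n) ℝ) (p : ℝ) (r c : Fin n → ℝ) :
    F (Bmat U p) r c Finset.univ Finset.univ =
      ∑ S : Finset (Fin n), p ^ (n - S.card) * F (Matrix.of fun i j => U i j ^ 2) r c S S := by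
  have h0 : Bmat U p = Matrix.of fun i j => (Matrix.of fun i j => U i j ^ 2) i j +
      if j = i ∧ i ∈ (Finset.univ : Finset (Fin n)) then p else 0 := by
    ext i j
    simp [Bmat]
  rw [h0, zup_diag _ p r c Finset.univ Finset.univ Finset.univ (fun _ h => h) (fun _ h => h)]
  rw [Finset.powerset_univ]
  refine Finset.sum_bij' (fun S _ => Sᶜ) (fun S _ => Sᶜ) (fun _ _ => Finset.mem_univ _)
    (fun _ _ => Finset.mem_univ _) (fun S _ => compl_compl S) (fun S _ => compl_compl S) ?_
  intro S _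
  have h1 : n - (Sᶜ).card = S.card := by
    rw [Finset.card_compl, Fintype.card_fin]
    have := Finset.card_le_univ S
    rw [Fintype.card_fin] at this
    omega
  rw [h1, Finset.compl_eq_univ_sdiff]

theorem zup_choose {η : ℝ} (hη : 0 ≤ η) {m k : ℕ} (hk : k ≤ m) :
    (m.choose k : ℝ) * η ^ (m - k) ≤ (1 + η) ^ m := by
  rw [add_pow]
  have := Finset.single_le_sum (f := fun k => (1 : ℝ) ^ k * η ^ (m - k) * (m.choose k : ℝ))
    (s := Finset.range (m + 1)) (fun i _ => by positivity)
    (Finset.mem_range.2 (Nat.lt_succ_of_le hk))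
  simp only [one_pow, one_mul] at this ⊢
  linarith [mul_comm (η ^ (m - k)) (m.choose k : ℝ)]

theorem zup_card (T R : Finset (Fin n)) :
    ((R.powerset.filter (fun S => S.card = T.card)).card : ℝ) = (R.card.choose T.card : ℝ) := by
  rw [← Finset.card_powersetCard]
  congr 2
  ext S
  simp [Finset.mem_powersetCard]

theorem zup_S {V : Matrix (Fin n) (Fin n) ℝ} {δ : ℝ} (hδ0 : 0 ≤ δ) (hδ1 : δ ≤ 1)
    (hV : ∀ i j, 0 ≤ V i j) (hVδ : ∀ i j, V i j ≤ δ) (hcol : ∀ j, ∑ i, V i j ≤ 1)
    {η : ℝ} (hη : 0 ≤ η) (S : Finset (Fin n)) :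
    F V (fun _ => 1) (fun _ => η ^ 2) S S ≤
      (1 + η) ^ n *
        ∏ k ∈ S, ((∑ i ∈ S, V i k + (2 * Real.sqrt δ + Real.exp 1 * η)) / Real.exp 1) := by
  have he : 0 < Real.exp 1 := Real.exp_pos 1
  have hs : 0 ≤ Real.sqrt δ := Real.sqrt_nonneg δ
  set b : Fin n → ℝ := fun k => (∑ i ∈ S, V i k + 2 * Real.sqrt δ) / Real.exp 1 with hb
  have hb0 : ∀ k, 0 ≤ b k := fun k =>
    div_nonneg (add_nonneg (Finset.sum_nonneg fun i _ => hV i k) (by positivity)) he.le
  have hsplit := F_split V 1 (η ^ 2) S S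
  rw [hsplit]
  have hmn : S.card ≤ n := by
    have := Finset.card_le_univ S
    rwa [Fintype.card_fin] at this
  have hterm : ∀ T ∈ S.powerset, ∀ R ∈ S.powerset.filter (fun R => R.card = T.card),
      (1 : ℝ) ^ (S.card - R.card) * (η ^ 2) ^ (S.card - T.card) * F V 0 0 R T ≤
        (η ^ 2) ^ (S.card - T.card) * ∏ j ∈ T, b j := by
    intro T hT R hR
    rw [Finset.mem_filter, Finset.mem_powerset] at hR
    rw [one_pow, one_mul]
    refine mul_le_mul_of_nonneg_left ?_ (by positivity)
    refine le_trans (bregman hδ0 hδ1 hV hVδ R T hR.2 (fun j _ => ?_)) ?_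
    · exact le_trans (Finset.sum_le_sum_of_subset_of_nonneg (Finset.subset_univ R)
        (fun i _ _ => hV i j)) (hcol j)
    · refine Finset.prod_le_prod (fun j _ => ?_) (fun j _ => ?_)
      · exact div_nonneg (add_nonneg (Finset.sum_nonneg fun i _ => hV i j) (by positivity)) he.le
      · refine div_le_div_of_nonneg_right ?_ he.le
        have := Finset.sum_le_sum_of_subset_of_nonneg hR.1 (fun i _ _ => hV i j)
        linarith
  have h1 : ∀ T ∈ S.powerset, ∑ R ∈ S.powerset.filter (fun R => R.card = T.card),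
      (1 : ℝ) ^ (S.card - R.card) * (η ^ 2) ^ (S.card - T.card) * F V 0 0 R T ≤
        (1 + η) ^ n * (η ^ (S.card - T.card) * ∏ j ∈ T, b j) := by
    intro T hT
    refine le_trans (Finset.sum_le_sum (hterm T hT)) ?_
    rw [Finset.sum_const, nsmul_eq_mul, zup_card]
    have hTS : T.card ≤ S.card := Finset.card_le_card (Finset.mem_powerset.1 hT)
    have h2 := zup_choose hη hTS
    have h3 : (1 + η) ^ S.card ≤ (1 + η) ^ n := pow_le_pow_right₀ (by linarith) hmn
    have h4 : 0 ≤ η ^ (S.card - T.card) * ∏ j ∈ T, b j :=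
      mul_nonneg (by positivity) (Finset.prod_nonneg fun j _ => hb0 j)
    calc (S.card.choose T.card : ℝ) * ((η ^ 2) ^ (S.card - T.card) * ∏ j ∈ T, b j)
        = ((S.card.choose T.card : ℝ) * η ^ (S.card - T.card)) *
          (η ^ (S.card - T.card) * ∏ j ∈ T, b j) := by
          rw [← pow_mul, mul_comm 2, pow_mul, sq]
          ring
      _ ≤ (1 + η) ^ n * (η ^ (S.card - T.card) * ∏ j ∈ T, b j) :=
          mul_le_mul_of_nonneg_right (h2.trans h3) h4
  refine le_trans (Finset.sum_le_sum h1) ?_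
  rw [← Finset.mul_sum]
  refine mul_le_mul_of_nonneg_left (le_of_eq ?_) (by positivity)
  have h5 : ∏ k ∈ S, (b k + η) = ∑ T ∈ S.powerset, (∏ j ∈ T, b j) * ∏ _j ∈ S \ T, η :=
    Finset.prod_add _ _ _
  have h6 : ∀ k ∈ S, ((∑ i ∈ S, V i k + (2 * Real.sqrt δ + Real.exp 1 * η)) / Real.exp 1) =
      b k + η := by
    intro k _
    rw [hb]
    field_simp
    ring
  rw [Finset.prod_congr rfl h6, h5]
  refine Finset.sum_congr rfl fun T hT => ?_
  rw [Finset.prod_const, Finset.card_sdiff_of_subset (Finset.mem_powerset.1 hT), mul_comm]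

theorem Z_upper {U : Matrix (Fin n) (Fin n) ℝ} {δ : ℝ} (hU : Profile U δ) (hδ1 : δ ≤ 1)
    {p η : ℝ} (hp : 0 ≤ p) (hη : 0 ≤ η) :
    F (Bmat U p) (fun _ => 1) (fun _ => η ^ 2) Finset.univ Finset.univ ≤
      (1 + η) ^ n * ∑ S : Finset (Fin n), p ^ (n - S.card) *
        ∏ k ∈ S, ((∑ i ∈ S, U i k ^ 2 + (2 * Real.sqrt δ + Real.exp 1 * η)) / Real.exp 1) := by
  rw [F_Bmat, Finset.mul_sum]
  refine Finset.sum_le_sum fun S _ => ?_
  rcases Nat.eq_zero_or_pos n with h0 | hpos
  · subst h0
    have hS : S = ∅ := Subsingleton.elim _ _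
    subst hS
    rw [F_empty]
    simp
  · have hδ0 : 0 ≤ δ := le_trans (sq_nonneg _) (hU.small ⟨0, hpos⟩ ⟨0, hpos⟩)
    have h := zup_S (V := Matrix.of fun i j => U i j ^ 2) hδ0 hδ1 (fun i j => sq_nonneg _)
      (fun i j => by simpa only [Matrix.of_apply] using hU.small i j)
      (fun j => by simpa only [Matrix.of_apply] using le_of_eq (hU.col j)) hη S
    simp only [Matrix.of_apply] at h
    calc p ^ (n - S.card) * F (Matrix.of fun i j => U i j ^ 2) (fun _ => 1) (fun _ => η ^ 2) S S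
        ≤ p ^ (n - S.card) * ((1 + η) ^ n *
        ∏ k ∈ S, ((∑ i ∈ S, U i k ^ 2 + (2 * Real.sqrt δ + Real.exp 1 * η)) / Real.exp 1)) :=
          mul_le_mul_of_nonneg_left h (by positivity)
      _ = _ := by ring

end Pool.Agent.Circ
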