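import Pool.Agent.Lib.Circ.PerLower
import Pool.Agent.Lib.Circ.Zupper
import Pool.Agent.Lib.Circ.Gbound
import Pool.Agent.Lib.Circ.ExpD
import Pool.Agent.Lib.Circ.OneRowSmall
import Pool.Agent.Lib.Circ.OneRowTwo
import Pool.Agent.Lib.Circ.Tensor

/-!
# Module N: the estimates at a fixed point z

`fixed_z_upper`: `lintegral_D`, `Z_upper`, `G_bound`, `(1+η)^n ≤ exp (η n)`.
`fixed_z_lower`: write `L = log ((6K)^(4/α) n)`, `E = ∫ log D τ`.
 (1) `exp (n ψ) ≤ ∫ D τ` (`lintegral_D`, `per_lower`, `F_mono`).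
 (2) `∫ (D τ)² ≤ ∫ (D η)² ≤ exp (7 V₀ n) (exp ∫ log D η)² ≤ exp (7 V₀ n + 2 n (ψ+ω))`
     (`tensor` with exponent 2, `one_row_two`, `D_row`, Jensen `exp ∫ log ≤ ∫`, upper bound).
 (3) Hölder: `(∫ D τ)^(2-t) ≤ (∫ D τ ^ t) (∫ D τ ^ 2)^(1-t)`.
 (4) `∫ D τ ^ t ≤ exp (2 (t L)² n) exp (t E)` (`tensor`, `one_row_small`, `D_row`).
-/

set_option autoImplicit false

open MeasureTheory ProbabilityTheory Filter Matrix Finset

namespace Pool.Agent.Circ

variable {n : ℕ}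

instance fz_prob_arr (μ : Measure ℂ) [IsProbabilityMeasure μ] (n : ℕ) :
    IsProbabilityMeasure (arr μ n) := by
  unfold arr
  infer_instance

theorem fz_amat_update (U : Matrix (Fin n) (Fin n) ℝ) (z : ℂ) (x : Fin n → Fin n → ℂ)
    (i : Fin n) (a : Fin n → ℂ) :
    Amat U z (Function.update x i a) = (Amat U z x).updateRow i (arow (U i) z i a) := by
  ext i' j
  rcases eq_or_ne i' i with rfl | h
  · simp [Amat, arow, Matrix.updateRow_self]
  · rw [Matrix.updateRow_ne h]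
    simp [Amat, Function.update_of_ne h]

theorem fz_amat_continuous (U : Matrix (Fin n) (Fin n) ℝ) (z : ℂ) :
    Continuous (fun x : Fin n → Fin n → ℂ => Amat U z x) := by
  refine continuous_matrix fun i j => ?_
  simp only [Amat, Matrix.of_apply]
  fun_prop

theorem fz_D_continuous (U : Matrix (Fin n) (Fin n) ℝ) (z : ℂ) (τ : ℝ) :
    Continuous (fun x : Fin n → Fin n → ℂ => D τ (Amat U z x)) := by
  have h : Continuous (fun x : Fin n → Fin n → ℂ =>
      ((τ, Amat U z x) : ℝ × Matrix (Fin n) (Fin n) ℂ)) :=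
    Continuous.prodMk continuous_const (fz_amat_continuous U z)
  have h2 := (D_continuous (n := n)).comp h
  simpa [Function.comp_def] using h2

theorem fz_D_measurable (U : Matrix (Fin n) (Fin n) ℝ) (z : ℂ) (τ : ℝ) :
    Measurable (fun x : Fin n → Fin n → ℂ => D τ (Amat U z x)) :=
  (fz_D_continuous U z τ).measurable

/-- The control function of a row. -/
noncomputable def fzPhi {n : ℕ} (τ : ℝ) (z : ℂ) (y : Fin n → ℂ) : ℝ :=
  (τ ^ 2)⁻¹ * ∑ k, (2 * ‖y k‖ ^ 2 + 2 * ‖z‖ ^ 2)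

theorem fzPhi_measurable (τ : ℝ) (z : ℂ) : Measurable (fzPhi (n := n) τ z) := by
  unfold fzPhi
  fun_prop

theorem fz_int2 {μ : Measure ℂ} [IsProbabilityMeasure μ] {m : ℝ} (hμ : Law4 μ m) :
    Integrable (fun x : ℂ => ‖x‖ ^ 2) μ := by
  refine Integrable.mono' ((integrable_const (1 : ℝ)).add hμ.int4) ?_ ?_
  · exact (by fun_prop : Continuous fun x : ℂ => ‖x‖ ^ 2).aestronglyMeasurable
  · refine Filter.Eventually.of_forall fun x => ?_
    rw [Real.norm_of_nonneg (by positivity)]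
    simp only [Pi.add_apply]
    nlinarith [sq_nonneg (‖x‖ ^ 2 - 1), norm_nonneg x, sq_nonneg (‖x‖ ^ 2)]

theorem fz_eval_integrable {μ : Measure ℂ} [IsProbabilityMeasure μ] {m : ℝ} (hμ : Law4 μ m)
    (k : Fin n) :
    Integrable (fun y : Fin n → ℂ => ‖y k‖ ^ 2) (Measure.pi fun _ : Fin n => μ) := by
  have h := fz_int2 hμ
  have hm : MeasurePreserving (fun y : Fin n → ℂ => y k) (Measure.pi fun _ : Fin n => μ) μ :=
    measurePreserving_eval (fun _ : Fin n => μ) k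
  exact hm.integrable_comp_of_integrable h

theorem fzPhi_integrable {μ : Measure ℂ} [IsProbabilityMeasure μ] {m : ℝ} (hμ : Law4 μ m)
    (τ : ℝ) (z : ℂ) :
    Integrable (fzPhi (n := n) τ z) (Measure.pi fun _ : Fin n => μ) := by
  unfold fzPhi
  refine Integrable.const_mul ?_ _
  refine integrable_finsetSum _ fun k _ => ?_
  exact ((fz_eval_integrable hμ k).const_mul 2).add (integrable_const _)

theorem fz_U_le_one {U : Matrix (Fin n) (Fin n) ℝ} {δ : ℝ} (hU : Profile U δ) (i j : Fin n) :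
    U i j ^ 2 ≤ 1 := by
  rw [← hU.row i]
  exact Finset.single_le_sum (f := fun j => U i j ^ 2) (fun k _ => sq_nonneg _)
    (Finset.mem_univ j)

theorem fz_entry_bound {U : Matrix (Fin n) (Fin n) ℝ} {δ : ℝ} (hU : Profile U δ) (z : ℂ)
    (x : Fin n → Fin n → ℂ) (i k : Fin n) :
    ‖Amat U z x i k‖ ^ 2 ≤ 2 * ‖x i k‖ ^ 2 + 2 * ‖z‖ ^ 2 := by
  have h1 : ‖Amat U z x i k‖ ≤ ‖(U i k : ℂ) * x i k‖ + ‖z‖ := by
    simp only [Amat, Matrix.of_apply]
    refine (norm_sub_le _ _).trans ?_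
    gcongr
    split_ifs
    · exact le_rfl
    · simp
  have h2 : ‖(U i k : ℂ) * x i k‖ ^ 2 ≤ ‖x i k‖ ^ 2 := by
    rw [norm_mul, mul_pow]
    have : ‖(U i k : ℂ)‖ ^ 2 ≤ 1 := by
      rw [Complex.norm_real, Real.norm_eq_abs, sq_abs]
      exact fz_U_le_one hU i k
    nlinarith [sq_nonneg ‖x i k‖]
  have h3 : 0 ≤ ‖Amat U z x i k‖ := norm_nonneg _
  nlinarith [norm_nonneg ((U i k : ℂ) * x i k), norm_nonneg z,
    sq_nonneg (‖(U i k : ℂ) * x i k‖ - ‖z‖)]

/-- The logarithm of the regularised determinant is controlled by the rows. -/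
theorem fz_hlog {U : Matrix (Fin n) (Fin n) ℝ} {δ : ℝ} (hU : Profile U δ) {τ : ℝ} (hτ : 0 < τ)
    (z : ℂ) (x : Fin n → Fin n → ℂ) :
    |Real.log (D τ (Amat U z x))| ≤ n * |Real.log (τ ^ 2)| + ∑ i, fzPhi τ z (x i) := by
  have hτ2 : 0 < τ ^ 2 := by positivity
  have hD := D_pos hτ (Amat U z x)
  have hS : ∀ i : Fin n, Real.log (1 + (τ ^ 2)⁻¹ * ∑ k, ‖Amat U z x i k‖ ^ 2) ≤
      fzPhi τ z (x i) := by
    intro i
    have h1 : 0 ≤ (τ ^ 2)⁻¹ * ∑ k, ‖Amat U z x i k‖ ^ 2 := by positivity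
    calc Real.log (1 + (τ ^ 2)⁻¹ * ∑ k, ‖Amat U z x i k‖ ^ 2)
        ≤ (1 + (τ ^ 2)⁻¹ * ∑ k, ‖Amat U z x i k‖ ^ 2) - 1 :=
          Real.log_le_sub_one_of_pos (by linarith)
      _ = (τ ^ 2)⁻¹ * ∑ k, ‖Amat U z x i k‖ ^ 2 := by ring
      _ ≤ fzPhi τ z (x i) := by
          unfold fzPhi
          gcongr with k _
          exact fz_entry_bound hU z x i k
  have hφ0 : 0 ≤ ∑ i, fzPhi τ z (x i) := by
    refine Finset.sum_nonneg fun i _ => ?_
    unfold fzPhi
    positivity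
  have hlo : (n : ℝ) * Real.log (τ ^ 2) ≤ Real.log (D τ (Amat U z x)) := by
    rw [← Real.log_pow]
    exact Real.log_le_log (by positivity) (D_ge hτ _)
  have hhi : Real.log (D τ (Amat U z x)) ≤ n * Real.log (τ ^ 2) + ∑ i, fzPhi τ z (x i) := by
    refine (Real.log_le_log hD (D_le_prod hτ _)).trans ?_
    have hpos : ∀ i ∈ (Finset.univ : Finset (Fin n)),
        (1 + (τ ^ 2)⁻¹ * ∑ k, ‖Amat U z x i k‖ ^ 2) ≠ 0 := by
      intro i _
      have h1 : 0 ≤ (τ ^ 2)⁻¹ * ∑ k, ‖Amat U z x i k‖ ^ 2 := by positivity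
      linarith
    rw [Real.log_mul (by positivity) (Finset.prod_ne_zero_iff.mpr hpos), Real.log_pow,
      Real.log_prod hpos]
    gcongr with i _
    exact hS i
  have h1 : (n : ℝ) * Real.log (τ ^ 2) ≤ n * |Real.log (τ ^ 2)| := by
    gcongr
    exact le_abs_self _
  have h2 : -((n : ℝ) * |Real.log (τ ^ 2)|) ≤ n * Real.log (τ ^ 2) := by
    rw [← mul_neg]
    gcongr
    exact neg_abs_le _
  rw [abs_le]
  constructor <;> linarith

/-- Resampling one row. -/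
theorem fz_ratio {U : Matrix (Fin n) (Fin n) ℝ} {τ : ℝ} (hτ : 0 < τ)
    (z : ℂ) (x : Fin n → Fin n → ℂ) (i : Fin n) :
    ∃ g : Matrix (Fin n) (Fin n) ℂ,
      (∀ x : Fin n → ℂ, ∑ l, ‖∑ k, g l k * x k‖ ^ 2 ≤ (τ ^ 2)⁻¹ * ∑ k, ‖x k‖ ^ 2) ∧
      ∀ a b : Fin n → ℂ, D τ (Amat U z (Function.update x i a)) /
        D τ (Amat U z (Function.update x i b)) =
        (1 + Q g (U i) z i a) / (1 + Q g (U i) z i b) := by
  obtain ⟨g, hg, h⟩ := D_row hτ (Amat U z x) i
  refine ⟨g, hg, fun a b => ?_⟩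
  have h0 : D τ ((Amat U z x).updateRow i 0) ≠ 0 := (D_pos hτ _).ne'
  rw [fz_amat_update, fz_amat_update, h (arow (U i) z i a), h (arow (U i) z i b),
    mul_div_mul_left _ _ h0]
  rfl

theorem fz_jensen {Ω : Type*} [MeasurableSpace Ω] {P : Measure Ω} [IsProbabilityMeasure P]
    {f : Ω → ℝ} (hf : Measurable f) (hpos : ∀ x, 0 < f x)
    (hlog : Integrable (fun x => Real.log (f x)) P) {b : ℝ}
    (hb : ∫⁻ x, ENNReal.ofReal (f x) ∂P ≤ ENNReal.ofReal (Real.exp b)) :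
    ∫ x, Real.log (f x) ∂P ≤ b := by
  have hint : Integrable f P := by
    refine ⟨hf.aestronglyMeasurable, ?_⟩
    rw [hasFiniteIntegral_iff_ofReal (Filter.Eventually.of_forall fun x => (hpos x).le)]
    exact hb.trans_lt ENNReal.ofReal_lt_top
  have hJ : Real.exp (∫ x, Real.log (f x) ∂P) ≤ ∫ x, Real.exp (Real.log (f x)) ∂P :=
    ConvexOn.map_integral_le convexOn_exp Real.continuous_exp.continuousOn isClosed_univ
      (Filter.Eventually.of_forall fun x => Set.mem_univ _) hlog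
      (by
        refine hint.congr (Filter.Eventually.of_forall fun x => ?_)
        simp [Real.exp_log (hpos x)])
  have h2 : ∫ x, Real.exp (Real.log (f x)) ∂P = ∫ x, f x ∂P :=
    integral_congr_ae (Filter.Eventually.of_forall fun x => by simp [Real.exp_log (hpos x)])
  have h3 : ENNReal.ofReal (∫ x, f x ∂P) ≤ ENNReal.ofReal (Real.exp b) := by
    rw [ofReal_integral_eq_lintegral_ofReal hint
      (Filter.Eventually.of_forall fun x => (hpos x).le)]
    exact hb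
  have h4 : ∫ x, f x ∂P ≤ Real.exp b :=
    (ENNReal.ofReal_le_ofReal_iff (Real.exp_pos b).le).mp h3
  have h5 : Real.exp (∫ x, Real.log (f x) ∂P) ≤ Real.exp b := by
    rw [h2] at hJ
    exact hJ.trans h4
  exact Real.exp_le_exp.mp h5

/-- Hölder's inequality between the exponents `t < 1 < 2`. -/
theorem fz_holder {Ω : Type*} [MeasurableSpace Ω] {P : Measure Ω} [IsProbabilityMeasure P]
    {f : Ω → ℝ} (hf : Measurable f) (hpos : ∀ x, 0 < f x) {t : ℝ} (ht0 : 0 < t) (ht1 : t < 1)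
    {a b c : ℝ}
    (h1 : ENNReal.ofReal (Real.exp a) ≤ ∫⁻ x, ENNReal.ofReal (f x) ∂P)
    (h2 : ∫⁻ x, ENNReal.ofReal (f x ^ t) ∂P ≤ ENNReal.ofReal (Real.exp b))
    (h3 : ∫⁻ x, ENNReal.ofReal (f x ^ (2 : ℝ)) ∂P ≤ ENNReal.ofReal (Real.exp c)) :
    (2 - t) * a ≤ b + (1 - t) * c := by
  have hp : Real.HolderConjugate (2 - t) ((2 - t) / (1 - t)) := by
    rw [Real.holderConjugate_iff]
    refine ⟨by linarith, ?_⟩
    have : (1 - t) ≠ 0 := by linarith
    have : (2 - t) ≠ 0 := by linarith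
    field_simp
    ring
  have hH := ENNReal.lintegral_mul_le_Lp_mul_Lq P hp
    (f := fun x => ENNReal.ofReal (f x ^ (t / (2 - t))))
    (g := fun x => ENNReal.ofReal (f x ^ (2 * (1 - t) / (2 - t))))
    (by fun_prop) (by fun_prop)
  have e1 : ∀ x, ((fun x => ENNReal.ofReal (f x ^ (t / (2 - t)))) *
      (fun x => ENNReal.ofReal (f x ^ (2 * (1 - t) / (2 - t))))) x = ENNReal.ofReal (f x) := by
    intro x
    simp only [Pi.mul_apply]
    rw [← ENNReal.ofReal_mul (by have := hpos x; positivity), ← Real.rpow_add (hpos x)]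
    have : t / (2 - t) + 2 * (1 - t) / (2 - t) = 1 := by
      have : (2 - t) ≠ 0 := by linarith
      field_simp
      ring
    rw [this, Real.rpow_one]
  have e2 : ∀ x, (ENNReal.ofReal (f x ^ (t / (2 - t)))) ^ (2 - t) =
      ENNReal.ofReal (f x ^ t) := by
    intro x
    rw [ENNReal.ofReal_rpow_of_nonneg (by have := hpos x; positivity) (by linarith),
      ← Real.rpow_mul (hpos x).le]
    congr 2
    have : (2 - t) ≠ 0 := by linarith
    field_simp
  have e3 : ∀ x, (ENNReal.ofReal (f x ^ (2 * (1 - t) / (2 - t)))) ^ ((2 - t) / (1 - t)) =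
      ENNReal.ofReal (f x ^ (2 : ℝ)) := by
    intro x
    have h1t : 0 < 1 - t := by linarith
    have h2t : 0 < 2 - t := by linarith
    rw [ENNReal.ofReal_rpow_of_nonneg (by have := hpos x; positivity) (by positivity),
      ← Real.rpow_mul (hpos x).le]
    congr 2
    field_simp
  simp only [e1, e2, e3] at hH
  have h1t : 0 < 1 - t := by linarith
  have h2t : 0 < 2 - t := by linarith
  have k2 : (∫⁻ x, ENNReal.ofReal (f x ^ t) ∂P) ^ (1 / (2 - t)) ≤
      ENNReal.ofReal (Real.exp (b * (1 / (2 - t)))) := by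
    rw [Real.exp_mul, ← ENNReal.ofReal_rpow_of_nonneg (Real.exp_pos _).le (by positivity)]
    exact ENNReal.rpow_le_rpow h2 (by positivity)
  have k3 : (∫⁻ x, ENNReal.ofReal (f x ^ (2 : ℝ)) ∂P) ^ (1 / ((2 - t) / (1 - t))) ≤
      ENNReal.ofReal (Real.exp (c * (1 / ((2 - t) / (1 - t))))) := by
    rw [Real.exp_mul, ← ENNReal.ofReal_rpow_of_nonneg (Real.exp_pos _).le (by positivity)]
    exact ENNReal.rpow_le_rpow h3 (by positivity)
  have k := (h1.trans hH).trans (mul_le_mul' k2 k3)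
  rw [← ENNReal.ofReal_mul (Real.exp_pos _).le, ← Real.exp_add,
    ENNReal.ofReal_le_ofReal_iff (Real.exp_pos _).le, Real.exp_le_exp] at k
  have k' : (2 - t) * a ≤ (2 - t) * (b * (1 / (2 - t)) + c * (1 / ((2 - t) / (1 - t)))) :=
    mul_le_mul_of_nonneg_left k h2t.le
  refine k'.trans_eq ?_
  field_simp

theorem fixed_z_upper {μ : Measure ℂ} [IsProbabilityMeasure μ] {m : ℝ} (hμ : Law4 μ m)
    {U : Matrix (Fin n) (Fin n) ℝ} {δ η ρ κ ω : ℝ} (hU : Profile U δ) (hδ0 : 0 ≤ δ) (hδ1 : δ ≤ 1)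
    (hη : 0 < η) (hρ0 : 0 < ρ) (hρ1 : ρ ≤ 1) (hκ : κ = 2 * Real.sqrt δ + Real.exp 1 * η)
    (hκ1 : κ ≤ 1) (hω : ω = η + 2 * κ + ρ + 2 * δ / (ρ * κ)) (z : ℂ) :
    ∫⁻ x, ENNReal.ofReal (D η (Amat U z x)) ∂(arr μ n) ≤
      ENNReal.ofReal (Real.exp (n * (psi (‖z‖ ^ 2) + ω))) := by
  have hκ0 : 0 < κ := by rw [hκ]; positivity
  rw [lintegral_D hμ U hU.nonneg z hη]
  refine ENNReal.ofReal_le_ofReal ?_
  have hZ := Z_upper hU hδ1 (p := ‖z‖ ^ 2) (η := η) (by positivity) hη.le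
  rw [← hκ] at hZ
  have hG := G_bound (V := Matrix.of fun i j => U i j ^ 2) (δ := δ) (κ := κ) (ρ := ρ)
    (p := ‖z‖ ^ 2) (fun i j => by simp; positivity) (fun i j => by simpa using hU.small i j)
    (fun i => by simpa using hU.row i) (fun j => by simpa using hU.col j) hδ0 hκ0 hκ1 hρ0 hρ1
    (by positivity)
  simp only [Matrix.of_apply] at hG
  refine hZ.trans ((mul_le_mul_of_nonneg_left hG (by positivity)).trans ?_)
  have h1 : (1 + η) ^ n ≤ Real.exp (n * η) := by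
    rw [Real.exp_nat_mul]
    gcongr
    linarith [Real.add_one_le_exp η]
  refine (mul_le_mul_of_nonneg_right h1 (Real.exp_pos _).le).trans_eq ?_
  rw [← Real.exp_add, hω]
  congr 1
  ring

theorem log_D_integrable {μ : Measure ℂ} [IsProbabilityMeasure μ] {m : ℝ} (hμ : Law4 μ m)
    {U : Matrix (Fin n) (Fin n) ℝ} {δ : ℝ} (hU : Profile U δ) {τ : ℝ} (hτ : 0 < τ) (z : ℂ) :
    Integrable (fun x => Real.log (D τ (Amat U z x))) (arr μ n) := by
  have hI : Integrable (fun x : Fin n → Fin n → ℂ =>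
      (n : ℝ) * |Real.log (τ ^ 2)| + ∑ i, fzPhi τ z (x i)) (arr μ n) := by
    refine (integrable_const _).add (integrable_finsetSum _ fun i _ => ?_)
    have hm : MeasurePreserving (fun x : Fin n → Fin n → ℂ => x i) (arr μ n)
        (Measure.pi fun _ : Fin n => μ) :=
      measurePreserving_eval (fun _ : Fin n => Measure.pi fun _ : Fin n => μ) i
    exact hm.integrable_comp_of_integrable (fzPhi_integrable hμ τ z)
  refine Integrable.mono' hI ?_ ?_
  · exact (Real.measurable_log.comp (fz_D_measurable U z τ)).aestronglyMeasurable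
  · exact Filter.Eventually.of_forall fun x => fz_hlog hU hτ z x

theorem fixed_z_lower {μ : Measure ℂ} [IsProbabilityMeasure μ] {m K α : ℝ} (hμ : Law4 μ m)
    (hK : LawNeg μ K α) (hn : 0 < n)
    {U : Matrix (Fin n) (Fin n) ℝ} {δ η ρ κ ω : ℝ} (hU : Profile U δ) (hδ0 : 0 ≤ δ) (hδ1 : δ ≤ 1)
    (hη : 0 < η) (hρ0 : 0 < ρ) (hρ1 : ρ ≤ 1) (hκ : κ = 2 * Real.sqrt δ + Real.exp 1 * η)
    (hκ1 : κ ≤ 1) (hω : ω = η + 2 * κ + ρ + 2 * δ / (ρ * κ)) (z : ℂ)
    (hV : (8 * (1 + ‖z‖ ^ 2) + 2 * m) * δ / η ^ 4 ≤ 1) {t : ℝ} (ht0 : 0 < t) (ht1 : t < 1)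
    (ht : t * Real.log ((6 * K) ^ (4 / α) * n) ≤ 1) {τ : ℝ} (hτ : 0 < τ) (hτη : τ ≤ η) :
    n * (psi (‖z‖ ^ 2) - (7 * ((8 * (1 + ‖z‖ ^ 2) + 2 * m) * δ / η ^ 4) + 2 * ω +
        2 * (t * Real.log ((6 * K) ^ (4 / α) * n)) ^ 2) / t) ≤
      ∫ x, Real.log (D τ (Amat U z x)) ∂(arr μ n) := by
  set L : ℝ := Real.log ((6 * K) ^ (4 / α) * n) with hL
  set V0 : ℝ := (8 * (1 + ‖z‖ ^ 2) + 2 * m) * δ / η ^ 4 with hV0
  have hm0 : 0 ≤ m := le_trans (integral_nonneg fun x => by positivity) hμ.m4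
  have hV00 : 0 ≤ V0 := by rw [hV0]; positivity
  have hκ0 : 0 < κ := by rw [hκ]; positivity
  have hω0 : 0 ≤ ω := by rw [hω]; positivity
  -- (1) the mean
  have h1 : ENNReal.ofReal (Real.exp (n * psi (‖z‖ ^ 2))) ≤
      ∫⁻ x, ENNReal.ofReal (D τ (Amat U z x)) ∂(arr μ n) := by
    rw [lintegral_D hμ U hU.nonneg z hτ]
    refine ENNReal.ofReal_le_ofReal ((per_lower hU (by positivity)).trans ?_)
    refine F_mono ?_ (fun _ => le_rfl) (fun _ => le_rfl) (fun _ _ => le_rfl)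
      (fun _ => by simp) (fun _ => sq_nonneg τ) _ _
    intro i j
    simp only [Bmat, Matrix.of_apply]
    split_ifs <;> positivity
  -- the mean of the logarithm at scale eta
  have hlogη := log_D_integrable hμ hU hη z
  have hEη : ∫ x, Real.log (D η (Amat U z x)) ∂(arr μ n) ≤ n * (psi (‖z‖ ^ 2) + ω) :=
    fz_jensen (fz_D_measurable U z η) (fun x => D_pos hη _) hlogη
      (fixed_z_upper hμ hU hδ0 hδ1 hη hρ0 hρ1 hκ hκ1 hω z)
  -- (2) the second moment
  have h2 : ∫⁻ x, ENNReal.ofReal (D τ (Amat U z x) ^ (2 : ℝ)) ∂(arr μ n) ≤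
      ENNReal.ofReal (Real.exp (n * (7 * V0) + 2 * (n * (psi (‖z‖ ^ 2) + ω)))) := by
    have hmono : ∫⁻ x, ENNReal.ofReal (D τ (Amat U z x) ^ (2 : ℝ)) ∂(arr μ n) ≤
        ∫⁻ x, ENNReal.ofReal (D η (Amat U z x) ^ (2 : ℝ)) ∂(arr μ n) := by
      refine lintegral_mono fun x => ENNReal.ofReal_le_ofReal ?_
      exact Real.rpow_le_rpow (D_nonneg _ _) (D_mono hτ.le hτη _) (by norm_num)
    refine hmono.trans ?_
    have hT := tensor (Measure.pi fun _ : Fin n => μ)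
      (fun x : Fin n → Fin n → ℂ => D η (Amat U z x)) (fz_D_measurable U z η)
      (fun x => D_pos hη _) (fzPhi η z) (fzPhi_measurable η z) (fzPhi_integrable hμ η z)
      (n * |Real.log (η ^ 2)|) (fun x => fz_hlog hU hη z x) (t := 2) (K := 1 + 7 * V0)
      (by norm_num) (by linarith)
      (fun x i => by
        obtain ⟨g, hg, hr⟩ := fz_ratio (U := U) hη z x i
        simp only [hr]
        exact one_row_two hμ g (U i) z i (hU.nonneg i) (hU.row i) (hU.small i) hη hg hV)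
    refine hT.trans (ENNReal.ofReal_le_ofReal ?_)
    rw [Real.exp_add, Real.exp_nat_mul]
    have hexp : (1 + 7 * V0) ^ n ≤ Real.exp (7 * V0) ^ n := by
      gcongr
      linarith [Real.add_one_le_exp (7 * V0)]
    refine mul_le_mul hexp (Real.exp_le_exp.mpr ?_) (Real.exp_pos _).le (by positivity)
    exact mul_le_mul_of_nonneg_left hEη (by norm_num)
  -- (4) the small exponent
  set E : ℝ := ∫ x, Real.log (D τ (Amat U z x)) ∂(arr μ n) with hE
  have h4 : ∫⁻ x, ENNReal.ofReal (D τ (Amat U z x) ^ t) ∂(arr μ n) ≤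
      ENNReal.ofReal (Real.exp (n * (2 * (t * L) ^ 2) + t * E)) := by
    have hT := tensor (Measure.pi fun _ : Fin n => μ)
      (fun x : Fin n → Fin n → ℂ => D τ (Amat U z x)) (fz_D_measurable U z τ)
      (fun x => D_pos hτ _) (fzPhi τ z) (fzPhi_measurable τ z) (fzPhi_integrable hμ τ z)
      (n * |Real.log (τ ^ 2)|) (fun x => fz_hlog hU hτ z x) (t := t)
      (K := 1 + 2 * (t * L) ^ 2) ht0.le (by nlinarith [sq_nonneg (t * L)])
      (fun x i => by
        obtain ⟨g, hg, hr⟩ := fz_ratio (U := U) hτ z x i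
        simp only [hr]
        exact one_row_small hμ hK hn g (U i) z i ht0.le ht)
    refine hT.trans (ENNReal.ofReal_le_ofReal ?_)
    rw [Real.exp_add, Real.exp_nat_mul]
    have hexp : (1 + 2 * (t * L) ^ 2) ^ n ≤ Real.exp (2 * (t * L) ^ 2) ^ n := by
      gcongr
      linarith [Real.add_one_le_exp (2 * (t * L) ^ 2)]
    exact mul_le_mul_of_nonneg_right hexp (Real.exp_pos _).le
  -- (3) Hölder
  have h3 := fz_holder (fz_D_measurable U z τ) (fun x => D_pos hτ _) ht0 ht1 h1 h4 h2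
  have hn' : (0 : ℝ) < n := by exact_mod_cast hn
  set ψ := psi (‖z‖ ^ 2) with hψ
  have h5 : t * (n * ψ) - n * (2 * (t * L) ^ 2) - n * (7 * V0 + 2 * ω) ≤ t * E := by
    have h6 : 0 ≤ t * (n * (7 * V0 + 2 * ω)) := by positivity
    nlinarith [h3, h6]
  have h7 : n * (ψ - (7 * V0 + 2 * ω + 2 * (t * L) ^ 2) / t) =
      (t * (n * ψ) - n * (2 * (t * L) ^ 2) - n * (7 * V0 + 2 * ω)) / t := by
    field_simp
    ring
  rw [h7, div_le_iff₀ ht0]
  linarith

end Pool.Agent.Circ
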