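import Pool.Agent.Lib.Circ.LinForm

/-!
# Module G2: negative moments (hints in LinForm.lean)
-/

set_option autoImplicit false

open MeasureTheory ProbabilityTheory Filter Matrix Finset

namespace Pool.Agent.Circ

variable {n : ℕ}

/-- Lyapunov's inequality. -/
theorem lfn_lyap {Ω : Type*} [MeasurableSpace Ω] (P : Measure Ω) [IsProbabilityMeasure P]
    {f : Ω → ENNReal} (hf : Measurable f) {θ : ℝ} (h0 : 0 ≤ θ) (h1 : θ ≤ 1) :
    ∫⁻ x, f x ^ θ ∂P ≤ (∫⁻ x, f x ∂P) ^ θ := by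
  have h := ENNReal.lintegral_mul_norm_pow_le (μ := P) hf.aemeasurable
    (g := fun _ => 1) aemeasurable_const h0 (sub_nonneg.2 h1) (by ring)
  simpa using h

theorem lfn_split (c : Fin n → ℂ) (x : Fin n → ℂ) (k : Fin n) (y : ℂ) :
    ∑ j, c j * Function.update x k y j = c k * y + ∑ j ∈ Finset.univ.erase k, c j * x j := by
  rw [← Finset.add_sum_erase _ _ (Finset.mem_univ k), Function.update_self]
  congr 1
  refine Finset.sum_congr rfl fun j hj => ?_
  rw [Function.update_of_ne (Finset.ne_of_mem_erase hj)]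

theorem lfn_alpha {μ : Measure ℂ} [IsProbabilityMeasure μ] {K α : ℝ}
    (hK : LawNeg μ K α) (hn : 0 < n) (c : Fin n → ℂ) (b : ℂ) (hS : 0 < ∑ k, ‖c k‖ ^ 2) :
    ∫⁻ x, ‖∑ k, c k * x k - b‖ₑ ^ (-α) ∂(Measure.pi fun _ : Fin n => μ) ≤
      ENNReal.ofReal (K * ((∑ k, ‖c k‖ ^ 2) / n) ^ (-α / 2)) := by
  have hn' : (0 : ℝ) < n := Nat.cast_pos.2 hn
  obtain ⟨k, hk⟩ : ∃ k, (∑ k, ‖c k‖ ^ 2) / n ≤ ‖c k‖ ^ 2 := by
    by_contra hcon
    push Not at hcon
    have h1 : ∑ k, ‖c k‖ ^ 2 < ∑ _k : Fin n, (∑ k, ‖c k‖ ^ 2) / n := by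
      have : Nonempty (Fin n) := ⟨⟨0, hn⟩⟩
      exact Finset.sum_lt_sum_of_nonempty Finset.univ_nonempty fun k _ => hcon k
    rw [Finset.sum_const, Finset.card_univ, Fintype.card_fin, nsmul_eq_mul] at h1
    have h2 : (n : ℝ) * ((∑ k, ‖c k‖ ^ 2) / n) = ∑ k, ‖c k‖ ^ 2 := by field_simp
    linarith
  have hSn : 0 < (∑ k, ‖c k‖ ^ 2) / n := div_pos hS hn'
  have hck2 : 0 < ‖c k‖ ^ 2 := lt_of_lt_of_le hSn hk
  have hck : 0 < ‖c k‖ := by
    by_contra h
    have : ‖c k‖ = 0 := le_antisymm (not_lt.1 h) (norm_nonneg _)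
    rw [this] at hck2
    norm_num at hck2
  have hc0 : c k ≠ 0 := norm_pos_iff.1 hck
  have hmeas : Measurable fun x : Fin n → ℂ => ‖∑ k, c k * x k - b‖ₑ ^ (-α) := by fun_prop
  have hgoal : ∫⁻ x, ‖∑ k, c k * x k - b‖ₑ ^ (-α) ∂(Measure.pi fun _ : Fin n => μ) ≤
      ∫⁻ _x : Fin n → ℂ, ENNReal.ofReal (K * ((∑ k, ‖c k‖ ^ 2) / n) ^ (-α / 2))
        ∂(Measure.pi fun _ : Fin n => μ) := by
    refine lintegral_le_of_lmarginal_le (μ := fun _ : Fin n => μ) {k} hmeas measurable_const ?_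
    rw [lmarginal_singleton, lmarginal_singleton]
    intro x
    simp only [lintegral_const, measure_univ, mul_one]
    set a : ℂ := (b - ∑ j ∈ Finset.univ.erase k, c j * x j) / c k with ha
    have h1 : ∀ y : ℂ, ‖∑ j, c j * Function.update x k y j - b‖ₑ ^ (-α) =
        ‖c k‖ₑ ^ (-α) * ‖y - a‖ₑ ^ (-α) := by
      intro y
      have : ∑ j, c j * Function.update x k y j - b = c k * (y - a) := by
        rw [lfn_split, ha, mul_sub, mul_div_cancel₀ _ hc0]
        ring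
      rw [this, enorm_mul, ENNReal.mul_rpow_of_ne_top enorm_ne_top enorm_ne_top]
    simp_rw [h1]
    rw [lintegral_const_mul _ (by fun_prop)]
    calc ‖c k‖ₑ ^ (-α) * ∫⁻ y, ‖y - a‖ₑ ^ (-α) ∂μ
        ≤ ‖c k‖ₑ ^ (-α) * ENNReal.ofReal K := by gcongr; exact hK.neg a
      _ = ENNReal.ofReal (‖c k‖ ^ (-α)) * ENNReal.ofReal K := by
          rw [← ENNReal.ofReal_rpow_of_pos hck, ofReal_norm]
      _ = ENNReal.ofReal (K * ‖c k‖ ^ (-α)) := by
          rw [← ENNReal.ofReal_mul (by positivity), mul_comm]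
      _ ≤ _ := by
          apply ENNReal.ofReal_le_ofReal
          have hK0 : 0 ≤ K := by linarith [hK.K1]
          refine mul_le_mul_of_nonneg_left ?_ hK0
          have e : ‖c k‖ ^ (-α) = (‖c k‖ ^ 2) ^ (-α / 2) := by
            rw [← Real.rpow_natCast, ← Real.rpow_mul hck.le]
            congr 1
            push_cast
            ring
          rw [e]
          exact Real.rpow_le_rpow_of_nonpos hSn hk (by linarith [hK.α0])
  refine hgoal.trans ?_
  simp

/-- The square root of the previous bound. -/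
theorem lfn_sqrt {μ : Measure ℂ} [IsProbabilityMeasure μ] {K α : ℝ}
    (hK : LawNeg μ K α) (hn : 0 < n) (c : Fin n → ℂ) (b : ℂ) (hS : 0 < ∑ k, ‖c k‖ ^ 2) :
    (∫⁻ x, ‖∑ k, c k * x k - b‖ₑ ^ (-α) ∂(Measure.pi fun _ : Fin n => μ)) ^ (1 / 2 : ℝ) ≤
      ENNReal.ofReal (K ^ (1 / 2 : ℝ) * (n : ℝ) ^ (α / 4) * (∑ k, ‖c k‖ ^ 2) ^ (-α / 4)) := by
  have hn' : (0 : ℝ) < n := Nat.cast_pos.2 hn
  have hK0 : 0 < K := by linarith [hK.K1]
  calc (∫⁻ x, ‖∑ k, c k * x k - b‖ₑ ^ (-α) ∂(Measure.pi fun _ : Fin n => μ)) ^ (1 / 2 : ℝ)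
      ≤ (ENNReal.ofReal (K * ((∑ k, ‖c k‖ ^ 2) / n) ^ (-α / 2))) ^ (1 / 2 : ℝ) :=
        ENNReal.rpow_le_rpow (lfn_alpha hK hn c b hS) (by norm_num)
    _ = ENNReal.ofReal ((K * ((∑ k, ‖c k‖ ^ 2) / n) ^ (-α / 2)) ^ (1 / 2 : ℝ)) :=
        ENNReal.ofReal_rpow_of_nonneg (by positivity) (by norm_num)
    _ = _ := by
        congr 1
        rw [Real.mul_rpow hK0.le (by positivity), ← Real.rpow_mul (by positivity),
          Real.div_rpow hS.le hn'.le]
        have e1 : -α / 2 * (1 / 2) = -(α / 4) := by ring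
        have e2 : -α / 4 = -(α / 4) := by ring
        rw [e1, e2, Real.rpow_neg hn'.le, mul_assoc]
        congr 1
        field_simp

/-- The bound for the exponent `α / 2`. -/
theorem lfn_half {μ : Measure ℂ} [IsProbabilityMeasure μ] {m K α : ℝ} (hμ : Law4 μ m)
    (hK : LawNeg μ K α) (hn : 0 < n) (c : Fin n → ℂ) (b : ℂ)
    (hs : 0 < ∑ k, ‖c k‖ ^ 2 + ‖b‖ ^ 2) :
    ∫⁻ x, ‖∑ k, c k * x k - b‖ₑ ^ (-(α / 2)) ∂(Measure.pi fun _ : Fin n => μ) ≤
      ENNReal.ofReal (6 * K * (n : ℝ) ^ (α / 4) *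
        (∑ k, ‖c k‖ ^ 2 + ‖b‖ ^ 2) ^ (-(α / 4))) := by
  set S := ∑ k, ‖c k‖ ^ 2 with hSdef
  have hα0 := hK.α0
  have hα1 := hK.α1
  have hS0 : 0 ≤ S := Finset.sum_nonneg fun k _ => by positivity
  have hn' : (1 : ℝ) ≤ n := Nat.one_le_cast.2 hn
  have hK0 : 0 < K := by linarith [hK.K1]
  have hKs : K ^ (1 / 2 : ℝ) ≤ K := by
    calc K ^ (1 / 2 : ℝ) ≤ K ^ (1 : ℝ) :=
          Real.rpow_le_rpow_of_exponent_le hK.K1 (by norm_num)
      _ = K := Real.rpow_one K
  have hna : (1 : ℝ) ≤ (n : ℝ) ^ (α / 4) := Real.one_le_rpow hn' (by linarith)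
  rcases hS0.eq_or_lt with hS | hS
  · -- constant case
    have hc : ∀ k, c k = 0 := by
      intro k
      have h := (Finset.sum_eq_zero_iff_of_nonneg (fun k _ => by positivity)).1 hS.symm k
        (Finset.mem_univ k)
      simpa using h
    have hb : 0 < ‖b‖ ^ 2 := by rw [← hS] at hs; simpa using hs
    have hb' : 0 < ‖b‖ := by
      by_contra h
      have : ‖b‖ = 0 := le_antisymm (not_lt.1 h) (norm_nonneg _)
      rw [this] at hb
      norm_num at hb
    simp only [hc, zero_mul, Finset.sum_const_zero, zero_sub, enorm_neg, lintegral_const,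
      measure_univ, mul_one]
    rw [← ofReal_norm, ENNReal.ofReal_rpow_of_pos hb', ← hS, zero_add]
    apply ENNReal.ofReal_le_ofReal
    have e : (‖b‖ ^ 2) ^ (-(α / 4)) = ‖b‖ ^ (-(α / 2)) := by
      rw [← Real.rpow_natCast, ← Real.rpow_mul hb'.le]
      congr 1
      push_cast
      ring
    rw [e]
    have : 1 ≤ 6 * K * (n : ℝ) ^ (α / 4) := by nlinarith [hK.K1]
    have h3 : 0 < ‖b‖ ^ (-(α / 2)) := Real.rpow_pos_of_pos hb' _
    nlinarith
  · have hsq := lfn_sqrt hK hn c b hS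
    rw [← hSdef] at hsq
    have hm1 : Measurable fun x : Fin n → ℂ => ‖∑ k, c k * x k - b‖ₑ ^ (-α) := by fun_prop
    have hhalf : ∀ x : Fin n → ℂ, ‖∑ k, c k * x k - b‖ₑ ^ (-(α / 2)) =
        (‖∑ k, c k * x k - b‖ₑ ^ (-α)) ^ (1 / 2 : ℝ) := by
      intro x
      rw [← ENNReal.rpow_mul]
      congr 1
      ring
    have e0 : -α / 4 = -(α / 4) := by ring
    rw [e0] at hsq
    by_cases hb : ‖b‖ ^ 2 ≤ 4 * S
    · -- first case
      simp_rw [hhalf]
      refine (lfn_lyap _ hm1 (by norm_num) (by norm_num)).trans (hsq.trans ?_)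
      apply ENNReal.ofReal_le_ofReal
      have h1 : S ^ (-(α / 4)) ≤ 5 * (S + ‖b‖ ^ 2) ^ (-(α / 4)) := by
        have h2 : S ^ (-(α / 4)) ≤ ((S + ‖b‖ ^ 2) / 5) ^ (-(α / 4)) :=
          Real.rpow_le_rpow_of_nonpos (by positivity) (by linarith) (by linarith)
        have h3 : ((S + ‖b‖ ^ 2) / 5) ^ (-(α / 4)) =
            5 ^ (α / 4) * (S + ‖b‖ ^ 2) ^ (-(α / 4)) := by
          rw [Real.div_rpow hs.le (by norm_num), Real.rpow_neg (by norm_num : (0 : ℝ) ≤ 5)]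
          field_simp
        have h4 : (5 : ℝ) ^ (α / 4) ≤ 5 := by
          calc (5 : ℝ) ^ (α / 4) ≤ 5 ^ (1 : ℝ) :=
                Real.rpow_le_rpow_of_exponent_le (by norm_num) (by linarith)
            _ = 5 := Real.rpow_one 5
        rw [h3] at h2
        have h5 : 0 ≤ (S + ‖b‖ ^ 2) ^ (-(α / 4)) := by positivity
        nlinarith
      have h6 : 0 ≤ (S + ‖b‖ ^ 2) ^ (-(α / 4)) := by positivity
      calc K ^ (1 / 2 : ℝ) * (n : ℝ) ^ (α / 4) * S ^ (-(α / 4))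
          ≤ K * (n : ℝ) ^ (α / 4) * (5 * (S + ‖b‖ ^ 2) ^ (-(α / 4))) := by gcongr
        _ ≤ 6 * K * (n : ℝ) ^ (α / 4) * (S + ‖b‖ ^ 2) ^ (-(α / 4)) := by
            have : 0 ≤ K * (n : ℝ) ^ (α / 4) * (S + ‖b‖ ^ 2) ^ (-(α / 4)) := by positivity
            nlinarith
    · -- second case
      push Not at hb
      have hb2 : 0 < ‖b‖ ^ 2 := by linarith
      have hb' : 0 < ‖b‖ := by
        by_contra h
        have : ‖b‖ = 0 := le_antisymm (not_lt.1 h) (norm_nonneg _)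
        rw [this] at hb2
        norm_num at hb2
      have hpt : ∀ x : Fin n → ℂ, ‖∑ k, c k * x k - b‖ₑ ^ (-(α / 2)) ≤
          ENNReal.ofReal ((‖b‖ / 2) ^ (-(α / 2))) + ENNReal.ofReal (2 / ‖b‖) *
            ((‖∑ k, c k * x k - b‖ₑ ^ (-α)) ^ (1 / 2 : ℝ) *
              (‖∑ k, c k * x k‖ₑ ^ 2) ^ (1 / 2 : ℝ)) := by
        intro x
        set T := ∑ k, c k * x k with hT
        by_cases hTb : ‖T‖ ≤ ‖b‖ / 2
        · refine le_add_right ?_
          have h1 : ‖b‖ / 2 ≤ ‖T - b‖ := by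
            have := norm_sub_norm_le b T
            rw [norm_sub_rev] at this
            linarith
          have h2 : 0 < ‖T - b‖ := by linarith
          rw [← ofReal_norm, ENNReal.ofReal_rpow_of_pos h2]
          exact ENNReal.ofReal_le_ofReal
            (Real.rpow_le_rpow_of_nonpos (by positivity) h1 (by linarith))
        · refine le_add_left ?_
          push Not at hTb
          have h1 : (‖T‖ₑ ^ 2) ^ (1 / 2 : ℝ) = ‖T‖ₑ := by
            rw [← ENNReal.rpow_natCast, ← ENNReal.rpow_mul]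
            norm_num
          rw [h1, ← ENNReal.rpow_mul]
          have h2 : -α * (1 / 2) = -(α / 2) := by ring
          rw [h2, mul_left_comm]
          have h3 : 1 ≤ ENNReal.ofReal (2 / ‖b‖) * ‖T‖ₑ := by
            rw [← ofReal_norm, ← ENNReal.ofReal_mul (by positivity), ← ENNReal.ofReal_one]
            apply ENNReal.ofReal_le_ofReal
            rw [div_mul_eq_mul_div, le_div_iff₀ hb']
            linarith
          calc ‖T - b‖ₑ ^ (-(α / 2)) = ‖T - b‖ₑ ^ (-(α / 2)) * 1 := (mul_one _).symm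
            _ ≤ _ := by gcongr
      have hT2 : ∫⁻ x, ‖∑ k, c k * x k‖ₑ ^ 2 ∂(Measure.pi fun _ : Fin n => μ) =
          ENNReal.ofReal S := by
        have := lf_sq hμ c 0
        simp only [sub_zero, norm_zero] at this
        rw [hSdef]
        have e : (∑ k, ‖c k‖ ^ 2 + 0 ^ 2 : ℝ) = ∑ k, ‖c k‖ ^ 2 := by norm_num
        rw [e] at this
        rw [← this]
        refine lintegral_congr fun x => ?_
        rw [ENNReal.ofReal_pow (norm_nonneg _), ofReal_norm]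
      have hm2 : Measurable fun x : Fin n → ℂ => ‖∑ k, c k * x k‖ₑ ^ 2 := by fun_prop
      calc ∫⁻ x, ‖∑ k, c k * x k - b‖ₑ ^ (-(α / 2)) ∂(Measure.pi fun _ : Fin n => μ)
          ≤ ∫⁻ x, (ENNReal.ofReal ((‖b‖ / 2) ^ (-(α / 2))) + ENNReal.ofReal (2 / ‖b‖) *
            ((‖∑ k, c k * x k - b‖ₑ ^ (-α)) ^ (1 / 2 : ℝ) *
              (‖∑ k, c k * x k‖ₑ ^ 2) ^ (1 / 2 : ℝ))) ∂(Measure.pi fun _ : Fin n => μ) :=
            lintegral_mono hpt
        _ = ENNReal.ofReal ((‖b‖ / 2) ^ (-(α / 2))) + ENNReal.ofReal (2 / ‖b‖) *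
            ∫⁻ x, ((‖∑ k, c k * x k - b‖ₑ ^ (-α)) ^ (1 / 2 : ℝ) *
              (‖∑ k, c k * x k‖ₑ ^ 2) ^ (1 / 2 : ℝ)) ∂(Measure.pi fun _ : Fin n => μ) := by
            rw [lintegral_add_left measurable_const, lintegral_const, measure_univ, mul_one,
              lintegral_const_mul _ (by fun_prop)]
        _ ≤ ENNReal.ofReal ((‖b‖ / 2) ^ (-(α / 2))) + ENNReal.ofReal (2 / ‖b‖) *
            ((∫⁻ x, ‖∑ k, c k * x k - b‖ₑ ^ (-α) ∂(Measure.pi fun _ : Fin n => μ)) ^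
                (1 / 2 : ℝ) *
              (∫⁻ x, ‖∑ k, c k * x k‖ₑ ^ 2 ∂(Measure.pi fun _ : Fin n => μ)) ^
                (1 / 2 : ℝ)) := by
            gcongr
            exact ENNReal.lintegral_mul_norm_pow_le hm1.aemeasurable hm2.aemeasurable
              (by norm_num) (by norm_num) (by norm_num)
        _ ≤ ENNReal.ofReal ((‖b‖ / 2) ^ (-(α / 2))) + ENNReal.ofReal (2 / ‖b‖) *
            (ENNReal.ofReal (K ^ (1 / 2 : ℝ) * (n : ℝ) ^ (α / 4) * S ^ (-(α / 4))) *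
              ENNReal.ofReal (S ^ (1 / 2 : ℝ))) := by
            rw [hT2, ENNReal.ofReal_rpow_of_nonneg hS0 (by norm_num)]
            gcongr
        _ = ENNReal.ofReal ((‖b‖ / 2) ^ (-(α / 2)) + (2 / ‖b‖) *
            ((K ^ (1 / 2 : ℝ) * (n : ℝ) ^ (α / 4) * S ^ (-(α / 4))) * S ^ (1 / 2 : ℝ))) := by
            rw [← ENNReal.ofReal_mul (by positivity), ← ENNReal.ofReal_mul (by positivity),
              ← ENNReal.ofReal_add (by positivity) (by positivity)]
        _ ≤ _ := by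
            apply ENNReal.ofReal_le_ofReal
            have hB4 : (‖b‖ / 2) ^ (-(α / 2)) = (‖b‖ ^ 2 / 4) ^ (-(α / 4)) := by
              have e : ‖b‖ ^ 2 / 4 = (‖b‖ / 2) ^ 2 := by ring
              rw [e, ← Real.rpow_natCast, ← Real.rpow_mul (by positivity)]
              congr 1
              push_cast
              ring
            have h5 : (‖b‖ ^ 2 / 4) ^ (-(α / 4)) ≤ 3 * (S + ‖b‖ ^ 2) ^ (-(α / 4)) := by
              have h2 : (‖b‖ ^ 2 / 4) ^ (-(α / 4)) ≤ ((S + ‖b‖ ^ 2) / 5) ^ (-(α / 4)) :=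
                Real.rpow_le_rpow_of_nonpos (by positivity) (by linarith) (by linarith)
              have h3 : ((S + ‖b‖ ^ 2) / 5) ^ (-(α / 4)) =
                  5 ^ (α / 4) * (S + ‖b‖ ^ 2) ^ (-(α / 4)) := by
                rw [Real.div_rpow hs.le (by norm_num), Real.rpow_neg (by norm_num : (0 : ℝ) ≤ 5)]
                field_simp
              have h4 : (5 : ℝ) ^ (α / 4) ≤ 3 := by
                calc (5 : ℝ) ^ (α / 4) ≤ 5 ^ (1 / 2 : ℝ) :=
                      Real.rpow_le_rpow_of_exponent_le (by norm_num) (by linarith)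
                  _ = Real.sqrt 5 := (Real.sqrt_eq_rpow 5).symm
                  _ ≤ 3 := by
                      rw [Real.sqrt_le_left (by norm_num)]
                      norm_num
              rw [h3] at h2
              have h5 : 0 ≤ (S + ‖b‖ ^ 2) ^ (-(α / 4)) := by positivity
              nlinarith
            have h6 : (2 / ‖b‖) * (S ^ (-(α / 4)) * S ^ (1 / 2 : ℝ)) ≤
                (‖b‖ / 2) ^ (-(α / 2)) := by
              rw [← Real.rpow_add hS]
              have h7 : S ^ (-(α / 4) + 1 / 2) ≤ ((‖b‖ / 2) ^ 2) ^ (-(α / 4) + 1 / 2) :=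
                Real.rpow_le_rpow hS0 (by nlinarith) (by linarith)
              have h8 : ((‖b‖ / 2) ^ 2) ^ (-(α / 4) + 1 / 2) =
                  (‖b‖ / 2) * (‖b‖ / 2) ^ (-(α / 2)) := by
                rw [← Real.rpow_natCast, ← Real.rpow_mul (by positivity)]
                nth_rewrite 2 [← Real.rpow_one (‖b‖ / 2)]
                rw [← Real.rpow_add (by positivity)]
                congr 1
                push_cast
                ring
              rw [h8] at h7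
              calc (2 / ‖b‖) * S ^ (-(α / 4) + 1 / 2)
                  ≤ (2 / ‖b‖) * ((‖b‖ / 2) * (‖b‖ / 2) ^ (-(α / 2))) := by gcongr
                _ = (‖b‖ / 2) ^ (-(α / 2)) := by field_simp
            have h9 : 0 ≤ (‖b‖ / 2) ^ (-(α / 2)) := by positivity
            have hKn : 1 ≤ K * (n : ℝ) ^ (α / 4) := by nlinarith [hK.K1]
            calc (‖b‖ / 2) ^ (-(α / 2)) + (2 / ‖b‖) *
                  ((K ^ (1 / 2 : ℝ) * (n : ℝ) ^ (α / 4) * S ^ (-(α / 4))) * S ^ (1 / 2 : ℝ))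
                = (‖b‖ / 2) ^ (-(α / 2)) + (K ^ (1 / 2 : ℝ) * (n : ℝ) ^ (α / 4)) *
                  ((2 / ‖b‖) * (S ^ (-(α / 4)) * S ^ (1 / 2 : ℝ))) := by ring
              _ ≤ (K * (n : ℝ) ^ (α / 4)) * (‖b‖ / 2) ^ (-(α / 2)) +
                  (K * (n : ℝ) ^ (α / 4)) * (‖b‖ / 2) ^ (-(α / 2)) := by
                  refine add_le_add (by nlinarith) ?_
                  refine mul_le_mul ?_ h6 (by positivity) (by positivity)
                  exact mul_le_mul_of_nonneg_right hKs (by positivity)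
              _ = 2 * (K * (n : ℝ) ^ (α / 4)) * (‖b‖ ^ 2 / 4) ^ (-(α / 4)) := by rw [hB4]; ring
              _ ≤ 2 * (K * (n : ℝ) ^ (α / 4)) * (3 * (S + ‖b‖ ^ 2) ^ (-(α / 4))) := by gcongr
              _ = _ := by ring

/-- Small negative moments of an affine form. -/
theorem lf_neg {μ : Measure ℂ} [IsProbabilityMeasure μ] {m K α : ℝ} (hμ : Law4 μ m)
    (hK : LawNeg μ K α) (hn : 0 < n) (c : Fin n → ℂ) (b : ℂ) {s2 : ℝ} (hs : 0 < s2)
    (hs2 : s2 = ∑ k, ‖c k‖ ^ 2 + ‖b‖ ^ 2) {β : ℝ} (hβ0 : 0 ≤ β) (hβ : β ≤ α / 4) :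
    ∫⁻ x, ‖∑ k, c k * x k - b‖ₑ ^ (-2 * β) ∂(Measure.pi fun _ : Fin n => μ) ≤
      ENNReal.ofReal (((6 * K) ^ (4 / α) * n) ^ β * s2 ^ (-β)) := by
  have hα0 := hK.α0
  have hα1 := hK.α1
  have hK0 : 0 < K := by linarith [hK.K1]
  have hn' : (0 : ℝ) < n := Nat.cast_pos.2 hn
  set θ : ℝ := 4 * β / α with hθ
  have hθ0 : 0 ≤ θ := by positivity
  have hθ1 : θ ≤ 1 := by
    rw [hθ, div_le_one hα0]
    linarith
  have h1 : ∀ x : Fin n → ℂ, ‖∑ k, c k * x k - b‖ₑ ^ (-2 * β) =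
      (‖∑ k, c k * x k - b‖ₑ ^ (-(α / 2))) ^ θ := by
    intro x
    rw [← ENNReal.rpow_mul, hθ]
    congr 1
    field_simp
    ring
  simp_rw [h1]
  refine (lfn_lyap _ (by fun_prop) hθ0 hθ1).trans ?_
  refine (ENNReal.rpow_le_rpow (lfn_half hμ hK hn c b (hs2 ▸ hs)) hθ0).trans ?_
  rw [← hs2, ENNReal.ofReal_rpow_of_nonneg (by positivity) hθ0]
  apply ENNReal.ofReal_le_ofReal
  apply le_of_eq
  have e1 : θ = 4 / α * β := by rw [hθ]; ring
  have e2 : α / 4 * θ = β := by rw [hθ]; field_simp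
  have e3 : -(α / 4) * θ = -β := by rw [neg_mul, e2]
  have hL : 0 ≤ 6 * K := by positivity
  generalize 6 * K = L at hL ⊢
  rw [Real.mul_rpow (by positivity) (by positivity), Real.mul_rpow hL (by positivity),
    Real.mul_rpow (by positivity) (by positivity), ← Real.rpow_mul (by positivity),
    ← Real.rpow_mul (by positivity), ← Real.rpow_mul hL, e2, e3, ← e1]

end Pool.Agent.Circ
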