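import Pool.Agent.Lib.Circ.Defs

/-!
# Module P1: law of the array; negative moments from the small ball bound
-/

set_option autoImplicit false

open MeasureTheory ProbabilityTheory Filter Matrix Finset

namespace Pool.Agent.Circ

variable {n : ℕ}

/-- The law of the first `n × n` block of an i.i.d. array. -/
theorem map_arr {Ω : Type} [MeasurableSpace Ω] (P : Measure Ω) [IsProbabilityMeasure P]
    (X : ℕ × ℕ → Ω → ℂ) (hX : ∀ p, Measurable (X p)) (hind : iIndepFun X P)
    (hid : ∀ p, IdentDistrib (X p) (X (0, 0)) P P) (n : ℕ) :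
    Measure.map (fun ω => fun i j : Fin n => X (i.val, j.val) ω) P =
      arr (Measure.map (X (0, 0)) P) n := by
  have : IsProbabilityMeasure (Measure.map (X (0, 0)) P) :=
    Measure.isProbabilityMeasure_map (hX _).aemeasurable
  have hinj : Function.Injective fun p : Fin n × Fin n => ((p.1.val, p.2.val) : ℕ × ℕ) := by
    intro p q h
    simp only [Prod.mk.injEq] at h
    exact Prod.ext (Fin.ext h.1) (Fin.ext h.2)
  have h1 := (hind.precomp hinj).map_fun_eq_pi_map (fun p => (hX _).aemeasurable)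
  have h2 : Measure.map (fun ω (p : Fin n × Fin n) => X (p.1.val, p.2.val) ω) P =
      Measure.pi fun _ : Fin n × Fin n => Measure.map (X (0, 0)) P := by
    refine h1.trans ?_
    congr 1
    funext p
    exact (hid _).map_eq
  have h3 : (fun ω => fun i j : Fin n => X (i.val, j.val) ω) =
      (MeasurableEquiv.curry (Fin n) (Fin n) ℂ) ∘
        fun ω (p : Fin n × Fin n) => X (p.1.val, p.2.val) ω := by
    funext ω
    rfl
  have h4 : Measurable fun ω (p : Fin n × Fin n) => X (p.1.val, p.2.val) ω :=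
    measurable_pi_lambda _ fun p => hX _
  rw [h3, ← Measure.map_map (MeasurableEquiv.measurable _) h4, h2,
    ← Measure.infinitePi_eq_pi, Measure.infinitePi_map_curry
      (μ := fun _ _ : Fin n => Measure.map (X (0, 0)) P)]
  unfold arr
  rw [Measure.infinitePi_eq_pi]
  congr 1
  funext i
  rw [Measure.infinitePi_eq_pi]

/-- A small ball bound gives a bounded negative moment. -/
theorem lawNeg_of_smallBall (μ : Measure ℂ) [IsProbabilityMeasure μ] {K β : ℝ} (hβ : 0 < β)
    (h : ∀ (a : ℂ) (t : ℝ), 0 < t → μ (Metric.closedBall a t) ≤ ENNReal.ofReal (K * t ^ β)) :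
    ∃ K' α : ℝ, LawNeg μ K' α := by
  set α : ℝ := min (β / 2) (1 / 2) with hα
  have hα0 : 0 < α := lt_min (by linarith) (by norm_num)
  have hαβ : α < β := lt_of_le_of_lt (min_le_left _ _) (by linarith)
  have hα1 : α ≤ 1 := (min_le_right _ _).trans (by norm_num)
  set r : ℝ := 2 ^ (α - β) with hr
  have hr0 : 0 < r := Real.rpow_pos_of_pos (by norm_num) _
  have hr1 : r < 1 := Real.rpow_lt_one_of_one_lt_of_neg (by norm_num) (by linarith)
  have hsum : Summable fun k : ℕ => |K| * 2 ^ α * r ^ k :=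
    (summable_geometric_of_lt_one hr0.le hr1).mul_left _
  set S : ℝ := ∑' k : ℕ, |K| * 2 ^ α * r ^ k with hS
  have hS0 : 0 ≤ S := tsum_nonneg fun k => by positivity
  refine ⟨1 + S, α, by linarith, hα0, hα1, fun a => ?_⟩
  -- the centre has measure zero
  have hpt : μ {a} = 0 := by
    by_contra hne
    have h1 : ∀ t : ℝ, 0 < t → μ {a} ≤ ENNReal.ofReal (K * t ^ β) := fun t ht =>
      (measure_mono (by simpa using ht.le)).trans (h a t ht)
    have h2 : Tendsto (fun t : ℝ => ENNReal.ofReal (K * t ^ β)) (nhdsWithin 0 (Set.Ioi 0))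
        (nhds 0) := by
      have h3 : Tendsto (fun t : ℝ => K * t ^ β) (nhds 0) (nhds (K * 0 ^ β)) :=
        (((Real.continuous_rpow_const hβ.le).tendsto 0)).const_mul K
      rw [Real.zero_rpow hβ.ne', mul_zero] at h3
      have h4 := (ENNReal.continuous_ofReal.tendsto 0).comp h3
      rw [ENNReal.ofReal_zero] at h4
      exact h4.mono_left nhdsWithin_le_nhds
    have h5 : μ {a} ≤ 0 := ge_of_tendsto h2
      (by filter_upwards [self_mem_nhdsWithin] with t ht using h1 t ht)
    exact hne (le_antisymm h5 bot_le)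
  have hae : ∀ᵐ x ∂μ, x ≠ a := by
    rw [ae_iff]
    simpa using hpt
  -- pointwise bound
  have hpw : ∀ x : ℂ, x ≠ a → ‖x - a‖ₑ ^ (-α) ≤ 1 + ∑' k : ℕ,
      (Metric.closedBall a ((1 / 2 : ℝ) ^ k)).indicator
        (fun _ => ENNReal.ofReal (2 ^ (((k : ℝ) + 1) * α))) x := by
    intro x hx
    have hpos : 0 < ‖x - a‖ := norm_pos_iff.2 (sub_ne_zero.2 hx)
    have hval : ‖x - a‖ₑ ^ (-α) = ENNReal.ofReal (‖x - a‖ ^ (-α)) := by
      rw [← ofReal_norm, ENNReal.ofReal_rpow_of_pos hpos]
    rw [hval]
    by_cases h1 : 1 ≤ ‖x - a‖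
    · refine le_trans ?_ (le_add_right le_rfl)
      rw [← ENNReal.ofReal_one]
      exact ENNReal.ofReal_le_ofReal (Real.rpow_le_one_of_one_le_of_nonpos h1 (by linarith))
    · push Not at h1
      obtain ⟨k, hk1, hk2⟩ := exists_nat_pow_near_of_lt_one hpos h1.le
        (by norm_num : (0 : ℝ) < 1 / 2) (by norm_num : (1 / 2 : ℝ) < 1)
      refine le_trans ?_ (le_add_left (ENNReal.le_tsum k))
      rw [Set.indicator_of_mem (by rw [Metric.mem_closedBall, dist_eq_norm]; exact hk2)]
      apply ENNReal.ofReal_le_ofReal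
      have e1 : (2 : ℝ) ^ (((k : ℝ) + 1) * α) = ((1 / 2 : ℝ) ^ (k + 1)) ^ (-α) := by
        rw [← Real.rpow_natCast, ← Real.rpow_mul (by norm_num), one_div,
          Real.inv_rpow (by norm_num), ← Real.rpow_neg (by norm_num)]
        push_cast
        ring_nf
      rw [e1]
      exact Real.rpow_le_rpow_of_nonpos (by positivity) hk1.le (by linarith)
  calc ∫⁻ x, ‖x - a‖ₑ ^ (-α) ∂μ
      ≤ ∫⁻ x, (1 + ∑' k : ℕ, (Metric.closedBall a ((1 / 2 : ℝ) ^ k)).indicator
        (fun _ => ENNReal.ofReal (2 ^ (((k : ℝ) + 1) * α))) x) ∂μ :=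
        lintegral_mono_ae (hae.mono hpw)
    _ = 1 + ∑' k : ℕ, ENNReal.ofReal (2 ^ (((k : ℝ) + 1) * α)) *
          μ (Metric.closedBall a ((1 / 2 : ℝ) ^ k)) := by
        rw [lintegral_add_left measurable_const, lintegral_tsum]
        · simp only [lintegral_const, measure_univ, mul_one]
          congr 1
          refine tsum_congr fun k => ?_
          rw [lintegral_indicator_const Metric.isClosed_closedBall.measurableSet]
        · intro k
          exact (measurable_const.indicator Metric.isClosed_closedBall.measurableSet).aemeasurable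
    _ ≤ 1 + ∑' k : ℕ, ENNReal.ofReal (|K| * 2 ^ α * r ^ k) := by
        gcongr with k
        refine (mul_le_mul_right (h a _ (by positivity)) _).trans ?_
        rw [← ENNReal.ofReal_mul (by positivity)]
        apply ENNReal.ofReal_le_ofReal
        have e2 : (2 : ℝ) ^ (((k : ℝ) + 1) * α) * ((1 / 2 : ℝ) ^ k) ^ β = 2 ^ α * r ^ k := by
          rw [hr, ← Real.rpow_natCast, ← Real.rpow_natCast, ← Real.rpow_mul (by norm_num),
            ← Real.rpow_mul (by norm_num), one_div, Real.inv_rpow (by norm_num),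
            ← Real.rpow_neg (by norm_num), ← Real.rpow_add (by norm_num),
            ← Real.rpow_add (by norm_num)]
          ring_nf
        calc (2 : ℝ) ^ (((k : ℝ) + 1) * α) * (K * ((1 / 2 : ℝ) ^ k) ^ β)
            = K * (2 ^ (((k : ℝ) + 1) * α) * ((1 / 2 : ℝ) ^ k) ^ β) := by ring
          _ = K * (2 ^ α * r ^ k) := by rw [e2]
          _ ≤ |K| * (2 ^ α * r ^ k) :=
            mul_le_mul_of_nonneg_right (le_abs_self K) (by positivity)
          _ = |K| * 2 ^ α * r ^ k := by ring
    _ = ENNReal.ofReal (1 + S) := by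
        rw [ENNReal.ofReal_add zero_le_one hS0, ENNReal.ofReal_one, hS,
          ENNReal.ofReal_tsum_of_nonneg (fun k => by positivity) hsum]

end Pool.Agent.Circ
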