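import Pool.Agent.Lib.Circ.Defs

/-!
# Module A: matching polynomials

`F B r c R C` is the sum over matchings `M` between the rows `R` and the columns `C`.
Deleting a row `i` is `R.erase i`, deleting a column `j` is `C.erase j`.

Hints. First prove everything for `FL` (lists of rows without duplicates), the key fact being
invariance under `List.Perm` (swap of the first two rows), then transfer via `Finset.toList`.
`F_col` by induction on the list. `F_corr` by induction on `R.card + C.card`, jointly with the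
same-side inequality (II): for columns `j ≠ j'` in `C`:
`F R C * F R (C\j\j') ≤ F R (C\j) * F R (C\j')`; (I) for (row i, column j): expand
`F R C` and `F R (C\j)` at row `i`:
`F·F_{ij} - F_i·F_j = B i j F_{ij}² + Σ_{j'≠j} B i j' (H_{j'} H_j - H H_{jj'})`, `H = F (R\i)`;
(II): expand `F R C` and `F R (C\j')` at column `j`:
`F_{j}F_{j'} - F F_{jj'} = Σ_{i'} B i' j (K K_{i'j'} - K_{i'} K_{j'})`, `K = F R (C\j)` and
`K_{i'} = F (R\i') (C\j)`, which is (I) for `R, C\j`.
-/

set_option autoImplicit false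

open MeasureTheory ProbabilityTheory Filter Matrix Finset

namespace Pool.Agent.Circ

variable {n : ℕ}

/-! ### lists of rows -/

theorem mp_FL_nil (B : Matrix (Fin n) (Fin n) ℝ) (r c : Fin n → ℝ) (C : Finset (Fin n)) :
    FL B r c [] C = ∏ j ∈ C, c j := rfl

theorem mp_FL_cons (B : Matrix (Fin n) (Fin n) ℝ) (r c : Fin n → ℝ) (i : Fin n)
    (l : List (Fin n)) (C : Finset (Fin n)) :
    FL B r c (i :: l) C = r i * FL B r c l C + ∑ j ∈ C, B i j * FL B r c l (C.erase j) := rfl

/-- symmetric double sums over ordered pairs of distinct columns -/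
theorem mp_sum_pairs (C : Finset (Fin n)) (f : Fin n → Fin n → ℝ) :
    ∑ j ∈ C, ∑ j' ∈ C.erase j, f j j' = ∑ j ∈ C, ∑ j' ∈ C.erase j, f j' j := by
  rw [Finset.sum_comm' (t' := C) (s' := fun j' => C.erase j')]
  intro x y
  simp only [Finset.mem_erase]
  constructor
  · rintro ⟨h1, h2, h3⟩
    exact ⟨⟨fun h => h2 h.symm, h1⟩, h3⟩
  · rintro ⟨⟨h1, h2⟩, h3⟩
    exact ⟨h2, fun h => h1 h.symm, h3⟩

theorem mp_FL_swap (B : Matrix (Fin n) (Fin n) ℝ) (r c : Fin n → ℝ) (i i' : Fin n)
    (l : List (Fin n)) (C : Finset (Fin n)) :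
    FL B r c (i :: i' :: l) C = FL B r c (i' :: i :: l) C := by
  simp only [mp_FL_cons]
  have e : ∀ (a b : Fin n), r a * (r b * FL B r c l C + ∑ j ∈ C, B b j * FL B r c l (C.erase j)) +
      ∑ j ∈ C, B a j * (r b * FL B r c l (C.erase j) +
        ∑ j' ∈ C.erase j, B b j' * FL B r c l ((C.erase j).erase j')) =
      r a * r b * FL B r c l C + r a * ∑ j ∈ C, B b j * FL B r c l (C.erase j)
        + r b * ∑ j ∈ C, B a j * FL B r c l (C.erase j)
        + ∑ j ∈ C, ∑ j' ∈ C.erase j, B a j * B b j' * FL B r c l ((C.erase j).erase j') := by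
    intro a b
    have h1 : ∑ j ∈ C, B a j * (r b * FL B r c l (C.erase j) +
        ∑ j' ∈ C.erase j, B b j' * FL B r c l ((C.erase j).erase j')) =
        r b * ∑ j ∈ C, B a j * FL B r c l (C.erase j)
        + ∑ j ∈ C, ∑ j' ∈ C.erase j, B a j * B b j' * FL B r c l ((C.erase j).erase j') := by
      rw [Finset.mul_sum, ← Finset.sum_add_distrib]
      apply Finset.sum_congr rfl
      intro j _
      rw [mul_add, Finset.mul_sum]
      congr 1
      · ring
      · apply Finset.sum_congr rfl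
        intro j' _
        ring
    rw [h1]
    ring
  rw [e i i', e i' i]
  have h := mp_sum_pairs C (fun j j' => B i j * B i' j' * FL B r c l ((C.erase j).erase j'))
  rw [h]
  have h2 : ∑ j ∈ C, ∑ j' ∈ C.erase j, B i j' * B i' j * FL B r c l ((C.erase j').erase j)
      = ∑ j ∈ C, ∑ j' ∈ C.erase j, B i' j * B i j' * FL B r c l ((C.erase j).erase j') := by
    apply Finset.sum_congr rfl
    intro j _
    apply Finset.sum_congr rfl
    intro j' _
    rw [Finset.erase_right_comm]
    ring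
  rw [h2]
  ring

theorem mp_FL_perm (B : Matrix (Fin n) (Fin n) ℝ) (r c : Fin n → ℝ) {l l' : List (Fin n)}
    (h : l.Perm l') : ∀ C : Finset (Fin n), FL B r c l C = FL B r c l' C := by
  induction h with
  | nil => intro C; rfl
  | cons i _ ih =>
    intro C
    simp only [mp_FL_cons]
    rw [ih]
    congr 1
    apply Finset.sum_congr rfl
    intro j _
    rw [ih]
  | swap i i' l => intro C; exact mp_FL_swap B r c i' i l C
  | trans _ _ ih1 ih2 => intro C; rw [ih1, ih2]

theorem mp_FL_nonneg {B : Matrix (Fin n) (Fin n) ℝ} {r c : Fin n → ℝ} (hB : ∀ i j, 0 ≤ B i j)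
    (hr : ∀ i, 0 ≤ r i) (hc : ∀ j, 0 ≤ c j) (l : List (Fin n)) :
    ∀ C : Finset (Fin n), 0 ≤ FL B r c l C := by
  induction l with
  | nil => intro C; exact Finset.prod_nonneg fun j _ => hc j
  | cons i l ih =>
    intro C
    rw [mp_FL_cons]
    exact add_nonneg (mul_nonneg (hr i) (ih C))
      (Finset.sum_nonneg fun j _ => mul_nonneg (hB i j) (ih _))

theorem mp_FL_congr {B B' : Matrix (Fin n) (Fin n) ℝ} {r r' c c' : Fin n → ℝ}
    (l : List (Fin n)) : ∀ C : Finset (Fin n), (∀ i ∈ l, ∀ j ∈ C, B i j = B' i j) →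
    (∀ i ∈ l, r i = r' i) → (∀ j ∈ C, c j = c' j) → FL B r c l C = FL B' r' c' l C := by
  induction l with
  | nil => intro C _ _ hc; exact Finset.prod_congr rfl hc
  | cons i l ih =>
    intro C hB hr hc
    rw [mp_FL_cons, mp_FL_cons]
    rw [hr i (List.mem_cons_self ..),
      ih C (fun i' hi' => hB i' (List.mem_cons_of_mem _ hi'))
        (fun i' hi' => hr i' (List.mem_cons_of_mem _ hi')) hc]
    congr 1
    apply Finset.sum_congr rfl
    intro j hj
    rw [hB i (List.mem_cons_self ..) j hj,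
      ih (C.erase j) (fun i' hi' j' hj' => hB i' (List.mem_cons_of_mem _ hi') j'
          (Finset.mem_of_mem_erase hj'))
        (fun i' hi' => hr i' (List.mem_cons_of_mem _ hi'))
        (fun j' hj' => hc j' (Finset.mem_of_mem_erase hj'))]

theorem mp_FL_mono {B B' : Matrix (Fin n) (Fin n) ℝ} {r r' c c' : Fin n → ℝ}
    (hB0 : ∀ i j, 0 ≤ B i j) (hr0 : ∀ i, 0 ≤ r i) (hc0 : ∀ j, 0 ≤ c j)
    (hB : ∀ i j, B i j ≤ B' i j) (hr : ∀ i, r i ≤ r' i)
    (hc : ∀ j, c j ≤ c' j) (l : List (Fin n)) :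
    ∀ C : Finset (Fin n), FL B r c l C ≤ FL B' r' c' l C := by
  induction l with
  | nil => intro C; exact Finset.prod_le_prod (fun j _ => hc0 j) fun j _ => hc j
  | cons i l ih =>
    intro C
    rw [mp_FL_cons, mp_FL_cons]
    exact add_le_add (mul_le_mul (hr i) (ih C) (mp_FL_nonneg hB0 hr0 hc0 l C)
      ((hr0 i).trans (hr i)))
      (Finset.sum_le_sum fun j _ => mul_le_mul (hB i j) (ih _) (mp_FL_nonneg hB0 hr0 hc0 l _)
        ((hB0 i j).trans (hB i j)))

/-! ### finite sets of rows -/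

theorem F_empty (B : Matrix (Fin n) (Fin n) ℝ) (r c : Fin n → ℝ) (C : Finset (Fin n)) :
    F B r c ∅ C = ∏ j ∈ C, c j := by
  unfold F
  rw [Finset.toList_empty]
  rfl

theorem mp_F_insert (B : Matrix (Fin n) (Fin n) ℝ) (r c : Fin n → ℝ) {R : Finset (Fin n)}
    (C : Finset (Fin n)) {i : Fin n} (hi : i ∉ R) :
    F B r c (insert i R) C = r i * F B r c R C +
      ∑ j ∈ C, B i j * F B r c R (C.erase j) := by
  unfold F
  rw [mp_FL_perm B r c (Finset.toList_insert hi) C, mp_FL_cons]

theorem F_row (B : Matrix (Fin n) (Fin n) ℝ) (r c : Fin n → ℝ) {R : Finset (Fin n)}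
    (C : Finset (Fin n)) {i : Fin n} (hi : i ∈ R) :
    F B r c R C = r i * F B r c (R.erase i) C +
      ∑ j ∈ C, B i j * F B r c (R.erase i) (C.erase j) := by
  conv_lhs => rw [← Finset.insert_erase hi]
  exact mp_F_insert B r c C (Finset.notMem_erase i R)

theorem F_col (B : Matrix (Fin n) (Fin n) ℝ) (r c : Fin n → ℝ) (R : Finset (Fin n))
    {C : Finset (Fin n)} {j : Fin n} (hj : j ∈ C) :
    F B r c R C = c j * F B r c R (C.erase j) +
      ∑ i ∈ R, B i j * F B r c (R.erase i) (C.erase j) := by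
  induction R using Finset.induction_on generalizing C with
  | empty =>
    rw [F_empty, F_empty, Finset.sum_empty, add_zero, Finset.mul_prod_erase _ _ hj]
  | insert i R hi ih =>
    rw [mp_F_insert B r c C hi, mp_F_insert B r c (C.erase j) hi, Finset.sum_insert hi,
      Finset.erase_insert hi]
    -- expand the sum over the columns at `j`
    rw [← Finset.add_sum_erase C _ hj]
    have h1 : ∀ j' ∈ C.erase j, B i j' * F B r c R (C.erase j') =
        c j * (B i j' * F B r c R ((C.erase j).erase j')) +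
          ∑ i' ∈ R, B i' j * (B i j' * F B r c (R.erase i') ((C.erase j).erase j')) := by
      intro j' hj'
      rw [Finset.mem_erase] at hj'
      have hjj : j ∈ C.erase j' := Finset.mem_erase.2 ⟨fun h => hj'.1 h.symm, hj⟩
      rw [ih hjj, mul_add, Finset.mul_sum]
      congr 1
      · rw [Finset.erase_right_comm]; ring
      · apply Finset.sum_congr rfl
        intro i' _
        rw [Finset.erase_right_comm (a := j')]
        ring
    rw [Finset.sum_congr rfl h1, Finset.sum_add_distrib, ← Finset.mul_sum, Finset.sum_comm]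
    have h2 : ∀ i' ∈ R, B i' j * F B r c ((insert i R).erase i') (C.erase j) =
        B i' j * (r i * F B r c (R.erase i') (C.erase j)) +
          ∑ j' ∈ C.erase j, B i' j * (B i j' * F B r c (R.erase i') ((C.erase j).erase j')) := by
      intro i' hi'
      have hne : i ≠ i' := fun h => hi (h ▸ hi')
      rw [Finset.erase_insert_of_ne hne,
        mp_F_insert B r c (C.erase j) (fun h => hi (Finset.mem_of_mem_erase h)), mul_add,
        Finset.mul_sum]
    rw [Finset.sum_congr rfl h2, Finset.sum_add_distrib, ih hj]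
    have h3 : ∑ i' ∈ R, B i' j * (r i * F B r c (R.erase i') (C.erase j))
        = r i * ∑ i' ∈ R, B i' j * F B r c (R.erase i') (C.erase j) := by
      rw [Finset.mul_sum]
      apply Finset.sum_congr rfl
      intro i' _
      ring
    rw [h3]
    ring

theorem F_nonneg {B : Matrix (Fin n) (Fin n) ℝ} {r c : Fin n → ℝ} (hB : ∀ i j, 0 ≤ B i j)
    (hr : ∀ i, 0 ≤ r i) (hc : ∀ j, 0 ≤ c j) (R C : Finset (Fin n)) : 0 ≤ F B r c R C :=
  mp_FL_nonneg hB hr hc _ C

theorem F_congr {B B' : Matrix (Fin n) (Fin n) ℝ} {r r' c c' : Fin n → ℝ}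
    {R C : Finset (Fin n)} (hB : ∀ i ∈ R, ∀ j ∈ C, B i j = B' i j) (hr : ∀ i ∈ R, r i = r' i)
    (hc : ∀ j ∈ C, c j = c' j) : F B r c R C = F B' r' c' R C :=
  mp_FL_congr _ C (fun i hi => hB i (Finset.mem_toList.1 hi))
    (fun i hi => hr i (Finset.mem_toList.1 hi)) hc

theorem F_mono {B B' : Matrix (Fin n) (Fin n) ℝ} {r r' c c' : Fin n → ℝ}
    (hB0 : ∀ i j, 0 ≤ B i j) (hr0 : ∀ i, 0 ≤ r i) (hc0 : ∀ j, 0 ≤ c j)
    (hB : ∀ i j, B i j ≤ B' i j) (hr : ∀ i, r i ≤ r' i)
    (hc : ∀ j, c j ≤ c' j) (R C : Finset (Fin n)) : F B r c R C ≤ F B' r' c' R C :=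
  mp_FL_mono hB0 hr0 hc0 hB hr hc _ C

end Pool.Agent.Circ
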