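import Pool.Agent.Lib.Circ.MatchPoly

/-!
# Module A2: matching polynomials, second part (hints in MatchPoly.lean)
-/

set_option autoImplicit false

open MeasureTheory ProbabilityTheory Filter Matrix Finset

namespace Pool.Agent.Circ

variable {n : ℕ}

/-- Adding `β` to the entry `(i, j)`. -/
theorem F_addEntry {B B' : Matrix (Fin n) (Fin n) ℝ} (r c : Fin n → ℝ) {R C : Finset (Fin n)}
    {i j : Fin n} (hi : i ∈ R) (hj : j ∈ C) (β : ℝ)
    (h : ∀ i' j', B' i' j' = B i' j' + if i' = i ∧ j' = j then β else 0) :
    F B' r c R C = F B r c R C + β * F B r c (R.erase i) (C.erase j) := by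
  have hc : ∀ C' : Finset (Fin n), F B' r c (R.erase i) C' = F B r c (R.erase i) C' := by
    intro C'
    apply F_congr _ (fun _ _ => rfl) (fun _ _ => rfl)
    intro i' hi' j' _
    rw [h, if_neg (fun hh => (Finset.mem_erase.1 hi').1 hh.1), add_zero]
  rw [F_row B' r c C hi, F_row B r c C hi, hc]
  have e : ∑ j' ∈ C, B' i j' * F B' r c (R.erase i) (C.erase j') =
      ∑ j' ∈ C, B i j' * F B r c (R.erase i) (C.erase j')
        + β * F B r c (R.erase i) (C.erase j) := by
    have e1 : ∀ j' ∈ C, B' i j' * F B' r c (R.erase i) (C.erase j') =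
        B i j' * F B r c (R.erase i) (C.erase j')
          + if j' = j then β * F B r c (R.erase i) (C.erase j) else 0 := by
      intro j' _
      rw [hc, h]
      by_cases hjj : j' = j
      · subst hjj
        rw [if_pos ⟨rfl, rfl⟩, if_pos rfl]; ring
      · rw [if_neg (fun hh => hjj hh.2), if_neg hjj]; ring
    rw [Finset.sum_congr rfl e1, Finset.sum_add_distrib, Finset.sum_ite_eq' C j, if_pos hj]
  rw [e]; ring

/-- Adding `y` to the activity of row `i`. -/
theorem F_addRow {B : Matrix (Fin n) (Fin n) ℝ} {r r' : Fin n → ℝ} (c : Fin n → ℝ)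
    {R C : Finset (Fin n)} {i : Fin n} (hi : i ∈ R) (y : ℝ)
    (h : ∀ i', r' i' = r i' + if i' = i then y else 0) :
    F B r' c R C = F B r c R C + y * F B r c (R.erase i) C := by
  have hc : ∀ C' : Finset (Fin n), F B r' c (R.erase i) C' = F B r c (R.erase i) C' := by
    intro C'
    apply F_congr (fun _ _ _ _ => rfl) _ (fun _ _ => rfl)
    intro i' hi'
    rw [h, if_neg (Finset.mem_erase.1 hi').1, add_zero]
  rw [F_row B r' c C hi, F_row B r c C hi, hc, h, if_pos rfl]
  have e : ∑ j' ∈ C, B i j' * F B r' c (R.erase i) (C.erase j') =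
      ∑ j' ∈ C, B i j' * F B r c (R.erase i) (C.erase j') :=
    Finset.sum_congr rfl fun j' _ => by rw [hc]
  rw [e]; ring

/-- Adding `y` to the activity of column `j`. -/
theorem F_addCol {B : Matrix (Fin n) (Fin n) ℝ} (r : Fin n → ℝ) {c c' : Fin n → ℝ}
    {R C : Finset (Fin n)} {j : Fin n} (hj : j ∈ C) (y : ℝ)
    (h : ∀ j', c' j' = c j' + if j' = j then y else 0) :
    F B r c' R C = F B r c R C + y * F B r c R (C.erase j) := by
  have hc : ∀ R' : Finset (Fin n), F B r c' R' (C.erase j) = F B r c R' (C.erase j) := by
    intro R'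
    apply F_congr (fun _ _ _ _ => rfl) (fun _ _ => rfl)
    intro j' hj'
    rw [h, if_neg (Finset.mem_erase.1 hj').1, add_zero]
  rw [F_col B r c' R hj, F_col B r c R hj, hc, h, if_pos rfl]
  have e : ∑ i' ∈ R, B i' j * F B r c' (R.erase i') (C.erase j) =
      ∑ i' ∈ R, B i' j * F B r c (R.erase i') (C.erase j) :=
    Finset.sum_congr rfl fun i' _ => by rw [hc]
  rw [e]; ring

/-- both correlation inequalities, joint induction -/
theorem mp_corr_aux {B : Matrix (Fin n) (Fin n) ℝ} {r c : Fin n → ℝ} (hB : ∀ i j, 0 ≤ B i j)
    (_hr : ∀ i, 0 ≤ r i) (_hc : ∀ j, 0 ≤ c j) (N : ℕ) :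
    ∀ R C : Finset (Fin n), R.card + C.card = N →
      (∀ i ∈ R, ∀ j ∈ C, F B r c (R.erase i) C * F B r c R (C.erase j) ≤
        F B r c R C * F B r c (R.erase i) (C.erase j)) ∧
      (∀ j ∈ C, ∀ j' ∈ C.erase j, F B r c R C * F B r c R ((C.erase j).erase j') ≤
        F B r c R (C.erase j) * F B r c R (C.erase j')) := by
  induction N with
  | zero =>
    intro R C h
    have hR : R = ∅ := Finset.card_eq_zero.1 (by omega)
    have hC : C = ∅ := Finset.card_eq_zero.1 (by omega)
    subst hR; subst hC
    exact ⟨fun i hi => absurd hi (Finset.notMem_empty i),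
      fun j hj => absurd hj (Finset.notMem_empty j)⟩
  | succ N ih =>
    intro R C hN
    constructor
    · intro i hi j hj
      have hcard : (R.erase i).card + C.card = N := by
        rw [Finset.card_erase_of_mem hi]
        have := Finset.card_pos.2 ⟨i, hi⟩
        omega
      have hII := (ih (R.erase i) C hcard).2
      rw [F_row B r c C hi, F_row B r c (C.erase j) hi]
      set H := F B r c (R.erase i) with hH
      have e1 : ∑ j' ∈ C, B i j' * H (C.erase j') =
          B i j * H (C.erase j) + ∑ j' ∈ C.erase j, B i j' * H (C.erase j') :=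
        (Finset.add_sum_erase C (fun j' => B i j' * H (C.erase j')) hj).symm
      have e2 : H C * ∑ j' ∈ C.erase j, B i j' * H ((C.erase j).erase j') ≤
          (∑ j' ∈ C.erase j, B i j' * H (C.erase j')) * H (C.erase j) := by
        rw [Finset.mul_sum, Finset.sum_mul]
        apply Finset.sum_le_sum
        intro j' hj'
        have h := hII j hj j' hj'
        calc H C * (B i j' * H ((C.erase j).erase j'))
            = B i j' * (H C * H ((C.erase j).erase j')) := by ring
          _ ≤ B i j' * (H (C.erase j) * H (C.erase j')) := mul_le_mul_of_nonneg_left h (hB i j')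
          _ = _ := by ring
      rw [e1]
      have h3 : 0 ≤ B i j * H (C.erase j) ^ 2 := mul_nonneg (hB i j) (sq_nonneg _)
      nlinarith
    · intro j hj j' hj'
      have hjj : j ∈ C.erase j' :=
        Finset.mem_erase.2 ⟨fun h => (Finset.mem_erase.1 hj').1 h.symm, hj⟩
      have hcard : R.card + (C.erase j).card = N := by
        rw [Finset.card_erase_of_mem hj]
        have := Finset.card_pos.2 ⟨j, hj⟩
        omega
      have hI := (ih R (C.erase j) hcard).1
      rw [F_col B r c R hj, F_col B r c R hjj]
      have e0 : (C.erase j').erase j = (C.erase j).erase j' := Finset.erase_right_comm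
      rw [e0]
      set K := F B r c R (C.erase j) with hK
      set Kj := F B r c R ((C.erase j).erase j') with hKj
      have e2 : (∑ i' ∈ R, B i' j * F B r c (R.erase i') (C.erase j)) * Kj ≤
          K * ∑ i' ∈ R, B i' j * F B r c (R.erase i') ((C.erase j).erase j') := by
        rw [Finset.mul_sum, Finset.sum_mul]
        apply Finset.sum_le_sum
        intro i' hi'
        have h := hI i' hi' j' hj'
        calc B i' j * F B r c (R.erase i') (C.erase j) * Kj
            = B i' j * (F B r c (R.erase i') (C.erase j) * Kj) := by ring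
          _ ≤ B i' j * (K * F B r c (R.erase i') ((C.erase j).erase j')) :=
            mul_le_mul_of_nonneg_left h (hB i' j)
          _ = _ := by ring
      nlinarith

/-- The correlation inequality for vertices on opposite sides. -/
theorem F_corr {B : Matrix (Fin n) (Fin n) ℝ} {r c : Fin n → ℝ} (hB : ∀ i j, 0 ≤ B i j)
    (hr : ∀ i, 0 ≤ r i) (hc : ∀ j, 0 ≤ c j) {R C : Finset (Fin n)} {i j : Fin n} (hi : i ∈ R)
    (hj : j ∈ C) :
    F B r c (R.erase i) C * F B r c R (C.erase j) ≤
      F B r c R C * F B r c (R.erase i) (C.erase j) :=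
  (mp_corr_aux hB hr hc _ R C rfl).1 i hi j hj

/-- Zero weights. -/
theorem F_zero (r c : Fin n → ℝ) (R C : Finset (Fin n)) :
    F (0 : Matrix (Fin n) (Fin n) ℝ) r c R C = (∏ i ∈ R, r i) * ∏ j ∈ C, c j := by
  induction R using Finset.induction_on with
  | empty => rw [F_empty, Finset.prod_empty, one_mul]
  | insert i R hi ih =>
    rw [mp_F_insert _ r c C hi, ih, Finset.prod_insert hi]
    simp only [Matrix.zero_apply, zero_mul, Finset.sum_const_zero, add_zero]
    ring

/-- With zero activities, only perfect matchings count. -/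
theorem F_zero_of_card_ne (B : Matrix (Fin n) (Fin n) ℝ) {R C : Finset (Fin n)}
    (h : R.card ≠ C.card) : F B 0 0 R C = 0 := by
  induction R using Finset.induction_on generalizing C with
  | empty =>
    rw [F_empty]
    have : C.Nonempty := by
      rw [Finset.nonempty_iff_ne_empty]
      rintro rfl
      exact h rfl
    obtain ⟨j, hj⟩ := this
    exact Finset.prod_eq_zero hj rfl
  | insert i R hi ih =>
    rw [mp_F_insert _ _ _ C hi, Pi.zero_apply, zero_mul, zero_add]
    apply Finset.sum_eq_zero
    intro j hj
    rw [ih, mul_zero]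
    rw [Finset.card_erase_of_mem hj]
    rw [Finset.card_insert_of_notMem hi] at h
    have := Finset.card_pos.2 ⟨j, hj⟩
    omega

/-- reindexing of pairs (subset, element) -/
theorem mp_sum_powerset_mem (C : Finset (Fin n)) (g : Finset (Fin n) → Fin n → ℝ) :
    ∑ T ∈ C.powerset, ∑ j ∈ T, g T j =
      ∑ j ∈ C, ∑ T ∈ (C.erase j).powerset, g (insert j T) j := by
  rw [Finset.sum_comm' (t' := C) (s' := fun j => C.powerset.filter (fun T => j ∈ T))]
  · apply Finset.sum_congr rfl
    intro j hj
    apply Finset.sum_nbij' (fun T => T.erase j) (fun T => insert j T)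
    · intro T hT
      rw [Finset.mem_filter, Finset.mem_powerset] at hT
      rw [Finset.mem_powerset]
      exact Finset.erase_subset_erase j hT.1
    · intro T hT
      rw [Finset.mem_powerset] at hT
      rw [Finset.mem_filter, Finset.mem_powerset]
      refine ⟨?_, Finset.mem_insert_self j T⟩
      intro k hk
      rcases Finset.mem_insert.1 hk with h | h
      · rw [h]; exact hj
      · exact Finset.mem_of_mem_erase (hT h)
    · intro T hT
      rw [Finset.mem_filter] at hT
      exact Finset.insert_erase hT.2
    · intro T hT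
      rw [Finset.mem_powerset] at hT
      exact Finset.erase_insert (fun h => (Finset.mem_erase.1 (hT h)).1 rfl)
    · intro T hT
      rw [Finset.mem_filter] at hT
      rw [Finset.insert_erase hT.2]
  · intro T j
    simp only [Finset.mem_filter, Finset.mem_powerset]
    constructor
    · rintro ⟨h1, h2⟩
      exact ⟨⟨h1, h2⟩, h1 h2⟩
    · rintro ⟨⟨h1, h2⟩, _⟩
      exact ⟨h1, h2⟩

/-- splitting without the cardinality filter -/
theorem mp_split_aux (B : Matrix (Fin n) (Fin n) ℝ) (r c : ℝ) (R C : Finset (Fin n)) :
    F B (fun _ => r) (fun _ => c) R C =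
      ∑ T ∈ C.powerset, ∑ S ∈ R.powerset,
        r ^ (R.card - S.card) * c ^ (C.card - T.card) * F B 0 0 S T := by
  induction R using Finset.induction_on generalizing C with
  | empty =>
    rw [F_empty, Finset.prod_const]
    rw [Finset.sum_eq_single ∅]
    · rw [Finset.powerset_empty, Finset.sum_singleton, F_empty]
      simp
    · intro T hT hne
      rw [Finset.powerset_empty, Finset.sum_singleton, F_zero_of_card_ne, mul_zero]
      rw [Finset.card_empty]
      exact fun h => hne (Finset.card_eq_zero.1 h.symm)
    · intro h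
      exact absurd (Finset.empty_mem_powerset C) h
  | insert i R hi ih =>
    rw [mp_F_insert _ _ _ C hi, ih C]
    have hS : ∀ T ∈ C.powerset, ∑ S ∈ (insert i R).powerset,
        r ^ ((insert i R).card - S.card) * c ^ (C.card - T.card) * F B 0 0 S T =
        r * ∑ S ∈ R.powerset, r ^ (R.card - S.card) * c ^ (C.card - T.card) * F B 0 0 S T +
          ∑ j ∈ T, ∑ S ∈ R.powerset, r ^ (R.card - S.card) * c ^ (C.card - T.card) *
            (B i j * F B 0 0 S (T.erase j)) := by
      intro T _
      rw [Finset.sum_powerset_insert hi]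
      congr 1
      · rw [Finset.mul_sum]
        apply Finset.sum_congr rfl
        intro S hS
        rw [Finset.mem_powerset] at hS
        have hle := Finset.card_le_card hS
        rw [Finset.card_insert_of_notMem hi, show R.card + 1 - S.card = (R.card - S.card) + 1 by
          omega, pow_succ]
        ring
      · rw [Finset.sum_comm]
        apply Finset.sum_congr rfl
        intro S hS
        rw [Finset.mem_powerset] at hS
        have hiS : i ∉ S := fun h => hi (hS h)
        rw [Finset.card_insert_of_notMem hi, Finset.card_insert_of_notMem hiS,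
          mp_F_insert _ _ _ T hiS, Pi.zero_apply, zero_mul, zero_add, Finset.mul_sum,
          Nat.add_sub_add_right]
    rw [Finset.sum_congr rfl hS, Finset.sum_add_distrib, ← Finset.mul_sum]
    congr 1
    rw [mp_sum_powerset_mem C (fun T j => ∑ S ∈ R.powerset,
      r ^ (R.card - S.card) * c ^ (C.card - T.card) * (B i j * F B 0 0 S (T.erase j)))]
    apply Finset.sum_congr rfl
    intro j hj
    rw [ih (C.erase j), Finset.mul_sum]
    apply Finset.sum_congr rfl
    intro T hT
    rw [Finset.mem_powerset] at hT
    have hjT : j ∉ T := fun h => (Finset.mem_erase.1 (hT h)).1 rfl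
    rw [Finset.mul_sum]
    apply Finset.sum_congr rfl
    intro S _
    rw [Finset.erase_insert hjT, Finset.card_insert_of_notMem hjT, Finset.card_erase_of_mem hj]
    have : C.card - 1 - T.card = C.card - (T.card + 1) := by omega
    rw [this]
    ring

/-- Splitting according to the sets of matched rows and columns (constant activities). -/
theorem F_split (B : Matrix (Fin n) (Fin n) ℝ) (r c : ℝ) (R C : Finset (Fin n)) :
    F B (fun _ => r) (fun _ => c) R C =
      ∑ T ∈ C.powerset, ∑ S ∈ R.powerset.filter (fun S => S.card = T.card),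
        r ^ (R.card - S.card) * c ^ (C.card - T.card) * F B 0 0 S T := by
  rw [mp_split_aux]
  apply Finset.sum_congr rfl
  intro T _
  rw [Finset.sum_filter_of_ne]
  intro S _ hne
  by_contra h
  exact hne (by rw [F_zero_of_card_ne B h, mul_zero])

end Pool.Agent.Circ
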