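import Pool.Agent.Lib.Circ.Bethe

/-!
# Module B2: the lower bound

Case `p < 1`: `per_bethe` with `B = Bmat U p`, `V i j = U i j ^ 2`,
`P i j = (1-p) V i j + (if j = i then p else 0)` (doubly stochastic). For `i ≠ j` the logarithm of the factor is
`P log(1/(1-p)) + (1-P) log(1-P) ≥ (1-p) V (log(1/(1-p)) - 1)` (as `(1-x) log (1-x) ≥ -x`), for
`i = j` it is at least `(1-p)(1-V) log(1-p) - (1-p) V` (`B/P ≥ 1`, `1 - P = (1-p)(1-V)`); the sum
is `-(1-p) n`. Case `p ≥ 1` (in fact any `p > 0`): `F (Bmat U p) ≥ p^n`, keep only the identity
matching (e.g. `F_mono` from the diagonal matrix, or `F_row` repeatedly).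
-/

set_option autoImplicit false

open MeasureTheory ProbabilityTheory Filter Matrix Finset

namespace Pool.Agent.Circ

variable {n : ℕ}

/-- `(1-x)^(1-x) ≥ exp (-x)` for `x ≤ 1`. -/
theorem plow_self {x : ℝ} (hx1 : x ≤ 1) : Real.exp (-x) ≤ (1 - x) ^ (1 - x) := by
  rcases eq_or_lt_of_le hx1 with h | h
  · subst h
    simp
  · have h1 : 0 < 1 - x := by linarith
    rw [Real.rpow_def_of_pos h1]
    apply Real.exp_le_exp.mpr
    have h2 : 1 - (1 - x)⁻¹ ≤ Real.log (1 - x) := Real.one_sub_inv_le_log_of_pos h1
    have h3 : (1 - (1 - x)⁻¹) * (1 - x) ≤ Real.log (1 - x) * (1 - x) :=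
      mul_le_mul_of_nonneg_right h2 h1.le
    have h4 : (1 - (1 - x)⁻¹) * (1 - x) = -x := by
      field_simp
      ring
    linarith

/-- The diagonal matching polynomial. -/
theorem plow_diag (p : ℝ) (R : Finset (Fin n)) :
    F (Matrix.of fun i j : Fin n => if j = i then p else 0) 0 0 R R = p ^ R.card := by
  induction R using Finset.strongInduction with
  | H R ih =>
    rcases R.eq_empty_or_nonempty with h | ⟨i, hi⟩
    · subst h
      simp [F_empty]
    · rw [F_row _ _ _ R hi, Finset.sum_eq_single_of_mem i hi]
      · rw [ih _ (Finset.erase_ssubset hi)]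
        simp only [Pi.zero_apply, zero_mul, Matrix.of_apply, if_true, zero_add]
        rw [← pow_succ', Finset.card_erase_add_one hi]
      · intro j _ hj
        simp [Matrix.of_apply, hj]

/-- The lower bound. -/
theorem per_lower {U : Matrix (Fin n) (Fin n) ℝ} {δ : ℝ} (hU : Profile U δ) {p : ℝ}
    (hp : 0 ≤ p) : Real.exp (n * psi p) ≤ F (Bmat U p) 0 0 Finset.univ Finset.univ := by
  rcases le_or_gt 1 p with hp1 | hp1
  · -- large `p`
    have h1 : psi p = Real.log p := by
      unfold psi
      split_ifs with h
      · have : p = 1 := le_antisymm h hp1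
        subst this
        simp
      · rfl
    have h0 : 0 < p := by linarith
    have h2 : Real.exp (n * psi p) = p ^ (Finset.univ : Finset (Fin n)).card := by
      rw [h1, Finset.card_univ, Fintype.card_fin, ← Real.rpow_natCast, Real.rpow_def_of_pos h0,
        mul_comm]
    rw [h2, ← plow_diag]
    apply F_mono
    · intro i j
      simp only [Matrix.of_apply]
      split_ifs
      · exact hp
      · exact le_rfl
    · intro i; exact le_rfl
    · intro i; exact le_rfl
    · intro i j
      simp only [Matrix.of_apply, Bmat]
      have := sq_nonneg (U i j)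
      linarith
    · intro i; exact le_rfl
    · intro i; exact le_rfl
  · -- `p < 1`
    have hpsi : psi p = p - 1 := by
      unfold psi
      rw [if_pos hp1.le]
    set q : ℝ := 1 - p with hq
    have hq0 : 0 < q := by linarith
    have hq1 : q ≤ 1 := by linarith
    have hpq : p = 1 - q := by linarith
    have hV0 : ∀ i j, 0 ≤ U i j ^ 2 := fun i j => sq_nonneg _
    have hV1 : ∀ i j, U i j ^ 2 ≤ 1 := by
      intro i j
      rw [← hU.row i]
      exact Finset.single_le_sum (f := fun j => U i j ^ 2) (fun j _ => hV0 i j)
        (Finset.mem_univ j)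
    let P : Matrix (Fin n) (Fin n) ℝ :=
      Matrix.of fun i j => q * U i j ^ 2 + (if j = i then p else 0)
    have hPdef : ∀ i j, P i j = q * U i j ^ 2 + (if j = i then p else 0) := fun i j => rfl
    have hP0 : ∀ i j, 0 ≤ P i j := by
      intro i j
      rw [hPdef]
      have h1 := mul_nonneg hq0.le (hV0 i j)
      split_ifs <;> linarith
    have hB0 : ∀ i j, 0 ≤ Bmat U p i j := by
      intro i j
      simp only [Bmat, Matrix.of_apply]
      have h1 := hV0 i j
      split_ifs <;> linarith
    have hrow : ∀ i, ∑ j, P i j = 1 := by
      intro i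
      simp only [hPdef]
      rw [Finset.sum_add_distrib, ← Finset.mul_sum, hU.row i]
      simp [hq]
    have hcol : ∀ j, ∑ i, P i j = 1 := by
      intro j
      simp only [hPdef]
      rw [Finset.sum_add_distrib, ← Finset.mul_sum, hU.col j]
      simp [hq]
    refine le_trans ?_ (per_bethe hB0 hP0 hrow hcol)
    let c : Fin n → Fin n → ℝ := fun i j =>
      -q * U i j ^ 2 - q * Real.log q * U i j ^ 2 + (if j = i then q * Real.log q else 0)
    have hcdef : ∀ i j, c i j = -q * U i j ^ 2 - q * Real.log q * U i j ^ 2 +
      (if j = i then q * Real.log q else 0) := fun i j => rfl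
    have hcsum : ∀ i, ∑ j, c i j = -q := by
      intro i
      simp only [hcdef]
      rw [Finset.sum_add_distrib, Finset.sum_sub_distrib, ← Finset.mul_sum, ← Finset.mul_sum,
        hU.row i]
      simp
    have hfac : ∀ i j, Real.exp (c i j) ≤
        (Bmat U p i j / P i j) ^ (P i j) * (1 - P i j) ^ (1 - P i j) := by
      intro i j
      by_cases hij : j = i
      · -- diagonal
        have hPe : P i j = q * U i j ^ 2 + (1 - q) := by
          rw [hPdef, if_pos hij, hpq]
        have hBe : Bmat U p i j = U i j ^ 2 + (1 - q) := by
          simp only [Bmat, Matrix.of_apply]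
          rw [if_pos hij, hpq]
        have hce : c i j = -q * U i j ^ 2 + q * Real.log q * (1 - U i j ^ 2) := by
          rw [hcdef, if_pos hij]
          ring
        have hone : 1 ≤ (Bmat U p i j / P i j) ^ (P i j) := by
          rcases eq_or_lt_of_le (hP0 i j) with h | h
          · rw [← h]; simp
          · apply Real.one_le_rpow _ (hP0 i j)
            rw [one_le_div h, hPe, hBe]
            have : q * U i j ^ 2 ≤ 1 * U i j ^ 2 := mul_le_mul_of_nonneg_right hq1 (hV0 i j)
            linarith
        have h1P : 1 - P i j = q * (1 - U i j ^ 2) := by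
          rw [hPe]; ring
        have hv : 0 ≤ 1 - U i j ^ 2 := by linarith [hV1 i j]
        have htwo : Real.exp (c i j) ≤ (1 - P i j) ^ (1 - P i j) := by
          rw [h1P, Real.mul_rpow hq0.le hv, hce, add_comm, Real.exp_add]
          apply mul_le_mul _ _ (Real.exp_nonneg _) (Real.rpow_nonneg hq0.le _)
          · rw [Real.rpow_def_of_pos hq0]
            apply le_of_eq
            congr 1
            ring
          · have h2 := plow_self (hV1 i j)
            have h3 : (1 - U i j ^ 2) ^ (q * (1 - U i j ^ 2)) =
                ((1 - U i j ^ 2) ^ (1 - U i j ^ 2)) ^ q := by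
              rw [← Real.rpow_mul hv]
              congr 1
              ring
            rw [h3]
            have h4 : Real.exp (-q * U i j ^ 2) = (Real.exp (-(U i j ^ 2))) ^ q := by
              rw [← Real.exp_mul]
              congr 1
              ring
            rw [h4]
            exact Real.rpow_le_rpow (Real.exp_nonneg _) h2 hq0.le
        calc Real.exp (c i j) ≤ (1 - P i j) ^ (1 - P i j) := htwo
          _ = 1 * (1 - P i j) ^ (1 - P i j) := (one_mul _).symm
          _ ≤ _ := mul_le_mul_of_nonneg_right hone
            (Real.rpow_nonneg (by rw [h1P]; exact mul_nonneg hq0.le hv) _)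
      · -- off the diagonal
        have hPe : P i j = q * U i j ^ 2 := by
          rw [hPdef, if_neg hij, add_zero]
        have hBe : Bmat U p i j = U i j ^ 2 := by
          simp only [Bmat, Matrix.of_apply]
          rw [if_neg hij, add_zero]
        have hce : c i j = -(q * U i j ^ 2) + Real.log q⁻¹ * (q * U i j ^ 2) := by
          rw [hcdef, if_neg hij, Real.log_inv]
          ring
        rcases eq_or_lt_of_le (hV0 i j) with h | h
        · rw [hce, hPe, ← h]
          simp
        · have hdiv : Bmat U p i j / P i j = q⁻¹ := by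
            rw [hBe, hPe, div_eq_iff (mul_pos hq0 h).ne', ← mul_assoc, inv_mul_cancel₀ hq0.ne',
              one_mul]
          rw [hdiv, hce, add_comm, Real.exp_add, hPe]
          apply mul_le_mul
          · rw [Real.rpow_def_of_pos (inv_pos.mpr hq0)]
          · apply plow_self
            calc q * U i j ^ 2 ≤ 1 * 1 :=
                  mul_le_mul hq1 (hV1 i j) (hV0 i j) zero_le_one
              _ = 1 := one_mul 1
          · exact Real.exp_nonneg _
          · exact Real.rpow_nonneg (inv_nonneg.mpr hq0.le) _
    have hexp : Real.exp (n * psi p) = ∏ i : Fin n, ∏ j : Fin n, Real.exp (c i j) := by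
      have h1 : ∀ i : Fin n, ∏ j : Fin n, Real.exp (c i j) = Real.exp (-q) := by
        intro i
        rw [← Real.exp_sum, hcsum i]
      rw [Finset.prod_congr rfl (fun i _ => h1 i), Finset.prod_const, Finset.card_univ,
        Fintype.card_fin, ← Real.exp_nat_mul, hpsi]
      congr 1
      rw [hpq]
      ring
    rw [hexp]
    apply Finset.prod_le_prod
    · intro i _
      exact Finset.prod_nonneg fun j _ => Real.exp_nonneg _
    · intro i _
      apply Finset.prod_le_prod
      · intro j _
        exact Real.exp_nonneg _
      · intro j _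
        exact hfac i j

end Pool.Agent.Circ
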