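import Mathlib

/-!
# Module M: from circle averages to weak convergence in probability

Bumps: `φ_ρ(w) = log max |w| (2ρ) - log max |w| ρ` is continuous, nonnegative, supported in
`|w| ≤ 2ρ`. For `f` continuous with compact support, `f_ρ(w) = (1/I_ρ) ∫ f(c) φ_ρ(w-c) dc`,
`I_ρ = ∫ φ_ρ`, is uniformly close to `f`; and `∫ |s-average of f_ρ - limit| dP` is at most
`(1/I_ρ) ∫ |f(c)| ∫ |...| dP dc → 0` by dominated convergence (`0 ≤ φ_ρ ≤ log 2`).
Then tightness for bounded continuous `f`.
-/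

set_option autoImplicit false

open MeasureTheory ProbabilityTheory Filter Matrix Finset

namespace Pool.Agent.Circ

/-- The bump. -/
noncomputable def wk_phi (ρ : ℝ) (w : ℂ) : ℝ :=
  Real.log (max ‖w‖ (2 * ρ)) - Real.log (max ‖w‖ ρ)

/-- Average over a multiset of size `n`. -/
noncomputable def wk_avg (n : ℕ) (s : Multiset ℂ) (g : ℂ → ℝ) : ℝ := (s.map g).sum / (n : ℝ)

/-- Average over the unit disc. -/
noncomputable def wk_cir (g : ℂ → ℝ) : ℝ :=
  (1 / Real.pi) * ∫ z in Metric.closedBall (0 : ℂ) 1, g z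

lemma wk_phi_cont {ρ : ℝ} (hρ : 0 < ρ) : Continuous (wk_phi ρ) := by
  unfold wk_phi
  refine Continuous.sub ?_ ?_
  · refine Continuous.log (continuous_norm.max continuous_const) fun w => ?_
    have : 0 < max ‖w‖ (2 * ρ) := lt_of_lt_of_le (by positivity) (le_max_right _ _)
    exact this.ne'
  · refine Continuous.log (continuous_norm.max continuous_const) fun w => ?_
    have : 0 < max ‖w‖ ρ := lt_of_lt_of_le hρ (le_max_right _ _)
    exact this.ne'

lemma wk_phi_nonneg {ρ : ℝ} (hρ : 0 < ρ) (w : ℂ) : 0 ≤ wk_phi ρ w := by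
  unfold wk_phi
  have h1 : 0 < max ‖w‖ ρ := lt_of_lt_of_le hρ (le_max_right _ _)
  have h2 : max ‖w‖ ρ ≤ max ‖w‖ (2 * ρ) := max_le_max (le_refl _) (by linarith)
  have := Real.log_le_log h1 h2
  linarith

lemma wk_phi_le {ρ : ℝ} (hρ : 0 < ρ) (w : ℂ) : wk_phi ρ w ≤ Real.log 2 := by
  unfold wk_phi
  have h1 : 0 < max ‖w‖ ρ := lt_of_lt_of_le hρ (le_max_right _ _)
  have h2 : max ‖w‖ (2 * ρ) ≤ 2 * max ‖w‖ ρ := by
    refine max_le ?_ ?_
    · have := le_max_left ‖w‖ ρ
      have := norm_nonneg w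
      linarith
    · have := le_max_right ‖w‖ ρ
      linarith
  have h3 : 0 < max ‖w‖ (2 * ρ) := lt_of_lt_of_le (by positivity) (le_max_right _ _)
  have h4 := Real.log_le_log h3 h2
  rw [Real.log_mul (by norm_num) h1.ne'] at h4
  linarith

lemma wk_phi_zero {ρ : ℝ} (hρ : 0 < ρ) {w : ℂ} (hw : 2 * ρ ≤ ‖w‖) : wk_phi ρ w = 0 := by
  unfold wk_phi
  rw [max_eq_left hw, max_eq_left (by linarith), sub_self]

lemma wk_phi_at_zero {ρ : ℝ} (hρ : 0 < ρ) : wk_phi ρ 0 ≠ 0 := by
  unfold wk_phi
  rw [norm_zero, max_eq_right (by positivity), max_eq_right hρ.le,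
    Real.log_mul (by norm_num) hρ.ne']
  have : 0 < Real.log 2 := Real.log_pos (by norm_num)
  intro h
  linarith

lemma wk_phi_supp {ρ : ℝ} (hρ : 0 < ρ) : HasCompactSupport (wk_phi ρ) := by
  refine HasCompactSupport.intro (isCompact_closedBall (0 : ℂ) (2 * ρ)) fun w hw => ?_
  refine wk_phi_zero hρ ?_
  rw [mem_closedBall_zero_iff, not_le] at hw
  exact hw.le

lemma wk_I_pos {ρ : ℝ} (hρ : 0 < ρ) : 0 < ∫ w, wk_phi ρ w :=
  (wk_phi_cont hρ).integral_pos_of_hasCompactSupport_nonneg_nonzero (wk_phi_supp hρ)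
    (fun w => wk_phi_nonneg hρ w) (wk_phi_at_zero hρ)

lemma wk_I_shift (ρ : ℝ) (w : ℂ) : ∫ c, wk_phi ρ (w - c) = ∫ c, wk_phi ρ c :=
  integral_sub_left_eq_self (wk_phi ρ) volume w

lemma wk_phi_shift_integrable {ρ : ℝ} (hρ : 0 < ρ) (w : ℂ) :
    Integrable (fun c => wk_phi ρ (w - c)) := by
  have h := (wk_phi_cont hρ).integrable_of_hasCompactSupport (wk_phi_supp hρ) (μ := volume)
  exact h.comp_sub_left w

lemma wk_vol : (volume (Metric.closedBall (0 : ℂ) 1)).toReal = Real.pi := by
  rw [Complex.volume_closedBall]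
  simp [NNReal.coe_real_pi]

lemma wk_fin : volume (Metric.closedBall (0 : ℂ) 1) ≠ ⊤ := by
  rw [Complex.volume_closedBall]
  exact ENNReal.mul_ne_top (by simp) ENNReal.coe_ne_top

lemma wk_finite : IsFiniteMeasure (volume.restrict (Metric.closedBall (0 : ℂ) 1)) :=
  ⟨by rw [Measure.restrict_apply_univ]; exact wk_fin.lt_top⟩

attribute [local instance] wk_finite

lemma wk_cir_const (a : ℝ) : wk_cir (fun _ => a) = a := by
  unfold wk_cir
  rw [integral_const, smul_eq_mul, Measure.real, Measure.restrict_apply_univ, wk_vol]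
  field_simp

lemma wk_cir_bound {g : ℂ → ℝ} {M : ℝ} (h : ∀ z, |g z| ≤ M) : |wk_cir g| ≤ M := by
  unfold wk_cir
  have h1 : ‖∫ z in Metric.closedBall (0 : ℂ) 1, g z‖ ≤ M * Real.pi := by
    have := norm_integral_le_of_norm_le_const (μ := volume.restrict (Metric.closedBall (0 : ℂ) 1))
      (f := g) (C := M) (Eventually.of_forall fun z => by rw [Real.norm_eq_abs]; exact h z)
    rwa [Measure.real, Measure.restrict_apply_univ, wk_vol] at this
  rw [abs_mul, abs_of_pos (by positivity)]
  rw [Real.norm_eq_abs] at h1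
  calc 1 / Real.pi * |∫ z in Metric.closedBall (0 : ℂ) 1, g z| ≤ 1 / Real.pi * (M * Real.pi) :=
        mul_le_mul_of_nonneg_left h1 (by positivity)
    _ = M := by field_simp

lemma wk_cir_sub {g h : ℂ → ℝ} (hg : Continuous g) (hh : Continuous h) :
    wk_cir (fun z => g z - h z) = wk_cir g - wk_cir h := by
  unfold wk_cir
  rw [integral_sub, mul_sub]
  · exact hg.continuousOn.integrableOn_compact (isCompact_closedBall _ _)
  · exact hh.continuousOn.integrableOn_compact (isCompact_closedBall _ _)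

lemma wk_avg_sub (n : ℕ) (s : Multiset ℂ) (g h : ℂ → ℝ) :
    wk_avg n s (fun z => g z - h z) = wk_avg n s g - wk_avg n s h := by
  unfold wk_avg
  rw [Multiset.sum_map_sub, sub_div]

lemma wk_avg_bound {n : ℕ} {s : Multiset ℂ} (hs : s.card = n) {g : ℂ → ℝ} {M : ℝ} (hM : 0 ≤ M)
    (h : ∀ z, |g z| ≤ M) : |wk_avg n s g| ≤ M := by
  unfold wk_avg
  have h1 : ∀ t : Multiset ℂ, |(t.map g).sum| ≤ t.card * M := by
    intro t
    induction t using Multiset.induction_on with
    | empty => simp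
    | cons a t ih =>
      rw [Multiset.map_cons, Multiset.sum_cons, Multiset.card_cons]
      refine (abs_add_le _ _).trans ?_
      push_cast
      have := h a
      linarith
  rcases Nat.eq_zero_or_pos n with h0 | h0
  · rw [h0]; simpa using hM
  · have hn : (0 : ℝ) < n := by exact_mod_cast h0
    rw [abs_div, abs_of_pos hn, div_le_iff₀ hn]
    have := h1 s
    rw [hs] at this
    linarith

/-- The smoothed function. -/
noncomputable def wk_u (ρ : ℝ) (g : ℂ → ℝ) (w : ℂ) : ℝ := ∫ c, g c * wk_phi ρ (w - c)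

lemma wk_u_integrable {ρ : ℝ} (hρ : 0 < ρ) {g : ℂ → ℝ} (hg : Continuous g)
    (hgs : HasCompactSupport g) (w : ℂ) : Integrable (fun c => g c * wk_phi ρ (w - c)) := by
  refine Continuous.integrable_of_hasCompactSupport ?_ ?_
  · exact hg.mul ((wk_phi_cont hρ).comp (continuous_const.sub continuous_id))
  · exact hgs.mul_right

lemma wk_near {ρ : ℝ} (hρ : 0 < ρ) {g : ℂ → ℝ} (hg : Continuous g) (hgs : HasCompactSupport g)
    {ε : ℝ} (hε : ∀ w c : ℂ, ‖w - c‖ ≤ 2 * ρ → |g w - g c| ≤ ε) (w : ℂ) :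
    |(∫ c, wk_phi ρ c) * g w - wk_u ρ g w| ≤ ε * ∫ c, wk_phi ρ c := by
  have hi1 : Integrable (fun c => g w * wk_phi ρ (w - c)) :=
    (wk_phi_shift_integrable hρ w).const_mul _
  have h1 : (∫ c, wk_phi ρ c) * g w - wk_u ρ g w =
      ∫ c, (g w - g c) * wk_phi ρ (w - c) := by
    unfold wk_u
    rw [← wk_I_shift ρ w, mul_comm, ← integral_const_mul, ← integral_sub hi1
      (wk_u_integrable hρ hg hgs w)]
    refine integral_congr_ae (Eventually.of_forall fun c => ?_)
    simp only
    ring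
  rw [h1, ← wk_I_shift ρ w, ← integral_const_mul, ← Real.norm_eq_abs]
  refine norm_integral_le_of_norm_le ((wk_phi_shift_integrable hρ w).const_mul ε)
    (Eventually.of_forall fun c => ?_)
  rw [Real.norm_eq_abs, abs_mul, abs_of_nonneg (wk_phi_nonneg hρ _)]
  by_cases hc : ‖w - c‖ ≤ 2 * ρ
  · exact mul_le_mul_of_nonneg_right (hε w c hc) (wk_phi_nonneg hρ _)
  · rw [wk_phi_zero hρ (by linarith)]
    simp

lemma wk_avg_u {ρ : ℝ} (hρ : 0 < ρ) {g : ℂ → ℝ} (hg : Continuous g) (hgs : HasCompactSupport g)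
    (n : ℕ) (s : Multiset ℂ) :
    Integrable (fun c => g c * wk_avg n s (fun l => wk_phi ρ (l - c))) ∧
    wk_avg n s (wk_u ρ g) = ∫ c, g c * wk_avg n s (fun l => wk_phi ρ (l - c)) := by
  have h1 : ∀ t : Multiset ℂ,
      Integrable (fun c => g c * (t.map (fun l => wk_phi ρ (l - c))).sum) ∧
      (t.map (wk_u ρ g)).sum = ∫ c, g c * (t.map (fun l => wk_phi ρ (l - c))).sum := by
    intro t
    induction t using Multiset.induction_on with
    | empty => simp
    | cons a t ih =>
      have h2 : (fun c => g c * ((a ::ₘ t).map (fun l => wk_phi ρ (l - c))).sum) =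
          fun c => g c * wk_phi ρ (a - c) + g c * (t.map (fun l => wk_phi ρ (l - c))).sum := by
        funext c
        rw [Multiset.map_cons, Multiset.sum_cons, mul_add]
      rw [h2]
      refine ⟨(wk_u_integrable hρ hg hgs a).add ih.1, ?_⟩
      rw [integral_add (wk_u_integrable hρ hg hgs a) ih.1, Multiset.map_cons, Multiset.sum_cons,
        ih.2]
      rfl
  unfold wk_avg
  have h2 : (fun c => g c * ((s.map (fun l => wk_phi ρ (l - c))).sum / (n : ℝ))) =
      fun c => g c * (s.map (fun l => wk_phi ρ (l - c))).sum / (n : ℝ) := by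
    funext c
    rw [mul_div_assoc]
  rw [h2]
  refine ⟨(h1 s).1.div_const _, ?_⟩
  rw [(h1 s).2, integral_div]

lemma wk_cir_u {ρ : ℝ} (hρ : 0 < ρ) {g : ℂ → ℝ} (hg : Continuous g) (hgs : HasCompactSupport g) :
    Integrable (fun c => g c * wk_cir (fun l => wk_phi ρ (l - c))) ∧
    wk_cir (wk_u ρ g) = ∫ c, g c * wk_cir (fun l => wk_phi ρ (l - c)) := by
  have hgi : Integrable g := hg.integrable_of_hasCompactSupport hgs
  have hprod : Integrable (Function.uncurry fun (w c : ℂ) => g c * wk_phi ρ (w - c))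
      ((volume.restrict (Metric.closedBall (0 : ℂ) 1)).prod volume) := by
    have h1 : Integrable (fun z : ℂ × ℂ => (Real.log 2) * ‖g z.2‖)
        ((volume.restrict (Metric.closedBall (0 : ℂ) 1)).prod volume) :=
      Integrable.mul_prod (f := fun _ : ℂ => Real.log 2) (g := fun c => ‖g c‖)
        (integrable_const _) hgi.norm
    refine h1.mono' ?_ (Eventually.of_forall fun z => ?_)
    · refine Continuous.aestronglyMeasurable ?_
      exact (hg.comp continuous_snd).mul ((wk_phi_cont hρ).comp (continuous_fst.sub continuous_snd))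
    · simp only [Function.uncurry]
      rw [norm_mul, mul_comm, Real.norm_of_nonneg (wk_phi_nonneg hρ _)]
      exact mul_le_mul_of_nonneg_right (wk_phi_le hρ _) (norm_nonneg _)
  have hswap := integral_integral_swap hprod
  have hint := hprod.integral_prod_right
  have h2 : ∀ c, ∫ w in Metric.closedBall (0 : ℂ) 1, g c * wk_phi ρ (w - c) =
      g c * ∫ w in Metric.closedBall (0 : ℂ) 1, wk_phi ρ (w - c) := fun c => integral_const_mul _ _
  unfold wk_cir
  have h3 : (fun c => g c * (1 / Real.pi * ∫ z in Metric.closedBall (0 : ℂ) 1,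
      wk_phi ρ (z - c))) = fun c => (1 / Real.pi) *
        ∫ w in Metric.closedBall (0 : ℂ) 1, g c * wk_phi ρ (w - c) := by
    funext c
    rw [h2]
    ring
  rw [h3]
  refine ⟨?_, ?_⟩
  · refine Integrable.const_mul ?_ _
    exact hint
  · rw [integral_const_mul]
    congr 1

/-- The deterministic comparison. -/
lemma wk_det {ρ : ℝ} (hρ : 0 < ρ) {g : ℂ → ℝ} (hg : Continuous g) (hgs : HasCompactSupport g)
    {ε : ℝ} (hε0 : 0 ≤ ε) (hε : ∀ w c : ℂ, ‖w - c‖ ≤ 2 * ρ → |g w - g c| ≤ ε)
    {n : ℕ} {s : Multiset ℂ} (hs : s.card = n) :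
    (∫ c, wk_phi ρ c) * |wk_avg n s g - wk_cir g| ≤ 2 * ε * (∫ c, wk_phi ρ c) +
      ∫ c, |g c| * |wk_avg n s (fun l => wk_phi ρ (l - c)) -
        wk_cir (fun l => wk_phi ρ (l - c))| := by
  set I := ∫ c, wk_phi ρ c with hI
  have hIpos : 0 < I := wk_I_pos hρ
  -- averages of the smoothed function
  obtain ⟨ha1, ha2⟩ := wk_avg_u hρ hg hgs n s
  obtain ⟨hc1, hc2⟩ := wk_cir_u hρ hg hgs
  have h1 : |wk_avg n s (wk_u ρ g) - wk_cir (wk_u ρ g)| ≤
      ∫ c, |g c| * |wk_avg n s (fun l => wk_phi ρ (l - c)) -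
        wk_cir (fun l => wk_phi ρ (l - c))| := by
    rw [ha2, hc2, ← integral_sub ha1 hc1, ← Real.norm_eq_abs]
    refine (norm_integral_le_integral_norm _).trans (le_of_eq ?_)
    refine integral_congr_ae (Eventually.of_forall fun c => ?_)
    simp only
    rw [← mul_sub, Real.norm_eq_abs, abs_mul]
  have hbnd : ∀ w, |I * g w - wk_u ρ g w| ≤ ε * I := wk_near hρ hg hgs hε
  have hu : Continuous (wk_u ρ g) := by
    -- from the parametric integral
    unfold wk_u
    refine continuous_of_dominated (bound := fun c => ‖g c‖ * Real.log 2) ?_ ?_ ?_ ?_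
    · intro w
      exact (wk_u_integrable hρ hg hgs w).aestronglyMeasurable
    · intro w
      refine Eventually.of_forall fun c => ?_
      rw [norm_mul, Real.norm_of_nonneg (wk_phi_nonneg hρ _)]
      exact mul_le_mul_of_nonneg_left (wk_phi_le hρ _) (norm_nonneg _)
    · exact (hg.integrable_of_hasCompactSupport hgs).norm.mul_const _
    · refine Eventually.of_forall fun c => ?_
      exact continuous_const.mul ((wk_phi_cont hρ).comp (continuous_id.sub continuous_const))
  have h2 : |wk_avg n s (fun w => I * g w - wk_u ρ g w)| ≤ ε * I :=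
    wk_avg_bound hs (by positivity) hbnd
  have h3 : |wk_cir (fun w => I * g w - wk_u ρ g w)| ≤ ε * I := wk_cir_bound hbnd
  rw [wk_avg_sub] at h2
  rw [wk_cir_sub (g := fun w => I * g w) (continuous_const.mul hg) hu] at h3
  have h4 : wk_avg n s (fun w => I * g w) = I * wk_avg n s g := by
    unfold wk_avg
    rw [Multiset.sum_map_mul_left, mul_div_assoc]
  have h5 : wk_cir (fun w => I * g w) = I * wk_cir g := by
    unfold wk_cir
    rw [integral_const_mul]
    ring
  rw [h4] at h2
  rw [h5] at h3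
  have h6 : I * |wk_avg n s g - wk_cir g| = |I * wk_avg n s g - I * wk_cir g| := by
    rw [← mul_sub, abs_mul, abs_of_pos hIpos]
  rw [h6]
  have h7 : I * wk_avg n s g - I * wk_cir g =
      (I * wk_avg n s g - wk_avg n s (wk_u ρ g)) - (I * wk_cir g - wk_cir (wk_u ρ g)) +
        (wk_avg n s (wk_u ρ g) - wk_cir (wk_u ρ g)) := by ring
  rw [h7]
  have h8 := abs_add_le ((I * wk_avg n s g - wk_avg n s (wk_u ρ g)) -
    (I * wk_cir g - wk_cir (wk_u ρ g))) (wk_avg n s (wk_u ρ g) - wk_cir (wk_u ρ g))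
  have h9 := abs_sub (I * wk_avg n s g - wk_avg n s (wk_u ρ g)) (I * wk_cir g - wk_cir (wk_u ρ g))
  linarith

/-- The circular average of a shifted bump depends continuously on the shift. -/
lemma wk_cir_phi_cont {ρ : ℝ} (hρ : 0 < ρ) :
    Continuous fun c : ℂ => wk_cir (fun l => wk_phi ρ (l - c)) := by
  unfold wk_cir
  refine continuous_const.mul ?_
  refine continuous_of_dominated (bound := fun _ => Real.log 2) ?_ ?_ (integrable_const _) ?_
  · intro c
    exact ((wk_phi_cont hρ).comp (continuous_id.sub continuous_const)).aestronglyMeasurable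
  · intro c
    refine Eventually.of_forall fun w => ?_
    rw [Real.norm_of_nonneg (wk_phi_nonneg hρ _)]
    exact wk_phi_le hρ _
  · refine Eventually.of_forall fun w => ?_
    exact (wk_phi_cont hρ).comp (continuous_const.sub continuous_id)

lemma wk_logmax_cont (r : ℝ) (hr : 0 < r) (c : ℂ) :
    Continuous fun w : ℂ => Real.log (max ‖w - c‖ r) := by
  refine Continuous.log ((continuous_norm.comp (continuous_id.sub continuous_const)).max
    continuous_const) fun w => ?_
  have : 0 < max ‖w - c‖ r := lt_of_lt_of_le hr (le_max_right _ _)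
  exact this.ne'

/-- Convergence for compactly supported functions. -/
lemma wk_compact {Ω : Type} [MeasurableSpace Ω] (P : Measure Ω) [IsProbabilityMeasure P]
    (s : ℕ → Ω → Multiset ℂ) (hcard : ∀ n ω, (s n ω).card = n)
    (hmeas : ∀ n, ∀ r : ℝ, 0 < r → Measurable (fun p : ℂ × Ω =>
      ((s n p.2).map (fun l => Real.log (max ‖l - p.1‖ r))).sum))
    (hconv : ∀ c : ℂ, ∀ r : ℝ, 0 < r → Tendsto (fun n : ℕ => ∫⁻ ω, ENNReal.ofReal
      |((s n ω).map (fun l => Real.log (max ‖l - c‖ r))).sum / (n : ℝ) -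
        (1 / Real.pi) * ∫ w in Metric.closedBall (0 : ℂ) 1, Real.log (max ‖w - c‖ r)| ∂P)
      atTop (nhds 0))
    {g : ℂ → ℝ} (hg : Continuous g) (hgs : HasCompactSupport g) {δ : ℝ} (hδ : 0 < δ) :
    Tendsto (fun n : ℕ => P {ω | δ < |wk_avg n (s n ω) g - wk_cir g|}) atTop (nhds 0) := by
  -- choice of the scale
  have huc := hgs.uniformContinuous_of_continuous hg
  rw [Metric.uniformContinuous_iff] at huc
  obtain ⟨η, hη, huc⟩ := huc (δ / 4) (by positivity)
  set ρ := η / 4 with hρdef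
  have hρ : 0 < ρ := by positivity
  have hε : ∀ w c : ℂ, ‖w - c‖ ≤ 2 * ρ → |g w - g c| ≤ δ / 4 := by
    intro w c hwc
    have h1 := huc (a := w) (b := c) (by rw [dist_eq_norm]; rw [hρdef] at hwc; linarith)
    rw [Real.dist_eq] at h1
    exact h1.le
  set I := ∫ c, wk_phi ρ c with hI
  have hIpos : 0 < I := wk_I_pos hρ
  obtain ⟨Δ, hΔ⟩ : ∃ Δ : ℕ → ℂ → Ω → ℝ, ∀ n c ω, Δ n c ω =
    wk_avg n (s n ω) (fun l => wk_phi ρ (l - c)) - wk_cir (fun l => wk_phi ρ (l - c)) :=
    ⟨_, fun _ _ _ => rfl⟩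
  have hphi_abs : ∀ c z : ℂ, |wk_phi ρ (z - c)| ≤ Real.log 2 := fun c z => by
    rw [abs_of_nonneg (wk_phi_nonneg hρ _)]
    exact wk_phi_le hρ _
  have hlog2 : 0 ≤ Real.log 2 := Real.log_nonneg (by norm_num)
  have hΔb : ∀ n c ω, |Δ n c ω| ≤ 2 * Real.log 2 := by
    intro n c ω
    have h1 := wk_avg_bound (hcard n ω) hlog2 (hphi_abs c)
    have h2 := wk_cir_bound (hphi_abs c)
    have h3 := abs_sub (wk_avg n (s n ω) (fun l => wk_phi ρ (l - c)))
      (wk_cir (fun l => wk_phi ρ (l - c)))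
    rw [hΔ]
    linarith
  have hΔm : ∀ n, Measurable (fun p : ℂ × Ω => Δ n p.1 p.2) := by
    intro n
    have h1 : (fun p : ℂ × Ω => Δ n p.1 p.2) = fun p =>
        (((s n p.2).map (fun l => Real.log (max ‖l - p.1‖ (2 * ρ)))).sum -
          ((s n p.2).map (fun l => Real.log (max ‖l - p.1‖ ρ))).sum) / (n : ℝ) -
          wk_cir (fun l => wk_phi ρ (l - p.1)) := by
      funext p
      rw [hΔ]
      unfold wk_avg
      congr 2
      rw [← Multiset.sum_map_sub]
      rfl
    rw [h1]
    refine Measurable.sub (Measurable.div_const (Measurable.sub (hmeas n _ (by positivity))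
      (hmeas n _ hρ)) _) ?_
    exact (wk_cir_phi_cont hρ).measurable.comp measurable_fst
  have hΔmc : ∀ n c, Measurable (fun ω => Δ n c ω) := fun n c =>
    (hΔm n).comp (measurable_const.prodMk measurable_id : Measurable fun ω : Ω => (c, ω))
  have hΔmw : ∀ n ω, Measurable (fun c => Δ n c ω) := fun n ω =>
    (hΔm n).comp (measurable_id.prodMk measurable_const : Measurable fun c : ℂ => (c, ω))
  have hΔt : ∀ c, Tendsto (fun n => ∫⁻ ω, ENNReal.ofReal |Δ n c ω| ∂P) atTop (nhds 0) := by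
    intro c
    have h1 := (hconv c (2 * ρ) (by positivity)).add (hconv c ρ hρ)
    rw [add_zero] at h1
    refine tendsto_of_tendsto_of_tendsto_of_le_of_le tendsto_const_nhds h1
      (fun _ => zero_le) fun n => ?_
    have hm : ∀ r : ℝ, 0 < r → Measurable fun ω =>
        ((s n ω).map (fun l => Real.log (max ‖l - c‖ r))).sum := fun r hr =>
      (hmeas n r hr).comp (measurable_const.prodMk measurable_id)
    have hma : Measurable fun ω => ENNReal.ofReal
        |((s n ω).map (fun l => Real.log (max ‖l - c‖ (2 * ρ)))).sum / (n : ℝ) -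
          (1 / Real.pi) * ∫ w in Metric.closedBall (0 : ℂ) 1, Real.log (max ‖w - c‖ (2 * ρ))| := by
      refine Measurable.ennreal_ofReal (Measurable.abs ?_)
      exact ((hm _ (by positivity)).div_const _).sub_const _
    refine le_trans ?_ (le_of_eq (lintegral_add_left hma _))
    refine lintegral_mono fun ω => ?_
    refine le_trans ?_ (le_of_eq (ENNReal.ofReal_add (abs_nonneg _) (abs_nonneg _)))
    refine ENNReal.ofReal_le_ofReal ?_
    have h2 : Δ n c ω = (((s n ω).map (fun l => Real.log (max ‖l - c‖ (2 * ρ)))).sum / (n : ℝ) -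
        (1 / Real.pi) * ∫ w in Metric.closedBall (0 : ℂ) 1, Real.log (max ‖w - c‖ (2 * ρ))) -
        (((s n ω).map (fun l => Real.log (max ‖l - c‖ ρ))).sum / (n : ℝ) -
        (1 / Real.pi) * ∫ w in Metric.closedBall (0 : ℂ) 1, Real.log (max ‖w - c‖ ρ)) := by
      have h3 := wk_avg_sub n (s n ω) (fun l => Real.log (max ‖l - c‖ (2 * ρ)))
        (fun l => Real.log (max ‖l - c‖ ρ))
      have h4 := wk_cir_sub (wk_logmax_cont (2 * ρ) (by positivity) c) (wk_logmax_cont ρ hρ c)
      have h5 : Δ n c ω = wk_avg n (s n ω) (fun l => Real.log (max ‖l - c‖ (2 * ρ)) -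
          Real.log (max ‖l - c‖ ρ)) - wk_cir (fun l => Real.log (max ‖l - c‖ (2 * ρ)) -
          Real.log (max ‖l - c‖ ρ)) := hΔ n c ω
      rw [h5, h3, h4]
      unfold wk_avg wk_cir
      ring
    rw [h2]
    exact abs_sub _ _
  -- the random functional
  obtain ⟨f, hf⟩ : ∃ f : ℕ → Ω → ℂ → ENNReal, ∀ n ω c,
    f n ω c = ENNReal.ofReal (|g c| * |Δ n c ω|) := ⟨_, fun _ _ _ => rfl⟩
  have hfm : ∀ n, Measurable (fun p : ℂ × Ω => f n p.2 p.1) := by
    intro n
    simp only [hf]
    refine Measurable.ennreal_ofReal ?_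
    exact ((hg.measurable.comp measurable_fst).abs).mul (hΔm n).abs
  have hfm' : ∀ n, Measurable (fun p : Ω × ℂ => f n p.1 p.2) := fun n =>
    (hfm n).comp (measurable_snd.prodMk measurable_fst)
  have hGm : ∀ n, Measurable (fun ω => ∫⁻ c, f n ω c) := fun n =>
    Measurable.lintegral_prod_right' (hfm' n)
  have hgi : Integrable g := hg.integrable_of_hasCompactSupport hgs
  have hEG : Tendsto (fun n => ∫⁻ ω, (∫⁻ c, f n ω c) ∂P) atTop (nhds 0) := by
    have h1 : ∀ n, ∫⁻ ω, (∫⁻ c, f n ω c) ∂P = ∫⁻ c, ∫⁻ ω, f n ω c ∂P := fun n =>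
      lintegral_lintegral_swap (hfm' n).aemeasurable
    simp only [h1]
    have h2 := tendsto_lintegral_of_dominated_convergence (μ := (volume : Measure ℂ))
      (F := fun n c => ∫⁻ ω, f n ω c ∂P) (f := fun _ => 0)
      (fun c => ENNReal.ofReal (|g c| * (2 * Real.log 2)))
      (fun n => Measurable.lintegral_prod_right' (hfm n))
      (fun n => Eventually.of_forall fun c => by
        calc ∫⁻ ω, f n ω c ∂P ≤ ∫⁻ _ω, ENNReal.ofReal (|g c| * (2 * Real.log 2)) ∂P := by
              refine lintegral_mono fun ω => ?_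
              rw [hf]
              exact ENNReal.ofReal_le_ofReal
                (mul_le_mul_of_nonneg_left (hΔb n c ω) (abs_nonneg _))
          _ = ENNReal.ofReal (|g c| * (2 * Real.log 2)) := by
              rw [lintegral_const, measure_univ, mul_one])
      (by
        have h3 : Integrable (fun c => |g c| * (2 * Real.log 2)) := hgi.abs.mul_const _
        exact h3.lintegral_lt_top.ne)
      (Eventually.of_forall fun c => by
        have h3 : ∀ n, ∫⁻ ω, f n ω c ∂P =
            ENNReal.ofReal |g c| * ∫⁻ ω, ENNReal.ofReal |Δ n c ω| ∂P := by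
          intro n
          rw [← lintegral_const_mul _ (hΔmc n c).abs.ennreal_ofReal]
          refine lintegral_congr fun ω => ?_
          rw [hf, ENNReal.ofReal_mul (abs_nonneg _)]
        simp only [h3]
        have h4 := ENNReal.Tendsto.const_mul (a := ENNReal.ofReal |g c|) (hΔt c)
          (Or.inr ENNReal.ofReal_ne_top)
        rwa [mul_zero] at h4)
    simpa using h2
  -- Markov
  set κ := ENNReal.ofReal (δ * I / 2) with hκ
  have hκ0 : κ ≠ 0 := by
    rw [hκ, Ne, ENNReal.ofReal_eq_zero, not_le]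
    positivity
  have hκt : κ ≠ ⊤ := ENNReal.ofReal_ne_top
  have hsub : ∀ n, {ω | δ < |wk_avg n (s n ω) g - wk_cir g|} ⊆ {ω | κ ≤ ∫⁻ c, f n ω c} := by
    intro n ω hω
    have hω' : δ < |wk_avg n (s n ω) g - wk_cir g| := hω
    have h1 := wk_det hρ hg hgs (ε := δ / 4) (by positivity) hε (hcard n ω)
    have h2 : δ * I / 2 ≤ ∫ c, |g c| * |Δ n c ω| := by
      have h3 : δ * I < I * |wk_avg n (s n ω) g - wk_cir g| := by
        rw [mul_comm]
        exact mul_lt_mul_of_pos_left hω' hIpos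
      have h4 : I * |wk_avg n (s n ω) g - wk_cir g| ≤ 2 * (δ / 4) * I +
        ∫ c, |g c| * |Δ n c ω| := by
        simp only [hΔ]
        exact h1
      nlinarith
    show κ ≤ ∫⁻ c, f n ω c
    calc κ ≤ ENNReal.ofReal (∫ c, |g c| * |Δ n c ω|) := ENNReal.ofReal_le_ofReal h2
      _ = ENNReal.ofReal ((∫⁻ c, f n ω c).toReal) := by
          rw [integral_eq_lintegral_of_nonneg_ae
            (Eventually.of_forall fun c => mul_nonneg (abs_nonneg _) (abs_nonneg _))
            (hg.measurable.abs.mul (hΔmw n ω).abs).aestronglyMeasurable]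
          congr 2
          exact lintegral_congr fun c => (hf n ω c).symm
      _ ≤ ∫⁻ c, f n ω c := ENNReal.ofReal_toReal_le
  have hlim := ENNReal.Tendsto.div_const (b := κ) hEG (Or.inr hκ0)
  rw [ENNReal.zero_div] at hlim
  refine tendsto_of_tendsto_of_tendsto_of_le_of_le tendsto_const_nhds hlim
    (fun _ => zero_le) fun n => ?_
  exact (measure_mono (hsub n)).trans (meas_ge_le_lintegral_div (hGm n).aemeasurable hκ0 hκt)

theorem weak_conv {Ω : Type} [MeasurableSpace Ω] (P : Measure Ω) [IsProbabilityMeasure P]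
    (s : ℕ → Ω → Multiset ℂ) (hcard : ∀ n ω, (s n ω).card = n)
    (hmeas : ∀ n, ∀ r : ℝ, 0 < r → Measurable (fun p : ℂ × Ω =>
      ((s n p.2).map (fun l => Real.log (max ‖l - p.1‖ r))).sum))
    (hconv : ∀ c : ℂ, ∀ r : ℝ, 0 < r → Tendsto (fun n : ℕ => ∫⁻ ω, ENNReal.ofReal
      |((s n ω).map (fun l => Real.log (max ‖l - c‖ r))).sum / (n : ℝ) -
        (1 / Real.pi) * ∫ w in Metric.closedBall (0 : ℂ) 1, Real.log (max ‖w - c‖ r)| ∂P)
      atTop (nhds 0)) :
    ∀ f : BoundedContinuousFunction ℂ ℝ, ∀ δ : ℝ, 0 < δ →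
      Tendsto (fun n : ℕ => P {ω | δ < |((s n ω).map (fun z => f z)).sum / (n : ℝ) -
        (1 / Real.pi) * ∫ z in Metric.closedBall (0 : ℂ) 1, f z|}) atTop (nhds 0) := by
  intro f δ hδ
  -- the cutoff
  obtain ⟨χ, hχ1, hχ0, hχs, hχI⟩ := exists_continuous_one_zero_of_isCompact
    (s := Metric.closedBall (0 : ℂ) 1) (t := (Metric.ball (0 : ℂ) 2)ᶜ)
    (isCompact_closedBall _ _) Metric.isOpen_ball.isClosed_compl (by
      rw [Set.disjoint_compl_right_iff_subset]
      exact Metric.closedBall_subset_ball (by norm_num))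
  set b : ℝ := ‖f‖ + 1 with hb
  have hbpos : 0 < b := by positivity
  have hfb : ∀ z, |f z| ≤ b := fun z => by
    have := f.norm_coe_le_norm z
    rw [Real.norm_eq_abs] at this
    linarith
  have t1 := wk_compact P s hcard hmeas hconv (g := fun z => f z * χ z)
    (f.continuous.mul χ.continuous) (hχs.mul_left) (δ := δ / 2) (by positivity)
  have t2 := wk_compact P s hcard hmeas hconv (g := χ) χ.continuous hχs
    (δ := δ / (2 * b)) (by positivity)
  have t3 := t1.add t2
  rw [add_zero] at t3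
  refine tendsto_of_tendsto_of_tendsto_of_le_of_le' tendsto_const_nhds t3
    (Eventually.of_forall fun _ => zero_le) ?_
  filter_upwards [eventually_gt_atTop 0] with n hn
  refine (measure_mono ?_).trans (measure_union_le _ _)
  intro ω hω
  have hω' : δ < |wk_avg n (s n ω) (fun z => f z) - wk_cir (fun z => f z)| := hω
  have hn' : (0 : ℝ) < n := by exact_mod_cast hn
  by_contra hcon
  rw [Set.mem_union, not_or] at hcon
  have h1 : |wk_avg n (s n ω) (fun z => f z * χ z) - wk_cir (fun z => f z * χ z)| ≤ δ / 2 :=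
    not_lt.mp hcon.1
  have h2 : |wk_avg n (s n ω) χ - wk_cir χ| ≤ δ / (2 * b) := not_lt.mp hcon.2
  have hone : wk_avg n (s n ω) (fun _ => 1) = 1 := by
    unfold wk_avg
    rw [Multiset.map_const', Multiset.sum_replicate, hcard n ω, nsmul_eq_mul, mul_one,
      div_self hn'.ne']
  have hcirχ : wk_cir χ = 1 := by
    rw [← wk_cir_const 1]
    unfold wk_cir
    congr 1
    refine setIntegral_congr_fun measurableSet_closedBall fun z hz => ?_
    exact hχ1 hz
  have hcirf : wk_cir (fun z => f z * χ z) = wk_cir (fun z => f z) := by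
    unfold wk_cir
    congr 1
    refine setIntegral_congr_fun measurableSet_closedBall fun z hz => ?_
    rw [hχ1 hz, Pi.one_apply, mul_one]
  have h3 : |wk_avg n (s n ω) (fun z => f z) - wk_avg n (s n ω) (fun z => f z * χ z)| ≤
      b * (1 - wk_avg n (s n ω) χ) := by
    rw [← wk_avg_sub, ← hone, ← wk_avg_sub]
    have h4 : ∀ t : Multiset ℂ, |(t.map (fun z => f z - f z * χ z)).sum| ≤
        b * (t.map (fun z => 1 - χ z)).sum := by
      intro t
      induction t using Multiset.induction_on with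
      | empty => simp
      | cons a t ih =>
        rw [Multiset.map_cons, Multiset.sum_cons, Multiset.map_cons, Multiset.sum_cons]
        refine (abs_add_le _ _).trans ?_
        have h5 : |f a - f a * χ a| ≤ b * (1 - χ a) := by
          have h6 : f a - f a * χ a = f a * (1 - χ a) := by ring
          rw [h6, abs_mul, abs_of_nonneg (sub_nonneg.mpr (hχI a).2)]
          exact mul_le_mul_of_nonneg_right (hfb a) (sub_nonneg.mpr (hχI a).2)
        linarith
    unfold wk_avg
    rw [abs_div, abs_of_pos hn', ← mul_div_assoc]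
    exact div_le_div_of_nonneg_right (h4 _) hn'.le
  have h4 : b * (1 - wk_avg n (s n ω) χ) ≤ δ / 2 := by
    rw [hcirχ] at h2
    have h5 := neg_abs_le (wk_avg n (s n ω) χ - 1)
    have h6 : 1 - wk_avg n (s n ω) χ ≤ δ / (2 * b) := by linarith
    calc b * (1 - wk_avg n (s n ω) χ) ≤ b * (δ / (2 * b)) :=
          mul_le_mul_of_nonneg_left h6 hbpos.le
      _ = δ / 2 := by field_simp
  rw [hcirf] at h1
  have h5 := abs_sub_le (wk_avg n (s n ω) (fun z => f z))
    (wk_avg n (s n ω) (fun z => f z * χ z)) (wk_cir (fun z => f z))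
  linarith

end Pool.Agent.Circ
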