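import Pool.Agent.Lib.Circ.Core
import Pool.Agent.Lib.Circ.MapArr
import Pool.Agent.Lib.Circ.Weak

/-!
# Module P: from the array on `Ω` to the product measure; the final theorem
-/

set_option autoImplicit false

open MeasureTheory ProbabilityTheory Filter Matrix Finset

namespace Pool.Agent.Circ

/-- Joint measurability needed for `weak_conv`. -/
theorem measurable_roots_log {n : ℕ} (U : Matrix (Fin n) (Fin n) ℝ) {r : ℝ} (hr : 0 < r) :
    Measurable (fun p : ℂ × (Fin n → Fin n → ℂ) =>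
      ((Matrix.of fun i j => (U i j : ℂ) * p.2 i j).charpoly.roots.map
        (fun l => Real.log (max ‖l - p.1‖ r))).sum) := by
  have key : ∀ p : ℂ × (Fin n → Fin n → ℂ),
      ((Matrix.of fun i j => (U i j : ℂ) * p.2 i j).charpoly.roots.map
        (fun l => Real.log (max ‖l - p.1‖ r))).sum =
      (1 / 2) * ((2 * Real.pi)⁻¹ * ∫ θ in Set.Ioc 0 (2 * Real.pi),
        Real.log (‖((Matrix.of fun i j => (U i j : ℂ) * p.2 i j) -
          (circleMap p.1 r θ) • (1 : Matrix (Fin n) (Fin n) ℂ)).det‖ ^ 2)) := by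
    intro p
    have h := circle_det (Matrix.of fun i j => (U i j : ℂ) * p.2 i j) p.1 hr
    rw [Real.circleAverage_def, intervalIntegral.integral_of_le (by positivity),
      smul_eq_mul] at h
    rw [h]
    ring
  simp only [key]
  refine Measurable.const_mul (Measurable.const_mul ?_ _) _
  have hcont : Continuous (fun q : (ℂ × (Fin n → Fin n → ℂ)) × ℝ =>
      ((Matrix.of fun i j => (U i j : ℂ) * q.1.2 i j) -
          (circleMap q.1.1 r q.2) • (1 : Matrix (Fin n) (Fin n) ℂ)).det) := by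
    refine Continuous.matrix_det ?_
    refine continuous_matrix fun i j => ?_
    simp only [Matrix.sub_apply, Matrix.of_apply, Matrix.smul_apply, smul_eq_mul, circleMap]
    fun_prop
  have hmeas : Measurable (fun q : (ℂ × (Fin n → Fin n → ℂ)) × ℝ =>
      Real.log (‖((Matrix.of fun i j => (U i j : ℂ) * q.1.2 i j) -
          (circleMap q.1.1 r q.2) • (1 : Matrix (Fin n) (Fin n) ℂ)).det‖ ^ 2)) :=
    Real.measurable_log.comp (hcont.norm.pow 2).measurable
  have h := StronglyMeasurable.integral_prod_right'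
    (ν := (volume : Measure ℝ).restrict (Set.Ioc 0 (2 * Real.pi))) hmeas.stronglyMeasurable
  exact h.measurable

theorem tr_meas_aux {Y : Type*} [MeasurableSpace Y] (g : Y → ℝ) (hg : Measurable g)
    (n a : ℝ) : Measurable (fun x => ENNReal.ofReal |g x / n - a|) := by
  fun_prop

theorem tr_measurable {n : ℕ} (U : Matrix (Fin n) (Fin n) ℝ) {r : ℝ} (hr : 0 < r) (c : ℂ)
    (a : ℝ) :
    Measurable (fun x : Fin n → Fin n → ℂ => ENNReal.ofReal
      |((Matrix.of fun i j => (U i j : ℂ) * x i j).charpoly.roots.map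
        (fun l => Real.log (max ‖l - c‖ r))).sum / (n : ℝ) - a|) := by
  have h0 : Measurable (fun x : Fin n → Fin n → ℂ => ((c, x) : ℂ × (Fin n → Fin n → ℂ))) :=
    measurable_prodMk_left
  have h1 := (measurable_roots_log U hr).comp h0
  exact tr_meas_aux _ h1 n a

theorem tr_comp {n : ℕ} (U : Matrix (Fin n) (Fin n) ℝ) {r : ℝ} (hr : 0 < r) {Z : Type}
    [MeasurableSpace Z] (c : Z → ℂ) (x : Z → Fin n → Fin n → ℂ) (hc : Measurable c)
    (hx : Measurable x) :
    Measurable (fun z : Z => ((Matrix.of fun i j => (U i j : ℂ) * x z i j).charpoly.roots.map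
        (fun l => Real.log (max ‖l - c z‖ r))).sum) := by
  have h0 : Measurable (fun z : Z => ((c z, x z) : ℂ × (Fin n → Fin n → ℂ))) := hc.prodMk hx
  have h1 := (measurable_roots_log U hr).comp h0
  exact h1

theorem final (U : ∀ n : ℕ, Matrix (Fin n) (Fin n) ℝ)
    (h0 : ∀ n i j, 0 ≤ U n i j) (hcol : ∀ n (j : Fin n), ∑ i, U n i j ^ 2 = 1)
    (hrow : ∀ n (j : Fin n), ∑ i, U n j i ^ 2 = 1)
    (hsmall : ∃ ε : ℝ, 0 < ε ∧ ∀ δ : ℝ, 0 < δ →
      ∀ᶠ n in atTop, ∀ i j : Fin n, U n i j * (n : ℝ) ^ ε ≤ δ)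
    (Ω : Type) [MeasurableSpace Ω] (P : Measure Ω) [IsProbabilityMeasure P]
    (X : ℕ × ℕ → Ω → ℂ) (hX : ∀ p, Measurable (X p)) (hind : iIndepFun X P)
    (hid : ∀ p, IdentDistrib (X p) (X (0, 0)) P P) (h4 : MemLp (X (0, 0)) 4 P)
    (hmean : ∫ ω, X (0, 0) ω ∂P = 0) (hvar : ∫ ω, ‖X (0, 0) ω‖ ^ 2 ∂P = 1)
    (hball : ∃ K β : ℝ, 0 < β ∧ ∀ (a : ℂ) (t : ℝ), 0 < t →
      P {ω | ‖X (0, 0) ω - a‖ ≤ t} ≤ ENNReal.ofReal (K * t ^ β)) :
    ∀ f : BoundedContinuousFunction ℂ ℝ, ∀ δ : ℝ, 0 < δ →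
      Tendsto
        (fun n : ℕ => P {ω | δ <
          |((Matrix.charpoly (Matrix.of (fun i j : Fin n =>
                ((U n i j : ℝ) : ℂ) * X (i.val, j.val) ω))).roots.map
                (fun z => f z)).sum / (n : ℝ)
            - (1 / Real.pi) * ∫ z in Metric.closedBall (0 : ℂ) 1, f z|})
        atTop (nhds 0) := by
  have hX0 := hX (0, 0)
  set μ : Measure ℂ := Measure.map (X (0, 0)) P with hμdef
  have : IsProbabilityMeasure μ := Measure.isProbabilityMeasure_map hX0.aemeasurable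
  have hL4 : Law4 μ (∫ x, ‖x‖ ^ 4 ∂μ) := by
    refine ⟨?_, ?_, ?_, le_rfl⟩
    · rw [hμdef, integrable_map_measure
        (by fun_prop : Continuous fun x : ℂ => ‖x‖ ^ 4).aestronglyMeasurable hX0.aemeasurable]
      have h := h4.integrable_norm_rpow (by norm_num) (by norm_num)
      refine h.congr (Filter.Eventually.of_forall fun ω => ?_)
      simp only [Function.comp_apply]
      norm_num
    · rw [hμdef, integral_map hX0.aemeasurable
        (by fun_prop : Continuous fun x : ℂ => x).aestronglyMeasurable]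
      exact hmean
    · rw [hμdef, integral_map hX0.aemeasurable
        (by fun_prop : Continuous fun x : ℂ => ‖x‖ ^ 2).aestronglyMeasurable]
      exact hvar
  obtain ⟨K0, β, hβ, hb⟩ := hball
  have hb' : ∀ (a : ℂ) (t : ℝ), 0 < t →
      μ (Metric.closedBall a t) ≤ ENNReal.ofReal (K0 * t ^ β) := by
    intro a t ht
    rw [hμdef, Measure.map_apply hX0 Metric.isClosed_closedBall.measurableSet]
    refine le_trans (measure_mono ?_) (hb a t ht)
    intro ω hω
    simpa [dist_eq_norm] using hω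
  obtain ⟨K, α, hKα⟩ := lawNeg_of_smallBall μ hβ hb'
  have hmap : ∀ n : ℕ, Measurable (fun ω => fun i j : Fin n => X (i.val, j.val) ω) := by
    intro n
    exact measurable_pi_lambda _ fun i => measurable_pi_lambda _ fun j => hX _
  refine weak_conv P (fun n ω => (Matrix.charpoly (Matrix.of (fun i j : Fin n =>
    ((U n i j : ℝ) : ℂ) * X (i.val, j.val) ω))).roots) ?_ ?_ ?_
  · intro n ω
    have h := (IsAlgClosed.splits (Matrix.charpoly (Matrix.of (fun i j : Fin n =>
      ((U n i j : ℝ) : ℂ) * X (i.val, j.val) ω)))).natDegree_eq_card_roots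
    rw [← h, Matrix.charpoly_natDegree_eq_dim]
    simp
  · intro n r hr
    exact tr_comp (U n) hr (fun p : ℂ × Ω => p.1)
      (fun p : ℂ × Ω => fun i j : Fin n => X (i.val, j.val) p.2) measurable_fst
      ((hmap n).comp measurable_snd)
  · intro c r hr
    have h := core hL4 hKα U h0 hcol hrow hsmall c hr
    refine h.congr fun n => ?_
    rw [← map_arr P X hX hind hid n, lintegral_map (tr_measurable (U n) hr c _) (hmap n)]

end Pool.Agent.Circ
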